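import Pool.Agent.Lib.MP_f7aa1b_gt.H.CDefs

/-!
Row f7h-C1 (150 lines): fibres and focal leaves.

`fib_compact`: closed subset of the compact `B`.  `fib_eq`: same point `y.1 + s • y.2`.  `Cc_compact`: the component is
closed in the compact fibre (`IsPreconnected.closure`, `isClosed_connectedComponentIn` or so).
`finrank_N`: in the eigenbasis `b` of `lam_eig`, `w ∈ N z s` iff `(s * lam j z - 1) * ⟪b j, w⟫ = 0` for all `j`, so `N z s` is
the span of the `b j` with `s * lam j z = 1` (`j : Fin n`; compare with the filter of `range n`).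
`fib_near`: let `κ y' = PN (y'.1 - z.1)`, `PN` the orthogonal projection onto `N z s`; by `ch_inj` it is
injective on the compact set `fib ∩ closedBall z δ`, hence a homeomorphism onto its image (`IsCompact`, inverse continuous);
by `ch_open` the image of `fib ∩ ball z δ` contains a ball of `N` with radius `r` around 0.  The inverse image of
this (convex, so connected) ball in `fib ∩ closedBall z δ` is connected, contains `z` and all points of `fib` close to `z`
(`κ` continuous, `κ z = 0`); so these lie in the component of `z`.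
`mul_const`: `y ↦ mul y s = finrank (N y s)` is locally constant on the fibre by `ch_mul` (at every point of the fibre),
and `Cc` is preconnected.
`Cc_single`: `N z s = ⊥`, so `κ = 0` and `fib ∩ closedBall z δ = {z}` by `ch_inj`: `z` is isolated in the
fibre; a preconnected set containing `z` as an isolated point is `{z}`.
`chart_leaf`: combine `ch_inj`, `ch_open`, `fib_near` at `y` (the fibre of `y` is the fibre of `z`, the leaf of `y` is the leaf of `z`).
-/

set_option autoImplicit false

open Set Filter Topology Metric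

namespace F7H

open MPf7aa (E)

namespace Foc

variable {n : ℕ} (F : Foc n)

lemma fib_compact (z : E n × E n) (s : ℝ) : IsCompact (F.fib z s) := by
  have h : F.fib z s = F.B ∩ {y : E n × E n | y.1 + s • y.2 = z.1 + s • z.2} := rfl
  rw [h]
  exact F.compB.inter_right (isClosed_eq (by fun_prop) continuous_const)

lemma mem_fib {z : E n × E n} (hz : z ∈ F.B) (s : ℝ) : z ∈ F.fib z s := ⟨hz, rfl⟩

lemma fib_eq {z y : E n × E n} {s : ℝ} (h : y ∈ F.fib z s) : F.fib y s = F.fib z s := by
  have h2 : y.1 + s • y.2 = z.1 + s • z.2 := h.2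
  ext x
  show (x ∈ F.B ∧ x.1 + s • x.2 = y.1 + s • y.2) ↔ (x ∈ F.B ∧ x.1 + s • x.2 = z.1 + s • z.2)
  rw [h2]

lemma Cc_sub (z : E n × E n) (s : ℝ) : F.Cc z s ⊆ F.fib z s := connectedComponentIn_subset _ _

lemma Cc_B {z y : E n × E n} {s : ℝ} (h : y ∈ F.Cc z s) : y ∈ F.B := (F.Cc_sub z s h).1

lemma mem_Cc {z : E n × E n} (hz : z ∈ F.B) (s : ℝ) : z ∈ F.Cc z s :=
  mem_connectedComponentIn (F.mem_fib hz s)

lemma Cc_compact (z : E n × E n) (s : ℝ) : IsCompact (F.Cc z s) := by
  refine (F.fib_compact z s).of_isClosed_subset ?_ (F.Cc_sub z s)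
  by_cases hz : z ∈ F.fib z s
  · have h1 : closure (F.Cc z s) ⊆ F.Cc z s := by
      refine (isPreconnected_connectedComponentIn.closure).subset_connectedComponentIn
        (subset_closure (mem_connectedComponentIn hz)) ?_
      exact closure_minimal (F.Cc_sub z s) (F.fib_compact z s).isClosed
    exact closure_subset_iff_isClosed.1 h1
  · have h1 : F.Cc z s = ∅ := connectedComponentIn_eq_empty hz
    rw [h1]
    exact isClosed_empty

lemma Cc_conn {z : E n × E n} (hz : z ∈ F.B) (s : ℝ) : IsConnected (F.Cc z s) :=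
  isConnected_connectedComponentIn_iff.2 (F.mem_fib hz s)

lemma Cc_eq {z y : E n × E n} {s : ℝ} (h : y ∈ F.Cc z s) : F.Cc y s = F.Cc z s := by
  unfold Cc
  rw [F.fib_eq (F.Cc_sub z s h)]
  exact (connectedComponentIn_eq h).symm

lemma Ex_eq {z y : E n × E n} {s : ℝ} (h : y ∈ F.Cc z s) : Ex s y = Ex s z := (F.Cc_sub z s h).2

lemma C1_mem_N {z : E n × E n} {s : ℝ} {w : E n} : w ∈ F.N z s ↔ s • F.A z w = w := by
  unfold N
  rw [LinearMap.mem_ker, LinearMap.sub_apply, LinearMap.smul_apply, LinearMap.id_apply, sub_eq_zero]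
  rfl

lemma finrank_N {z : E n × E n} (hz : z ∈ F.B) (s : ℝ) : Module.finrank ℝ (F.N z s) = F.mul z s := by
  obtain ⟨b, hb⟩ := F.lam_eig z hz
  have hspan : F.N z s = Submodule.span ℝ (Set.range (fun j : {j : Fin n // s * F.lam j z = 1} => b j)) := by
    apply le_antisymm
    · intro w hw
      rw [F.C1_mem_N] at hw
      have hco : ∀ j : Fin n, s * F.lam j z ≠ 1 → inner ℝ (b j) w = 0 := by
        intro j hj
        have h1 : inner ℝ (b j) (s • F.A z w) = inner ℝ (b j) w := by rw [hw]
        rw [inner_smul_right, ← F.A_symm z hz, hb j, inner_smul_left] at h1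
        simp only [conj_trivial] at h1
        have h2 : (s * F.lam j z - 1) * inner ℝ (b j) w = 0 := by linarith
        rcases mul_eq_zero.1 h2 with h3 | h3
        · exact absurd (by linarith) hj
        · exact h3
      rw [← b.sum_repr' w]
      refine Submodule.sum_mem _ (fun j _ => ?_)
      by_cases hj : s * F.lam j z = 1
      · exact Submodule.smul_mem _ _ (Submodule.subset_span ⟨⟨j, hj⟩, rfl⟩)
      · rw [hco j hj, zero_smul]
        exact Submodule.zero_mem _
    · rw [Submodule.span_le]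
      rintro _ ⟨⟨j, hj⟩, rfl⟩
      show b j ∈ F.N z s
      rw [F.C1_mem_N, hb j, smul_smul, hj, one_smul]
  rw [hspan, finrank_span_eq_card]
  · unfold mul
    rw [Fintype.card_subtype]
    apply Finset.card_bij (fun (j : Fin n) _ => (j : ℕ))
    · intro j hj
      simp only [Finset.mem_filter, Finset.mem_univ, true_and] at hj
      simp only [Finset.mem_filter, Finset.mem_range]
      exact ⟨j.2, hj⟩
    · intro i _ j _ h
      exact Fin.ext h
    · intro k hk
      simp only [Finset.mem_filter, Finset.mem_range] at hk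
      exact ⟨⟨k, hk.1⟩, by simpa using hk.2, rfl⟩
  · exact b.orthonormal.linearIndependent.comp _ Subtype.val_injective

lemma fib_near {z : E n × E n} (hz : z ∈ F.B) {s : ℝ} (hs : 0 < s) :
    ∃ η > 0, ∀ y ∈ F.fib z s, dist y z < η → y ∈ F.Cc z s := by
  obtain ⟨δ, hδ, hinj⟩ := F.ch_inj z hz s hs
  obtain ⟨r, hr, hop⟩ := F.ch_open z hz s hs δ hδ
  set κ : E n × E n → E n := fun y => (F.N z s).starProjection (y.1 - z.1) with hκ
  have hκc : Continuous κ := by
    rw [hκ]
    fun_prop
  have hκz : κ z = 0 := by simp [hκ]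
  set S : Set (E n × E n) := F.fib z s ∩ closedBall z δ with hS
  have hScomp : IsCompact S := (F.fib_compact z s).inter_right isClosed_closedBall
  have hinjS : InjOn κ S := hinj
  set V : Set (E n) := (F.N z s : Set (E n)) ∩ ball 0 r with hV
  have hVconv : Convex ℝ V := (F.N z s).convex.inter (convex_ball 0 r)
  have : CompactSpace S := isCompact_iff_compactSpace.1 hScomp
  have hres : Continuous (S.domRestrict κ) := hκc.comp continuous_subtype_val
  have hpre : IsPreconnected ((S.domRestrict κ) ⁻¹' V) := by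
    refine hVconv.isPreconnected.preimage_of_isClosedMap ?_ hres.isClosedMap ?_
    · exact injOn_iff_injective.1 hinjS
    · rintro w ⟨hw1, hw2⟩
      obtain ⟨y, hy1, hy2, hy3⟩ := hop w hw1 (by simpa using hw2)
      exact ⟨⟨y, hy1, hy2.le⟩, hy3⟩
  have himg : IsPreconnected (Subtype.val '' ((S.domRestrict κ) ⁻¹' V)) :=
    hpre.image _ continuous_subtype_val.continuousOn
  have hsub : Subtype.val '' ((S.domRestrict κ) ⁻¹' V) ⊆ F.Cc z s := by
    refine himg.subset_connectedComponentIn ?_ ?_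
    · refine ⟨⟨z, F.mem_fib hz s, by simpa using hδ.le⟩, ?_, rfl⟩
      show κ z ∈ V
      rw [hκz]
      exact ⟨(F.N z s).zero_mem, by simpa using hr⟩
    · rintro _ ⟨⟨y, hy⟩, _, rfl⟩
      exact hy.1
  have hev : ∀ᶠ y in 𝓝 z, ‖κ y‖ < r := by
    have h1 : Tendsto (fun y => ‖κ y‖) (𝓝 z) (𝓝 ‖κ z‖) := hκc.norm.continuousAt
    rw [hκz, norm_zero] at h1
    exact h1.eventually_lt_const hr
  obtain ⟨η, hη, hη2⟩ := Metric.eventually_nhds_iff.1 hev
  refine ⟨min δ η, lt_min hδ hη, fun y hy hd => hsub ?_⟩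
  refine ⟨⟨y, hy, (hd.trans_le (min_le_left _ _)).le⟩, ?_, rfl⟩
  show κ y ∈ V
  refine ⟨Submodule.starProjection_apply_mem _ _, ?_⟩
  simpa using hη2 (hd.trans_le (min_le_right _ _))

lemma mul_const {z y : E n × E n} {s : ℝ} (hz : z ∈ F.B) (hs : 0 < s) (h : y ∈ F.Cc z s) :
    F.mul y s = F.mul z s := by
  refine (F.Cc_conn hz s).isPreconnected.constant (f := fun x => F.mul x s) ?_ h (F.mem_Cc hz s)
  intro x hx
  have hxB := F.Cc_B hx
  obtain ⟨δ, hδ, hm⟩ := F.ch_mul x hxB s hs
  have hev : ∀ᶠ x' in 𝓝[F.Cc z s] x, F.mul x' s = F.mul x s := by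
    filter_upwards [self_mem_nhdsWithin, mem_nhdsWithin_of_mem_nhds (ball_mem_nhds x hδ)] with x' h1 h2
    have h3 : x' ∈ F.fib x s := by
      rw [F.fib_eq (F.Cc_sub z s hx)]
      exact F.Cc_sub z s h1
    have h4 := hm x' h3.1 h3.2 h2
    rw [← F.finrank_N h3.1 s, ← F.finrank_N hxB s]
    exact h4
  show Tendsto (fun x' => F.mul x' s) (𝓝[F.Cc z s] x) (𝓝 (F.mul x s))
  exact tendsto_const_nhds.congr' (hev.mono (fun x' hx' => hx'.symm))

lemma Cc_single {z : E n × E n} (hz : z ∈ F.B) {s : ℝ} (hs : 0 < s) (h : F.mul z s = 0) :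
    F.Cc z s = {z} := by
  have hN : F.N z s = ⊥ := by
    rw [← Submodule.finrank_eq_zero (R := ℝ), F.finrank_N hz s, h]
  obtain ⟨δ, hδ, hinj⟩ := F.ch_inj z hz s hs
  have hiso : ∀ y ∈ F.Cc z s, dist y z < δ → y = z := by
    intro y hy hd
    refine hinj ⟨F.Cc_sub z s hy, hd.le⟩ ⟨F.mem_fib hz s, by simpa using hδ.le⟩ ?_
    have hz0 : ∀ w : E n, (F.N z s).starProjection w = 0 := by
      intro w
      have h1 : (F.N z s).starProjection w ∈ F.N z s := Submodule.starProjection_apply_mem _ _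
      have h2 : ∀ v, v ∈ F.N z s → v = 0 := by
        intro v hv
        rw [hN] at hv
        exact (Submodule.mem_bot ℝ).1 hv
      exact h2 _ h1
    exact (hz0 _).trans (hz0 _).symm
  apply Subset.antisymm
  · intro y hy
    classical
    have hc := (F.Cc_conn hz s).isPreconnected.constant (f := fun x => if x = z then (0 : ℕ) else 1) ?_ hy
      (F.mem_Cc hz s)
    · by_contra hne
      have hne' : ¬ y = z := hne
      simp [hne'] at hc
    · intro x hx
      by_cases hxz : x = z
      · have hev : ∀ᶠ x' in 𝓝[F.Cc z s] x, (if x' = z then (0 : ℕ) else 1) = (if x = z then (0 : ℕ) else 1) := by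
          filter_upwards [self_mem_nhdsWithin, mem_nhdsWithin_of_mem_nhds (ball_mem_nhds x hδ)] with x' h1 h2
          rw [hxz] at h2
          rw [hiso x' h1 h2, hxz]
        exact tendsto_const_nhds.congr' (hev.mono (fun x' hx' => hx'.symm))
      · have hev : ∀ᶠ x' in 𝓝[F.Cc z s] x, (if x' = z then (0 : ℕ) else 1) = (if x = z then (0 : ℕ) else 1) := by
          filter_upwards [mem_nhdsWithin_of_mem_nhds (isOpen_ne.mem_nhds hxz)] with x' h2
          rw [if_neg hxz, if_neg h2]
        exact tendsto_const_nhds.congr' (hev.mono (fun x' hx' => hx'.symm))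
  · rintro _ rfl
    exact F.mem_Cc hz s

/-- charts of the leaf: `κ0` is injective on the null space and factors through the projection onto it -/
lemma chart_leaf {z y : E n × E n} (hz : z ∈ F.B) {s : ℝ} (hs : 0 < s) (hy : y ∈ F.Cc z s) {m : ℕ}
    (hm : F.mul z s = m) (κ0 : E n →L[ℝ] (Fin m → ℝ)) (h1 : ∀ w, κ0 ((F.N y s).starProjection w) = κ0 w)
    (h2 : ∀ w ∈ F.N y s, κ0 w = 0 → w = 0) :
    ASC.Chart (F.Cc z s) y (fun y' => κ0 (y'.1 - y.1)) := by
  have hyB := F.Cc_B hy
  have hfib : F.fib y s = F.fib z s := F.fib_eq (F.Cc_sub z s hy)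
  have hCc : F.Cc y s = F.Cc z s := F.Cc_eq hy
  have hker : ∀ v w : E n, κ0 v = κ0 w → (F.N y s).starProjection v = (F.N y s).starProjection w := by
    intro v w hvw
    have h3 : κ0 ((F.N y s).starProjection (v - w)) = 0 := by
      rw [h1, map_sub, hvw, sub_self]
    have h4 := h2 _ (Submodule.starProjection_apply_mem _ _) h3
    rw [map_sub] at h4
    exact sub_eq_zero.1 h4
  refine ⟨by fun_prop, by simp, ?_, ?_⟩
  · obtain ⟨δ, hδ, hinj⟩ := F.ch_inj y hyB s hs
    refine ⟨δ, hδ, fun a ha b hb hab => ?_⟩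
    refine hinj ⟨?_, ha.2⟩ ⟨?_, hb.2⟩ (hker _ _ hab)
    · have := F.Cc_sub z s ha.1
      rw [← hfib] at this
      exact this
    · have := F.Cc_sub z s hb.1
      rw [← hfib] at this
      exact this
  · intro δ hδ
    obtain ⟨η, hη, hnear⟩ := F.fib_near hyB hs
    obtain ⟨r, hr, hop⟩ := F.ch_open y hyB s hs (min δ η) (lt_min hδ hη)
    have hfr : Module.finrank ℝ (F.N y s) = Module.finrank ℝ (Fin m → ℝ) := by
      rw [F.finrank_N hyB s, F.mul_const hz hs hy, hm, Module.finrank_fin_fun]
    let e0 : F.N y s →ₗ[ℝ] (Fin m → ℝ) := (κ0 : E n →ₗ[ℝ] (Fin m → ℝ)).comp (F.N y s).subtype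
    have he0 : Function.Injective e0 := by
      rw [← LinearMap.ker_eq_bot, LinearMap.ker_eq_bot']
      intro v hv
      exact Subtype.ext (h2 v.1 v.2 hv)
    let e : F.N y s ≃ₗ[ℝ] (Fin m → ℝ) := LinearEquiv.ofInjectiveOfFinrankEq e0 he0 hfr
    let e' : (Fin m → ℝ) →L[ℝ] F.N y s := LinearMap.toContinuousLinearMap (e.symm : (Fin m → ℝ) →ₗ[ℝ] F.N y s)
    have hec : Tendsto (fun w => ‖e' w‖) (𝓝 0) (𝓝 0) := by
      have h5 : Tendsto (fun w => ‖e' w‖) (𝓝 0) (𝓝 ‖e' 0‖) := e'.continuous.norm.continuousAt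
      rwa [map_zero, norm_zero] at h5
    obtain ⟨r', hr', hr2⟩ := Metric.eventually_nhds_iff.1 (hec.eventually_lt_const hr)
    refine ⟨r', hr', fun w hw => ?_⟩
    have h6 : ‖e' w‖ < r := hr2 (by simpa using hw)
    obtain ⟨y', hy1, hy2, hy3⟩ := hop (e' w : E n) (e' w).2 h6
    have hy1' : y' ∈ F.fib y s := hy1
    refine ⟨y', ?_, hy2.trans_le (min_le_left _ _), ?_⟩
    · rw [← hCc]
      exact hnear y' hy1' (hy2.trans_le (min_le_right _ _))
    · show κ0 (y'.1 - y.1) = w
      rw [← h1]
      have h7 : (F.N y s).starProjection (y'.1 - y.1) = (e' w : E n) := hy3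
      rw [h7]
      have h8 : e0 (e' w) = e (e' w) := rfl
      have h9 : e (e' w) = w := e.apply_symm_apply w
      exact h8.trans h9

end Foc

end F7H
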