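import Pool.Agent.Lib.MP_f7aa1b_gt.H.CDefs

/-!
Row f7h-C10 (220 lines): cut off cochains (namespace `ASC`, no geometry).

`Van.loc`: clear.  `loc_loc`: clear.
`loc_dl`: let `|h g - h g'| < r - r'` for `g g' ∈ K` of distance `< δ` (uniform continuity).  Let `x` be a small tuple in `K`.  All entries in
`S = {h ≤ r}`: both terms are `dl U x`.  Some entry outside `S`: all entries have `h > r'`; `loc S (dl U) x = 0`, and each summand of
`dl (loc S U) x` is zero, or `U` of a small tuple in `K ∩ {r' ≤ h ≤ r}`, so zero as well.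
`loc_cocC`, `loc_cob`: from `loc_dl` (in `loc_cob` the cobounding cochain is `loc S V`; `n = 0`: `V = 0`, `U = 0`, see `van_zero_iff`).

Isolated zeros: `Iso K W p F`: `F` is continuous and non zero on `K ∩ W` except possibly at `p`, and `W` is a neighbourhood of `p` in `K`.
`iso_van`: for `η' > 0` the set `K ∩ W ∩ {dist g p ≥ η'}` is compact and `F ≠ 0` there: `GG_van'`.
`iso_coc`: let `K ∩ ball p η ⊆ W`; a small tuple which meets `W` and the complement of `W` has all entries at distance `≥ η / 2` from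
`p`; argue as in `loc_dl` with `iso_van` for `η' = η / 2` (`dl (GG F) = 0`).
`iso_indep`: a small tuple of `K` is contained in `ball p η`, hence in `W ∩ W'` (difference zero), or has all entries at
distance `≥ η / 2` (both terms zero by `iso_van`).
`iso_homotopy`: `S = K ∩ W`, `S' = S ∩ {dist g p ≥ η / 2}`; `GG_homotopy` gives `V` with `Van S' V`, `Van S (GG F_0 + GG F_1 + dl V)`; the
cobounding cochain is `loc W V` (as in `loc_cob`, the exceptional tuples are in `S'`).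
`iso_gl`: the same with the given equivalence `hGL` (helper60's theorem on `GL_m`: `Cob S S' (GG m F + GG m (Λ ∘ F))` for compact `S' ⊆ S`,
`F` continuous on `S`, non zero on `S'`), which is a hypothesis here.
`HG.congrC`: `U' = U + (U + U')`.
-/

set_option autoImplicit false

open Set Filter Topology Metric

namespace ASC

variable {X : Type*} [PseudoMetricSpace X]

lemma C10_loc_pos {S : Set X} {n : ℕ} {U : Coch X n} {x : Fin n → X} (h : ∀ i, x i ∈ S) :
    loc S U x = U x := by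
  unfold loc
  exact if_pos h

lemma C10_loc_neg {S : Set X} {n : ℕ} {U : Coch X n} {x : Fin n → X} (h : ¬ ∀ i, x i ∈ S) :
    loc S U x = 0 := by
  unfold loc
  exact if_neg h

lemma Van.loc {K S : Set X} {n : ℕ} {U : Coch X n} (h : Van (K ∩ S) U) : Van K (ASC.loc S U) := by
  obtain ⟨ε, hε, h⟩ := h
  refine ⟨ε, hε, fun x hx => ?_⟩
  by_cases hS : ∀ i, x i ∈ S
  · rw [C10_loc_pos hS]
    exact h x ⟨fun i => ⟨hx.1 i, hS i⟩, hx.2⟩
  · exact C10_loc_neg hS

lemma loc_add {S : Set X} {n : ℕ} (U V : Coch X n) : loc S (U + V) = loc S U + loc S V := by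
  funext x
  by_cases hS : ∀ i, x i ∈ S
  · rw [Pi.add_apply, C10_loc_pos hS, C10_loc_pos hS, C10_loc_pos hS, Pi.add_apply]
  · rw [Pi.add_apply, C10_loc_neg hS, C10_loc_neg hS, C10_loc_neg hS, add_zero]

lemma loc_loc {S S' : Set X} {n : ℕ} (U : Coch X n) : loc S (loc S' U) = loc (S ∩ S') U := by
  funext x
  by_cases hS : ∀ i, x i ∈ S
  · rw [C10_loc_pos hS]
    by_cases hS' : ∀ i, x i ∈ S'
    · rw [C10_loc_pos hS', C10_loc_pos (S := S ∩ S') (fun i => ⟨hS i, hS' i⟩)]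
    · rw [C10_loc_neg hS', C10_loc_neg (fun h => hS' fun i => (h i).2)]
  · rw [C10_loc_neg hS, C10_loc_neg (fun h => hS fun i => (h i).1)]

/-- the class does not change under changes near `S` which vanish -/
lemma HG.congrC {S S' : Set X} {n : ℕ} {U U' : Coch X n} (h : HG S S' U) (hU' : Coc S S' U')
    (hc : Cob S S' (U + U')) : HG S S' U' := by
  refine ⟨hU', fun h' => h.ne (hc.congr' h'), fun f hf => ?_⟩
  rcases h.gen f hf with h1 | h1
  · exact Or.inl h1
  · exact Or.inr (h1.trans hc)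

lemma HG.congr_van {S S' : Set X} (hS : S' ⊆ S) {n : ℕ} {U U' : Coch X n} (h : HG S S' U)
    (hc : Van S (U + U')) : HG S S' U' := by
  have e : U' = U + (U + U') := by rw [← add_assoc, add_self_coch, zero_add]
  refine h.congrC ⟨?_, ?_⟩ (Cob.of_van hc)
  · rw [e]
    exact h.coc.van.add (hc.mono hS)
  · rw [e, dl_add]
    exact h.coc.cl.add hc.dl

lemma C10_loc_dl {K S D : Set X} {δ : ℝ} (hδ : 0 < δ)
    (hsep : ∀ g ∈ K, ∀ g' ∈ K, dist g g' < δ → g ∈ S → g' ∉ S → g ∈ D) {n : ℕ} {U : Coch X n}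
    (hU : Van (K ∩ D) U) : Van K (dl (loc S U) + loc S (dl U)) := by
  obtain ⟨ε, hε, hU⟩ := hU
  refine ⟨min ε δ, lt_min hε hδ, fun x hx => ?_⟩
  rw [Pi.add_apply]
  by_cases hS : ∀ i, x i ∈ S
  · rw [C10_loc_pos hS]
    have e : dl (loc S U) x = dl U x := by
      refine dl_congr _ _ x fun z hz => C10_loc_pos fun i => ?_
      obtain ⟨j, hj⟩ := hz i
      rw [hj]
      exact hS j
    rw [e, z2]
  · rw [C10_loc_neg hS, add_zero]
    refine dl_eq_zero _ x fun z hz => ?_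
    by_cases hzS : ∀ i, z i ∈ S
    · rw [C10_loc_pos hzS]
      push Not at hS
      obtain ⟨j0, hj0⟩ := hS
      refine hU z ⟨fun i => ?_, fun i j => ?_⟩
      · obtain ⟨j, hj⟩ := hz i
        have hzi := hzS i
        rw [hj] at hzi ⊢
        exact ⟨hx.1 j, hsep _ (hx.1 j) _ (hx.1 j0) ((hx.2 j j0).trans_le (min_le_right _ _))
          hzi hj0⟩
      · exact ((hx.sub hz).2 i j).trans_le (min_le_left _ _)
    · exact C10_loc_neg hzS

lemma C10_loc_cob {K S D : Set X} {δ : ℝ} (hδ : 0 < δ)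
    (hsep : ∀ g ∈ K, ∀ g' ∈ K, dist g g' < δ → g ∈ S → g' ∉ S → g ∈ D) {n : ℕ}
    {U : Coch X (n + 1)} {V : Coch X n} (hV : Van (K ∩ D) V) (hd : Van (K ∩ S) (U + dl V)) :
    Cob K ∅ (loc S U) := by
  refine ⟨loc S V, Van.loc (hV.mono fun x hx => hx.1.elim), ?_⟩
  have e : loc S U + dl (loc S V) = loc S (U + dl V) + (dl (loc S V) + loc S (dl V)) := by
    rw [loc_add]
    have : loc S U + loc S (dl V) + (dl (loc S V) + loc S (dl V)) =
      loc S U + dl (loc S V) + (loc S (dl V) + loc S (dl V)) := by abel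
    rw [this, add_self_coch, add_zero]
  rw [e]
  exact (Van.loc hd).add (C10_loc_dl hδ hsep hV)

lemma C10_sep {K : Set X} (hK : IsCompact K) {h : X → ℝ} (hh : ContinuousOn h K) {r' r : ℝ}
    (hr : r' < r) : ∃ δ > 0, ∀ g ∈ K, ∀ g' ∈ K, dist g g' < δ → g ∈ {g | h g ≤ r} →
      g' ∉ {g | h g ≤ r} → g ∈ {g | r' ≤ h g ∧ h g ≤ r} := by
  obtain ⟨δ, hδ, hd⟩ := Metric.uniformContinuousOn_iff.1
    (hK.uniformContinuousOn_of_continuous hh) (r - r') (by linarith)
  refine ⟨δ, hδ, fun g hg g' hg' hdist h1 h2 => ⟨?_, h1⟩⟩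
  have h3 := hd g hg g' hg' hdist
  rw [Real.dist_eq] at h3
  have h4 : ¬ h g' ≤ r := h2
  have h5 := abs_lt.1 h3
  linarith [h5.1]

theorem loc_dl {K : Set X} (hK : IsCompact K) {h : X → ℝ} (hh : ContinuousOn h K) {r' r : ℝ} (hr : r' < r)
    {n : ℕ} {U : Coch X n} (hU : Van (K ∩ {g | r' ≤ h g ∧ h g ≤ r}) U) :
    Van K (dl (loc {g | h g ≤ r} U) + loc {g | h g ≤ r} (dl U)) := by
  obtain ⟨δ, hδ, hsep⟩ := C10_sep hK hh hr
  exact C10_loc_dl hδ hsep hU

theorem loc_cocC {K : Set X} (hK : IsCompact K) {h : X → ℝ} (hh : ContinuousOn h K) {r' r : ℝ} (hr : r' < r)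
    {n : ℕ} {U : Coch X n} (hU : Van (K ∩ {g | r' ≤ h g ∧ h g ≤ r}) U) (hd : Van (K ∩ {g | h g ≤ r}) (dl U)) :
    Coc K ∅ (loc {g | h g ≤ r} U) := by
  refine ⟨Van.loc (hU.mono fun x hx => hx.1.elim), ?_⟩
  have e := (loc_dl hK hh hr hU).add (Van.loc hd)
  rwa [add_assoc, add_self_coch, add_zero] at e

theorem loc_cob {K : Set X} (hK : IsCompact K) {h : X → ℝ} (hh : ContinuousOn h K) {r' r : ℝ} (hr : r' < r)
    {n : ℕ} {U : Coch X (n + 1)} {V : Coch X n} (hV : Van (K ∩ {g | r' ≤ h g ∧ h g ≤ r}) V)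
    (hd : Van (K ∩ {g | h g ≤ r}) (U + dl V)) : Cob K ∅ (loc {g | h g ≤ r} U) := by
  obtain ⟨δ, hδ, hsep⟩ := C10_sep hK hh hr
  exact C10_loc_cob hδ hsep hV hd

/-- `F` is continuous on `K ∩ W`, with `p` as the only possible zero, and `W` is a closed neighbourhood of `p` in `K` -/
structure Iso (K W : Set X) (p : X) {m : ℕ} (F : X → Fin m → ℝ) : Prop where
  closed : IsClosed W
  nhd : ∃ η > 0, K ∩ ball p η ⊆ W
  cont : ContinuousOn F (K ∩ W)
  zero : ∀ g ∈ K ∩ W, F g = 0 → g = p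

lemma C10_compact {K W : Set X} (hK : IsCompact K) (hW : IsClosed W) {p : X} {η : ℝ} :
    IsCompact (K ∩ W ∩ {g | η ≤ dist g p}) :=
  (hK.inter_right hW).inter_right (isClosed_le continuous_const
    (continuous_id.dist continuous_const))

lemma iso_van {K W : Set X} (hK : IsCompact K) {p : X} {m : ℕ} {F : X → Fin m → ℝ} (h : Iso K W p F)
    {η' : ℝ} (hη : 0 < η') : Van (K ∩ W ∩ {g | η' ≤ dist g p}) (GG m F) := by
  refine GG_van' (C10_compact hK h.closed) (h.cont.mono inter_subset_left) ?_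
  rintro g ⟨hg, hg'⟩ h0
  have := h.zero g hg h0
  rw [this] at hg'
  have h1 : η' ≤ dist p p := hg'
  rw [dist_self] at h1
  linarith

lemma C10_iso_sep {K W : Set X} {p : X} {η : ℝ} (hη : K ∩ ball p η ⊆ W) :
    ∀ g ∈ K, ∀ g' ∈ K, dist g g' < η / 2 → g ∈ W → g' ∉ W → g ∈ W ∩ {g | η / 2 ≤ dist g p} := by
  intro g hg g' hg' hd h1 h2
  refine ⟨h1, ?_⟩
  by_contra h3
  apply h2
  apply hη
  refine ⟨hg', ?_⟩
  have h4 : dist g p < η / 2 := not_le.1 h3
  rw [mem_ball]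
  have := dist_triangle g' g p
  rw [dist_comm g' g] at this
  linarith

lemma C10_GG_congr {m : ℕ} {F F' : X → Fin m → ℝ} {x : Fin (m + 1) → X}
    (h : ∀ i, F (x i) = F' (x i)) : GG m F x = GG m F' x := by
  have e1 : GG m F x = GG m (F ∘ x) id := congrFun (pb_GG x F) id
  have e2 : GG m F' x = GG m (F' ∘ x) id := congrFun (pb_GG x F') id
  have e3 : F ∘ x = F' ∘ x := funext h
  rw [e1, e2, e3]

theorem iso_coc {K W : Set X} (hK : IsCompact K) {p : X} {m : ℕ} {F : X → Fin m → ℝ} (h : Iso K W p F) :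
    Coc K ∅ (loc W (GG m F)) := by
  obtain ⟨η, hη, hηW⟩ := h.nhd
  refine ⟨Van.empty _, ?_⟩
  have hv : Van (K ∩ (W ∩ {g | η / 2 ≤ dist g p})) (GG m F) := by
    rw [← inter_assoc]
    exact iso_van hK h (half_pos hη)
  have e := C10_loc_dl (half_pos hη) (C10_iso_sep hηW) hv
  rw [dl_GG] at e
  have e0 : loc W (0 : Coch X (m + 1 + 1)) = 0 := by
    funext x
    by_cases hS : ∀ i, x i ∈ W
    · rw [C10_loc_pos hS]
    · rw [C10_loc_neg hS]; rfl
  rwa [e0, add_zero] at e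

theorem iso_indep {K W W' : Set X} (hK : IsCompact K) {p : X} {m : ℕ} {F F' : X → Fin m → ℝ} (h : Iso K W p F)
    (h' : Iso K W' p F') (hF : ∀ g ∈ K ∩ W ∩ W', F g = F' g) :
    Van K (loc W (GG m F) + loc W' (GG m F')) := by
  obtain ⟨η₁, hη₁, hW⟩ := h.nhd
  obtain ⟨η₂, hη₂, hW'⟩ := h'.nhd
  set η := min η₁ η₂ with hη
  have hη0 : 0 < η := lt_min hη₁ hη₂
  obtain ⟨ε₁, hε₁, h1⟩ := iso_van hK h (half_pos hη0)
  obtain ⟨ε₂, hε₂, h2⟩ := iso_van hK h' (half_pos hη0)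
  refine ⟨min (η / 2) (min ε₁ ε₂), lt_min (half_pos hη0) (lt_min hε₁ hε₂), fun x hx => ?_⟩
  rw [Pi.add_apply]
  by_cases hj : ∃ j, dist (x j) p < η / 2
  · obtain ⟨j, hj⟩ := hj
    have hb : ∀ i, dist (x i) p < η := by
      intro i
      have h3 := dist_triangle (x i) (x j) p
      have h4 := (hx.2 i j).trans_le (min_le_left _ _)
      linarith
    have hxW : ∀ i, x i ∈ W := fun i =>
      hW ⟨hx.1 i, mem_ball.2 ((hb i).trans_le (min_le_left _ _))⟩
    have hxW' : ∀ i, x i ∈ W' := fun i =>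
      hW' ⟨hx.1 i, mem_ball.2 ((hb i).trans_le (min_le_right _ _))⟩
    rw [C10_loc_pos hxW, C10_loc_pos hxW',
      C10_GG_congr fun i => hF (x i) ⟨⟨hx.1 i, hxW i⟩, hxW' i⟩, z2]
  · push Not at hj
    have a1 : loc W (GG m F) x = 0 := by
      by_cases hS : ∀ i, x i ∈ W
      · rw [C10_loc_pos hS]
        exact h1 x ⟨fun i => ⟨⟨hx.1 i, hS i⟩, hj i⟩, fun i j => (hx.2 i j).trans_le
          ((min_le_right _ _).trans (min_le_left _ _))⟩
      · exact C10_loc_neg hS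
    have a2 : loc W' (GG m F') x = 0 := by
      by_cases hS : ∀ i, x i ∈ W'
      · rw [C10_loc_pos hS]
        exact h2 x ⟨fun i => ⟨⟨hx.1 i, hS i⟩, hj i⟩, fun i j => (hx.2 i j).trans_le
          ((min_le_right _ _).trans (min_le_right _ _))⟩
      · exact C10_loc_neg hS
    rw [a1, a2, add_zero]

theorem iso_homotopy {K W : Set X} (hK : IsCompact K) {p : X} {m : ℕ} (F : ℝ × X → Fin m → ℝ)
    (hF : ContinuousOn F (Icc (0 : ℝ) 1 ×ˢ (K ∩ W))) (h : ∀ t ∈ Icc (0 : ℝ) 1, Iso K W p (fun g => F (t, g))) :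
    Cob K ∅ (loc W (GG m (fun g => F (0, g))) + loc W (GG m (fun g => F (1, g)))) := by
  obtain ⟨η, hη, hηW⟩ := (h 0 (left_mem_Icc.2 zero_le_one)).nhd
  have hcl := (h 0 (left_mem_Icc.2 zero_le_one)).closed
  have hc := GG_homotopy (S := K ∩ W) (S' := K ∩ W ∩ {g | η / 2 ≤ dist g p}) inter_subset_left
    (hK.inter_right hcl) (C10_compact hK hcl) F hF (by
      rintro t ht g ⟨hg, hg'⟩ h0
      have h1 := (h t ht).zero g hg h0
      rw [h1] at hg'
      have h2 : η / 2 ≤ dist p p := hg'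
      rw [dist_self] at h2
      linarith)
  obtain ⟨V, hV, hd⟩ := hc
  rw [← loc_add]
  refine C10_loc_cob (half_pos hη) (C10_iso_sep hηW) (V := V) ?_ hd
  rw [← inter_assoc]
  exact hV

theorem iso_gl {K W : Set X} (hK : IsCompact K) {p : X} {m : ℕ} {F : X → Fin m → ℝ} (h : Iso K W p F)
    (Λ : (Fin m → ℝ) ≃L[ℝ] (Fin m → ℝ))
    (hGL : ∀ S S' : Set X, S' ⊆ S → IsCompact S → IsCompact S' → ContinuousOn F S → (∀ g ∈ S', F g ≠ 0) →
      Cob S S' (GG m F + GG m (fun g => Λ (F g)))) :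
    Cob K ∅ (loc W (GG m F) + loc W (GG m (fun g => Λ (F g)))) := by
  obtain ⟨η, hη, hηW⟩ := h.nhd
  have hc := hGL (K ∩ W) (K ∩ W ∩ {g | η / 2 ≤ dist g p}) inter_subset_left
    (hK.inter_right h.closed) (C10_compact hK h.closed) h.cont (by
      rintro g ⟨hg, hg'⟩ h0
      have h1 := h.zero g hg h0
      rw [h1] at hg'
      have h2 : η / 2 ≤ dist p p := hg'
      rw [dist_self] at h2
      linarith)
  obtain ⟨V, hV, hd⟩ := hc
  rw [← loc_add]
  refine C10_loc_cob (half_pos hη) (C10_iso_sep hηW) (V := V) ?_ hd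
  rw [← inter_assoc]
  exact hV

end ASC
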