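import Pool.Agent.Lib.MP_f7aa1b_gt.H.C10

/-!
Row f7h-C11 (130 lines): iterated `lam` (namespace `ASC`, no geometry).

`LAM_GG`: induction on `m` (unfold `app`, `Fin.tail_cons`).  `LAM_van`: `Van.lam`.
`LAM_loc`: induction on `m`; step: `lam f V + lam f V' = lam f (V + V')` is `Van K` for `V = LAM (tail κ) (loc S U)`,
`V' = loc S (LAM (tail κ) U)`; and `lam f (loc S V'') + loc S (lam f V'')` is `Van K` for `V'' = LAM (tail κ) U`, which vanishes on
`K ∩ {r' ≤ h ≤ r}`: on a small tuple both agree unless the tail is in `S = {h ≤ r}` and the first point is not; then the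
tail is in `{r' ≤ h ≤ r}` (uniform continuity of `h`).
`app_eq_zero`, `app_cont`, `app_add`, `app_smul`, `app_linear`: induction on `m`.
-/

set_option autoImplicit false

open Set Filter Topology Metric

namespace ASC

variable {X : Type*}

lemma C11_tail_app {b m : ℕ} (κ : Fin (m + 1) → ℝ) (v : Fin b → ℝ) :
    Fin.tail (n := b + m) (α := fun _ => ℝ) (app (m + 1) κ v) = app m (Fin.tail κ) v := by
  funext i
  show (Fin.cons (κ 0) (app m (Fin.tail κ) v) : Fin (b + m + 1) → ℝ) i.succ = _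
  rw [Fin.cons_succ]

lemma LAM_GG {b : ℕ} : ∀ (m : ℕ) (κ : X → Fin m → ℝ) (F : X → Fin b → ℝ),
    LAM m κ (GG b F) = GG (b + m) (fun g => app m (κ g) (F g)) := by
  intro m
  induction m with
  | zero => intro κ F; rfl
  | succ m ih =>
    intro κ F
    have h1 : LAM (m + 1) κ (GG b F) =
        lam (fun y => κ y 0) (LAM m (fun y => Fin.tail (κ y)) (GG b F)) := rfl
    have h2 : GG (b + (m + 1)) (fun g => app (m + 1) (κ g) (F g)) =
        lam (fun y => κ y 0) (GG (b + m)
          (fun y => Fin.tail (n := b + m) (α := fun _ => ℝ) (app (m + 1) (κ y) (F y)))) := rfl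
    rw [h1, h2, ih]
    have h3 : (fun y => Fin.tail (n := b + m) (α := fun _ => ℝ) (app (m + 1) (κ y) (F y))) =
        fun y => app m (Fin.tail (κ y)) (F y) := funext (fun y => C11_tail_app (κ y) (F y))
    rw [h3]

lemma LAM_add : ∀ (m : ℕ) (κ : X → Fin m → ℝ) {n : ℕ} (U V : Coch X (n + 1)),
    LAM m κ (U + V) = LAM m κ U + LAM m κ V := by
  intro m
  induction m with
  | zero => intro κ n U V; rfl
  | succ m ih =>
    intro κ n U V
    show lam (fun y => κ y 0) (LAM m (fun y => Fin.tail (κ y)) (U + V)) = _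
    rw [ih, lam_add]
    rfl

lemma app_eq_zero {b : ℕ} : ∀ {m : ℕ} {κ : Fin m → ℝ} {v : Fin b → ℝ}, app m κ v = 0 ↔ κ = 0 ∧ v = 0 := by
  intro m
  induction m with
  | zero =>
    intro κ v
    exact ⟨fun h => ⟨Subsingleton.elim _ _, h⟩, fun h => h.2⟩
  | succ m ih =>
    intro κ v
    constructor
    · intro h
      have h0 : κ 0 = 0 := congrFun h (0 : Fin (b + m + 1))
      have h1 : app m (Fin.tail κ) v = 0 := by
        rw [← C11_tail_app, h]
        rfl
      obtain ⟨h2, h3⟩ := ih.1 h1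
      refine ⟨?_, h3⟩
      funext i
      refine Fin.cases h0 (fun i => ?_) i
      exact congrFun h2 i
    · rintro ⟨rfl, rfl⟩
      have h1 : app m (Fin.tail (0 : Fin (m + 1) → ℝ)) (0 : Fin b → ℝ) = 0 := ih.2 ⟨rfl, rfl⟩
      funext i
      show (Fin.cons ((0 : Fin (m + 1) → ℝ) 0) (app m (Fin.tail (0 : Fin (m + 1) → ℝ)) 0) :
        Fin (b + m + 1) → ℝ) i = 0
      rw [h1]
      refine Fin.cases ?_ (fun i => ?_) i
      · rfl
      · rw [Fin.cons_succ]; rfl

lemma app_add {b : ℕ} : ∀ {m : ℕ} (κ κ' : Fin m → ℝ) (v v' : Fin b → ℝ),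
    app m (κ + κ') (v + v') = app m κ v + app m κ' v' := by
  intro m
  induction m with
  | zero => intro κ κ' v v'; rfl
  | succ m ih =>
    intro κ κ' v v'
    funext i
    show (Fin.cons ((κ + κ') 0) (app m (Fin.tail (κ + κ')) (v + v')) : Fin (b + m + 1) → ℝ) i =
      (Fin.cons (κ 0) (app m (Fin.tail κ) v) : Fin (b + m + 1) → ℝ) i +
        (Fin.cons (κ' 0) (app m (Fin.tail κ') v') : Fin (b + m + 1) → ℝ) i
    refine Fin.cases ?_ (fun i => ?_) i
    · rfl
    · rw [Fin.cons_succ, Fin.cons_succ, Fin.cons_succ]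
      exact congrFun (ih (Fin.tail κ) (Fin.tail κ') v v') i

lemma app_smul {b : ℕ} : ∀ {m : ℕ} (c : ℝ) (κ : Fin m → ℝ) (v : Fin b → ℝ),
    app m (c • κ) (c • v) = c • app m κ v := by
  intro m
  induction m with
  | zero => intro c κ v; rfl
  | succ m ih =>
    intro c κ v
    funext i
    show (Fin.cons ((c • κ) 0) (app m (Fin.tail (c • κ)) (c • v)) : Fin (b + m + 1) → ℝ) i =
      c • (Fin.cons (κ 0) (app m (Fin.tail κ) v) : Fin (b + m + 1) → ℝ) i
    refine Fin.cases ?_ (fun i => ?_) i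
    · rfl
    · rw [Fin.cons_succ, Fin.cons_succ]
      exact congrFun (ih c (Fin.tail κ) v) i

lemma app_surj {b : ℕ} : ∀ {m : ℕ} (w : Fin (b + m) → ℝ), ∃ (κ : Fin m → ℝ) (v : Fin b → ℝ), app m κ v = w := by
  intro m
  induction m with
  | zero => intro w; exact ⟨Fin.elim0, w, rfl⟩
  | succ m ih =>
    intro w
    obtain ⟨κ, v, h⟩ := ih (Fin.tail (n := b + m) (α := fun _ => ℝ) w)
    refine ⟨Fin.cons (w (0 : Fin (b + m + 1))) κ, v, ?_⟩
    show (Fin.cons ((Fin.cons (w (0 : Fin (b + m + 1))) κ : Fin (m + 1) → ℝ) 0)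
      (app m (Fin.tail (Fin.cons (w (0 : Fin (b + m + 1))) κ : Fin (m + 1) → ℝ)) v) :
        Fin (b + m + 1) → ℝ) = w
    rw [Fin.cons_zero, Fin.tail_cons, h]
    exact Fin.cons_self_tail (n := b + m) (α := fun _ => ℝ) w

lemma app_cont {b m : ℕ} : Continuous (fun p : (Fin m → ℝ) × (Fin b → ℝ) => app m p.1 p.2) := by
  induction m with
  | zero => exact continuous_snd
  | succ m ih =>
    refine continuous_pi (fun i => ?_)
    show Continuous (fun p : (Fin (m + 1) → ℝ) × (Fin b → ℝ) =>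
      (Fin.cons (p.1 0) (app m (Fin.tail p.1) p.2) : Fin (b + m + 1) → ℝ) i)
    refine Fin.cases ?_ (fun i => ?_) i
    · exact (continuous_apply (0 : Fin (m + 1))).comp continuous_fst
    · simp only [Fin.cons_succ]
      have h1 : Continuous (fun p : (Fin (m + 1) → ℝ) × (Fin b → ℝ) => (Fin.tail p.1, p.2)) := by
        refine Continuous.prodMk (continuous_pi (fun j => ?_)) continuous_snd
        exact (continuous_apply (Fin.succ j)).comp continuous_fst
      exact (continuous_apply i).comp (ih.comp h1)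

variable [PseudoMetricSpace X]

lemma LAM_van {S : Set X} : ∀ (m : ℕ) (κ : X → Fin m → ℝ) {n : ℕ} {U : Coch X (n + 1)} (_ : Van S U),
    Van S (LAM m κ U) := by
  intro m
  induction m with
  | zero => intro κ n U h; exact h
  | succ m ih =>
    intro κ n U h
    exact Van.lam _ (ih (fun y => Fin.tail (κ y)) h)

/-- the step of `LAM_loc` -/
lemma C11_step {K : Set X} (hK : IsCompact K) {h : X → ℝ} (hh : ContinuousOn h K) {r' r : ℝ} (hr : r' < r)
    (f : X → ℝ) {n : ℕ} {W : Coch X (n + 1)} (hW : Van (K ∩ {g | r' ≤ h g ∧ h g ≤ r}) W) :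
    Van K (lam f (loc {g | h g ≤ r} W) + loc {g | h g ≤ r} (lam f W)) := by
  obtain ⟨ε, hε, hW⟩ := hW
  obtain ⟨δ, hδ, hd⟩ := Metric.uniformContinuousOn_iff.1 (hK.uniformContinuousOn_of_continuous hh)
    (r - r') (sub_pos.2 hr)
  refine ⟨min ε δ, lt_min hε hδ, fun x hx => ?_⟩
  rw [Pi.add_apply]
  by_cases hall : ∀ i, x i ∈ {g | h g ≤ r}
  · have h1 : loc {g | h g ≤ r} (lam f W) x = lam f W x := by
      unfold loc; exact if_pos hall
    have hall' : ∀ i, Fin.tail x i ∈ {g | h g ≤ r} := fun i => hall (Fin.succ i)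
    have h2 : loc {g | h g ≤ r} W (Fin.tail x) = W (Fin.tail x) := by
      unfold loc; exact if_pos hall'
    rw [h1]
    unfold lam
    rw [h2, z2]
  · have h1 : loc {g | h g ≤ r} (lam f W) x = 0 := by
      unfold loc; exact if_neg hall
    rw [h1, add_zero]
    have h2 : loc {g | h g ≤ r} W (Fin.tail x) = 0 := by
      by_cases ht : ∀ i, Fin.tail x i ∈ {g | h g ≤ r}
      · have h3 : loc {g | h g ≤ r} W (Fin.tail x) = W (Fin.tail x) := by
          unfold loc; exact if_pos ht
        rw [h3]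
        have h0 : r < h (x 0) := by
          by_contra hcon
          refine hall (fun i => ?_)
          refine Fin.cases (not_lt.1 hcon) (fun i => ?_) i
          exact ht i
        refine hW _ ⟨fun i => ⟨hx.1 (Fin.succ i), ?_, ht i⟩, fun i j =>
          lt_of_lt_of_le (hx.2 (Fin.succ i) (Fin.succ j)) (min_le_left _ _)⟩
        have h4 := hd _ (hx.1 (Fin.succ i)) _ (hx.1 0)
          (lt_of_lt_of_le (hx.2 (Fin.succ i) 0) (min_le_right _ _))
        rw [Real.dist_eq] at h4
        have h5 := (abs_lt.1 h4).1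
        show r' ≤ h (x i.succ)
        linarith only [h5, h0]
      · unfold loc; exact if_neg ht
    unfold lam
    rw [h2, mul_zero]

theorem LAM_loc {K : Set X} (hK : IsCompact K) {h : X → ℝ} (hh : ContinuousOn h K) {r' r : ℝ} (hr : r' < r)
    (m : ℕ) (κ : X → Fin m → ℝ) {n : ℕ} {U : Coch X (n + 1)} (hU : Van (K ∩ {g | r' ≤ h g ∧ h g ≤ r}) U) :
    Van K (LAM m κ (loc {g | h g ≤ r} U) + loc {g | h g ≤ r} (LAM m κ U)) := by
  induction m with
  | zero =>
    show Van K (loc {g | h g ≤ r} U + loc {g | h g ≤ r} U)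
    rw [add_self_coch]
    exact Van.zero _
  | succ m ih =>
    have h1 := Van.lam (fun y => κ y 0) (ih (fun y => Fin.tail (κ y)))
    rw [lam_add] at h1
    have h2 := C11_step hK hh hr (fun y => κ y 0) (LAM_van m (fun y => Fin.tail (κ y)) hU)
    have h3 := h1.add h2
    have e : ∀ a b c : Coch X (n + m + 2), a + b + (b + c) = a + c := by
      intro a b c
      rw [add_assoc a b, ← add_assoc b b, add_self_coch, zero_add]
    rw [e] at h3
    exact h3

end ASC
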