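import Pool.Agent.Lib.MP_f7aa1b_gt.H.C8a

/-!
Row f7h-C9 (220 lines): the cone estimate, locally uniform.

(1) There are `c1 > 0`, `C1`, `η > 0` with `‖Pr w‖ ^ 2 - s ⟪A z w, w⟫ ≥ c1 ‖Pr w‖ ^ 2 - C1 ‖P (Pr w)‖ ^ 2` for all `w : E n` and all `z ∈ B`,
`dist z z0 ≤ η`, `|s - s0| ≤ η` (here `Pr = Pr z.1`).  By contradiction: otherwise there are `z_k → z0`, `s_k → s0`, unit vectors `v_k = Pr z_k.1 v_k`
(normalise `Pr w`) with `1 - s_k ⟪A z_k v_k, v_k⟫ < 1/k - k ‖P v_k‖ ^ 2`; a subsequence `v_k → v`, `Pr z0.1 v = v`, `‖v‖ = 1`; the left side is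
bounded, so `P v = 0`, and `1 - s0 ⟪A z0 v, v⟫ ≤ 0`: contradiction to `Pos`.
(2) Let `x ∈ M`, `u = x - z.1`, `‖u‖ ≤ δ`, `‖x - Ex s z‖ ≤ s`.  By `tay` (with `R = s0 + 1`, `ε = c1 / 8`):
`‖Pr u‖ ^ 2 - s ⟪A u, u⟫ ≤ (c1 / 8) ‖u‖ ^ 2` (`⟪A u, u⟫ = ⟪A (Pr u), Pr u⟫`, so (1) applies with `w = u`); by `est`: `‖u - Pr u‖ ≤ C ‖u‖ ^ 2 ≤ ‖u‖ / 2` for small `δ`, so
`‖Pr u‖ ≥ ‖u‖ / 2` and `c1 ‖u‖ ^ 2 / 4 - C1 ‖P (Pr u)‖ ^ 2 ≤ (c1 / 8) ‖u‖ ^ 2`: `‖P (Pr u)‖ ≥ sqrt (c1 / (8 C1)) ‖u‖` (take `C1 > 0`), and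
`‖P u‖ ≥ ‖P (Pr u)‖ - ‖P‖ C ‖u‖ ^ 2`.
-/

set_option autoImplicit false

open Set Filter Topology Metric

namespace F7H

open MPf7aa (E)

namespace Foc

variable {n : ℕ} (F : Foc n)

lemma C9_symmA {z : E n × E n} (hz : z ∈ F.B) (w : E n) :
    inner ℝ (F.A z w) w = inner ℝ (F.A z (F.Pr z.1 w)) (F.Pr z.1 w) := by
  rw [F.A_Pr z hz w, ← F.Pr_symm z.1 (F.memM z hz), F.Pr_A z hz]

lemma C9_pyth {x : E n} (hx : x ∈ F.M) (v : E n) :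
    ‖F.Pr x v‖ ^ 2 + ‖v - F.Pr x v‖ ^ 2 = ‖v‖ ^ 2 := by
  have h1 : inner ℝ v (F.Pr x v) = ‖F.Pr x v‖ ^ 2 := by
    rw [← real_inner_self_eq_norm_sq, F.Pr_symm x hx, F.Pr_idem x hx]
  rw [norm_sub_sq_real, h1]
  ring

lemma C9_finsler {z0 : E n × E n} {s0 : ℝ} {k : ℕ} (P : E n →L[ℝ] (Fin k → ℝ))
    (hP : F.Pos z0 s0 P) : ∃ c > 0, ∃ C > 0, ∀ w, F.Pr z0.1 w = w →
      c * ‖w‖ ^ 2 ≤ ‖w‖ ^ 2 - s0 * inner ℝ (F.A z0 w) w + C * ‖P w‖ ^ 2 := by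
  classical
  let q : E n → ℝ := fun w => ‖w‖ ^ 2 - s0 * inner ℝ (F.A z0 w) w
  have hqc : Continuous q := by
    have h1 := (F.A z0).continuous
    exact (continuous_norm.pow 2).sub (continuous_const.mul (h1.inner continuous_id))
  let U : ℕ → Set (E n) := fun N => {w | 1 / ((N : ℝ) + 1) < q w + N * ‖P w‖ ^ 2}
  have hUo : ∀ N, IsOpen (U N) := fun N =>
    isOpen_lt continuous_const (hqc.add (continuous_const.mul (P.continuous.norm.pow 2)))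
  have hmono : Monotone U := by
    intro N M hNM w hw
    have h1 : (N : ℝ) ≤ M := by exact_mod_cast hNM
    have h2 : 1 / ((M : ℝ) + 1) ≤ 1 / ((N : ℝ) + 1) :=
      one_div_le_one_div_of_le (by positivity) (by linarith)
    have h3 : (N : ℝ) * ‖P w‖ ^ 2 ≤ M * ‖P w‖ ^ 2 :=
      mul_le_mul_of_nonneg_right h1 (by positivity)
    have h4 : 1 / ((N : ℝ) + 1) < q w + N * ‖P w‖ ^ 2 := hw
    show 1 / ((M : ℝ) + 1) < q w + M * ‖P w‖ ^ 2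
    linarith
  have hS : IsCompact (sphere (0 : E n) 1 ∩ {w | F.Pr z0.1 w = w}) :=
    (isCompact_sphere 0 1).inter_right (isClosed_eq (F.Pr z0.1).continuous continuous_id)
  have hcov : sphere (0 : E n) 1 ∩ {w | F.Pr z0.1 w = w} ⊆ ⋃ N, U N := by
    rintro w ⟨hw1, hw2⟩
    have hw1' : ‖w‖ = 1 := by simpa using hw1
    have hw0 : w ≠ 0 := by
      rintro rfl
      simp at hw1'
    rw [mem_iUnion]
    by_cases hPw : P w = 0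
    · have h1 : 0 < q w := hP w hw2 hPw hw0
      obtain ⟨N, hN⟩ := exists_nat_one_div_lt h1
      refine ⟨N, ?_⟩
      show 1 / ((N : ℝ) + 1) < q w + N * ‖P w‖ ^ 2
      rw [hPw]
      simpa using hN
    · have ht : 0 < ‖P w‖ ^ 2 := by positivity
      obtain ⟨N, hN⟩ := exists_nat_gt ((1 - q w) / ‖P w‖ ^ 2)
      rw [div_lt_iff₀ ht] at hN
      refine ⟨N, ?_⟩
      have h5 : 1 / ((N : ℝ) + 1) ≤ 1 := by
        have h6 : (0 : ℝ) ≤ N := Nat.cast_nonneg N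
        rw [div_le_one (by linarith)]
        linarith
      show 1 / ((N : ℝ) + 1) < q w + N * ‖P w‖ ^ 2
      linarith
  obtain ⟨N, hN⟩ := hS.elim_directed_cover U hUo hcov hmono.directed_le
  refine ⟨1 / ((N : ℝ) + 1), by positivity, (N : ℝ) + 1, by positivity, ?_⟩
  intro w hw
  by_cases hw0 : w = 0
  · subst hw0
    simp
  · have hr : 0 < ‖w‖ := norm_pos_iff.2 hw0
    obtain ⟨v, hv⟩ : ∃ v : E n, v = (‖w‖)⁻¹ • w := ⟨_, rfl⟩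
    have hwv : w = ‖w‖ • v := by
      rw [hv, smul_smul, mul_inv_cancel₀ hr.ne', one_smul]
    have hv1 : ‖v‖ = 1 := by
      rw [hv, norm_smul, norm_inv, norm_norm, inv_mul_cancel₀ hr.ne']
    have hv2 : F.Pr z0.1 v = v := by
      rw [hv, map_smul, hw]
    have h1 : 1 / ((N : ℝ) + 1) < (‖v‖ ^ 2 - s0 * inner ℝ (F.A z0 v) v) + N * ‖P v‖ ^ 2 :=
      hN ⟨by simpa using hv1, hv2⟩
    have h2 : inner ℝ (F.A z0 w) w = ‖w‖ ^ 2 * inner ℝ (F.A z0 v) v := by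
      conv_lhs => rw [hwv]
      rw [map_smul, inner_smul_left, inner_smul_right]
      simp only [conj_trivial]
      ring
    have h3 : ‖P w‖ ^ 2 = ‖w‖ ^ 2 * ‖P v‖ ^ 2 := by
      conv_lhs => rw [hwv]
      rw [map_smul, norm_smul, norm_norm]
      ring
    rw [h2, h3]
    rw [hv1] at h1
    have h4 : 0 < ‖w‖ ^ 2 := by positivity
    have h5 : 0 ≤ ‖P v‖ ^ 2 := by positivity
    have h6 : 1 / ((N : ℝ) + 1) * ‖w‖ ^ 2 ≤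
        ((1 ^ 2 - s0 * inner ℝ (F.A z0 v) v) + (N + 1) * ‖P v‖ ^ 2) * ‖w‖ ^ 2 :=
      mul_le_mul_of_nonneg_right (by linarith) h4.le
    calc 1 / ((N : ℝ) + 1) * ‖w‖ ^ 2
        ≤ ((1 ^ 2 - s0 * inner ℝ (F.A z0 v) v) + (N + 1) * ‖P v‖ ^ 2) * ‖w‖ ^ 2 := h6
      _ = ‖w‖ ^ 2 - s0 * (‖w‖ ^ 2 * inner ℝ (F.A z0 v) v) + (N + 1) * (‖w‖ ^ 2 * ‖P v‖ ^ 2) := by
        ring

lemma C9_near {z0 : E n × E n} (hz0 : z0 ∈ F.B) {ε : ℝ} (hε : 0 < ε) :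
    ∃ η > 0, ∀ z ∈ F.B, dist z z0 ≤ η → ‖F.Pr z.1 - F.Pr z0.1‖ ≤ ε ∧ ‖F.A z - F.A z0‖ ≤ ε := by
  obtain ⟨δ1, hδ1, h1⟩ := Metric.continuousWithinAt_iff.1 (F.A_cont z0 hz0) ε hε
  obtain ⟨δ2, hδ2, h2⟩ := Metric.continuousWithinAt_iff.1 (F.Pr_cont z0.1 (F.memM z0 hz0)) ε hε
  refine ⟨min δ1 δ2 / 2, by positivity, ?_⟩
  intro z hz hd
  have hm : 0 < min δ1 δ2 := lt_min hδ1 hδ2
  have hd1 : dist z z0 < δ1 := by
    have := min_le_left δ1 δ2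
    linarith
  have hd2 : dist z.1 z0.1 < δ2 := by
    have h3 := min_le_right δ1 δ2
    have h4 : dist z.1 z0.1 ≤ dist z z0 := le_max_left _ _
    linarith
  constructor
  · have h5 := h2 (F.memM z hz) hd2
    rw [dist_eq_norm] at h5
    exact h5.le
  · have h5 := h1 hz hd1
    rw [dist_eq_norm] at h5
    exact h5.le

lemma quad_lower {z0 : E n × E n} (hz0 : z0 ∈ F.B) {s0 : ℝ} {k : ℕ} (P : E n →L[ℝ] (Fin k → ℝ))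
    (hP : F.Pos z0 s0 P) : ∃ c1 > 0, ∃ C1 > 0, ∃ η > 0, ∀ z ∈ F.B, dist z z0 ≤ η → ∀ s, |s - s0| ≤ η → ∀ w,
      c1 * ‖F.Pr z.1 w‖ ^ 2 - C1 * ‖P (F.Pr z.1 w)‖ ^ 2 ≤ ‖F.Pr z.1 w‖ ^ 2 - s * inner ℝ (F.A z w) w := by
  obtain ⟨c, hc, C, hC, hfin⟩ := F.C9_finsler P hP
  obtain ⟨ε, hε, hε1, hε2, hε3⟩ : ∃ ε : ℝ, 0 < ε ∧ ε ≤ 1 / 2 ∧ (|s0| + 1) * ε ≤ c / 8 ∧
      C * (‖P‖ ^ 2 + 1) * ε ≤ c / 8 := by
    refine ⟨min (1 / 2) (min (c / 8 / (|s0| + 1)) (c / 8 / (C * (‖P‖ ^ 2 + 1)))),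
      by positivity, min_le_left _ _, ?_, ?_⟩
    · have h1 : 0 < |s0| + 1 := by positivity
      calc (|s0| + 1) * min (1 / 2) (min (c / 8 / (|s0| + 1)) (c / 8 / (C * (‖P‖ ^ 2 + 1))))
          ≤ (|s0| + 1) * (c / 8 / (|s0| + 1)) :=
            mul_le_mul_of_nonneg_left ((min_le_right _ _).trans (min_le_left _ _)) h1.le
        _ = c / 8 := mul_div_cancel₀ _ h1.ne'
    · have h1 : 0 < C * (‖P‖ ^ 2 + 1) := by positivity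
      calc C * (‖P‖ ^ 2 + 1) * min (1 / 2) (min (c / 8 / (|s0| + 1)) (c / 8 / (C * (‖P‖ ^ 2 + 1))))
          ≤ C * (‖P‖ ^ 2 + 1) * (c / 8 / (C * (‖P‖ ^ 2 + 1))) :=
            mul_le_mul_of_nonneg_left ((min_le_right _ _).trans (min_le_right _ _)) h1.le
        _ = c / 8 := mul_div_cancel₀ _ h1.ne'
  obtain ⟨η0, hη0, hnear⟩ := F.C9_near hz0 hε
  obtain ⟨η1, hη1, hη1a, hη1b⟩ : ∃ η : ℝ, 0 < η ∧ η ≤ 1 ∧ ‖F.A z0‖ * η ≤ c / 8 := by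
    refine ⟨min 1 (c / 8 / (‖F.A z0‖ + 1)), by positivity, min_le_left _ _, ?_⟩
    have h1 : 0 < ‖F.A z0‖ + 1 := by positivity
    have h2 : 0 < min 1 (c / 8 / (‖F.A z0‖ + 1)) := by positivity
    calc ‖F.A z0‖ * min 1 (c / 8 / (‖F.A z0‖ + 1))
        ≤ (‖F.A z0‖ + 1) * min 1 (c / 8 / (‖F.A z0‖ + 1)) :=
          mul_le_mul_of_nonneg_right (by linarith) h2.le
      _ ≤ (‖F.A z0‖ + 1) * (c / 8 / (‖F.A z0‖ + 1)) :=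
          mul_le_mul_of_nonneg_left (min_le_right _ _) h1.le
      _ = c / 8 := mul_div_cancel₀ _ h1.ne'
  refine ⟨c / 4, by positivity, 2 * C, by positivity, min η0 η1, by positivity, ?_⟩
  intro z hz hdz s hs w
  obtain ⟨hPr, hA⟩ := hnear z hz (hdz.trans (min_le_left _ _))
  have hs1 : |s - s0| ≤ η1 := hs.trans (min_le_right _ _)
  have hsabs : |s| ≤ |s0| + 1 := by
    have h1 : |s| ≤ |s - s0| + |s0| := by
      have := abs_add_le (s - s0) s0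
      simpa using this
    linarith
  rw [F.C9_symmA hz w]
  obtain ⟨v, hv⟩ : ∃ v : E n, v = F.Pr z.1 w := ⟨_, rfl⟩
  rw [← hv]
  have hvP : F.Pr z.1 v = v := by
    rw [hv]
    exact F.Pr_idem z.1 (F.memM z hz) w
  obtain ⟨v0, hv0⟩ : ∃ v0 : E n, v0 = F.Pr z0.1 v := ⟨_, rfl⟩
  have hv0P : F.Pr z0.1 v0 = v0 := by
    rw [hv0]
    exact F.Pr_idem z0.1 (F.memM z0 hz0) v
  have hfin0 := hfin v0 hv0P
  have hAv0 : inner ℝ (F.A z0 v0) v0 = inner ℝ (F.A z0 v) v := by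
    rw [hv0, ← F.C9_symmA hz0 v]
  rw [hAv0] at hfin0
  have hpy := F.C9_pyth (F.memM z0 hz0) v
  rw [← hv0] at hpy
  have hdv : ‖v - v0‖ ≤ ε * ‖v‖ := by
    have h1 : v - v0 = (F.Pr z.1 - F.Pr z0.1) v := by
      rw [sub_apply, hvP, hv0]
    rw [h1]
    exact (ContinuousLinearMap.le_opNorm _ _).trans
      (mul_le_mul_of_nonneg_right hPr (norm_nonneg _))
  have hPv0 : ‖P v0‖ ≤ ‖P v‖ + ‖P‖ * (ε * ‖v‖) := by
    have h1 : P v0 = P v - P (v - v0) := by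
      rw [map_sub]
      abel
    rw [h1]
    have h2 : ‖P (v - v0)‖ ≤ ‖P‖ * (ε * ‖v‖) :=
      (P.le_opNorm _).trans (mul_le_mul_of_nonneg_left hdv (norm_nonneg _))
    exact (norm_sub_le _ _).trans (by linarith)
  have hinner : |s * inner ℝ (F.A z v) v - s0 * inner ℝ (F.A z0 v) v| ≤ c / 4 * ‖v‖ ^ 2 := by
    have h1 : s * inner ℝ (F.A z v) v - s0 * inner ℝ (F.A z0 v) v =
        s * inner ℝ ((F.A z - F.A z0) v) v + (s - s0) * inner ℝ (F.A z0 v) v := by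
      rw [sub_apply, inner_sub_left]
      ring
    have h2 : |inner ℝ ((F.A z - F.A z0) v) v| ≤ ε * ‖v‖ ^ 2 := by
      refine (abs_real_inner_le_norm _ _).trans ?_
      have h3 : ‖(F.A z - F.A z0) v‖ ≤ ε * ‖v‖ :=
        (ContinuousLinearMap.le_opNorm _ _).trans
          (mul_le_mul_of_nonneg_right hA (norm_nonneg _))
      calc ‖(F.A z - F.A z0) v‖ * ‖v‖ ≤ ε * ‖v‖ * ‖v‖ :=
            mul_le_mul_of_nonneg_right h3 (norm_nonneg _)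
        _ = ε * ‖v‖ ^ 2 := by ring
    have h4 : |inner ℝ (F.A z0 v) v| ≤ ‖F.A z0‖ * ‖v‖ ^ 2 := by
      refine (abs_real_inner_le_norm _ _).trans ?_
      calc ‖F.A z0 v‖ * ‖v‖ ≤ ‖F.A z0‖ * ‖v‖ * ‖v‖ :=
            mul_le_mul_of_nonneg_right (ContinuousLinearMap.le_opNorm _ _) (norm_nonneg _)
        _ = ‖F.A z0‖ * ‖v‖ ^ 2 := by ring
    rw [h1]
    refine (abs_add_le _ _).trans ?_
    rw [abs_mul, abs_mul]
    have h5 : |s| * |inner ℝ ((F.A z - F.A z0) v) v| ≤ (|s0| + 1) * (ε * ‖v‖ ^ 2) :=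
      mul_le_mul hsabs h2 (abs_nonneg _) (by positivity)
    have h6 : |s - s0| * |inner ℝ (F.A z0 v) v| ≤ η1 * (‖F.A z0‖ * ‖v‖ ^ 2) :=
      mul_le_mul hs1 h4 (abs_nonneg _) hη1.le
    have h7 : (|s0| + 1) * (ε * ‖v‖ ^ 2) ≤ c / 8 * ‖v‖ ^ 2 := by
      rw [← mul_assoc]
      exact mul_le_mul_of_nonneg_right hε2 (by positivity)
    have h8 : η1 * (‖F.A z0‖ * ‖v‖ ^ 2) ≤ c / 8 * ‖v‖ ^ 2 := by
      have h9 : η1 * (‖F.A z0‖ * ‖v‖ ^ 2) = ‖F.A z0‖ * η1 * ‖v‖ ^ 2 := by ring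
      rw [h9]
      exact mul_le_mul_of_nonneg_right hη1b (by positivity)
    linarith
  have hsq1 : ‖v - v0‖ ^ 2 ≤ 1 / 4 * ‖v‖ ^ 2 := by
    have h1 : ‖v - v0‖ ≤ 1 / 2 * ‖v‖ :=
      hdv.trans (mul_le_mul_of_nonneg_right hε1 (norm_nonneg _))
    calc ‖v - v0‖ ^ 2 ≤ (1 / 2 * ‖v‖) ^ 2 := pow_le_pow_left₀ (norm_nonneg _) h1 2
      _ = 1 / 4 * ‖v‖ ^ 2 := by ring
  have hv0sq : 3 / 4 * ‖v‖ ^ 2 ≤ ‖v0‖ ^ 2 := by linarith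
  have hPsq : C * ‖P v0‖ ^ 2 ≤ 2 * C * ‖P v‖ ^ 2 + c / 4 * ‖v‖ ^ 2 := by
    have h1 : ‖P v0‖ ^ 2 ≤ (‖P v‖ + ‖P‖ * (ε * ‖v‖)) ^ 2 :=
      pow_le_pow_left₀ (norm_nonneg _) hPv0 2
    have h2 : (‖P v‖ + ‖P‖ * (ε * ‖v‖)) ^ 2 ≤ 2 * ‖P v‖ ^ 2 + 2 * (‖P‖ * (ε * ‖v‖)) ^ 2 := by
      have := sq_nonneg (‖P v‖ - ‖P‖ * (ε * ‖v‖))
      linarith [this]
    have h3 : C * (‖P‖ * (ε * ‖v‖)) ^ 2 ≤ c / 8 * ‖v‖ ^ 2 := by
      have h4 : C * (‖P‖ * (ε * ‖v‖)) ^ 2 = (C * ‖P‖ ^ 2 * ε * ε) * ‖v‖ ^ 2 := by ring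
      rw [h4]
      refine mul_le_mul_of_nonneg_right ?_ (by positivity)
      have h5 : C * ‖P‖ ^ 2 * ε * ε ≤ C * ‖P‖ ^ 2 * ε * 1 :=
        mul_le_mul_of_nonneg_left (by linarith) (by positivity)
      have h6 : C * ‖P‖ ^ 2 * ε ≤ C * (‖P‖ ^ 2 + 1) * ε := by
        refine mul_le_mul_of_nonneg_right ?_ hε.le
        exact mul_le_mul_of_nonneg_left (by linarith) hC.le
      linarith
    calc C * ‖P v0‖ ^ 2 ≤ C * (2 * ‖P v‖ ^ 2 + 2 * (‖P‖ * (ε * ‖v‖)) ^ 2) :=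
          mul_le_mul_of_nonneg_left (h1.trans h2) hC.le
      _ = 2 * C * ‖P v‖ ^ 2 + 2 * (C * (‖P‖ * (ε * ‖v‖)) ^ 2) := by ring
      _ ≤ 2 * C * ‖P v‖ ^ 2 + c / 4 * ‖v‖ ^ 2 := by linarith
  have hi := abs_le.1 hinner
  have hvv : ‖v0‖ ^ 2 ≤ ‖v‖ ^ 2 := by
    have := sq_nonneg ‖v - v0‖
    linarith
  have hcv : c * (3 / 4 * ‖v‖ ^ 2) ≤ c * ‖v0‖ ^ 2 := mul_le_mul_of_nonneg_left hv0sq hc.le
  linarith [hi.1, hi.2]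

theorem cone {z0 : E n × E n} (hz0 : z0 ∈ F.B) {s0 : ℝ} (hs0 : 0 < s0) {k : ℕ} (P : E n →L[ℝ] (Fin k → ℝ))
    (hP : F.Pos z0 s0 P) : ∃ c > 0, ∃ δ > 0, ∀ z ∈ F.B, dist z z0 ≤ δ → ∀ s, |s - s0| ≤ δ → ∀ x ∈ F.M,
      ‖x - z.1‖ ≤ δ → ‖x - Ex s z‖ ≤ s → c * ‖x - z.1‖ ≤ ‖P (x - z.1)‖ := by
  obtain ⟨c1, hc1, C1, hC1, η, hη, hq⟩ := F.quad_lower hz0 P hP
  obtain ⟨C, hC⟩ := F.est
  obtain ⟨δ1, hδ1, htay⟩ := F.tay (s0 + 1) (c1 / 8) (by positivity)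
  have hc2 : 0 < Real.sqrt (c1 / (8 * C1)) := Real.sqrt_pos.2 (by positivity)
  obtain ⟨c2, hc2def⟩ : ∃ c2 : ℝ, c2 = Real.sqrt (c1 / (8 * C1)) := ⟨_, rfl⟩
  rw [← hc2def] at hc2
  have hc2sq : c2 ^ 2 = c1 / (8 * C1) := by
    rw [hc2def]
    exact Real.sq_sqrt (by positivity)
  obtain ⟨δ2, hδ2, hδ2a, hδ2b⟩ : ∃ δ : ℝ, 0 < δ ∧ |C| * δ ≤ 1 / 2 ∧ ‖P‖ * |C| * δ ≤ c2 / 2 := by
    refine ⟨min (1 / 2 / (|C| + 1)) (c2 / 2 / (‖P‖ * |C| + 1)), by positivity, ?_, ?_⟩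
    · have h1 : 0 < |C| + 1 := by positivity
      calc |C| * min (1 / 2 / (|C| + 1)) (c2 / 2 / (‖P‖ * |C| + 1))
          ≤ |C| * (1 / 2 / (|C| + 1)) := mul_le_mul_of_nonneg_left (min_le_left _ _) (abs_nonneg _)
        _ ≤ (|C| + 1) * (1 / 2 / (|C| + 1)) :=
          mul_le_mul_of_nonneg_right (by linarith) (by positivity)
        _ = 1 / 2 := mul_div_cancel₀ _ h1.ne'
    · have h1 : 0 < ‖P‖ * |C| + 1 := by positivity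
      calc ‖P‖ * |C| * min (1 / 2 / (|C| + 1)) (c2 / 2 / (‖P‖ * |C| + 1))
          ≤ ‖P‖ * |C| * (c2 / 2 / (‖P‖ * |C| + 1)) :=
            mul_le_mul_of_nonneg_left (min_le_right _ _) (by positivity)
        _ ≤ (‖P‖ * |C| + 1) * (c2 / 2 / (‖P‖ * |C| + 1)) :=
          mul_le_mul_of_nonneg_right (by linarith) (by positivity)
        _ = c2 / 2 := mul_div_cancel₀ _ h1.ne'
  refine ⟨c2 / 2, by positivity, min (min η 1) (min δ1 δ2), by positivity, ?_⟩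
  intro z hz hdz s hs x hx hxz hxE
  have hs0' : 0 ≤ s := (norm_nonneg _).trans hxE
  have hs1 : |s - s0| ≤ η := hs.trans ((min_le_left _ _).trans (min_le_left _ _))
  have hs2 : |s - s0| ≤ 1 := hs.trans ((min_le_left _ _).trans (min_le_right _ _))
  have hsR : s ≤ s0 + 1 := by
    have := (abs_le.1 hs2).2
    linarith
  have hx1 : ‖x - z.1‖ ≤ δ1 := hxz.trans ((min_le_right _ _).trans (min_le_left _ _))
  have hx2 : ‖x - z.1‖ ≤ δ2 := hxz.trans ((min_le_right _ _).trans (min_le_right _ _))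
  have ht := htay z hz s hs0' hsR x hx hx1
  have hqz := hq z hz (hdz.trans ((min_le_left _ _).trans (min_le_left _ _))) s hs1 (x - z.1)
  have he := hC z.1 (F.memM z hz) x hx
  have hE2 : ‖x - (z.1 + s • z.2)‖ ^ 2 ≤ s ^ 2 := pow_le_pow_left₀ (norm_nonneg _) hxE 2
  obtain ⟨u, hu⟩ : ∃ u : E n, u = x - z.1 := ⟨_, rfl⟩
  rw [← hu] at ht hqz he hx2 ⊢
  have ht1 := (abs_le.1 ht).1
  obtain ⟨p, hp⟩ : ∃ p : E n, p = F.Pr z.1 u := ⟨_, rfl⟩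
  rw [← hp] at ht1 hqz he
  have he2 : ‖u - p‖ ≤ |C| * δ2 * ‖u‖ := by
    calc ‖u - p‖ ≤ C * ‖u‖ ^ 2 := he
      _ ≤ |C| * ‖u‖ ^ 2 := mul_le_mul_of_nonneg_right (le_abs_self C) (by positivity)
      _ = |C| * ‖u‖ * ‖u‖ := by ring
      _ ≤ |C| * δ2 * ‖u‖ := mul_le_mul_of_nonneg_right
          (mul_le_mul_of_nonneg_left hx2 (abs_nonneg _)) (norm_nonneg _)
  have hpu : 1 / 2 * ‖u‖ ≤ ‖p‖ := by
    have h1 : ‖u‖ ≤ ‖u - p‖ + ‖p‖ := by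
      have := norm_add_le (u - p) p
      simpa using this
    have h2 : |C| * δ2 * ‖u‖ ≤ 1 / 2 * ‖u‖ := mul_le_mul_of_nonneg_right hδ2a (norm_nonneg _)
    linarith
  have hpu2 : 1 / 4 * ‖u‖ ^ 2 ≤ ‖p‖ ^ 2 := by
    calc 1 / 4 * ‖u‖ ^ 2 = (1 / 2 * ‖u‖) ^ 2 := by ring
      _ ≤ ‖p‖ ^ 2 := pow_le_pow_left₀ (by positivity) hpu 2
  have hPp : c2 * ‖u‖ ≤ ‖P p‖ := by
    have h1 : c1 * (1 / 4 * ‖u‖ ^ 2) ≤ c1 * ‖p‖ ^ 2 := mul_le_mul_of_nonneg_left hpu2 hc1.le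
    have h2 : c1 / 8 * ‖u‖ ^ 2 ≤ C1 * ‖P p‖ ^ 2 := by linarith
    have h3 : (c2 * ‖u‖) ^ 2 ≤ ‖P p‖ ^ 2 := by
      rw [mul_pow, hc2sq]
      have h4 : c1 / (8 * C1) * ‖u‖ ^ 2 = c1 / 8 * ‖u‖ ^ 2 / C1 := by
        field_simp
      rw [h4, div_le_iff₀ hC1]
      linarith
    exact le_of_sq_le_sq h3 (norm_nonneg _)
  have hPd : ‖P (u - p)‖ ≤ c2 / 2 * ‖u‖ := by
    calc ‖P (u - p)‖ ≤ ‖P‖ * ‖u - p‖ := P.le_opNorm _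
      _ ≤ ‖P‖ * (|C| * δ2 * ‖u‖) := mul_le_mul_of_nonneg_left he2 (norm_nonneg _)
      _ = ‖P‖ * |C| * δ2 * ‖u‖ := by ring
      _ ≤ c2 / 2 * ‖u‖ := mul_le_mul_of_nonneg_right hδ2b (norm_nonneg _)
  have hfinal : ‖P p‖ ≤ ‖P u‖ + ‖P (u - p)‖ := by
    have h1 : P p = P u - P (u - p) := by
      rw [map_sub]
      abel
    rw [h1]
    exact norm_sub_le _ _
  linarith

/-- positivity of the second derivative on the kernel of `P` is an open condition -/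
lemma Pos.near {z0 : E n × E n} (hz0 : z0 ∈ F.B) {s0 : ℝ} {k : ℕ} (P : E n →L[ℝ] (Fin k → ℝ))
    (hP : F.Pos z0 s0 P) : ∃ η > 0, ∀ z ∈ F.B, dist z z0 ≤ η → F.Pos z s0 P := by
  obtain ⟨c1, hc1, C1, hC1, η, hη, hq⟩ := F.quad_lower hz0 P hP
  refine ⟨η, hη, ?_⟩
  intro z hz hdz w hw hPw hw0
  have h1 := hq z hz hdz s0 (by rw [sub_self, abs_zero]; exact hη.le) w
  rw [hw, hPw, norm_zero] at h1
  have h2 : 0 < c1 * ‖w‖ ^ 2 := by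
    have h3 : 0 < ‖w‖ := norm_pos_iff.2 hw0
    positivity
  linarith

end Foc

end F7H
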