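import Pool.Agent.Lib.MP_f7aa1b_gt.H.C7
import Pool.Agent.Lib.MP_f7aa1b_gt.H.C9
import Pool.Agent.Lib.MP_f7aa1b_gt.H.C10

/-!
Row f7h-C12 (220 lines): the ray as a point of the path space; the local generator over a leaf.

`rayP z R`: the cut off ray.  `rayP_mem`: constructor `ray`.  `eq_rayP`: if `g ∈ K R z T` (`mul z T = 0`) and `g 0 = z.1` then the path has
`‖f 0 - Ex T z‖ = ‖T • z.2‖ = T`, so `IsPath.strict`.
`end_bound`: `g ∈ K R z T`: `g 0 ∈ M`, `‖g 0 - Ex T z‖ ≤ T` (`end_mem`, `end_le`; `g 0 = f 0` because `0 ≤ R`).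
`end_bound_leaf`: for `g ∈ K R z T`, `y = rho g ∈ Cc z t`: `g - shiftP ∈ K R y (t - δ)` (`fibre_eq`), same value at `0` (`shiftP_apply`), so
`‖g 0 - Ex (t - δ) y‖ ≤ t - δ`.
`gen_leaf`: take `c, δ1` from `cone` at `(y, t - δ)` for `P`, `η` from `Pos.near`, `r0 = min δ1 η`.  Put `h g = ‖g 0 - (rho g).1‖`,
`Kr = K ∩ rho ⁻¹' closedBall y r` (compact).  On `Kr ∩ {r / 2 ≤ h ≤ r}`: `P (g 0 - (rho g).1) ≠ 0` by `cone` (with `z := rho g`,
`s := t - δ`, `x := g 0`), so `GG` vanishes there (`GG_van'`): `loc_cocC` (`dl_GG`).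
Generator on the fibre over `y'`: by `Pos.near` we have `Pos y' (t - δ) P`; `TT R y' (t - δ)` gives `ρ0`; take `ρ < min ρ0 r`; `hg_fibre`:
`HG fibre ∅ (loc {‖g 0 - y'.1‖ ≤ ρ} (GG b (P (g 0 - y'.1))))`.  Apply `iso_indep` in the compact fibre with `p = rayP y' R + shiftP`, `W = {‖g 0 - y'.1‖ ≤ ρ}`,
`W' = {h ≤ r}` (closed; `rho g = y'` on the fibre, so the two functions agree on the fibre); zeros: `P (g 0 - y'.1) = 0`, `‖g 0 - y'.1‖ ≤ r` gives
`g 0 = y'.1` by `cone`, and then `g - shiftP = rayP y'` by `eq_rayP`.  Then `HG.congr_van`.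
-/

set_option autoImplicit false

open Set Filter Topology Metric
open scoped BoundedContinuousFunction

namespace F7H

open MPf7aa (E)

namespace Foc

variable {n : ℕ} {F : Foc n}

theorem exists_rayP (z : E n × E n) (R : ℝ) : ∃ p : Pth n, ∀ s, p s = Ex (max 0 (min s R)) z := by
  have hc : Continuous (fun s : ℝ => (Ex (max 0 (min s R)) z : E n)) := by
    unfold Ex
    fun_prop
  have hb : ∀ s : ℝ, ‖(Ex (max 0 (min s R)) z : E n)‖ ≤ ‖z.1‖ + |R| * ‖z.2‖ := by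
    intro s
    unfold Ex
    refine (norm_add_le _ _).trans ?_
    rw [norm_smul, Real.norm_eq_abs]
    have h1 : |max 0 (min s R)| ≤ |R| := by
      rw [abs_of_nonneg (le_max_left _ _)]
      exact max_le (abs_nonneg _) ((min_le_right _ _).trans (le_abs_self _))
    have h2 := mul_le_mul_of_nonneg_right h1 (norm_nonneg z.2)
    linarith
  exact ⟨BoundedContinuousFunction.ofNormedAddCommGroup _ hc _ hb, fun s => rfl⟩

/-- the ray of `z` as a path -/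
noncomputable def rayP (z : E n × E n) (R : ℝ) : Pth n := (exists_rayP z R).choose

lemma rayP_apply (z : E n × E n) (R s : ℝ) : rayP z R s = Ex (max 0 (min s R)) z := (exists_rayP z R).choose_spec s

lemma rayP_mem {z : E n × E n} (hz : z ∈ F.B) {T : ℝ} (hT : 0 < T) (R : ℝ) : rayP z R ∈ F.K R z T := by
  exact ⟨fun s => Ex s z, IsPath.ray z T hz hT, fun s => rayP_apply z R s⟩

lemma end_bound {z : E n × E n} {T R : ℝ} (hR : T ≤ R) {g : Pth n} (hg : g ∈ F.K R z T) :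
    g 0 ∈ F.M ∧ ‖g 0 - Ex T z‖ ≤ T := by
  obtain ⟨f, hf, hgf⟩ := hg
  have hR0 : 0 ≤ R := hf.mem.2.le.trans hR
  have h0 : g 0 = f 0 := by
    rw [hgf 0, min_eq_left hR0, max_self]
  rw [h0]
  exact ⟨hf.end_mem, hf.end_le⟩

lemma eq_rayP {z : E n × E n} {T R : ℝ} (hR : T ≤ R) (hm : F.mul z T = 0) {g : Pth n}
    (hg : g ∈ F.K R z T) (h : ‖g 0 - Ex T z‖ = T) : g = rayP z R := by
  obtain ⟨f, hf, hgf⟩ := hg
  have hR0 : 0 ≤ R := hf.mem.2.le.trans hR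
  have h0 : g 0 = f 0 := by
    rw [hgf 0, min_eq_left hR0, max_self]
  rw [h0] at h
  have h1 := hf.strict hm h
  apply BoundedContinuousFunction.ext
  intro s
  rw [hgf s, h1, rayP_apply]

lemma C12_shift_zero (y z : E n × E n) (t R : ℝ) (ht : 0 ≤ t) (hR : 0 ≤ R) :
    shiftP y z t R ht 0 = 0 := by
  rw [shiftP_apply, min_eq_left hR, max_self, zero_sub, max_eq_left (by linarith), zero_smul]

lemma end_bound_leaf {z : E n × E n} {T t δ R : ℝ} (ht : t ≤ T) (hR : T ≤ R) (hδ : 0 < δ) (hδt : δ < t)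
    (hz : z ∈ F.B) (hf : ∀ s, t < s → s ≤ T → F.mul z s = 0)
    (hg : ∀ y ∈ F.Cc z t, ∀ s, t - δ ≤ s → s < t → F.mul y s = 0) {g : Pth n} (hgK : g ∈ F.K R z T) :
    ‖g 0 - Ex (t - δ) (rho t δ g)‖ ≤ t - δ := by
  have hy : rho t δ g ∈ F.Cc z t := rho_mem ht hR hδ hδt hz hf hg hgK
  have h1 := (fibre_eq ht hR hδ hδt hz hf hg hy g).1 ⟨hgK, rfl⟩
  have h2 := (end_bound (by linarith) h1).2
  have hR0 : 0 ≤ R := by linarith
  rw [BoundedContinuousFunction.sub_apply, C12_shift_zero _ _ _ _ _ hR0, sub_zero] at h2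
  exact h2

lemma C12_cont_eval (s : ℝ) : Continuous (fun g : Pth n => g s) :=
  continuous_eval_const s

lemma C12_cont_sub (t δ : ℝ) : Continuous (fun g : Pth n => g 0 - (rho t δ g).1) :=
  (C12_cont_eval 0).sub (continuous_fst.comp (rho_cont t δ))

lemma C12_p_zero (y z : E n × E n) (t R : ℝ) (ht : 0 ≤ t) (hR : 0 ≤ R) :
    (rayP y R + shiftP y z t R ht) 0 = y.1 := by
  rw [BoundedContinuousFunction.add_apply, C12_shift_zero _ _ _ _ _ hR, rayP_apply, min_eq_left hR,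
    max_self, add_zero]
  unfold Ex
  rw [zero_smul, add_zero]

lemma C12_near {y z : E n × E n} {t R : ℝ} (ht : 0 ≤ t) (hR : 0 ≤ R) (g : Pth n) :
    ‖g 0 - y.1‖ ≤ dist g (rayP y R + shiftP y z t R ht) := by
  have h := BoundedContinuousFunction.dist_coe_le_dist
    (f := g) (g := rayP y R + shiftP y z t R ht) (0 : ℝ)
  rw [C12_p_zero y z t R ht hR, dist_eq_norm] at h
  exact h

lemma C12_zero {z y y' : E n × E n} {T t δ R : ℝ} (ht : t ≤ T) (hR : T ≤ R) (hδ : 0 < δ) (hδt : δ < t)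
    (hz : z ∈ F.B) (hf : ∀ s, t < s → s ≤ T → F.mul z s = 0)
    (hg : ∀ y ∈ F.Cc z t, ∀ s, t - δ ≤ s → s < t → F.mul y s = 0) {b : ℕ}
    (P : E n →L[ℝ] (Fin b → ℝ)) {c δ1 : ℝ} (hc : 0 < c) (hδ1 : 0 < δ1)
    (hcone : ∀ z ∈ F.B, dist z y ≤ δ1 → ∀ s, |s - (t - δ)| ≤ δ1 → ∀ x ∈ F.M,
      ‖x - z.1‖ ≤ δ1 → ‖x - Ex s z‖ ≤ s → c * ‖x - z.1‖ ≤ ‖P (x - z.1)‖)
    (hy' : y' ∈ F.Cc z t) (hyy : dist y' y ≤ δ1) {g : Pth n}
    (hgK : g ∈ F.K R z T ∩ rho t δ ⁻¹' {y'}) (hn : ‖g 0 - y'.1‖ ≤ δ1) (h0 : P (g 0 - y'.1) = 0) :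
    g = rayP y' R + shiftP y' z t R (hδ.le.trans hδt.le) := by
  have hrho : rho t δ g = y' := hgK.2
  have h1 := end_bound_leaf ht hR hδ hδt hz hf hg hgK.1
  rw [hrho] at h1
  have h2 := hcone y' (F.Cc_B hy') hyy (t - δ) (by simpa using hδ1.le) (g 0)
    (end_bound hR hgK.1).1 hn h1
  rw [h0, norm_zero] at h2
  have h3 : ‖g 0 - y'.1‖ = 0 := by
    have := norm_nonneg (g 0 - y'.1)
    by_contra hne
    have hpos : 0 < ‖g 0 - y'.1‖ := lt_of_le_of_ne this (Ne.symm hne)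
    have := mul_pos hc hpos
    linarith
  have h4 : g 0 = y'.1 := by
    rw [norm_eq_zero, sub_eq_zero] at h3
    exact h3
  have h5 := (fibre_eq ht hR hδ hδt hz hf hg hy' g).1 hgK
  have hR0 : 0 ≤ R := by linarith
  have h6 : ‖(g - shiftP y' z t R (hδ.le.trans hδt.le)) 0 - Ex (t - δ) y'‖ = t - δ := by
    rw [BoundedContinuousFunction.sub_apply, C12_shift_zero _ _ _ _ _ hR0, sub_zero, h4]
    unfold Ex
    have e : y'.1 - (y'.1 + (t - δ) • y'.2) = - ((t - δ) • y'.2) := by abel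
    rw [e, norm_neg, norm_smul, F.unit y' (F.Cc_B hy'), mul_one, Real.norm_eq_abs,
      abs_of_nonneg (by linarith)]
  have h7 := eq_rayP (by linarith) (hg y' hy' (t - δ) le_rfl (by linarith)) h5 h6
  rw [← h7, sub_add_cancel]

theorem gen_leaf {z y : E n × E n} {T t δ R : ℝ} (ht : t ≤ T) (hR : T ≤ R) (hδ : 0 < δ) (hδt : δ < t)
    (hz : z ∈ F.B) (hf : ∀ s, t < s → s ≤ T → F.mul z s = 0)
    (hg : ∀ y ∈ F.Cc z t, ∀ s, t - δ ≤ s → s < t → F.mul y s = 0) (hy : y ∈ F.Cc z t) {b : ℕ}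
    (hb : ∀ y ∈ F.Cc z t, F.idx y (t - δ) = b) (P : E n →L[ℝ] (Fin b → ℝ)) (hP : F.Pos y (t - δ) P)
    (hTT : ∀ y ∈ F.Cc z t, F.TT R y (t - δ)) :
    ∃ r0 > 0, ∀ r, 0 < r → r ≤ r0 → ASC.Gen (F.K R z T) (rho t δ) (F.Cc z t) y r
      (ASC.loc {g : Pth n | ‖g 0 - (rho t δ g).1‖ ≤ r} (ASC.GG b (fun g => P (g 0 - (rho t δ g).1)))) := by
  have hyB : y ∈ F.B := F.Cc_B hy
  have hT : 0 < T := by linarith
  have hR0 : 0 ≤ R := by linarith
  obtain ⟨c, hc, δ1, hδ1, hcone⟩ := F.cone hyB (s0 := t - δ) (by linarith) P hP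
  obtain ⟨η, hη, hnear⟩ := Pos.near F hyB P hP
  refine ⟨min δ1 η, lt_min hδ1 hη, fun r hr hr0 => ?_⟩
  have hrδ1 : r ≤ δ1 := hr0.trans (min_le_left _ _)
  have hrη : r ≤ η := hr0.trans (min_le_right _ _)
  have hKc : IsCompact (F.K R z T) := K_compact hz hT hR
  have hFc : Continuous (fun g : Pth n => P (g 0 - (rho t δ g).1)) :=
    P.continuous.comp (C12_cont_sub t δ)
  have hhc : Continuous (fun g : Pth n => ‖g 0 - (rho t δ g).1‖) := (C12_cont_sub t δ).norm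
  refine ⟨?_, ?_⟩
  · have hKr : IsCompact (F.K R z T ∩ rho t δ ⁻¹' (closedBall y r)) :=
      hKc.inter_right (isClosed_closedBall.preimage (rho_cont t δ))
    refine ASC.loc_cocC hKr (h := fun g => ‖g 0 - (rho t δ g).1‖) hhc.continuousOn
      (r' := r / 2) (r := r) (by linarith) ?_ ?_
    · have hcl : IsClosed {g : Pth n | r / 2 ≤ ‖g 0 - (rho t δ g).1‖ ∧ ‖g 0 - (rho t δ g).1‖ ≤ r} :=
        (isClosed_le continuous_const hhc).inter (isClosed_le hhc continuous_const)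
      refine ASC.GG_van' (hKr.inter_right hcl) hFc.continuousOn ?_
      rintro g ⟨⟨hgK, hgb⟩, h1, h2⟩ h0
      have hyg : rho t δ g ∈ F.Cc z t := rho_mem ht hR hδ hδt hz hf hg hgK
      have h3 := hcone (rho t δ g) (F.Cc_B hyg) ((mem_closedBall.1 hgb).trans hrδ1) (t - δ)
        (by simpa using hδ1.le) (g 0) (end_bound hR hgK).1 (h2.trans hrδ1)
        (end_bound_leaf ht hR hδ hδt hz hf hg hgK)
      rw [h0, norm_zero] at h3
      have h4 := mul_le_mul_of_nonneg_left h1 hc.le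
      have h5 : 0 < c * (r / 2) := mul_pos hc (by linarith)
      linarith
    · rw [ASC.dl_GG]
      exact ASC.Van.zero _
  · intro y' hy' hyy
    have hyy1 : dist y' y ≤ δ1 := hyy.trans hrδ1
    obtain ⟨ρ0, hρ0, hHG⟩ := (hTT y' hy').2 b (hb y' hy') P
      (hnear y' (F.Cc_B hy') (hyy.trans hrη))
    have hm : 0 < min ρ0 r := lt_min hρ0 hr
    have hρ1 : min ρ0 r / 2 < ρ0 := by
      have := min_le_left ρ0 r
      linarith
    have hρ2 : min ρ0 r / 2 ≤ r := by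
      have := min_le_right ρ0 r
      linarith
    have hρ3 : 0 < min ρ0 r / 2 := by linarith
    obtain ⟨ρ, hρdef⟩ : ∃ ρ, ρ = min ρ0 r / 2 := ⟨_, rfl⟩
    rw [← hρdef] at hρ1 hρ2 hρ3
    have h1 := hg_fibre ht hR hδ hδt hz hf hg hy' P ρ (hHG ρ hρ3 hρ1)
    refine ASC.HG.congr_van (empty_subset _) h1 ?_
    have hKf : IsCompact (F.K R z T ∩ rho t δ ⁻¹' {y'}) :=
      hKc.inter_right (isClosed_singleton.preimage (rho_cont t δ))
    have hev : Continuous (fun g : Pth n => g 0 - y'.1) := (C12_cont_eval 0).sub continuous_const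
    refine ASC.iso_indep hKf (p := rayP y' R + shiftP y' z t R (hδ.le.trans hδt.le))
      ⟨isClosed_le hev.norm continuous_const, ⟨ρ, hρ3, ?_⟩, (P.continuous.comp hev).continuousOn, ?_⟩
      ⟨isClosed_le hhc continuous_const, ⟨r, hr, ?_⟩, hFc.continuousOn, ?_⟩ ?_
    · rintro g ⟨_, hgb⟩
      exact (C12_near (hδ.le.trans hδt.le) hR0 g).trans (mem_ball.1 hgb).le
    · rintro g ⟨hgK, hgW⟩ h0
      exact C12_zero ht hR hδ hδt hz hf hg P hc hδ1 hcone hy' hyy1 hgK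
        ((show ‖g 0 - y'.1‖ ≤ ρ from hgW).trans (hρ2.trans hrδ1)) h0
    · rintro g ⟨hgK, hgb⟩
      have hrho : rho t δ g = y' := hgK.2
      show ‖g 0 - (rho t δ g).1‖ ≤ r
      rw [hrho]
      exact (C12_near (hδ.le.trans hδt.le) hR0 g).trans (mem_ball.1 hgb).le
    · rintro g ⟨hgK, hgW⟩ h0
      have hrho : rho t δ g = y' := hgK.2
      have hgW' : ‖g 0 - (rho t δ g).1‖ ≤ r := hgW
      have h0' : P (g 0 - (rho t δ g).1) = 0 := h0
      rw [hrho] at hgW' h0'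
      exact C12_zero ht hR hδ hδt hz hf hg P hc hδ1 hcone hy' hyy1 hgK (hgW'.trans hrδ1) h0'
    · rintro g ⟨⟨hgK, _⟩, _⟩
      have hrho : rho t δ g = y' := hgK.2
      show P (g 0 - y'.1) = P (g 0 - (rho t δ g).1)
      rw [hrho]

end Foc

end F7H
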