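import Pool.Agent.Lib.MP_f7aa1b_gt.H.C11
import Pool.Agent.Lib.MP_f7aa1b_gt.H.C12

/-!
Row f7h-C13a (180 lines): zeros of the comparison homotopy.

Setting: `t` the last focal time before `T`; `κ0`, `P1`, `P2` as in `split_pos`.  `v = (rho g).1 - z.1`, `a = g 0 - (rho g).1`.
`zeros`: the function is `app m ((1 - θ) • P1 (a + v) + θ • κ0 v) (P2 (a + v - θ • v))`.  Suppose it is zero, `‖a‖ ≤ η`, `dist (rho g) z ≤ η`, `η`
small.  Second component: `P2 a = -(1 - θ) P2 v = -(1 - θ) P2 (v - PN v)`, `PN` = projection onto `N z t` (`P2 = 0` on `N`), so by `ch_tan`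
(`rho g ∈ Cc z t ⊆ fib z t`) `‖P2 a‖ ≤ ‖P2‖ ε ‖v‖`; by `cone` at `(z, t - δ)` for `P2` (`Pos z (t - δ) P2`; `rho g` near `z`, `s = t - δ`, `x = g 0`, `end_bound`,
`end_bound_leaf`): `c ‖a‖ ≤ ‖P2 a‖`, so `‖a‖ ≤ (‖P2‖ ε / c) ‖v‖`.  First component: `P1 v = P1 (PN v) + P1 (v - PN v) = κ0 (PN v) + ... = κ0 v + P1 (v - PN v)`,
so `0 = κ0 v + (1 - θ) P1 a + (1 - θ) P1 (v - PN v)`, hence `‖κ0 v‖ ≤ ‖P1‖ ‖a‖ + ‖P1‖ ε ‖v‖ ≤ C ε ‖v‖`.  `κ0` is injective on `N`: `‖κ0 v‖ = ‖κ0 (PN v)‖ ≥ c2 ‖PN v‖ ≥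
c2 (1 - ε) ‖v‖`.  For `ε` small: `v = 0`, then `a = 0`.  Then `g 0 = z.1`, and `‖g 0 - Ex T z‖ = ‖T • z.2‖ = T`, so `g = rayP z R` (`eq_rayP`).
-/

set_option autoImplicit false

open Set Filter Topology Metric
open scoped BoundedContinuousFunction

namespace F7H

open MPf7aa (E)

namespace Foc

variable {n : ℕ} {F : Foc n}

/-- a linear map which is injective on a subspace is bounded below there -/
lemma C13a_bdd {m : ℕ} (N : Submodule ℝ (E n)) (κ0 : E n →L[ℝ] (Fin m → ℝ)) (h2 : ∀ w ∈ N, κ0 w = 0 → w = 0) :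
    ∃ c > 0, ∀ w ∈ N, c * ‖w‖ ≤ ‖κ0 w‖ := by
  have hker : LinearMap.ker ((κ0 : E n →ₗ[ℝ] (Fin m → ℝ)).comp N.subtype) = ⊥ := by
    rw [LinearMap.ker_eq_bot']
    intro w hw
    have h := h2 w.1 w.2 hw
    exact Subtype.ext h
  obtain ⟨K, hK, hA⟩ := LinearMap.exists_antilipschitzWith _ hker
  refine ⟨(K : ℝ)⁻¹, inv_pos.mpr (by exact_mod_cast hK), fun w hw => ?_⟩
  have h1 := hA.le_mul_dist (⟨w, hw⟩ : N) 0
  rw [map_zero, dist_zero_right, dist_zero_right] at h1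
  have h3 : ‖w‖ ≤ (K : ℝ) * ‖κ0 w‖ := h1
  have hK' : (0 : ℝ) < K := by exact_mod_cast hK
  rw [inv_mul_le_iff₀ hK']
  exact h3

/-- the estimates which force the zero -/
lemma C13a_force {c c2 A1 A2 ε a v : ℝ} (hc : 0 < c) (hc2 : 0 < c2) (hA1 : 0 ≤ A1)
    (hε1 : ε ≤ 1 / 2) (hε2 : (A1 * A2 / c + A1) * ε ≤ c2 / 4) (ha : 0 ≤ a) (hv : 0 ≤ v)
    (e1 : c * a ≤ A2 * (ε * v)) (e2 : c2 * (v - ε * v) ≤ A1 * a + A1 * (ε * v)) : v = 0 ∧ a = 0 := by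
  have e3 : a ≤ A2 * (ε * v) / c := by
    rw [le_div_iff₀ hc]; linarith
  have e4 : A1 * a ≤ A1 * (A2 * (ε * v) / c) := mul_le_mul_of_nonneg_left e3 hA1
  have e5 : A1 * (A2 * (ε * v) / c) + A1 * (ε * v) = (A1 * A2 / c + A1) * ε * v := by ring
  have e6 : (A1 * A2 / c + A1) * ε * v ≤ c2 / 4 * v := mul_le_mul_of_nonneg_right hε2 hv
  have e7 : c2 * (v / 2) ≤ c2 * (v - ε * v) := by
    apply mul_le_mul_of_nonneg_left _ hc2.le
    nlinarith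
  have e8 : c2 * v ≤ 0 := by linarith
  have hv0 : v = 0 := by
    have : v ≤ 0 := by
      by_contra hcon
      push Not at hcon
      have := mul_pos hc2 hcon
      linarith
    linarith
  refine ⟨hv0, ?_⟩
  rw [hv0] at e1
  have e9 : c * a ≤ 0 := by linarith
  by_contra hcon
  have : 0 < a := lt_of_le_of_ne ha (Ne.symm hcon)
  have := mul_pos hc this
  linarith

theorem zeros {z : E n × E n} {T t δ R : ℝ} (ht : t < T) (hR : T ≤ R) (hδ : 0 < δ) (hδt : δ < t)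
    (hz : z ∈ F.B) (hf : ∀ s, t < s → s ≤ T → F.mul z s = 0)
    (hg : ∀ y ∈ F.Cc z t, ∀ s, t - δ ≤ s → s < t → F.mul y s = 0) {b m : ℕ}
    (κ0 : E n →L[ℝ] (Fin m → ℝ)) (h1 : ∀ w, κ0 ((F.N z t).starProjection w) = κ0 w)
    (h2 : ∀ w ∈ F.N z t, κ0 w = 0 → w = 0)
    (P1 : E n →L[ℝ] (Fin m → ℝ)) (P2 : E n →L[ℝ] (Fin b → ℝ)) (h3 : ∀ w ∈ F.N z t, P2 w = 0)
    (h4 : ∀ w ∈ F.N z t, P1 w = κ0 w) (h5 : F.Pos z (t - δ) P2) :
    ∃ η > 0, ∀ θ ∈ Icc (0 : ℝ) 1, ∀ g ∈ F.K R z T, dist (rho t δ g) z ≤ η → ‖g 0 - (rho t δ g).1‖ ≤ η →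
      ASC.app m ((1 - θ) • P1 (g 0 - z.1) + θ • κ0 ((rho t δ g).1 - z.1))
        (P2 (g 0 - z.1 - θ • ((rho t δ g).1 - z.1))) = 0 → g = rayP z R := by
  have ht0 : 0 < t := hδ.trans hδt
  have hs0 : 0 < t - δ := sub_pos.mpr hδt
  obtain ⟨c, hc, δ1, hδ1, hcone⟩ := F.cone hz hs0 P2 h5
  obtain ⟨c2, hc2, hbdd⟩ := C13a_bdd (F.N z t) κ0 h2
  set A1 : ℝ := ‖P1‖ with hA1
  set A2 : ℝ := ‖P2‖ with hA2
  have hA1' : 0 ≤ A1 := norm_nonneg _
  have hA2' : 0 ≤ A2 := norm_nonneg _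
  have hD : 0 < A1 * A2 / c + A1 + 1 := by positivity
  set ε : ℝ := min (1 / 2) (c2 / (4 * (A1 * A2 / c + A1 + 1))) with hεdef
  have hε : 0 < ε := lt_min (by norm_num) (by positivity)
  have hε1 : ε ≤ 1 / 2 := min_le_left _ _
  have hε2 : (A1 * A2 / c + A1) * ε ≤ c2 / 4 := by
    have e1 : ε ≤ c2 / (4 * (A1 * A2 / c + A1 + 1)) := min_le_right _ _
    have e2 : (A1 * A2 / c + A1) * ε ≤ (A1 * A2 / c + A1 + 1) * (c2 / (4 * (A1 * A2 / c + A1 + 1))) := by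
      apply mul_le_mul _ e1 hε.le hD.le
      linarith
    refine e2.trans (le_of_eq ?_)
    field_simp
  obtain ⟨δ2, hδ2, htan⟩ := F.ch_tan z hz t ht0 ε hε
  refine ⟨min δ1 (δ2 / 2), lt_min hδ1 (half_pos hδ2), ?_⟩
  intro θ hθ g hgK hd hn happ
  have hy : rho t δ g ∈ F.Cc z t := rho_mem ht.le hR hδ hδt hz hf hg hgK
  set y := rho t δ g with hydef
  have hyfib := F.Cc_sub z t hy
  have hyB : y ∈ F.B := hyfib.1
  have hM := (end_bound hR hgK).1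
  have hleaf := end_bound_leaf ht.le hR hδ hδt hz hf hg hgK
  rw [← hydef] at hleaf
  have hcy := hcone y hyB (hd.trans (min_le_left _ _)) (t - δ) (by rw [sub_self, abs_zero]; exact hδ1.le)
    (g 0) hM (hn.trans (min_le_left _ _)) hleaf
  have hty := htan y hyB hyfib.2 (lt_of_le_of_lt (hd.trans (min_le_right _ _)) (half_lt_self hδ2))
  have htyN : ‖(y.1 - z.1) - (F.N z t).starProjection (y.1 - z.1)‖ ≤ ε * ‖y.1 - z.1‖ := hty
  obtain ⟨e1, e2⟩ := ASC.app_eq_zero.mp happ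
  set v : E n := y.1 - z.1 with hv
  set a : E n := g 0 - y.1 with ha
  have hgz : g 0 - z.1 = a + v := by rw [hv, ha]; abel
  rw [hgz] at e1 e2
  set p : E n := (F.N z t).starProjection v with hp
  have hpN : p ∈ F.N z t := Submodule.starProjection_apply_mem _ _
  have hvp : v = p + (v - p) := by abel
  have hP2v : P2 v = P2 (v - p) := by
    have e := map_sub P2 v p
    rw [h3 p hpN, sub_zero] at e
    exact e.symm
  have hP1v : P1 v = κ0 v + P1 (v - p) := by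
    have e := map_sub P1 v p
    have e' : κ0 p = κ0 v := h1 v
    rw [h4 p hpN, e'] at e
    rw [e]; abel
  have hP2a : P2 a = -((1 - θ) • P2 (v - p)) := by
    have e3 : a + v - θ • v = a + (1 - θ) • v := by
      rw [sub_smul, one_smul]; abel
    rw [e3, map_add, map_smul, hP2v] at e2
    exact eq_neg_of_add_eq_zero_left e2
  have h1θ : |1 - θ| ≤ 1 := by
    rw [abs_le]; constructor <;> linarith [hθ.1, hθ.2]
  have n2 : ‖P2 a‖ ≤ A2 * (ε * ‖v‖) := by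
    rw [hP2a, norm_neg, norm_smul, Real.norm_eq_abs]
    calc |1 - θ| * ‖P2 (v - p)‖ ≤ 1 * ‖P2 (v - p)‖ := mul_le_mul_of_nonneg_right h1θ (norm_nonneg _)
      _ = ‖P2 (v - p)‖ := one_mul _
      _ ≤ A2 * ‖v - p‖ := P2.le_opNorm _
      _ ≤ A2 * (ε * ‖v‖) := mul_le_mul_of_nonneg_left htyN hA2'
  have n1 : c * ‖a‖ ≤ A2 * (ε * ‖v‖) := hcy.trans n2
  have hκ : κ0 v = -((1 - θ) • (P1 a + P1 (v - p))) := by
    rw [map_add, hP1v] at e1
    have e4 : κ0 v + (1 - θ) • (P1 a + P1 (v - p)) = (1 - θ) • (P1 a + (κ0 v + P1 (v - p))) + θ • κ0 v := by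
      simp only [smul_add, sub_smul, one_smul]
      abel
    rw [← e4] at e1
    exact eq_neg_of_add_eq_zero_left e1
  have n3 : ‖κ0 v‖ ≤ A1 * ‖a‖ + A1 * (ε * ‖v‖) := by
    rw [hκ, norm_neg, norm_smul, Real.norm_eq_abs]
    calc |1 - θ| * ‖P1 a + P1 (v - p)‖ ≤ 1 * ‖P1 a + P1 (v - p)‖ :=
          mul_le_mul_of_nonneg_right h1θ (norm_nonneg _)
      _ = ‖P1 a + P1 (v - p)‖ := one_mul _
      _ ≤ ‖P1 a‖ + ‖P1 (v - p)‖ := norm_add_le _ _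
      _ ≤ A1 * ‖a‖ + A1 * ‖v - p‖ := add_le_add (P1.le_opNorm _) (P1.le_opNorm _)
      _ ≤ A1 * ‖a‖ + A1 * (ε * ‖v‖) := by
          have := mul_le_mul_of_nonneg_left htyN hA1'
          linarith
  have n4 : c2 * (‖v‖ - ε * ‖v‖) ≤ ‖κ0 v‖ := by
    rw [← h1 v]
    refine le_trans ?_ (hbdd p hpN)
    apply mul_le_mul_of_nonneg_left _ hc2.le
    have e5 : ‖v‖ ≤ ‖p‖ + ‖v - p‖ := by
      calc ‖v‖ = ‖p + (v - p)‖ := by rw [← hvp]
        _ ≤ ‖p‖ + ‖v - p‖ := norm_add_le _ _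
    have e6 : ‖v - p‖ ≤ ε * ‖v‖ := htyN
    linarith
  obtain ⟨hv0, ha0⟩ := C13a_force hc hc2 hA1' hε1 hε2 (norm_nonneg a) (norm_nonneg v) n1 (n4.trans n3)
  have hv0' : v = 0 := norm_eq_zero.mp hv0
  have ha0' : a = 0 := norm_eq_zero.mp ha0
  have hgz0 : g 0 = z.1 := by
    rw [hv0', ha0', add_zero] at hgz
    exact sub_eq_zero.mp hgz
  have hT0 : 0 < T := ht0.trans ht
  refine eq_rayP hR (hf T ht le_rfl) hgK ?_
  rw [hgz0]
  unfold Ex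
  rw [sub_add_cancel_left, norm_neg, norm_smul, F.unit z hz, mul_one, Real.norm_eq_abs, abs_of_pos hT0]

/-- the value and the foot of the ray -/
lemma rho_rayP {z : E n × E n} {t δ R : ℝ} (hδ : 0 < δ) (hδt : δ < t) (hR : t ≤ R) :
    rho t δ (rayP z R) = z ∧ (rayP z R : Pth n) 0 = z.1 := by
  have ht0 : 0 < t := hδ.trans hδt
  have h1 : (rayP z R : Pth n) t = z.1 + t • z.2 := by
    rw [rayP_apply, min_eq_left hR, max_eq_right ht0.le]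
    rfl
  have h2 : (rayP z R : Pth n) (t - δ) = z.1 + (t - δ) • z.2 := by
    rw [rayP_apply, min_eq_left (by linarith), max_eq_right (by linarith)]
    rfl
  have h3 : (rayP z R : Pth n) t - (rayP z R : Pth n) (t - δ) = δ • z.2 := by
    rw [h1, h2, sub_smul]
    abel
  constructor
  · unfold rho
    rw [h3, h1, smul_smul, smul_smul, div_mul_cancel₀ _ hδ.ne', div_mul_cancel₀ _ hδ.ne', one_smul,
      add_sub_cancel_right]
  · rw [rayP_apply, min_eq_left (ht0.le.trans hR), max_eq_left le_rfl]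
    unfold Ex
    rw [zero_smul, add_zero]

end Foc

end F7H
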