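import Pool.Agent.Lib.MP_f7aa1b_gt.H.C8a

/-!
Row f7h-C8b (220 lines): splitting of `P` at a focal point.

Write `H_s(w) = ‖w‖ ^ 2 - s * ⟪A w, w⟫` and `N = N z t` (dimension `m`).
(1) `P` is injective on `N`: for `w ∈ N`, `w ≠ 0`: `Pr w = w` (`N_tangent`), `⟪A w, w⟫ = ‖w‖ ^ 2 / t`, `H_T(w) = (1 - T / t) ‖w‖ ^ 2 < 0`, so `P w ≠ 0` by `Pos`.
(2) `P` maps `N` onto an `m`-dimensional subspace `V` of `Fin (b + m) → ℝ`; `κ0` restricted to `N` is a bijection `N → ℝ^m`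
(injective, equal dimensions).  Choose a complement `V'` of `V` (dimension `b`), an isomorphism `V' → ℝ^b` and let `Λ` be the linear
isomorphism with `Λ (P w) = app m (κ0 w) 0` for `w ∈ N` and `Λ v' = app m 0 (iso v')` on `V'` (`app m` is a linear bijection
`ℝ^m × ℝ^b → ℝ^(b+m)`).  `P1`, `P2`: the two components of `Λ ∘ P`.
(3) `Pos z s P2` for `0 < s < t`: let `Pr w = w`, `P2 w = 0`, `w ≠ 0`.  Choose `w0 ∈ N` with `κ0 w0 = P1 w`; then `Λ (P (w - w0)) = 0`, so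
`P (w - w0) = 0`; `v = w - w0` is tangent (`N_tangent`).  `H_T(v) ≥ 0` (`Pos`, or `v = 0`).  `H_t(v) = (1 - t / T) ‖v‖ ^ 2 + (t / T) H_T(v) ≥ 0`.
`H_t(w) = H_t(v)` because `w0` is in the kernel of the bilinear form of `H_t` (`t • A w0 = w0`, `A` symmetric).
`H_s(w) = (1 - s / t) ‖w‖ ^ 2 + (s / t) H_t(w) > 0`.
-/

set_option autoImplicit false

open Set Filter Topology Metric

namespace ASC

theorem C8b_app_add {b : ℕ} : ∀ {m : ℕ} (κ κ' : Fin m → ℝ) (v v' : Fin b → ℝ),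
    app m (κ + κ') (v + v') = app m κ v + app m κ' v'
  | 0, _, _, _, _ => rfl
  | m + 1, κ, κ', v, v' => by
    have h : Fin.tail (κ + κ') = Fin.tail κ + Fin.tail κ' := rfl
    show (Fin.cons ((κ + κ') 0) (app m (Fin.tail (κ + κ')) (v + v')) : Fin (b + m + 1) → ℝ) =
      (Fin.cons (κ 0) (app m (Fin.tail κ) v) : Fin (b + m + 1) → ℝ) + (Fin.cons (κ' 0) (app m (Fin.tail κ') v') : Fin (b + m + 1) → ℝ)
    rw [h, C8b_app_add (Fin.tail κ) (Fin.tail κ') v v']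
    funext i
    refine Fin.cases ?_ (fun i => ?_) i
    · rfl
    · rfl

theorem C8b_app_smul {b : ℕ} : ∀ {m : ℕ} (c : ℝ) (κ : Fin m → ℝ) (v : Fin b → ℝ),
    app m (c • κ) (c • v) = c • app m κ v
  | 0, _, _, _ => rfl
  | m + 1, c, κ, v => by
    have h : Fin.tail (c • κ) = c • Fin.tail κ := rfl
    show (Fin.cons ((c • κ) 0) (app m (Fin.tail (c • κ)) (c • v)) : Fin (b + m + 1) → ℝ) =
      c • (Fin.cons (κ 0) (app m (Fin.tail κ) v) : Fin (b + m + 1) → ℝ)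
    rw [h, C8b_app_smul c (Fin.tail κ) v]
    funext i
    refine Fin.cases ?_ (fun i => ?_) i
    · rfl
    · rfl

theorem C8b_app_zero {b : ℕ} : ∀ {m : ℕ} {κ : Fin m → ℝ} {v : Fin b → ℝ}, app m κ v = 0 → κ = 0 ∧ v = 0
  | 0, κ, v, h => ⟨funext fun i => i.elim0, h⟩
  | m + 1, κ, v, h => by
    have h' : (Fin.cons (κ 0) (app m (Fin.tail κ) v) : Fin (b + m + 1) → ℝ) = 0 := h
    have h0 : κ 0 = 0 := by
      have := congrFun h' 0
      rwa [Fin.cons_zero] at this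
    have h1 : app m (Fin.tail κ) v = 0 := by
      funext i
      have := congrFun h' i.succ
      rwa [Fin.cons_succ] at this
    obtain ⟨h2, h3⟩ := C8b_app_zero h1
    refine ⟨?_, h3⟩
    funext i
    refine Fin.cases h0 (fun i => ?_) i
    exact congrFun h2 i

/-- `app` as a linear map -/
noncomputable def C8b_appL (b m : ℕ) : ((Fin m → ℝ) × (Fin b → ℝ)) →ₗ[ℝ] (Fin (b + m) → ℝ) where
  toFun p := app m p.1 p.2
  map_add' p q := C8b_app_add p.1 q.1 p.2 q.2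
  map_smul' c p := C8b_app_smul c p.1 p.2

theorem C8b_appL_inj (b m : ℕ) : Function.Injective (C8b_appL b m) := by
  rw [← LinearMap.ker_eq_bot, LinearMap.ker_eq_bot']
  intro p hp
  obtain ⟨h1, h2⟩ := C8b_app_zero (m := m) (b := b) hp
  exact Prod.ext h1 h2

/-- `app` as a linear isomorphism -/
noncomputable def C8b_appE (b m : ℕ) : ((Fin m → ℝ) × (Fin b → ℝ)) ≃ₗ[ℝ] (Fin (b + m) → ℝ) :=
  LinearEquiv.ofInjectiveOfFinrankEq (C8b_appL b m) (C8b_appL_inj b m) (by simp [add_comm])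

theorem C8b_appE_apply (b m : ℕ) (p : (Fin m → ℝ) × (Fin b → ℝ)) : C8b_appE b m p = app m p.1 p.2 := rfl

end ASC

namespace F7H

open MPf7aa (E)

namespace Foc

variable {n : ℕ} (F : Foc n)

theorem C8b_aux_inj {z : E n × E n} (hz : z ∈ F.B) {t T : ℝ} (ht : 0 < t) (htT : t < T) {k : ℕ}
    (P : E n →L[ℝ] (Fin k → ℝ)) (hP : F.Pos z T P) (w : E n) (hw : w ∈ F.N z t) (h : P w = 0) : w = 0 := by
  by_contra hne
  have h1 := hP w (F.N_tangent hz hw) h hne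
  have h2 : t • F.A z w = w := F.mem_N.1 hw
  have h3 : t * inner ℝ (F.A z w) w = ‖w‖ ^ 2 := by
    rw [← real_inner_smul_left, h2, real_inner_self_eq_norm_sq]
  have h4 : 0 < ‖w‖ ^ 2 := by
    have : 0 < ‖w‖ := norm_pos_iff.2 hne
    positivity
  have h5 : 0 < inner ℝ (F.A z w) w := by
    by_contra hcon
    have := mul_nonpos_of_nonneg_of_nonpos ht.le (not_lt.1 hcon)
    linarith
  have h6 : t * inner ℝ (F.A z w) w < T * inner ℝ (F.A z w) w := mul_lt_mul_of_pos_right htT h5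
  linarith

theorem split_pos {z : E n × E n} (hz : z ∈ F.B) {t T : ℝ} (ht : 0 < t) (htT : t < T) {b m : ℕ}
    (hm : F.mul z t = m) (P : E n →L[ℝ] (Fin (b + m) → ℝ)) (hP : F.Pos z T P)
    (κ0 : E n →L[ℝ] (Fin m → ℝ)) (h1 : ∀ w, κ0 ((F.N z t).starProjection w) = κ0 w)
    (h2 : ∀ w ∈ F.N z t, κ0 w = 0 → w = 0) :
    ∃ (Λ : (Fin (b + m) → ℝ) ≃L[ℝ] (Fin (b + m) → ℝ)) (P1 : E n →L[ℝ] (Fin m → ℝ)) (P2 : E n →L[ℝ] (Fin b → ℝ)),
      (∀ w, Λ (P w) = ASC.app m (P1 w) (P2 w)) ∧ (∀ w ∈ F.N z t, P2 w = 0) ∧ (∀ w ∈ F.N z t, P1 w = κ0 w) ∧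
      ∀ s, 0 < s → s < t → F.Pos z s P2 := by
  have hinj : ∀ w ∈ F.N z t, P w = 0 → w = 0 := fun w hw h => F.C8b_aux_inj hz ht htT P hP w hw h
  have hfin : Module.finrank ℝ (F.N z t) = m := by rw [F.finrank_N hz t, hm]
  obtain ⟨PN, hPN⟩ : ∃ PN : F.N z t →ₗ[ℝ] (Fin (b + m) → ℝ), ∀ w, PN w = P w.1 :=
    ⟨(P : E n →ₗ[ℝ] (Fin (b + m) → ℝ)).comp (F.N z t).subtype, fun _ => rfl⟩
  have hPNi : Function.Injective PN := by
    rw [← LinearMap.ker_eq_bot, LinearMap.ker_eq_bot']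
    intro w hw
    rw [hPN] at hw
    exact Subtype.ext (hinj w.1 w.2 hw)
  obtain ⟨κN, hκN⟩ : ∃ κN : F.N z t →ₗ[ℝ] (Fin m → ℝ), ∀ w, κN w = κ0 w.1 :=
    ⟨(κ0 : E n →ₗ[ℝ] (Fin m → ℝ)).comp (F.N z t).subtype, fun _ => rfl⟩
  have hκNi : Function.Injective κN := by
    rw [← LinearMap.ker_eq_bot, LinearMap.ker_eq_bot']
    intro w hw
    rw [hκN] at hw
    exact Subtype.ext (h2 w.1 w.2 hw)
  obtain ⟨κE, hκE⟩ : ∃ κE : F.N z t ≃ₗ[ℝ] (Fin m → ℝ), ∀ w, κE w = κ0 w.1 :=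
    ⟨LinearEquiv.ofInjectiveOfFinrankEq κN hκNi (by rw [hfin]; simp), fun w => hκN w⟩
  obtain ⟨V, hV⟩ : ∃ V : Submodule ℝ (Fin (b + m) → ℝ), V = LinearMap.range PN := ⟨_, rfl⟩
  obtain ⟨eV, heV⟩ : ∃ eV : F.N z t ≃ₗ[ℝ] V, ∀ w, ((eV w : V) : Fin (b + m) → ℝ) = P w.1 := by
    subst hV
    exact ⟨LinearEquiv.ofInjective PN hPNi, fun w => hPN w⟩
  have hfV : Module.finrank ℝ V = m := (LinearEquiv.finrank_eq eV).symm.trans hfin
  obtain ⟨V', hc⟩ := Submodule.exists_isCompl V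
  have hfV' : Module.finrank ℝ V' = b := by
    have h3 := Submodule.finrank_add_eq_of_isCompl hc
    rw [hfV, Module.finrank_fin_fun] at h3
    omega
  obtain ⟨e'⟩ : Nonempty (V' ≃ₗ[ℝ] (Fin b → ℝ)) :=
    ⟨LinearEquiv.ofFinrankEq V' (Fin b → ℝ) (by rw [hfV']; simp)⟩
  obtain ⟨Λ0, hΛ0⟩ : ∃ Λ0 : (Fin (b + m) → ℝ) ≃ₗ[ℝ] (Fin m → ℝ) × (Fin b → ℝ),
      ∀ w ∈ F.N z t, Λ0 (P w) = (κ0 w, 0) := by
    refine ⟨(Submodule.prodEquivOfIsCompl V V' hc).symm.trans ((eV.symm.trans κE).prodCongr e'), ?_⟩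
    intro w hw
    have h3 : (P w : Fin (b + m) → ℝ) = ((eV ⟨w, hw⟩ : V) : Fin (b + m) → ℝ) := (heV ⟨w, hw⟩).symm
    rw [LinearEquiv.trans_apply, h3, Submodule.prodEquivOfIsCompl_symm_apply_left]
    rw [LinearEquiv.prodCongr_apply]
    simp only [LinearEquiv.trans_apply, LinearEquiv.symm_apply_apply, map_zero, hκE]
  obtain ⟨Q1, hQ1⟩ : ∃ Q1 : E n →L[ℝ] (Fin m → ℝ), ∀ w, Q1 w = (Λ0 (P w)).1 :=
    ⟨LinearMap.toContinuousLinearMap ((LinearMap.fst ℝ (Fin m → ℝ) (Fin b → ℝ)).comp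
      ((Λ0 : (Fin (b + m) → ℝ) →ₗ[ℝ] (Fin m → ℝ) × (Fin b → ℝ)).comp (P : E n →ₗ[ℝ] (Fin (b + m) → ℝ)))),
      fun _ => rfl⟩
  obtain ⟨Q2, hQ2⟩ : ∃ Q2 : E n →L[ℝ] (Fin b → ℝ), ∀ w, Q2 w = (Λ0 (P w)).2 :=
    ⟨LinearMap.toContinuousLinearMap ((LinearMap.snd ℝ (Fin m → ℝ) (Fin b → ℝ)).comp
      ((Λ0 : (Fin (b + m) → ℝ) →ₗ[ℝ] (Fin m → ℝ) × (Fin b → ℝ)).comp (P : E n →ₗ[ℝ] (Fin (b + m) → ℝ)))),
      fun _ => rfl⟩
  refine ⟨(Λ0.trans (ASC.C8b_appE b m)).toContinuousLinearEquiv, Q1, Q2, ?_, ?_, ?_, ?_⟩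
  · intro w
    rw [hQ1, hQ2]
    rfl
  · intro w hw
    rw [hQ2, hΛ0 w hw]
  · intro w hw
    rw [hQ1, hΛ0 w hw]
  · intro s hs hst w hw hw2 hne
    obtain ⟨w0', hw0'⟩ := κE.surjective (Q1 w)
    have hw0 := w0'.2
    obtain ⟨w0, hw0d⟩ : ∃ w0 : E n, w0 = w0'.1 := ⟨_, rfl⟩
    rw [← hw0d] at hw0
    have hκw : κ0 w0 = Q1 w := by rw [hw0d, ← hκE, hw0']
    have hPv : P (w - w0) = 0 := by
      apply Λ0.injective
      rw [map_zero, map_sub, map_sub, hΛ0 w0 hw0, hκw]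
      refine Prod.ext ?_ ?_
      · show (Λ0 (P w)).1 - Q1 w = 0
        rw [hQ1, sub_self]
      · show (Λ0 (P w)).2 - 0 = 0
        rw [← hQ2, hw2, sub_zero]
    have hv : F.Pr z.1 (w - w0) = w - w0 := by rw [map_sub, hw, F.N_tangent hz hw0]
    have hT : 0 ≤ ‖w - w0‖ ^ 2 - T * inner ℝ (F.A z (w - w0)) (w - w0) := by
      by_cases h0 : w - w0 = 0
      · rw [h0]; simp
      · exact (hP (w - w0) hv hPv h0).le
    have hw0t : t • F.A z w0 = w0 := F.mem_N.1 hw0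
    obtain ⟨v, hvd⟩ : ∃ v : E n, v = w - w0 := ⟨_, rfl⟩
    have hwv : w = v + w0 := by rw [hvd, sub_add_cancel]
    rw [← hvd] at hT
    -- the form of `t` does not see `w0`
    have e1 : t * inner ℝ (F.A z w0) v = inner ℝ w0 v := by
      rw [← real_inner_smul_left, hw0t]
    have e2 : t * inner ℝ (F.A z w0) w0 = inner ℝ w0 w0 := by
      rw [← real_inner_smul_left, hw0t]
    have e3 : inner ℝ (F.A z v) w0 = inner ℝ (F.A z w0) v := by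
      rw [F.A_symm z hz v w0, real_inner_comm]
    have hTt : 0 ≤ ‖v‖ ^ 2 - t * inner ℝ (F.A z v) v := by
      have hT0 : 0 < T := ht.trans htT
      have hv0 : 0 ≤ ‖v‖ ^ 2 := by positivity
      have h5 : T * (‖v‖ ^ 2 - t * inner ℝ (F.A z v) v) =
        (T - t) * ‖v‖ ^ 2 + t * (‖v‖ ^ 2 - T * inner ℝ (F.A z v) v) := by ring
      have h6 : 0 ≤ T * (‖v‖ ^ 2 - t * inner ℝ (F.A z v) v) := by
        rw [h5]
        have := mul_nonneg (sub_pos.2 htT).le hv0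
        have := mul_nonneg ht.le hT
        linarith
      exact nonneg_of_mul_nonneg_right h6 hT0
    have hw2' : ‖w‖ ^ 2 - t * inner ℝ (F.A z w) w = ‖v‖ ^ 2 - t * inner ℝ (F.A z v) v := by
      rw [hwv, ← real_inner_self_eq_norm_sq, ← real_inner_self_eq_norm_sq, map_add]
      simp only [inner_add_left, inner_add_right]
      rw [e3, real_inner_comm w0 v]
      linear_combination (-2) * e1 - e2
    have hnw : 0 < ‖w‖ ^ 2 := by
      have : 0 < ‖w‖ := norm_pos_iff.2 hne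
      positivity
    have h7 : t * (‖w‖ ^ 2 - s * inner ℝ (F.A z w) w) =
      (t - s) * ‖w‖ ^ 2 + s * (‖w‖ ^ 2 - t * inner ℝ (F.A z w) w) := by ring
    have h8 : 0 < t * (‖w‖ ^ 2 - s * inner ℝ (F.A z w) w) := by
      rw [h7, hw2']
      have a1 := mul_pos (sub_pos.2 hst) hnw
      have a2 := mul_nonneg hs.le hTt
      linarith
    exact pos_of_mul_pos_right h8 ht.le

end Foc

end F7H
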