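import Pool.Agent.Lib.MP_f7aa1b_gt.ASC.GL
import Pool.Agent.Lib.MP_f7aa1b_gt.H.C8b
import Pool.Agent.Lib.MP_f7aa1b_gt.H.C13a

/-!
Row f7h-C13b (220 lines): comparison of the class of Lemma L with the local class of the ray.

Let `h g = ‖g 0 - (rho g).1‖`, `κ g = κ0 ((rho g).1 - z.1)`, `F2 g = P2 (g 0 - (rho g).1)`, `F1 g = app m (κ g) (F2 g)`, `p = rayP z R`.
`step1`: `Van K (loc {rho g ∈ closedBall z r} (LAM m κ (loc {h ≤ d} (GG b F2))) + loc {rho g ∈ closedBall z r ∧ h g ≤ d} (GG (b + m) F1))` for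
`0 < d ≤ d0` and `0 < r ≤ r1`: put `Kr = K ∩ rho ⁻¹' closedBall z r` (compact).  `GG b F2` is `Van` on `Kr ∩ {d / 2 ≤ h ≤ d}` (`GG_van'`, `cone` at
`(z, t - δ)` for `P2`), so `LAM_loc` and `LAM_GG` give `Van Kr (LAM m κ (loc {h ≤ d} (GG b F2)) + loc {h ≤ d} (GG (b + m) F1))`; then `Van.loc`, `loc_add`,
`loc_loc`.
`compare`: with `η` of `zeros`: `W_η = {rho g ∈ closedBall z η ∧ h g ≤ η}` and `W = {rho g ∈ closedBall z r ∧ h g ≤ d}` (`r, d ≤ η`) are closed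
neighbourhoods of `p` (`rho_rayP`, continuity of `rho` and of `g ↦ g 0`), `Iso K W p F1`, `Iso K W_η p F_θ` for the homotopy of `zeros`
(`F_1 = F1` at `θ = 1`: `g 0 - z.1 - ((rho g).1 - z.1) = g 0 - (rho g).1`; at `θ = 0`: `app m (P1 (g 0 - z.1)) (P2 (g 0 - z.1)) = Λ (P (g 0 - z.1))`).
`W' = {‖g 0 - z.1‖ ≤ ρ}` for small `ρ`: `Iso K W' p (P (g 0 - z.1))` by `cone` at `(z, T)` for `P`, `end_bound`, `eq_rayP`; the same function on `W_η`:
zero at `g` means `Λ (P ..) = 0`, `θ = 0` in `zeros`.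
Chain: `HG (loc W (GG F1))` (step1, `HG.congr_van`), `loc W_η (GG F1)` (`iso_indep`), `loc W_η (GG (Λ ∘ P ..))` (`iso_homotopy`, `HG.congrC`, `iso_coc`),
`loc W_η (GG (P ..))` (`iso_gl` with `gg_equiv`), `loc W' (GG (P ..))` (`iso_indep`).
`gg_equiv`: the matrix of `Λ` (`LinearMap.toMatrix'`) has non zero determinant; `GG_linear`.
-/

set_option autoImplicit false

open Set Filter Topology Metric
open scoped BoundedContinuousFunction

namespace F7H

open MPf7aa (E)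

lemma gg_equiv {X : Type*} [PseudoMetricSpace X] {m : ℕ} (Λ : (Fin m → ℝ) ≃L[ℝ] (Fin m → ℝ)) :
    ASC.LinInv X (fun v => Λ v) := by
  have hdet : (LinearMap.toMatrix' (Λ.toLinearEquiv : (Fin m → ℝ) →ₗ[ℝ] (Fin m → ℝ))).det ≠ 0 := by
    rw [LinearMap.det_toMatrix']
    exact (LinearEquiv.isUnit_det' Λ.toLinearEquiv).ne_zero
  have h := ASC.GG_linear (X := X) _ hdet
  have e : (fun v => (LinearMap.toMatrix' (Λ.toLinearEquiv : (Fin m → ℝ) →ₗ[ℝ] (Fin m → ℝ))).mulVec v)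
      = fun v => Λ v := by
    funext v
    rw [LinearMap.toMatrix'_mulVec]
    rfl
  rw [e] at h
  exact h

lemma C13b_comm {X : Type*} [PseudoMetricSpace X] {S S' : Set X} {n : ℕ} {U V : ASC.Coch X n}
    (h : ASC.Cob S S' (U + V)) : ASC.Cob S S' (V + U) := by
  rwa [add_comm] at h

namespace Foc

variable {n : ℕ} {F : Foc n}

theorem step1 {z : E n × E n} {T t δ R : ℝ} (ht : t < T) (hR : T ≤ R) (hδ : 0 < δ) (hδt : δ < t)
    (hz : z ∈ F.B) (hf : ∀ s, t < s → s ≤ T → F.mul z s = 0)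
    (hg : ∀ y ∈ F.Cc z t, ∀ s, t - δ ≤ s → s < t → F.mul y s = 0) {b m : ℕ}
    (κ0 : E n →L[ℝ] (Fin m → ℝ)) (P2 : E n →L[ℝ] (Fin b → ℝ)) (h5 : F.Pos z (t - δ) P2) :
    ∃ d0 > 0, ∀ d, 0 < d → d ≤ d0 → ∀ r, 0 < r → r ≤ d0 →
      ASC.Van (F.K R z T) (ASC.loc {g : Pth n | rho t δ g ∈ closedBall z r}
          (ASC.LAM m (fun g => κ0 ((rho t δ g).1 - z.1))
            (ASC.loc {g : Pth n | ‖g 0 - (rho t δ g).1‖ ≤ d} (ASC.GG b (fun g => P2 (g 0 - (rho t δ g).1))))) +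
        ASC.loc ({g : Pth n | rho t δ g ∈ closedBall z r} ∩ {g : Pth n | ‖g 0 - (rho t δ g).1‖ ≤ d})
          (ASC.GG (b + m) (fun g => ASC.app m (κ0 ((rho t δ g).1 - z.1)) (P2 (g 0 - (rho t δ g).1))))) := by
  have hR0 : (0 : ℝ) ≤ R := (hδ.le.trans hδt.le).trans (ht.le.trans hR)
  obtain ⟨c, hc, δ1, hδ1, hcone⟩ := F.cone hz (s0 := t - δ) (by linarith) P2 h5
  refine ⟨δ1, hδ1, fun d hd hd0 r hr hr0 => ?_⟩
  have hKc : IsCompact (F.K R z T) := K_compact hz (hδ.trans (hδt.trans ht)) hR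
  have hev : Continuous (fun g : Pth n => g 0) := continuous_eval_const (0 : ℝ)
  have hrho : Continuous (rho t δ : Pth n → E n × E n) := rho_cont t δ
  have hsub : Continuous (fun g : Pth n => g 0 - (rho t δ g).1) :=
    hev.sub (continuous_fst.comp hrho)
  set Kr : Set (Pth n) := F.K R z T ∩ {g : Pth n | rho t δ g ∈ closedBall z r} with hKr
  have hclosed : IsClosed {g : Pth n | rho t δ g ∈ closedBall z r} :=
    isClosed_closedBall.preimage hrho
  have hKrc : IsCompact Kr := hKc.inter_right hclosed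
  have hh : Continuous (fun g : Pth n => ‖g 0 - (rho t δ g).1‖) := hsub.norm
  have hU : ASC.Van (Kr ∩ {g : Pth n | d / 2 ≤ ‖g 0 - (rho t δ g).1‖ ∧ ‖g 0 - (rho t δ g).1‖ ≤ d})
      (ASC.GG b (fun g => P2 (g 0 - (rho t δ g).1))) := by
    refine ASC.GG_van' (hKrc.inter_right ?_) (P2.continuous.comp hsub).continuousOn ?_
    · exact (isClosed_le continuous_const hh).inter (isClosed_le hh continuous_const)
    · rintro g ⟨⟨hgK, hgr⟩, hg1, hg2⟩ h0
      have hm := rho_mem ht.le hR hδ hδt hz hf hg hgK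
      have hb := end_bound hR hgK
      have hl := end_bound_leaf ht.le hR hδ hδt hz hf hg hgK
      have := hcone (rho t δ g) (F.Cc_B hm) ((mem_closedBall.1 hgr).trans hr0) (t - δ)
        (by simpa using hδ1.le) (g 0) hb.1 (hg2.trans hd0) hl
      rw [h0, norm_zero] at this
      have h3 : 0 < c * ‖g 0 - (rho t δ g).1‖ := mul_pos hc (by linarith)
      linarith
  have h1 := ASC.LAM_loc hKrc hh.continuousOn (show d / 2 < d by linarith) m
    (fun g : Pth n => κ0 ((rho t δ g).1 - z.1)) hU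
  rw [ASC.LAM_GG] at h1
  have h2 := ASC.Van.loc h1
  rw [ASC.loc_add, ASC.loc_loc] at h2
  exact h2

theorem compare {z : E n × E n} {T t δ R : ℝ} (ht : t < T) (hR : T ≤ R) (hδ : 0 < δ) (hδt : δ < t)
    (hz : z ∈ F.B) (hf : ∀ s, t < s → s ≤ T → F.mul z s = 0)
    (hg : ∀ y ∈ F.Cc z t, ∀ s, t - δ ≤ s → s < t → F.mul y s = 0) {b m : ℕ}
    (κ0 : E n →L[ℝ] (Fin m → ℝ)) (h1 : ∀ w, κ0 ((F.N z t).starProjection w) = κ0 w)
    (h2 : ∀ w ∈ F.N z t, κ0 w = 0 → w = 0)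
    (P : E n →L[ℝ] (Fin (b + m) → ℝ)) (hP : F.Pos z T P) (Λ : (Fin (b + m) → ℝ) ≃L[ℝ] (Fin (b + m) → ℝ))
    (P1 : E n →L[ℝ] (Fin m → ℝ)) (P2 : E n →L[ℝ] (Fin b → ℝ)) (h0 : ∀ w, Λ (P w) = ASC.app m (P1 w) (P2 w))
    (h3 : ∀ w ∈ F.N z t, P2 w = 0) (h4 : ∀ w ∈ F.N z t, P1 w = κ0 w) (h5 : F.Pos z (t - δ) P2) :
    ∃ d0 > 0, ∀ d, 0 < d → d ≤ d0 → ∀ r, 0 < r → r ≤ d0 →
      ASC.HG (F.K R z T) ∅ (ASC.loc {g : Pth n | rho t δ g ∈ closedBall z r}
          (ASC.LAM m (fun g => κ0 ((rho t δ g).1 - z.1))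
            (ASC.loc {g : Pth n | ‖g 0 - (rho t δ g).1‖ ≤ d} (ASC.GG b (fun g => P2 (g 0 - (rho t δ g).1)))))) →
      ∃ ρ0 > 0, ∀ ρ, 0 < ρ → ρ < ρ0 →
        ASC.HG (F.K R z T) ∅ (ASC.loc {g : Pth n | ‖g 0 - z.1‖ ≤ ρ} (ASC.GG (b + m) (fun g => P (g 0 - z.1)))) := by
  have hR0 : (0 : ℝ) ≤ R := (hδ.le.trans hδt.le).trans (ht.le.trans hR)
  have hT : 0 < T := hδ.trans (hδt.trans ht)
  obtain ⟨d1, hd1, hstep⟩ := step1 ht hR hδ hδt hz hf hg κ0 P2 h5
  obtain ⟨η, hη, hzeros⟩ := zeros ht hR hδ hδt hz hf hg κ0 h1 h2 P1 P2 h3 h4 h5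
  obtain ⟨c, hc, δ2, hδ2, hcone⟩ := F.cone hz hT P hP
  have hmul : F.mul z T = 0 := hf T ht le_rfl
  have hKc : IsCompact (F.K R z T) := K_compact hz hT hR
  have hev : Continuous (fun g : Pth n => g 0) := continuous_eval_const (0 : ℝ)
  have hrho : Continuous (rho t δ : Pth n → E n × E n) := rho_cont t δ
  have hsub : Continuous (fun g : Pth n => g 0 - (rho t δ g).1) :=
    hev.sub (continuous_fst.comp hrho)
  have hsub1 : Continuous (fun g : Pth n => g 0 - z.1) := hev.sub continuous_const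
  have hsub2 : Continuous (fun g : Pth n => (rho t δ g).1 - z.1) :=
    (continuous_fst.comp hrho).sub continuous_const
  obtain ⟨hp1, hp2⟩ := rho_rayP (n := n) (z := z) hδ hδt (ht.le.trans hR)
  -- closed neighbourhoods of the ray
  have hWclosed : ∀ r d : ℝ, IsClosed ({g : Pth n | rho t δ g ∈ closedBall z r} ∩
      {g : Pth n | ‖g 0 - (rho t δ g).1‖ ≤ d}) := fun r d =>
    (isClosed_closedBall.preimage hrho).inter (isClosed_le hsub.norm continuous_const)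
  have hWnhd : ∀ r d : ℝ, 0 < r → 0 < d → ∃ e > 0, F.K R z T ∩ ball (rayP z R) e ⊆
      ({g : Pth n | rho t δ g ∈ closedBall z r} ∩ {g : Pth n | ‖g 0 - (rho t δ g).1‖ ≤ d}) := by
    intro r d hr hd
    have hn : ({g : Pth n | rho t δ g ∈ closedBall z r} ∩
        {g : Pth n | ‖g 0 - (rho t δ g).1‖ ≤ d}) ∈ 𝓝 (rayP z R) := by
      refine Filter.inter_mem ?_ ?_
      · refine hrho.continuousAt.preimage_mem_nhds ?_
        rw [hp1]
        exact closedBall_mem_nhds z hr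
      · have h0 : ‖(rayP z R : Pth n) 0 - (rho t δ (rayP z R)).1‖ < d := by
          rw [hp1, hp2, sub_self, norm_zero]; exact hd
        have := hsub.norm.continuousAt.eventually_lt_const h0
        filter_upwards [this] with g hg
        exact hg.le
    obtain ⟨e, he, hsub⟩ := Metric.mem_nhds_iff.1 hn
    exact ⟨e, he, fun g hg => hsub hg.2⟩
  -- the homotopy
  set Φ : ℝ × Pth n → Fin (b + m) → ℝ := fun q =>
    ASC.app m ((1 - q.1) • P1 (q.2 0 - z.1) + q.1 • κ0 ((rho t δ q.2).1 - z.1))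
      (P2 (q.2 0 - z.1 - q.1 • ((rho t δ q.2).1 - z.1))) with hΦ
  have hΦc : Continuous Φ := by
    have a1 : Continuous (fun q : ℝ × Pth n => q.2 0 - z.1) := hsub1.comp continuous_snd
    have a2 : Continuous (fun q : ℝ × Pth n => (rho t δ q.2).1 - z.1) := hsub2.comp continuous_snd
    have a3 : Continuous (fun q : ℝ × Pth n => ((1 - q.1) • P1 (q.2 0 - z.1) +
        q.1 • κ0 ((rho t δ q.2).1 - z.1), P2 (q.2 0 - z.1 - q.1 • ((rho t δ q.2).1 - z.1)))) := by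
      refine Continuous.prodMk ?_ ?_
      · exact ((continuous_const.sub continuous_fst).smul (P1.continuous.comp a1)).add
          (continuous_fst.smul (κ0.continuous.comp a2))
      · exact P2.continuous.comp (a1.sub (continuous_fst.smul a2))
    exact ASC.app_cont.comp a3
  have hΦ1 : ∀ g : Pth n, Φ (1, g)
      = ASC.app m (κ0 ((rho t δ g).1 - z.1)) (P2 (g 0 - (rho t δ g).1)) := by
    intro g
    simp only [hΦ]
    congr 1
    · simp
    · congr 1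
      simp
  have hΦ0 : ∀ g : Pth n, Φ (0, g) = Λ (P (g 0 - z.1)) := by
    intro g
    rw [h0]
    simp only [hΦ]
    congr 1
    · simp
    · congr 1
      simp
  have hIsoΦ : ∀ r d : ℝ, 0 < r → r ≤ η → 0 < d → d ≤ η → ∀ θ ∈ Icc (0 : ℝ) 1,
      ASC.Iso (F.K R z T) ({g : Pth n | rho t δ g ∈ closedBall z r} ∩
        {g : Pth n | ‖g 0 - (rho t δ g).1‖ ≤ d}) (rayP z R) (fun g => Φ (θ, g)) := by
    intro r d hr hrη hd hdη θ hθ
    refine ⟨hWclosed r d, hWnhd r d hr hd, ?_, ?_⟩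
    · exact (hΦc.comp (Continuous.prodMk_right θ)).continuousOn
    · rintro g ⟨hgK, hg1, hg2⟩ hz0
      exact hzeros θ hθ g hgK ((mem_closedBall.1 hg1).trans hrη) (le_trans hg2 hdη) hz0
  refine ⟨min d1 η, lt_min hd1 hη, fun d hd hd0 r hr hr0 hHG => ?_⟩
  have hdη : d ≤ η := hd0.trans (min_le_right _ _)
  have hrη : r ≤ η := hr0.trans (min_le_right _ _)
  -- step (a)
  have hA := ASC.HG.congr_van (empty_subset _) hHG
    (hstep d hd (hd0.trans (min_le_left _ _)) r hr (hr0.trans (min_le_left _ _)))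
  -- step (b)
  have hI1 := hIsoΦ r d hr hrη hd hdη 1 ⟨zero_le_one, le_rfl⟩
  have hI1' := hIsoΦ η η hη le_rfl hη le_rfl 1 ⟨zero_le_one, le_rfl⟩
  have e1 : (fun g : Pth n => Φ (1, g))
      = fun g => ASC.app m (κ0 ((rho t δ g).1 - z.1)) (P2 (g 0 - (rho t δ g).1)) := funext hΦ1
  have e0 : (fun g : Pth n => Φ (0, g)) = fun g => Λ (P (g 0 - z.1)) := funext hΦ0
  have hB := ASC.iso_indep hKc hI1 hI1' (fun g _ => rfl)
  rw [e1] at hB
  have hB' := ASC.HG.congr_van (empty_subset _) hA hB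
  -- step (c)
  have hC := ASC.iso_homotopy hKc (p := rayP z R) Φ
    (W := ({g : Pth n | rho t δ g ∈ closedBall z η} ∩ {g : Pth n | ‖g 0 - (rho t δ g).1‖ ≤ η}))
    hΦc.continuousOn (fun θ hθ => hIsoΦ η η hη le_rfl hη le_rfl θ hθ)
  have hI0 := hIsoΦ η η hη le_rfl hη le_rfl 0 ⟨le_rfl, zero_le_one⟩
  have hcoc0 := ASC.iso_coc hKc hI0
  rw [e0] at hcoc0 hC
  rw [e1] at hC
  have hC' := ASC.HG.congrC hB' hcoc0 (C13b_comm hC)
  -- step (d)
  have hIP : ASC.Iso (F.K R z T) ({g : Pth n | rho t δ g ∈ closedBall z η} ∩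
        {g : Pth n | ‖g 0 - (rho t δ g).1‖ ≤ η}) (rayP z R) (fun g => P (g 0 - z.1)) := by
    refine ⟨hI0.closed, hI0.nhd, (P.continuous.comp hsub1).continuousOn, ?_⟩
    intro g hg h
    refine hI0.zero g hg ?_
    simp only [hΦ0]
    rw [h, map_zero]
  have hD := ASC.iso_gl hKc hIP Λ (fun S S' hS hSc hSc' hFc hF0 => gg_equiv Λ S S' hS hSc hSc' _ hFc hF0)
  have hD' := ASC.HG.congrC hC' (ASC.iso_coc hKc hIP) (C13b_comm hD)
  -- step (e)
  refine ⟨δ2, hδ2, fun ρ hρ hρ2 => ?_⟩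
  have hIW : ASC.Iso (F.K R z T) {g : Pth n | ‖g 0 - z.1‖ ≤ ρ} (rayP z R)
      (fun g => P (g 0 - z.1)) := by
    refine ⟨isClosed_le hsub1.norm continuous_const, ?_, (P.continuous.comp hsub1).continuousOn, ?_⟩
    · have hn : {g : Pth n | ‖g 0 - z.1‖ ≤ ρ} ∈ 𝓝 (rayP z R) := by
        have h0 : ‖(rayP z R : Pth n) 0 - z.1‖ < ρ := by
          rw [hp2, sub_self, norm_zero]; exact hρ
        filter_upwards [hsub1.norm.continuousAt.eventually_lt_const h0] with g hg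
        exact hg.le
      obtain ⟨e, he, hsub⟩ := Metric.mem_nhds_iff.1 hn
      exact ⟨e, he, fun g hg => hsub hg.2⟩
    · rintro g ⟨hgK, hgρ⟩ h
      have hb := end_bound hR hgK
      have := hcone z hz (by simpa using hδ2.le) T (by simpa using hδ2.le) (g 0) hb.1
        (le_trans hgρ hρ2.le) hb.2
      have h' : P (g 0 - z.1) = 0 := h
      rw [h', norm_zero] at this
      have h3 : ‖g 0 - z.1‖ = 0 := by
        have := norm_nonneg (g 0 - z.1)
        nlinarith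
      have h4 : g 0 = z.1 := sub_eq_zero.1 (norm_eq_zero.1 h3)
      refine eq_rayP hR hmul hgK ?_
      rw [h4]
      unfold Ex
      rw [sub_add_cancel_left, norm_neg, norm_smul, F.unit z hz, mul_one, Real.norm_eq_abs,
        abs_of_pos hT]
  have hE := ASC.iso_indep hKc hIP hIW (fun g _ => rfl)
  exact ASC.HG.congr_van (empty_subset _) hD' hE

end Foc

end F7H
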