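import Pool.Agent.Lib.MP_f7aa1b_gt.H.C12

/-!
Row f7h-C14 (90 lines): the base case: index zero.

`idx z T = 0 = mul z T`: no focal time in `(0, T]` (`free_of_zero`), so every path is the ray (`unbroken`) and `K R z T = {rayP z R}`.
On a one point set all small tuples are constant.  `HZ m` for `m ≥ 2`: `HZ_contractible`-type statement (use `ASC.HZ_contractible` with the
constant homotopy, `m = j + 2`); `k = 0`: `GG 0 _ = 1`, `loc W 1 = 1` on tuples of `{rayP z R}` (`rayP z R 0 = z.1`), `ASC.HG_contractible` and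
`HG.congr_van`.
-/

set_option autoImplicit false

open Set Filter Topology Metric
open scoped BoundedContinuousFunction

namespace F7H

open MPf7aa (E)

namespace Foc

variable {n : ℕ} {F : Foc n}

theorem TT_zero {z : E n × E n} (hz : z ∈ F.B) {T R : ℝ} (hT : 0 < T) (hR : T ≤ R) (hm : F.mul z T = 0)
    (hi : F.idx z T = 0) : F.TT R z T := by
  have hfree := F.free_of_zero hz (T := T) (by rw [hi, hm])
  have hK : F.K R z T = {rayP z R} := by
    ext g
    rw [mem_singleton_iff]
    constructor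
    · rintro ⟨f, hf, hg⟩
      ext1 s
      rw [hg s, rayP_apply, hf.unbroken hfree]
    · rintro rfl
      exact rayP_mem hz hT R
  have hp0 : (rayP z R : Pth n) 0 = z.1 := by
    rw [rayP_apply, min_eq_left (hT.le.trans hR), max_self]
    simp [Ex]
  have hcont : ContinuousOn (fun q : ℝ × Pth n => q.2) (Icc (0 : ℝ) 1 ×ˢ ({rayP z R} : Set (Pth n))) :=
    continuous_snd.continuousOn
  refine ⟨?_, ?_⟩
  · intro m hlt
    rw [hi] at hlt
    obtain ⟨j, rfl⟩ : ∃ j, m = j + 2 := ⟨m - 2, by omega⟩
    rw [hK]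
    exact ASC.HZ_contractible isCompact_singleton (fun q => q.2) hcont (mem_singleton _)
      (fun t _ y hy => hy) (fun y _ => rfl) (fun y hy => hy) j
  · intro k hk P hP
    obtain rfl : k = 0 := by rw [← hk, hi]
    refine ⟨1, one_pos, fun ρ hρ _ => ?_⟩
    rw [hK]
    have h1 := ASC.HG_contractible (S := ({rayP z R} : Set (Pth n))) isCompact_singleton (fun q => q.2) hcont
      (mem_singleton _) (fun t _ y hy => hy) (fun y _ => rfl) (fun y hy => hy)
    refine ASC.HG.congr_van (empty_subset _) h1 ⟨1, one_pos, fun x hx => ?_⟩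
    have hx0 : ∀ i, x i ∈ {g : Pth n | ‖g 0 - z.1‖ ≤ ρ} := by
      intro i
      have h2 : x i = rayP z R := hx.1 i
      rw [h2]
      show ‖(rayP z R : Pth n) 0 - z.1‖ ≤ ρ
      rw [hp0, sub_self, norm_zero]
      exact hρ.le
    show (1 : ZMod 2) + ASC.loc {g : Pth n | ‖g 0 - z.1‖ ≤ ρ} (ASC.GG 0 (fun g => P (g 0 - z.1))) x = 0
    unfold ASC.loc
    rw [if_pos hx0]
    exact ASC.z2 1

end Foc

end F7H
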