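import Pool.Agent.Lib.MP_f7aa1b_gt.H.C13b
import Pool.Agent.Lib.MP_f7aa1b_gt.H.C14

/-!
Row f7h-C15 (180 lines): the induction on the index.

`LemL X Y` is the statement of Lemma L (part B, helper74).
`TT_all`: strong induction on `idx z T`.  Index zero: `TT_zero`.  Otherwise `last_focal`: `t < T`, `m = mul z t > 0`, `b = idx z t`,
`idx z T = b + m`; no focal time in `(t, T]` (also `T` itself, `mul z T = 0`).  `gap`: `δ`, for `y ∈ Q = Cc z t`: `mul y s = 0` for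
`t - δ ≤ s < t` and `idx y (t - δ) = b < b + m`; so `TT R y (t - δ)` for all `y ∈ Q` by induction.
Lemma L with `K = K R z T` (`K_compact`), `ρ = rho t δ` (`rho_cont`, `rho_mem`), `Q` (`Cc_compact`, `Cc_conn`), `μ = m`; charts: `chart_leaf` with
`exists_coord` at `y` (`mul y t = m` by `mul_const`); `h0`: `hz_fibre` and the first half of `TT R y (t - δ)`; `h1`: `gen_leaf` with `P` from `exists_pos` at
`(y, t - δ)`.  First conclusion: `HZ`.  Second: given `P` with `Pos z T P` (`k = b + m`, `subst`), take `κ0` (`exists_coord` at `z`), `split_pos`, `Pos z (t - δ) P2`;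
`gen_leaf` at `y = z` with `P2` gives `Gen` for all small radii `d`; take `d ≤ d0` of `compare`; Lemma L gives `r0`; take `r < min r0 d0`; `compare`.
-/

set_option autoImplicit false

open Set Filter Topology Metric
open scoped BoundedContinuousFunction

namespace ASC

/-- the statement of Lemma L -/
def LemL (X Y : Type*) [MetricSpace X] [MetricSpace Y] : Prop :=
  ∀ (K : Set X) (ρ : X → Y) (Q : Set Y) (μ b : ℕ), IsCompact K → Continuous ρ → IsCompact Q → IsConnected Q →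
    MapsTo ρ K Q → (∀ y ∈ Q, ∃ κ : Y → Fin μ → ℝ, Chart Q y κ) →
    (∀ y ∈ Q, ∀ m, b + 1 < m → HZ m (K ∩ ρ ⁻¹' {y}) ∅) →
    (∀ y ∈ Q, ∃ δ > 0, ∃ U : Coch X (b + 1), Gen K ρ Q y δ U) →
    (∀ m, b + μ + 1 < m → HZ m K ∅) ∧
    ∀ y ∈ Q, ∀ κ : Y → Fin μ → ℝ, Chart Q y κ → ∀ δ > 0, ∀ U : Coch X (b + 1), Gen K ρ Q y δ U →
      ∃ r0 > 0, ∀ r, 0 < r → r < r0 → HG K ∅ (loc {g | ρ g ∈ closedBall y r} (LAM μ (fun g => κ (ρ g)) U))

end ASC

namespace F7H

open MPf7aa (E)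

namespace Foc

variable {n : ℕ} {F : Foc n}

theorem TT_all (hL : ASC.LemL (Pth n) (E n × E n)) {R : ℝ} : ∀ {z : E n × E n} (_ : z ∈ F.B) {T : ℝ}
    (_ : 0 < T) (_ : T ≤ R) (_ : F.mul z T = 0), F.TT R z T := by
  suffices h : ∀ k : ℕ, ∀ z ∈ F.B, ∀ T : ℝ, 0 < T → T ≤ R → F.mul z T = 0 → F.idx z T = k → F.TT R z T by
    intro z hz T hT hR hm
    exact h _ z hz T hT hR hm rfl
  intro k
  induction k using Nat.strong_induction_on with
  | _ k ih =>
  intro z hz T hT hR hm hi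
  rcases Nat.eq_zero_or_pos k with hk0 | hk0
  · exact TT_zero hz hT hR hm (hi.trans hk0)
  obtain ⟨t, ht, htT, hmt, hidx, hfr⟩ := F.last_focal hz hT (by rw [hi]; exact hk0)
  have hf : ∀ s, t < s → s ≤ T → F.mul z s = 0 := by
    intro s h1 h2
    rcases h2.lt_or_eq with h2 | h2
    · exact hfr s h1 h2
    · rw [h2]; exact hm
  obtain ⟨δ, hδ, hδt, hgap⟩ := F.gap hz ht
  obtain ⟨b, hb⟩ : ∃ b, F.idx z t = b := ⟨_, rfl⟩
  obtain ⟨m, hmm⟩ : ∃ m, F.mul z t = m := ⟨_, rfl⟩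
  have hkb : F.idx z T = b + m := by rw [hidx, hb, hmm]
  have hbk : b < k := by rw [hmm] at hmt; omega
  have hg : ∀ y ∈ F.Cc z t, ∀ s, t - δ ≤ s → s < t → F.mul y s = 0 :=
    fun y hy s h1 h2 => (hgap y hy s h1 h2).1
  have htd : 0 < t - δ := by linarith
  have hmy : ∀ y ∈ F.Cc z t, F.mul y (t - δ) = 0 := fun y hy => hg y hy _ le_rfl (by linarith)
  have hiy : ∀ y ∈ F.Cc z t, F.idx y (t - δ) = b := fun y hy =>
    ((hgap y hy _ le_rfl (by linarith)).2).trans hb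
  have hTT : ∀ y ∈ F.Cc z t, F.TT R y (t - δ) := fun y hy =>
    ih b hbk y (F.Cc_B hy) (t - δ) htd (by linarith) (hmy y hy) (hiy y hy)
  have hLL := hL (F.K R z T) (rho t δ) (F.Cc z t) m b (K_compact hz hT hR) (rho_cont t δ)
    (F.Cc_compact z t) (F.Cc_conn hz t) (rho_mem htT.le hR hδ hδt hz hf hg)
    (fun y hy => by
      obtain ⟨κ0, h1, h2⟩ := F.exists_coord (F.Cc_B hy) t ((F.mul_const hz ht hy).trans hmm)
      exact ⟨_, F.chart_leaf hz ht hy hmm κ0 h1 h2⟩)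
    (fun y hy m' hm' => hz_fibre htT.le hR hδ hδt hz hf hg hy
      ((hTT y hy).1 m' (by rw [hiy y hy]; exact hm')))
    (fun y hy => by
      obtain ⟨P, hP⟩ := F.exists_pos (F.Cc_B hy) htd (hmy y hy) (hiy y hy)
      obtain ⟨r0, hr0, hgen⟩ := gen_leaf htT.le hR hδ hδt hz hf hg hy hiy P hP hTT
      exact ⟨r0, hr0, _, hgen r0 hr0 le_rfl⟩)
  obtain ⟨hL1, hL2⟩ := hLL
  refine ⟨fun m' hm' => hL1 m' (by rw [hkb] at hm'; exact hm'), ?_⟩
  intro k' hk' P hP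
  obtain rfl : k' = b + m := by rw [← hk', hkb]
  obtain ⟨κ0, h1, h2⟩ := F.exists_coord hz t hmm
  obtain ⟨Λ, P1, P2, h0, h3, h4, h5⟩ := F.split_pos hz ht htT hmm P hP κ0 h1 h2
  have h5' : F.Pos z (t - δ) P2 := h5 (t - δ) htd (by linarith)
  obtain ⟨d0, hd0, hcomp⟩ := compare htT hR hδ hδt hz hf hg κ0 h1 h2 P hP Λ P1 P2 h0 h3 h4 h5'
  have hzC : z ∈ F.Cc z t := F.mem_Cc hz t
  obtain ⟨rg, hrg, hgen⟩ := gen_leaf htT.le hR hδ hδt hz hf hg hzC hiy P2 h5' hTT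
  have hd : 0 < min d0 rg := lt_min hd0 hrg
  obtain ⟨r0, hr0, hr⟩ := hL2 z hzC (fun y' => κ0 (y'.1 - z.1)) (F.chart_leaf hz ht hzC hmm κ0 h1 h2)
    (min d0 rg) hd _ (hgen (min d0 rg) hd (min_le_right _ _))
  have hrr : 0 < min (r0 / 2) d0 := lt_min (by linarith) hd0
  exact hcomp (min d0 rg) hd (min_le_left _ _) (min (r0 / 2) d0) hrr (min_le_right _ _)
    (hr (min (r0 / 2) d0) hrr (lt_of_le_of_lt (min_le_left _ _) (by linarith)))

end Foc

end F7H
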