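import Pool.Agent.Lib.MP_f7aa1b_gt.H.C15

/-!
Row f7h-C16 (90 lines): the statement needed for the counting of critical points (part D).

Take `R = T`, `K = K R z T` (`K_compact`), `ev g = g 0` (continuous), `end_bound`, `eq_rayP` (`ray 0 = z.1`).  `TT_all` gives the class on `K`, which
is `pb ev (loc (closedBall z.1 ρ) (GG k (P (x - z.1))))` (definitional equality up to `mem_closedBall`, `dist_eq_norm`); it is not `Cob` by `HG.ne`.
-/

set_option autoImplicit false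

open Set Filter Topology Metric
open scoped BoundedContinuousFunction

namespace F7H

open MPf7aa (E)

namespace Foc

variable {n : ℕ} {F : Foc n}

lemma C16_pb (z : E n × E n) (k : ℕ) (P : E n →L[ℝ] (Fin k → ℝ)) (ρ : ℝ) :
    ASC.pb (fun g : Pth n => g 0) (ASC.loc (closedBall z.1 ρ) (ASC.GG k (fun x => P (x - z.1)))) =
      ASC.loc {g : Pth n | ‖g 0 - z.1‖ ≤ ρ} (ASC.GG k (fun g => P (g 0 - z.1))) := by
  have h1 := ASC.pb_GG (fun g : Pth n => g 0) (m := k) (fun x : E n => P (x - z.1))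
  funext x
  have h2 := congrFun h1 x
  by_cases hx : ∀ i, ‖x i 0 - z.1‖ ≤ ρ
  · have hx' : ∀ i, x i 0 ∈ closedBall z.1 ρ := fun i => mem_closedBall_iff_norm.2 (hx i)
    have e1 : ASC.pb (fun g : Pth n => g 0)
        (ASC.loc (closedBall z.1 ρ) (ASC.GG k (fun x => P (x - z.1)))) x =
        ASC.GG k (fun x => P (x - z.1)) (fun i => x i 0) := if_pos hx'
    have e2 : ASC.loc {g : Pth n | ‖g 0 - z.1‖ ≤ ρ} (ASC.GG k (fun g => P (g 0 - z.1))) x =
        ASC.GG k (fun g : Pth n => P (g 0 - z.1)) x := if_pos hx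
    rw [e1, e2]
    exact h2
  · have hx' : ¬ ∀ i, x i 0 ∈ closedBall z.1 ρ := fun h =>
      hx fun i => mem_closedBall_iff_norm.1 (h i)
    have e1 : ASC.pb (fun g : Pth n => g 0)
        (ASC.loc (closedBall z.1 ρ) (ASC.GG k (fun x => P (x - z.1)))) x = 0 := if_neg hx'
    have e2 : ASC.loc {g : Pth n | ‖g 0 - z.1‖ ≤ ρ} (ASC.GG k (fun g => P (g 0 - z.1))) x = 0 :=
      if_neg hx
    rw [e1, e2]

theorem path_class (hL : ASC.LemL (Pth n) (E n × E n)) {z : E n × E n} (hz : z ∈ F.B) {T : ℝ} (hT : 0 < T)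
    (hm : F.mul z T = 0) : ∃ (K : Set (Pth n)) (ev : Pth n → E n), IsCompact K ∧ Continuous ev ∧
      (∀ g ∈ K, ev g ∈ F.M ∧ ‖ev g - (z.1 + T • z.2)‖ ≤ T ∧ (‖ev g - (z.1 + T • z.2)‖ = T → ev g = z.1)) ∧
      ∀ (k : ℕ), F.idx z T = k → ∀ P : E n →L[ℝ] (Fin k → ℝ), F.Pos z T P → ∃ ρ0 > 0, ∀ ρ, 0 < ρ → ρ < ρ0 →
        ¬ ASC.Cob K ∅ (ASC.pb ev (ASC.loc (closedBall z.1 ρ) (ASC.GG k (fun x => P (x - z.1))))) := by
  refine ⟨F.K T z T, fun g => g 0, K_compact hz hT le_rfl,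
    continuous_eval_const (F := Pth n) 0, fun g hg => ?_, fun k hk P hP => ?_⟩
  · have h1 := end_bound le_rfl hg
    refine ⟨h1.1, h1.2, fun h => ?_⟩
    have h2 : g = rayP z T := eq_rayP le_rfl hm hg h
    have h3 : (rayP z T : Pth n) 0 = z.1 := by
      rw [rayP_apply, min_eq_left hT.le, max_self]
      unfold Ex
      rw [zero_smul, add_zero]
    show g 0 = z.1
    rw [h2, h3]
  · obtain ⟨ρ0, h0, h⟩ := (TT_all hL hz hT le_rfl hm).2 k hk P hP
    refine ⟨ρ0, h0, fun ρ h1 h2 => ?_⟩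
    rw [C16_pb]
    exact (h ρ h1 h2).ne

end Foc

end F7H
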