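import Pool.Agent.Lib.MP_f7aa1b_gt.H.C1

/-!
Row f7h-C2 (110 lines): the leaf relation is closed.

Proof. `y0` is in the fibre `fib z0 s0` (closed conditions, `B` closed).  Suppose it is not in the component `Cc z0 s0`.
In the compact Hausdorff space `fib z0 s0` the component of `z0` is the intersection of the clopen sets containing it
(`connectedComponent_eq_iInter_isClopen`), so there are disjoint compact sets `P ∋ z0`, `P' ∋ y0` with union `fib z0 s0`; choose
disjoint open sets `U ⊇ P`, `U' ⊇ P'` of `E n × E n`.  For large `k` the fibre `fib (z k) (s k)` is contained in `U ∪ U'` (otherwise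
there are points of it outside, in the compact set `B`, and a limit point would be in `fib z0 s0` but not in `U ∪ U'`).
The connected set `Cc (z k) (s k)` lies in `U ∪ U'`, contains `z k ∈ U` and `y k ∈ U'` for large `k`: contradiction.
-/

set_option autoImplicit false

open Set Filter Topology Metric

namespace F7H

open MPf7aa (E)

namespace Foc

variable {n : ℕ} (F : Foc n)

lemma C2_lim {z x : ℕ → E n × E n} {s : ℕ → ℝ} {z0 x0 : E n × E n} {s0 : ℝ}
    (hx : ∀ k, x k ∈ F.fib (z k) (s k)) (lz : Tendsto z atTop (𝓝 z0)) (lx : Tendsto x atTop (𝓝 x0))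
    (ls : Tendsto s atTop (𝓝 s0)) : x0 ∈ F.fib z0 s0 := by
  refine ⟨F.compB.isClosed.mem_of_tendsto lx (Eventually.of_forall fun k => (hx k).1), ?_⟩
  have h1 : Tendsto (fun k => (x k).1 + s k • (x k).2) atTop (𝓝 (x0.1 + s0 • x0.2)) :=
    ((continuous_fst.tendsto x0).comp lx).add (ls.smul ((continuous_snd.tendsto x0).comp lx))
  have h2 : Tendsto (fun k => (z k).1 + s k • (z k).2) atTop (𝓝 (z0.1 + s0 • z0.2)) :=
    ((continuous_fst.tendsto z0).comp lz).add (ls.smul ((continuous_snd.tendsto z0).comp lz))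
  have h3 : (fun k => (x k).1 + s k • (x k).2) = fun k => (z k).1 + s k • (z k).2 := by
    funext k
    exact (hx k).2
  rw [h3] at h1
  exact tendsto_nhds_unique h1 h2

/-- separation of two points of a compact set in different components -/
lemma C2_sep {X : Type*} [TopologicalSpace X] [T2Space X] {Z : Set X} (hZ : IsCompact Z) {a b : X} (ha : a ∈ Z)
    (hb : b ∈ Z) (h : b ∉ connectedComponentIn Z a) :
    ∃ U V : Set X, IsOpen U ∧ IsOpen V ∧ a ∈ U ∧ b ∈ V ∧ Z ⊆ U ∪ V ∧ Disjoint U V := by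
  have : CompactSpace Z := isCompact_iff_compactSpace.1 hZ
  have h1 : (⟨b, hb⟩ : Z) ∉ connectedComponent (⟨a, ha⟩ : Z) := by
    intro h2
    apply h
    rw [connectedComponentIn_eq_image ha]
    exact ⟨_, h2, rfl⟩
  rw [connectedComponent_eq_iInter_isClopen] at h1
  simp only [mem_iInter, not_forall] at h1
  obtain ⟨⟨S, hS, haS⟩, hbS⟩ := h1
  have hP : IsCompact (Subtype.val '' S) := (hS.1.isCompact).image continuous_subtype_val
  have hP' : IsCompact (Subtype.val '' Sᶜ) := (hS.compl.1.isCompact).image continuous_subtype_val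
  have hd : Disjoint (Subtype.val '' S) (Subtype.val '' Sᶜ) := by
    rw [Set.disjoint_left]
    rintro x ⟨u, hu, rfl⟩ ⟨v, hv, hvu⟩
    exact hv ((Subtype.val_injective hvu) ▸ hu)
  obtain ⟨U, V, hU, hV, h3, h4, h5⟩ := SeparatedNhds.of_isCompact_isCompact hP hP' hd
  refine ⟨U, V, hU, hV, h3 ⟨_, haS, rfl⟩, h4 ⟨_, hbS, rfl⟩, ?_, h5⟩
  intro x hx
  by_cases hxS : (⟨x, hx⟩ : Z) ∈ S
  · exact Or.inl (h3 ⟨_, hxS, rfl⟩)
  · exact Or.inr (h4 ⟨_, hxS, rfl⟩)

theorem Cc_closed {z y : ℕ → E n × E n} {s : ℕ → ℝ} {z0 y0 : E n × E n} {s0 : ℝ} (hz : ∀ k, z k ∈ F.B)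
    (hy : ∀ k, y k ∈ F.Cc (z k) (s k)) (lz : Tendsto z atTop (𝓝 z0)) (ly : Tendsto y atTop (𝓝 y0))
    (ls : Tendsto s atTop (𝓝 s0)) : y0 ∈ F.Cc z0 s0 := by
  have hz0 : z0 ∈ F.B := F.compB.isClosed.mem_of_tendsto lz (Eventually.of_forall hz)
  have hy0 : y0 ∈ F.fib z0 s0 := F.C2_lim (fun k => F.Cc_sub _ _ (hy k)) lz ly ls
  by_contra hn
  obtain ⟨U, V, hU, hV, hzU, hyV, hUV, hd⟩ := C2_sep (F.fib_compact z0 s0) (F.mem_fib hz0 s0) hy0 hn
  have key : ∀ᶠ k in atTop, F.fib (z k) (s k) ⊆ U ∪ V := by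
    by_contra hne
    rw [Filter.not_eventually] at hne
    obtain ⟨φ, hφ, hφ2⟩ := extraction_of_frequently_atTop hne
    have : ∀ j, ∃ x, x ∈ F.fib (z (φ j)) (s (φ j)) ∧ x ∉ U ∪ V := by
      intro j
      by_contra h
      push Not at h
      exact hφ2 j (fun x hx => h x hx)
    choose x hx hxU using this
    obtain ⟨x0, hx0, ψ, hψ, lx⟩ := F.compB.tendsto_subseq (fun j => (hx j).1)
    have lφψ : Tendsto (fun j => φ (ψ j)) atTop atTop := hφ.tendsto_atTop.comp hψ.tendsto_atTop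
    have h0 : x0 ∈ F.fib z0 s0 :=
      F.C2_lim (z := fun j => z (φ (ψ j))) (x := fun j => x (ψ j)) (s := fun j => s (φ (ψ j)))
        (fun k => hx (ψ k)) (lz.comp lφψ) lx (ls.comp lφψ)
    have h1 : x0 ∉ U ∪ V :=
      (hU.union hV).isClosed_compl.mem_of_tendsto lx (Eventually.of_forall fun k => hxU (ψ k))
    exact h1 (hUV h0)
  have hzk : ∀ᶠ k in atTop, z k ∈ U := lz.eventually (hU.mem_nhds hzU)
  have hyk : ∀ᶠ k in atTop, y k ∈ V := ly.eventually (hV.mem_nhds hyV)
  obtain ⟨k, hk1, hk2, hk3⟩ := (key.and (hzk.and hyk)).exists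
  have hc : IsPreconnected (F.Cc (z k) (s k)) := isPreconnected_connectedComponentIn
  have hsub : F.Cc (z k) (s k) ⊆ U :=
    hc.subset_left_of_subset_union hU hV hd ((F.Cc_sub _ _).trans hk1) ⟨z k, F.mem_Cc (hz k) _, hk2⟩
  exact (Set.disjoint_left.1 hd) (hsub (hy k)) hk3

end Foc

end F7H
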