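import Pool.Agent.Lib.MP_f7aa1b_gt.H.C1

/-!
Row f7h-C3 (220 lines): index and multiplicity along rays and leaves.  Everything is counting of the continuous
functions `lam j`, `j < n`, antitone in `j`.

`idx_const`: on the compact connected set `Cc z s` the functions `y ↦ #{j | 1 < s lam_j y}` (lower semicontinuous: strict
inequalities persist nearby) and `y ↦ #{j | 1 ≤ s lam_j y} = idx + mul` (upper semicontinuous) differ by the constant
`mul` (`mul_const`); so `idx` is locally constant on `Cc z s`, hence constant.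
`gap`: for each `j < idx z t` we have `1 < t lam_j y` for all `y ∈ Cc z t` (the counted `j` are an initial segment because `lam` is
antitone, and `idx y t = idx z t`), so `1 < (t - δ) lam_j y` on the compact set `Cc z t` for small `δ`; for `j ≥ idx z t`:
`t lam_j y ≤ 1`, so `s lam_j y < 1` for `0 < s < t`.
`last_focal`: `k = idx z T > 0`, `t = 1 / lam (k-1) z`.
`small_free`: `B` compact, `lam 0` bounded above on `B`.
-/

set_option autoImplicit false

open Set Filter Topology Metric

namespace F7H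

open MPf7aa (E)

namespace Foc

variable {n : ℕ} (F : Foc n)

/-- a downward closed subset of `range n` is an initial segment -/
private lemma C3_ini (n : ℕ) (P : ℕ → Prop) [DecidablePred P] (hP : ∀ i j, i ≤ j → P j → P i) (j : ℕ) :
    (j < n ∧ P j) ↔ j < ((Finset.range n).filter P).card := by
  have hsub : (Finset.range n).filter P ⊆ Finset.range ((Finset.range n).filter P).card := by
    intro j hj
    rw [Finset.mem_filter, Finset.mem_range] at hj
    have h1 : Finset.range (j + 1) ⊆ (Finset.range n).filter P := by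
      intro i hi
      rw [Finset.mem_range] at hi
      rw [Finset.mem_filter, Finset.mem_range]
      exact ⟨by omega, hP i j (by omega) hj.2⟩
    have h2 := Finset.card_le_card h1
    rw [Finset.card_range] at h2
    rw [Finset.mem_range]
    omega
  have heq := Finset.eq_of_subset_of_card_le hsub (by rw [Finset.card_range])
  have h3 : j ∈ (Finset.range n).filter P ↔ j ∈ Finset.range ((Finset.range n).filter P).card := by
    rw [← heq]
  rw [Finset.mem_filter, Finset.mem_range, Finset.mem_range] at h3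
  exact h3

private lemma C3_tot (z : E n × E n) (s : ℝ) :
    F.idx z s + F.mul z s = ((Finset.range n).filter (fun j => 1 ≤ s * F.lam j z)).card := by
  unfold idx mul
  rw [← Finset.card_union_of_disjoint]
  · congr 1
    ext j
    simp only [Finset.mem_union, Finset.mem_filter]
    constructor
    · rintro (⟨h1, h2⟩ | ⟨h1, h2⟩)
      · exact ⟨h1, h2.le⟩
      · exact ⟨h1, h2.ge⟩
    · rintro ⟨h1, h2⟩
      rcases h2.lt_or_eq with h3 | h3
      · exact Or.inl ⟨h1, h3⟩
      · exact Or.inr ⟨h1, h3.symm⟩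
  · rw [Finset.disjoint_left]
    intro j hj hj'
    rw [Finset.mem_filter] at hj hj'
    linarith [hj.2, hj'.2]

private lemma C3_idx {z : E n × E n} (hz : z ∈ F.B) {s : ℝ} (hs : 0 ≤ s) (j : ℕ) :
    (j < n ∧ 1 < s * F.lam j z) ↔ j < F.idx z s :=
  C3_ini n (fun j => 1 < s * F.lam j z)
    (fun i j hij h => lt_of_lt_of_le h (mul_le_mul_of_nonneg_left (F.lam_anti z hz i j hij) hs)) j

private lemma C3_tot' {z : E n × E n} (hz : z ∈ F.B) {s : ℝ} (hs : 0 ≤ s) (j : ℕ) :
    (j < n ∧ 1 ≤ s * F.lam j z) ↔ j < F.idx z s + F.mul z s := by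
  rw [C3_tot]
  exact C3_ini n (fun j => 1 ≤ s * F.lam j z)
    (fun i j hij h => le_trans h (mul_le_mul_of_nonneg_left (F.lam_anti z hz i j hij) hs)) j

private lemma C3_idx_le_n (z : E n × E n) (s : ℝ) : F.idx z s ≤ n := by
  unfold idx
  exact (Finset.card_filter_le _ _).trans (by rw [Finset.card_range])

private lemma C3_mul_zero {z : E n × E n} {s : ℝ} (h : ∀ j, j < n → s * F.lam j z ≠ 1) : F.mul z s = 0 := by
  unfold mul
  rw [Finset.card_eq_zero, Finset.filter_eq_empty_iff]
  intro j hj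
  exact h j (Finset.mem_range.1 hj)

private lemma C3_eval {z : E n × E n} {s : ℝ} {k : ℕ} (hk : k ≤ n)
    (h1 : ∀ j, j < k → 1 < s * F.lam j z) (h2 : ∀ j, k ≤ j → j < n → s * F.lam j z < 1) :
    F.mul z s = 0 ∧ F.idx z s = k := by
  refine ⟨F.C3_mul_zero (fun j hj => ?_), ?_⟩
  · rcases lt_or_ge j k with h | h
    · exact (h1 j h).ne'
    · exact (h2 j h hj).ne
  · have h3 : (Finset.range n).filter (fun j => 1 < s * F.lam j z) = Finset.range k := by
      ext j
      rw [Finset.mem_filter, Finset.mem_range, Finset.mem_range]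
      constructor
      · rintro ⟨h4, h5⟩
        by_contra h6
        linarith [h2 j (not_lt.1 h6) h4]
      · intro h4
        exact ⟨lt_of_lt_of_le h4 hk, h1 j h4⟩
    unfold idx
    rw [h3, Finset.card_range]

/-- scaling down keeps `< 1` -/
private lemma C3_lt {a s T : ℝ} (hs : 0 < s) (h : s ≤ T) (ha : T * a < 1) : s * a < 1 := by
  rcases le_or_gt a 0 with h1 | h1
  · have := mul_nonpos_of_nonneg_of_nonpos hs.le h1
    linarith
  · exact lt_of_le_of_lt (mul_le_mul_of_nonneg_right h h1.le) ha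

private lemma C3_lt' {a s T : ℝ} (hs : 0 < s) (h : s < T) (ha : T * a ≤ 1) : s * a < 1 := by
  rcases le_or_gt a 0 with h1 | h1
  · have := mul_nonpos_of_nonneg_of_nonpos hs.le h1
    linarith
  · exact lt_of_lt_of_le (mul_lt_mul_of_pos_right h h1) ha

private lemma C3_pos {a s : ℝ} (hs : 0 < s) (h : 1 ≤ s * a) : 0 < a := by
  by_contra h1
  have := mul_nonpos_of_nonneg_of_nonpos hs.le (not_lt.1 h1)
  linarith

lemma idx_const {z y : E n × E n} {s : ℝ} (hz : z ∈ F.B) (hs : 0 < s) (h : y ∈ F.Cc z s) :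
    F.idx y s = F.idx z s := by
  have hcont : ContinuousOn (fun y => F.idx y s) (F.Cc z s) := by
    intro y0 hy0
    unfold ContinuousWithinAt
    rw [nhds_discrete, tendsto_pure]
    have hB : F.Cc z s ⊆ F.B := fun y hy => F.Cc_B hy
    have hlc : ∀ j, ContinuousWithinAt (fun y => s * F.lam j y) (F.Cc z s) y0 := fun j =>
      continuousWithinAt_const.mul ((F.lam_cont j y0 (hB hy0)).mono hB)
    have hlow : ∀ᶠ y in 𝓝[F.Cc z s] y0, ∀ j ∈ Finset.range n, 1 < s * F.lam j y0 → 1 < s * F.lam j y := by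
      rw [Filter.eventually_all_finset]
      intro j _
      by_cases hj : 1 < s * F.lam j y0
      · filter_upwards [(hlc j).eventually (lt_mem_nhds hj)] with y hy _
        exact hy
      · filter_upwards with y hy
        exact absurd hy hj
    have hup : ∀ᶠ y in 𝓝[F.Cc z s] y0, ∀ j ∈ Finset.range n, s * F.lam j y0 < 1 → s * F.lam j y < 1 := by
      rw [Filter.eventually_all_finset]
      intro j _
      by_cases hj : s * F.lam j y0 < 1
      · filter_upwards [(hlc j).eventually (gt_mem_nhds hj)] with y hy _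
        exact hy
      · filter_upwards with y hy
        exact absurd hy hj
    filter_upwards [hlow, hup, self_mem_nhdsWithin] with y h1 h2 hy
    have h3 : F.idx y0 s ≤ F.idx y s := by
      unfold idx
      apply Finset.card_le_card
      intro j hj
      rw [Finset.mem_filter] at hj ⊢
      exact ⟨hj.1, h1 j hj.1 hj.2⟩
    have h4 : F.idx y s + F.mul y s ≤ F.idx y0 s + F.mul y0 s := by
      rw [C3_tot, C3_tot]
      apply Finset.card_le_card
      intro j hj
      rw [Finset.mem_filter] at hj ⊢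
      refine ⟨hj.1, ?_⟩
      by_contra h5
      exact absurd hj.2 (not_le.2 (h2 j hj.1 (not_le.1 h5)))
    have h5 := F.mul_const hz hs hy
    have h6 := F.mul_const hz hs hy0
    omega
  exact (F.Cc_conn hz s).isPreconnected.constant hcont h (F.mem_Cc hz s)

lemma gap {z : E n × E n} (hz : z ∈ F.B) {t : ℝ} (ht : 0 < t) :
    ∃ δ > 0, δ < t ∧ ∀ y ∈ F.Cc z t, ∀ s, t - δ ≤ s → s < t → F.mul y s = 0 ∧ F.idx y s = F.idx z t := by
  have hk : F.idx z t ≤ n := F.C3_idx_le_n z t
  have hhigh : ∀ y ∈ F.Cc z t, ∀ s, 0 < s → s < t → ∀ j, F.idx z t ≤ j → j < n → s * F.lam j y < 1 := by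
    intro y hy s hs hst j hj hjn
    apply C3_lt' hs hst
    by_contra h1
    have h2 := (F.C3_idx (F.Cc_B hy) ht.le j).1 ⟨hjn, not_le.1 h1⟩
    rw [F.idx_const hz ht hy] at h2
    omega
  rcases Nat.eq_zero_or_pos (F.idx z t) with h0 | h0
  · refine ⟨t / 2, by positivity, by linarith, fun y hy s hs1 hs2 => ?_⟩
    apply F.C3_eval hk
    · intro j hj
      omega
    · exact hhigh y hy s (by linarith) hs2
  · obtain ⟨k, hk'⟩ : ∃ k, F.idx z t = k + 1 := ⟨F.idx z t - 1, by omega⟩
    have hcont : ContinuousOn (F.lam k) (F.Cc z t) :=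
      (F.lam_cont k).mono (fun y hy => F.Cc_B hy)
    obtain ⟨y0, hy0, hmin⟩ := (F.Cc_compact z t).exists_isMinOn ⟨z, F.mem_Cc hz t⟩ hcont
    have hm : 1 < t * F.lam k y0 := by
      refine ((F.C3_idx (F.Cc_B hy0) ht.le k).2 ?_).2
      rw [F.idx_const hz ht hy0]
      omega
    have hmpos : 0 < F.lam k y0 := C3_pos ht hm.le
    have h1 : 1 / F.lam k y0 < t := by
      rw [div_lt_iff₀ hmpos]
      exact hm
    have h1' : 0 < 1 / F.lam k y0 := by positivity
    refine ⟨(t - 1 / F.lam k y0) / 2, by linarith, by linarith, fun y hy s hs1 hs2 => ?_⟩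
    have hs0 : 0 < s := by linarith
    apply F.C3_eval hk
    · intro j hj
      have h2 : F.lam k y ≤ F.lam j y := F.lam_anti y (F.Cc_B hy) j k (by omega)
      have h3 : F.lam k y0 ≤ F.lam k y := hmin hy
      have h4 : 1 / F.lam k y0 < s := by linarith
      rw [div_lt_iff₀ hmpos] at h4
      calc 1 < s * F.lam k y0 := h4
        _ ≤ s * F.lam j y := mul_le_mul_of_nonneg_left (h3.trans h2) hs0.le
    · exact hhigh y hy s hs0 hs2

lemma last_focal {z : E n × E n} (hz : z ∈ F.B) {T : ℝ} (hT : 0 < T) (h : 0 < F.idx z T) :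
    ∃ t, 0 < t ∧ t < T ∧ 0 < F.mul z t ∧ F.idx z T = F.idx z t + F.mul z t ∧
      ∀ s, t < s → s < T → F.mul z s = 0 := by
  obtain ⟨k, hk'⟩ : ∃ k, F.idx z T = k + 1 := ⟨F.idx z T - 1, by omega⟩
  have hkn : k + 1 ≤ n := hk' ▸ F.C3_idx_le_n z T
  have hlow : ∀ j, j ≤ k → F.lam k z ≤ F.lam j z := fun j hj => F.lam_anti z hz j k hj
  have hkk : 1 < T * F.lam k z := ((F.C3_idx hz hT.le k).2 (by omega)).2
  have hpos : 0 < F.lam k z := C3_pos hT hkk.le
  have ht0 : 0 < 1 / F.lam k z := by positivity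
  have htT : 1 / F.lam k z < T := by
    rw [div_lt_iff₀ hpos]; exact hkk
  have ht1 : 1 / F.lam k z * F.lam k z = 1 := by field_simp
  have hhigh : ∀ j, k < j → j < n → T * F.lam j z ≤ 1 := by
    intro j hj hjn
    by_contra h1
    have h2 := (F.C3_idx hz hT.le j).1 ⟨hjn, not_le.1 h1⟩
    omega
  refine ⟨1 / F.lam k z, ht0, htT, ?_, ?_, ?_⟩
  · unfold mul
    apply Finset.card_pos.2
    exact ⟨k, Finset.mem_filter.2 ⟨Finset.mem_range.2 (by omega), ht1⟩⟩
  · apply le_antisymm
    · rw [hk', Nat.succ_le_iff]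
      exact (F.C3_tot' hz ht0.le k).1 ⟨by omega, ht1.ge⟩
    · by_contra h1
      have h2 := (F.C3_tot' hz ht0.le (k + 1)).2 (by omega)
      have h3 := C3_lt' ht0 htT (hhigh (k + 1) (by omega) h2.1)
      linarith [h2.2]
  · intro s hs1 hs2
    have hs0 : 0 < s := ht0.trans hs1
    apply F.C3_mul_zero
    intro j hj
    rcases lt_or_ge k j with h1 | h1
    · exact (C3_lt' hs0 hs2 (hhigh j h1 hj)).ne
    · have h2 : 1 < s * F.lam j z := by
        calc (1 : ℝ) = 1 / F.lam k z * F.lam k z := ht1.symm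
          _ < s * F.lam k z := mul_lt_mul_of_pos_right hs1 hpos
          _ ≤ s * F.lam j z := mul_le_mul_of_nonneg_left (hlow j h1) hs0.le
      exact h2.ne'

lemma small_free : ∃ σ > 0, ∀ z ∈ F.B, ∀ s, 0 < s → s ≤ σ → F.mul z s = 0 ∧ F.idx z s = 0 := by
  obtain ⟨C, hC⟩ := F.compB.exists_bound_of_continuousOn (F.lam_cont 0)
  have hC0 : 0 < |C| + 1 := by positivity
  refine ⟨1 / (2 * (|C| + 1)), by positivity, fun z hz s hs1 hs2 => ?_⟩
  apply F.C3_eval (Nat.zero_le n)
  · intro j hj
    omega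
  · intro j _ _
    have h1 : F.lam j z ≤ |C| + 1 := by
      have h2 := F.lam_anti z hz 0 j (Nat.zero_le j)
      have h3 := hC z hz
      rw [Real.norm_eq_abs] at h3
      have h4 := le_abs_self (F.lam 0 z)
      have h5 := le_abs_self C
      linarith
    calc s * F.lam j z ≤ s * (|C| + 1) := mul_le_mul_of_nonneg_left h1 hs1.le
      _ ≤ 1 / (2 * (|C| + 1)) * (|C| + 1) := mul_le_mul_of_nonneg_right hs2 hC0.le
      _ = 1 / 2 := by field_simp
      _ < 1 := by norm_num

lemma idx_add_mul_le {z : E n × E n} (hz : z ∈ F.B) {s T : ℝ} (hs : 0 < s) (h : s < T) :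
    F.idx z s + F.mul z s ≤ F.idx z T := by
  rw [C3_tot]
  unfold idx
  apply Finset.card_le_card
  intro j hj
  rw [Finset.mem_filter] at hj ⊢
  refine ⟨hj.1, ?_⟩
  have h1 := C3_pos hs hj.2
  calc 1 ≤ s * F.lam j z := hj.2
    _ < T * F.lam j z := mul_lt_mul_of_pos_right h h1

lemma idx_add_mul_le_n (z : E n × E n) (s : ℝ) : F.idx z s + F.mul z s ≤ n := by
  rw [C3_tot]
  exact (Finset.card_filter_le _ _).trans (by rw [Finset.card_range])

/-- no focal point in `[s, T)`: the index does not change -/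
lemma idx_eq_of_free {z : E n × E n} (hz : z ∈ F.B) {s T : ℝ} (hs : 0 < s) (h : s ≤ T)
    (hf : ∀ u, s ≤ u → u < T → F.mul z u = 0) : F.idx z T = F.idx z s := by
  unfold idx
  congr 1
  ext j
  rw [Finset.mem_filter, Finset.mem_filter]
  constructor
  · rintro ⟨h1, h2⟩
    refine ⟨h1, ?_⟩
    by_contra h3
    have h3' := not_lt.1 h3
    have hpos : 0 < F.lam j z := C3_pos (hs.trans_le h) h2.le
    have h4 : s ≤ 1 / F.lam j z := by
      rw [le_div_iff₀ hpos]; exact h3'
    have h5 : 1 / F.lam j z < T := by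
      rw [div_lt_iff₀ hpos]; exact h2
    have h6 := hf _ h4 h5
    unfold mul at h6
    rw [Finset.card_eq_zero, Finset.filter_eq_empty_iff] at h6
    apply h6 h1
    field_simp
  · rintro ⟨h1, h2⟩
    refine ⟨h1, ?_⟩
    have hpos := C3_pos hs h2.le
    exact lt_of_lt_of_le h2 (mul_le_mul_of_nonneg_right h hpos.le)

/-- if there is a focal time in `(0, T]`, there is a last one -/
lemma last_focal_le {z : E n × E n} (hz : z ∈ F.B) {T : ℝ} (hT : 0 < T) (h : 0 < F.idx z T + F.mul z T) :
    ∃ t, 0 < t ∧ t ≤ T ∧ 0 < F.mul z t ∧ F.idx z t + F.mul z t = F.idx z T + F.mul z T ∧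
      ∀ s, t < s → s ≤ T → F.mul z s = 0 := by
  obtain ⟨k, hk'⟩ : ∃ k, F.idx z T + F.mul z T = k + 1 := ⟨F.idx z T + F.mul z T - 1, by omega⟩
  have hkn : k + 1 ≤ n := hk' ▸ F.idx_add_mul_le_n z T
  have hlow : ∀ j, j ≤ k → F.lam k z ≤ F.lam j z := fun j hj => F.lam_anti z hz j k hj
  have hkk : 1 ≤ T * F.lam k z := ((F.C3_tot' hz hT.le k).2 (by omega)).2
  have hpos : 0 < F.lam k z := C3_pos hT hkk
  have ht0 : 0 < 1 / F.lam k z := by positivity
  have htT : 1 / F.lam k z ≤ T := by
    rw [div_le_iff₀ hpos]; exact hkk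
  have ht1 : 1 / F.lam k z * F.lam k z = 1 := by field_simp
  have hhigh : ∀ j, k < j → j < n → T * F.lam j z < 1 := by
    intro j hj hjn
    by_contra h1
    have h2 := (F.C3_tot' hz hT.le j).1 ⟨hjn, not_lt.1 h1⟩
    omega
  refine ⟨1 / F.lam k z, ht0, htT, ?_, ?_, ?_⟩
  · unfold mul
    apply Finset.card_pos.2
    exact ⟨k, Finset.mem_filter.2 ⟨Finset.mem_range.2 (by omega), ht1⟩⟩
  · rw [hk']
    apply le_antisymm
    · by_contra h1
      have h2 := (F.C3_tot' hz ht0.le (k + 1)).2 (by omega)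
      have h3 := C3_lt ht0 htT (hhigh (k + 1) (by omega) h2.1)
      linarith [h2.2]
    · rw [Nat.succ_le_iff]
      exact (F.C3_tot' hz ht0.le k).1 ⟨by omega, ht1.ge⟩
  · intro s hs1 hs2
    have hs0 : 0 < s := ht0.trans hs1
    apply F.C3_mul_zero
    intro j hj
    rcases lt_or_ge k j with h1 | h1
    · exact (C3_lt hs0 hs2 (hhigh j h1 hj)).ne
    · have h2 : 1 < s * F.lam j z := by
        calc (1 : ℝ) = 1 / F.lam k z * F.lam k z := ht1.symm
          _ < s * F.lam k z := mul_lt_mul_of_pos_right hs1 hpos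
          _ ≤ s * F.lam j z := mul_le_mul_of_nonneg_left (hlow j h1) hs0.le
      exact h2.ne'

/-- `idx + mul = 0` at `T`: no focal time in `(0, T]` -/
lemma free_of_zero {z : E n × E n} (hz : z ∈ F.B) {T : ℝ} (h : F.idx z T + F.mul z T = 0) :
    ∀ s, 0 < s → s ≤ T → F.mul z s = 0 := by
  intro s hs1 hs2
  apply F.C3_mul_zero
  intro j hj
  have hT : 0 < T := hs1.trans_le hs2
  have h1 : T * F.lam j z < 1 := by
    by_contra h2
    have h3 := (F.C3_tot' hz hT.le j).1 ⟨hj, not_lt.1 h2⟩
    omega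
  exact (C3_lt hs1 hs2 h1).ne

end Foc

end F7H
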