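import Pool.Agent.Lib.MP_f7aa1b_gt.H.C1

/-!
Row f7h-C4 (160 lines): elementary properties of broken normal segments, all by induction on `IsPath`.

`ray_above`: for `jump`: for `s > r` by definition of `glue`, for `s = r = T` we have `f r = Ex r y` (induction) `= Ex r z` (`Ex_eq`).
`lip`: on each side of `r` the glued function is 1-Lipschitz (`‖z.2‖ = 1`), and both pieces agree at `r`
(`f r = Ex r y = Ex r z`); for `s ≤ r < s'`: triangle inequality through `r`.
`low`: near `0` (below the last jump time) the path is the ray of a point of `B`; so `f 0 = y.1 ∈ M`.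
`strict`: `‖f 0 - f T‖ = T` with `f` 1-Lipschitz: for `0 ≤ s ≤ T` the distances `‖f 0 - f s‖ ≤ s`, `‖f s - f T‖ ≤ T - s` add up to
`T`, so both are equalities and (strictly convex space) `f s = f 0 + (s/T) • (f T - f 0)`.  Ray: nothing to do.  Jump at `r < T`: on
`(r, T]` the path is `Ex s z`, so the slope `(f T - f 0)/T` is `z.2` and `f 0 = z.1`; hence `f s = Ex s z` on `[0, T]`; for `s < 0`
use `low`: `y.1 = f 0 = z.1`, `y.2 =` slope `= z.2`.  Jump at `r = T`: `y = z` by `Cc_single`, `glue T f z = f`, induction.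
-/

set_option autoImplicit false

open Set Filter Topology Metric

namespace F7H

open MPf7aa (E)

namespace Foc

variable {n : ℕ} {F : Foc n}

lemma IsPath.mem {z : E n × E n} {T : ℝ} {f : ℝ → E n} (h : F.IsPath z T f) : z ∈ F.B ∧ 0 < T := by
  induction h with
  | ray z T hz hT => exact ⟨hz, hT⟩
  | jump z T r y f hz hr hrT hy hf ih => exact ⟨hz, lt_of_lt_of_le hr hrT⟩

lemma IsPath.ray_above {z : E n × E n} {T : ℝ} {f : ℝ → E n} (h : F.IsPath z T f) :
    ∀ s, T ≤ s → f s = Ex s z := by
  induction h with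
  | ray z T hz hT => intro s _; rfl
  | jump z T r y f hz hr hrT hy hf ih =>
    intro s hs
    unfold glue
    split_ifs with h1
    · have h2 : s = r := le_antisymm h1 (hrT.trans hs)
      rw [h2, ih r le_rfl]
      exact F.Ex_eq hy
    · rfl

lemma IsPath.glue_self {z : E n × E n} {T : ℝ} {f : ℝ → E n} (h : F.IsPath z T f) : glue T f z = f := by
  funext s
  unfold glue
  split_ifs with h1
  · rfl
  · exact (h.ray_above s (le_of_lt (not_le.mp h1))).symm

lemma C4_ray_norm {z : E n × E n} (hz : z ∈ F.B) (s s' : ℝ) : ‖Ex s z - Ex s' z‖ ≤ |s - s'| := by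
  have h1 : Ex s z - Ex s' z = (s - s') • z.2 := by
    unfold Ex
    rw [sub_smul]
    abel
  rw [h1, norm_smul, F.unit z hz, mul_one, Real.norm_eq_abs]

lemma IsPath.lip {z : E n × E n} {T : ℝ} {f : ℝ → E n} (h : F.IsPath z T f) :
    ∀ s s', ‖f s - f s'‖ ≤ |s - s'| := by
  induction h with
  | ray z T hz hT => intro s s'; exact C4_ray_norm hz s s'
  | jump z T r y f hz hr hrT hy hf ih =>
    have hfr : f r = Ex r z := by
      rw [hf.ray_above r le_rfl]
      exact F.Ex_eq hy
    have key : ∀ s s', s ≤ r → r < s' → ‖f s - Ex s' z‖ ≤ |s - s'| := by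
      intro s s' h1 h2
      have h3 : f s - Ex s' z = (f s - f r) + (Ex r z - Ex s' z) := by
        rw [hfr]; abel
      rw [h3]
      refine (norm_add_le _ _).trans ?_
      have h4 := ih s r
      have h5 := C4_ray_norm (F := F) hz r s'
      rw [abs_of_nonpos (by linarith)] at h4 h5 ⊢
      linarith
    intro s s'
    unfold glue
    split_ifs with h1 h2 h2
    · exact ih s s'
    · exact key s s' h1 (not_le.mp h2)
    · rw [norm_sub_rev, abs_sub_comm]
      exact key s' s h2 (not_le.mp h1)
    · exact C4_ray_norm hz s s'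

lemma IsPath.cont {z : E n × E n} {T : ℝ} {f : ℝ → E n} (h : F.IsPath z T f) : Continuous f := by
  have h1 : LipschitzWith 1 f := by
    refine LipschitzWith.of_dist_le_mul (fun s s' => ?_)
    rw [dist_eq_norm, Real.dist_eq]
    simpa using h.lip s s'
  exact h1.continuous

lemma IsPath.low {z : E n × E n} {T : ℝ} {f : ℝ → E n} (h : F.IsPath z T f) :
    ∃ y ∈ F.B, ∃ r > 0, ∀ s ≤ r, f s = Ex s y := by
  induction h with
  | ray z T hz hT => exact ⟨z, hz, 1, one_pos, fun s _ => rfl⟩
  | jump z T r y f hz hr hrT hy hf ih =>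
    obtain ⟨y', hy', r', hr', h⟩ := ih
    refine ⟨y', hy', min r r', lt_min hr hr', fun s hs => ?_⟩
    unfold glue
    rw [if_pos (hs.trans (min_le_left _ _))]
    exact h s (hs.trans (min_le_right _ _))

lemma IsPath.end_mem {z : E n × E n} {T : ℝ} {f : ℝ → E n} (h : F.IsPath z T f) : f 0 ∈ F.M := by
  obtain ⟨y, hy, r, hr, h1⟩ := h.low
  rw [h1 0 hr.le]
  have h2 : Ex 0 y = y.1 := by unfold Ex; simp
  rw [h2]
  exact F.memM y hy

lemma IsPath.end_le {z : E n × E n} {T : ℝ} {f : ℝ → E n} (h : F.IsPath z T f) : ‖f 0 - Ex T z‖ ≤ T := by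
  have h1 := h.lip 0 T
  rw [h.ray_above T le_rfl] at h1
  have h2 : |0 - T| = T := by
    rw [zero_sub, abs_neg, abs_of_pos h.mem.2]
  rwa [h2] at h1

/-- a 1-Lipschitz path whose end points are at distance `T` is a segment -/
lemma C4_segment {T : ℝ} (hT : 0 < T) {g : ℝ → E n} (hl : ∀ s s', ‖g s - g s'‖ ≤ |s - s'|)
    (he : ‖g 0 - g T‖ = T) : ∀ s, 0 ≤ s → s ≤ T → g s = g 0 + s • (T⁻¹ • (g T - g 0)) := by
  intro s h0 h1
  have a1 := hl 0 s
  have a2 := hl s T
  rw [abs_of_nonpos (by linarith)] at a1 a2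
  have a3 : ‖g 0 - g T‖ ≤ ‖g 0 - g s‖ + ‖g s - g T‖ := norm_sub_le_norm_sub_add_norm_sub _ _ _
  have b1 : ‖g 0 - g s‖ = s := by linarith
  have b2 : ‖g s - g T‖ = T - s := by linarith
  have hT' : T ≠ 0 := hT.ne'
  have c1 : dist (g 0) (g s) = s / T * dist (g 0) (g T) := by
    rw [dist_eq_norm, dist_eq_norm, b1, he]
    field_simp
  have c2 : dist (g s) (g T) = (1 - s / T) * dist (g 0) (g T) := by
    rw [dist_eq_norm, dist_eq_norm, b2, he]
    field_simp
  have c3 := eq_lineMap_of_dist_eq_mul_of_dist_eq_mul c1 c2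
  rw [c3, AffineMap.lineMap_apply, vsub_eq_sub, vadd_eq_add, smul_smul, div_eq_mul_inv, add_comm]

/-- two affine lines which agree at two different times agree -/
lemma C4_lines {a b v w : E n} {s t : ℝ} (hst : s ≠ t) (h1 : a + s • v = b + s • w)
    (h2 : a + t • v = b + t • w) : a = b ∧ v = w := by
  have h3 : (s - t) • v = (s - t) • w := by
    rw [sub_smul, sub_smul]
    have e1 : s • v - t • v = (a + s • v) - (a + t • v) := by abel
    rw [e1, h1, h2]
    abel
  have h4 : v = w := smul_right_injective (E n) (sub_ne_zero.mpr hst) h3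
  subst h4
  exact ⟨add_right_cancel h1, rfl⟩

lemma IsPath.strict {z : E n × E n} {T : ℝ} {f : ℝ → E n} (h : F.IsPath z T f) (hm : F.mul z T = 0)
    (he : ‖f 0 - Ex T z‖ = T) : ∀ s, f s = Ex s z := by
  induction h with
  | ray z T hz hT => intro s; rfl
  | jump z T r y f hz hr hrT hy hf ih =>
    rcases eq_or_lt_of_le hrT with heq | hlt
    · subst heq
      have hyz : y = z := by
        have h1 := F.Cc_single hz hr hm
        rw [h1] at hy
        exact hy
      subst hyz
      have h0 : glue r f y 0 = f 0 := by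
        unfold glue
        rw [if_pos hr.le]
      rw [h0] at he
      have h2 := ih hm he
      intro s
      rw [hf.glue_self]
      exact h2 s
    · have hg : F.IsPath z T (glue r f z) := IsPath.jump z T r y f hz hr hrT hy hf
      set g := glue r f z with hgdef
      have hT : 0 < T := hg.mem.2
      have hgT : g T = Ex T z := hg.ray_above T le_rfl
      rw [← hgT] at he
      have hseg := C4_segment hT hg.lip he
      set v := T⁻¹ • (g T - g 0) with hv
      have hup : ∀ s, r < s → g s = Ex s z := by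
        intro s hs
        rw [hgdef]
        unfold glue
        rw [if_neg (not_le.mpr hs)]
      have e1 : g 0 + T • v = z.1 + T • z.2 := by
        rw [← hseg T hT.le le_rfl]; exact hgT
      have e2 : g 0 + ((r + T) / 2) • v = z.1 + ((r + T) / 2) • z.2 := by
        rw [← hseg ((r + T) / 2) (by linarith) (by linarith)]
        exact hup _ (by linarith)
      obtain ⟨e3, e4⟩ := C4_lines (by intro h; linarith) e1 e2
      have hmid : ∀ s, 0 ≤ s → s ≤ T → g s = Ex s z := by
        intro s h0 h1
        rw [hseg s h0 h1, e3, e4]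
        rfl
      obtain ⟨y', hy', r', hr', hlow⟩ := hg.low
      have f1 : y'.1 + (0 : ℝ) • y'.2 = z.1 + (0 : ℝ) • z.2 :=
        (hlow 0 hr'.le).symm.trans (hmid 0 le_rfl hT.le)
      have f2 : y'.1 + (min r' T) • y'.2 = z.1 + (min r' T) • z.2 :=
        (hlow _ (min_le_left _ _)).symm.trans (hmid _ (le_min hr'.le hT.le) (min_le_right _ _))
      obtain ⟨f3, f4⟩ := C4_lines (lt_min hr' hT).ne f1 f2
      intro s
      rcases le_or_gt s 0 with h0 | h0
      · rw [hlow s (h0.trans hr'.le)]
        unfold Ex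
        rw [f3, f4]
      · rcases le_or_gt s T with h1 | h1
        · exact hmid s h0.le h1
        · exact hg.ray_above s h1.le

end Foc

end F7H
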