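import Pool.Agent.Lib.MP_f7aa1b_gt.H.C4

/-!
Row f7h-C5 (170 lines): structure of broken normal segments.

`mono`: cases on the path.
`shrink`: induction on the path.  Ray: ray.  Jump at `r ≤ T'`: jump.  Jump at `r > T'`: `mul z r = 0`, so `y = z` (`Cc_single`),
`glue r f z = f` (`glue_self`), and `f` is a path from `z` at time `r`; apply the induction hypothesis.
`normal`: induction.  Ray: `y = z`, `t' = t / 2`.  Jump at `r < t`: `y = z`, `t' = r`, the same function (`IsPath z r`).  Jump at
`r = t` to `y0`: induction hypothesis for the path from `y0` at time `t`, and `Cc_eq`.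
`decomp`: `→`: shrink to `t`, then `normal`, then `mono` (if `t' ≤ t - δ`) or `shrink` (if `t' > t - δ`, no focal times of `y` in `(t - δ, t')`
by hypothesis).  `f = glue t f' z` because `f s = Ex s z` for `s ≥ t`.  `←`: `mono` to time `t` and the constructor `jump`.
`unbroken`: induction on the path: every jump is trivial (`Cc_single`, `glue_self`).
-/

set_option autoImplicit false

open Set Filter Topology Metric

namespace F7H

open MPf7aa (E)

namespace Foc

variable {n : ℕ} {F : Foc n}

lemma IsPath.mono {z : E n × E n} {T T' : ℝ} {f : ℝ → E n} (h : F.IsPath z T f) (hT : T ≤ T') :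
    F.IsPath z T' f := by
  cases h with
  | ray z T hz h0 => exact IsPath.ray z T' hz (h0.trans_le hT)
  | jump z T r y f hz hr hrT hy hp => exact IsPath.jump z T' r y f hz hr (hrT.trans hT) hy hp

lemma IsPath.shrink {z : E n × E n} {T T' : ℝ} {f : ℝ → E n} (h : F.IsPath z T f) (hT : 0 < T') (hTT : T' ≤ T)
    (hf : ∀ s, T' < s → s ≤ T → F.mul z s = 0) : F.IsPath z T' f := by
  induction h with
  | ray z T hz h0 => exact IsPath.ray z T' hz hT
  | jump z T r y f hz hr hrT hy hp ih =>
    rcases le_or_gt r T' with h1 | h1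
    · exact IsPath.jump z T' r y f hz hr h1 hy hp
    · have hm : F.mul z r = 0 := hf r h1 hrT
      have hyz : y = z := by
        rw [F.Cc_single hz hr hm] at hy
        exact hy
      subst hyz
      rw [hp.glue_self]
      exact ih h1.le fun s h2 h3 => hf s h2 (h3.trans hrT)

lemma IsPath.normal {z : E n × E n} {t : ℝ} {f : ℝ → E n} (h : F.IsPath z t f) :
    ∃ y ∈ F.Cc z t, ∃ t', 0 < t' ∧ t' < t ∧ ∃ f', F.IsPath y t' f' ∧ ∀ s ≤ t, f s = f' s := by
  induction h with
  | ray z T hz h0 =>
    exact ⟨z, F.mem_Cc hz T, T / 2, half_pos h0, half_lt_self h0, _,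
      IsPath.ray z (T / 2) hz (half_pos h0), fun s _ => rfl⟩
  | jump z T r y f hz hr hrT hy hp ih =>
    rcases hrT.lt_or_eq with h1 | h1
    · exact ⟨z, F.mem_Cc hz T, r, hr, h1, _, IsPath.jump z r r y f hz hr le_rfl hy hp,
        fun s _ => rfl⟩
    · subst h1
      obtain ⟨y', hy', t', h0, ht', f', hp', hff⟩ := ih
      refine ⟨y', ?_, t', h0, ht', f', hp', fun s hs => ?_⟩
      · rwa [F.Cc_eq hy] at hy'
      · unfold glue
        rw [if_pos hs]
        exact hff s hs

lemma IsPath.decomp {z : E n × E n} {T t δ : ℝ} (ht : t ≤ T) (hδ : 0 < δ) (hδt : δ < t)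
    (hz : z ∈ F.B) (hf : ∀ s, t < s → s ≤ T → F.mul z s = 0)
    (hg : ∀ y ∈ F.Cc z t, ∀ s, t - δ ≤ s → s < t → F.mul y s = 0) (f : ℝ → E n) :
    F.IsPath z T f ↔ ∃ y ∈ F.Cc z t, ∃ f', F.IsPath y (t - δ) f' ∧ f = glue t f' z := by
  have ht0 : 0 < t := hδ.trans hδt
  constructor
  · intro h
    have h1 : F.IsPath z t f := h.shrink ht0 ht hf
    obtain ⟨y, hy, t', h0, ht', f', hp, hff⟩ := h1.normal
    refine ⟨y, hy, f', ?_, ?_⟩
    · rcases le_or_gt t' (t - δ) with h2 | h2
      · exact hp.mono h2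
      · exact hp.shrink (sub_pos.2 hδt) h2.le fun s h3 h4 => hg y hy s h3.le (h4.trans_lt ht')
    · funext s
      unfold glue
      split_ifs with hs
      · exact hff s hs
      · exact h1.ray_above s (not_le.1 hs).le
  · rintro ⟨y, hy, f', hp, rfl⟩
    exact IsPath.jump z T t y f' hz ht0 ht hy (hp.mono (by linarith))

lemma IsPath.unbroken {z : E n × E n} {T : ℝ} {f : ℝ → E n} (h : F.IsPath z T f)
    (hf : ∀ s, 0 < s → s ≤ T → F.mul z s = 0) : ∀ s, f s = Ex s z := by
  induction h with
  | ray z T hz h0 => exact fun s => rfl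
  | jump z T r y f hz hr hrT hy hp ih =>
    have hyz : y = z := by
      rw [F.Cc_single hz hr (hf r hr hrT)] at hy
      exact hy
    subst hyz
    rw [hp.glue_self]
    exact ih fun s h2 h3 => hf s h2 (h3.trans hrT)

end Foc

end F7H
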