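import Pool.Agent.Lib.MP_f7aa1b_gt.H.C3
import Pool.Agent.Lib.MP_f7aa1b_gt.H.C5

/-!
Row f7h-C6a (130 lines): a broken normal segment has at most `n` breaks, at times `≥ σ`.

`PN N σ z T f`: at most `N` jumps, all at times `≥ σ`.
`bound`: claim for all `k`: if `idx z T + mul z T = k` then `IsPath z T f → PN k σ z T f`; strong induction on `k`.
`k = 0`: `free_of_zero` and `unbroken`.  `k > 0`: let `t` be the last focal time `≤ T` (`last_focal_le`), `t > σ` by hypothesis on `σ`;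
`shrink` to `t`, `normal`: `y ∈ Cc z t`, `t' < t`, `f'` a path of `y` at time `t'`, `f = f'` on `(-∞, t]`, so `f = glue t f' z`.  By
`idx_add_mul_le` (for `y`, `t' < t`) and `idx_const`: `idx y t' + mul y t' ≤ idx y t = idx z t < idx z t + mul z t = k`.
Induction hypothesis, monotonicity of `PN` in `N` and in `T`, then the jump at `t`.  Finally `k ≤ n` (`idx_add_mul_le_n`).
-/

set_option autoImplicit false

open Set Filter Topology Metric

namespace F7H

open MPf7aa (E)

namespace Foc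

variable {n : ℕ} (F : Foc n)

/-- broken normal segments with at most `N` breaks at times `≥ σ` -/
def PN (σ : ℝ) : ℕ → E n × E n → ℝ → (ℝ → E n) → Prop
  | 0, z, T, f => z ∈ F.B ∧ 0 < T ∧ ∀ s, f s = Ex s z
  | N + 1, z, T, f => (z ∈ F.B ∧ 0 < T ∧ ∀ s, f s = Ex s z) ∨
      ∃ r y f', z ∈ F.B ∧ σ ≤ r ∧ r ≤ T ∧ y ∈ F.Cc z r ∧ PN σ N y r f' ∧ ∀ s, f s = glue r f' z s

variable {F}

lemma PN.mono_N {σ : ℝ} {N : ℕ} {z : E n × E n} {T : ℝ} {f : ℝ → E n} (h : F.PN σ N z T f) :
    F.PN σ (N + 1) z T f := by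
  induction N generalizing z T f with
  | zero => exact Or.inl h
  | succ N ih =>
    rcases h with h | ⟨r, y, f', hz, h1, h2, hy, hP, hf⟩
    · exact Or.inl h
    · exact Or.inr ⟨r, y, f', hz, h1, h2, hy, ih hP, hf⟩

lemma PN.mono_T {σ : ℝ} {N : ℕ} {z : E n × E n} {T T' : ℝ} {f : ℝ → E n} (h : F.PN σ N z T f) (hT : T ≤ T') :
    F.PN σ N z T' f := by
  cases N with
  | zero => exact ⟨h.1, lt_of_lt_of_le h.2.1 hT, h.2.2⟩
  | succ N =>
    rcases h with h | ⟨r, y, f', hz, h1, h2, hy, hP, hf⟩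
    · exact Or.inl ⟨h.1, lt_of_lt_of_le h.2.1 hT, h.2.2⟩
    · exact Or.inr ⟨r, y, f', hz, h1, h2.trans hT, hy, hP, hf⟩

lemma C6a_ray {z : E n × E n} {T : ℝ} {f : ℝ → E n} (hz : z ∈ F.B) (hT : 0 < T) (h : ∀ s, f s = Ex s z) :
    F.IsPath z T f := by
  have : f = fun s => Ex s z := funext h
  rw [this]
  exact IsPath.ray z T hz hT

lemma PN.isPath {σ : ℝ} (hσ : 0 < σ) {N : ℕ} : ∀ {z : E n × E n} {T : ℝ} {f : ℝ → E n} (_ : F.PN σ N z T f),
    F.IsPath z T f := by
  induction N with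
  | zero =>
    intro z T f h
    exact C6a_ray h.1 h.2.1 h.2.2
  | succ N ih =>
    intro z T f h
    rcases h with h | ⟨r, y, f', hz, h1, h2, hy, hP, hf⟩
    · exact C6a_ray h.1 h.2.1 h.2.2
    · have : f = glue r f' z := funext hf
      rw [this]
      exact IsPath.jump z T r y f' hz (lt_of_lt_of_le hσ h1) h2 hy (ih hP)

lemma C6a_mono_N {σ : ℝ} {N N' : ℕ} (hN : N ≤ N') {z : E n × E n} {T : ℝ} {f : ℝ → E n}
    (h : F.PN σ N z T f) : F.PN σ N' z T f := by
  induction N', hN using Nat.le_induction with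
  | base => exact h
  | succ N' _ ih => exact ih.mono_N

lemma C6a_bound {σ : ℝ} (hσ : ∀ z ∈ F.B, ∀ s, 0 < s → s ≤ σ → F.mul z s = 0) (k : ℕ) :
    ∀ {z : E n × E n} {T : ℝ} {f : ℝ → E n}, F.idx z T + F.mul z T = k → F.IsPath z T f →
      F.PN σ k z T f := by
  induction k using Nat.strong_induction_on with
  | _ k ih =>
    intro z T f hk h
    obtain ⟨hz, hT⟩ := h.mem
    rcases Nat.eq_zero_or_pos k with h0 | hpos
    · subst h0
      exact ⟨hz, hT, h.unbroken (F.free_of_zero hz hk)⟩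
    · obtain ⟨t, ht0, htT, hmul, hsum, hfree⟩ := F.last_focal_le hz hT (by omega)
      have hσt : σ ≤ t := by
        by_contra hcon
        have := hσ z hz t ht0 (not_le.mp hcon).le
        omega
      have hsh : F.IsPath z t f := h.shrink ht0 htT hfree
      obtain ⟨y, hy, t', ht'0, ht't, f', hf', hff'⟩ := hsh.normal
      have hglue : ∀ s, f s = glue t f' z s := by
        intro s
        unfold glue
        split_ifs with hs
        · exact hff' s hs
        · exact hsh.ray_above s (not_le.mp hs).le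
      have hyB : y ∈ F.B := F.Cc_B hy
      have h1 := F.idx_add_mul_le hyB ht'0 ht't
      have h2 := F.idx_const hz ht0 hy
      have hlt : F.idx y t' + F.mul y t' < k := by omega
      have h3 := ih _ hlt rfl hf'
      obtain ⟨k', rfl⟩ : ∃ k', k = k' + 1 := ⟨k - 1, by omega⟩
      have h4 : F.PN σ k' y t f' := (C6a_mono_N (by omega) h3).mono_T ht't.le
      exact Or.inr ⟨t, y, f', hz, hσt, htT, hy, h4, hglue⟩

lemma IsPath.bound {σ : ℝ} (hσ : ∀ z ∈ F.B, ∀ s, 0 < s → s ≤ σ → F.mul z s = 0)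
    {z : E n × E n} {T : ℝ} {f : ℝ → E n} (h : F.IsPath z T f) : F.PN σ n z T f :=
  C6a_mono_N (F.idx_add_mul_le_n z T) (C6a_bound hσ _ rfl h)

end Foc

end F7H
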