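import Pool.Agent.Lib.MP_f7aa1b_gt.H.C2
import Pool.Agent.Lib.MP_f7aa1b_gt.H.C6a

/-!
Row f7h-C6b (220 lines): the path space is compact.

`PN_closed`, induction on `N`.  `N = 0`: `Ex s (z k) → Ex s z0` uniformly for `s ∈ [0, R]`.  `N + 1`: infinitely many `k` are of the first
kind (subsequence, done as for `N = 0`), or all large `k` of the second: `r k ∈ [σ, T k]`, `y k ∈ B`: choose a
subsequence with `r k → r ≥ σ`, `y k → y`; `y ∈ Cc z0 r` by `Cc_closed`; by induction (for `z := y`, `T := r`) a further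
subsequence with `f' k → f'` uniformly on `[0, R]`, `PN N y r f'`.  Then `glue (r k) (f' k) (z k) → glue r f' z0` uniformly on `[0, R]`:
if `s ≤ r` and `s ≤ r k`: compare `f' k s`, `f' s`; if `s > r`, `s > r k`: compare the rays; if `s` is between `r` and `r k`: all the
functions are 1-Lipschitz and `glue r f' z0` is continuous at `r` (`IsPath.lip` for the glued paths), so the error is at
most `2 |r k - r|` + error at `s = min (r, r k)`.
`K_compact`: sequential compactness (`IsSeqCompact.isCompact`): for `g k ∈ K R z T` with paths `f k`: `IsPath.bound`, `PN_closed` with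
constant `z k = z`, `T k = T`; the uniform limit on `[0, R]` gives convergence of `g (φ k)` in the sup distance
(`BoundedContinuousFunction.dist_le`) to the cut off of the limit path (which is bounded, continuous).
-/

set_option autoImplicit false

open Set Filter Topology Metric
open scoped BoundedContinuousFunction

namespace F7H

open MPf7aa (E)

namespace Foc

variable {n : ℕ} {F : Foc n}

lemma C6b_ray {z z0 : E n × E n} {R s : ℝ} (h0 : 0 ≤ s) (h1 : s ≤ R) :
    ‖Ex s z - Ex s z0‖ ≤ (1 + R) * dist z z0 := by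
  have e : Ex s z - Ex s z0 = (z.1 - z0.1) + s • (z.2 - z0.2) := by
    simp only [Ex]
    module
  have a1 : ‖z.1 - z0.1‖ ≤ dist z z0 := by
    rw [← dist_eq_norm]
    exact le_max_left _ _
  have a2 : ‖z.2 - z0.2‖ ≤ dist z z0 := by
    rw [← dist_eq_norm]
    exact le_max_right _ _
  rw [e]
  refine (norm_add_le _ _).trans ?_
  rw [norm_smul, Real.norm_of_nonneg h0]
  have a3 : s * ‖z.2 - z0.2‖ ≤ R * dist z z0 :=
    mul_le_mul h1 a2 (norm_nonneg _) (h0.trans h1)
  linarith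

lemma C6b_near {z y : E n × E n} {r : ℝ} {f : ℝ → E n} (hz : z ∈ F.B) (hy : y ∈ F.Cc z r)
    (hf : F.IsPath y r f) (s : ℝ) : ‖f s - Ex s z‖ ≤ 2 * |s - r| := by
  have h1 : f r = Ex r z := by
    rw [hf.ray_above r le_rfl]
    exact F.Ex_eq hy
  have h2 := hf.lip s r
  rw [h1] at h2
  have h3 : ‖Ex r z - Ex s z‖ = |s - r| := by
    have e : Ex r z - Ex s z = (r - s) • z.2 := by
      simp only [Ex]
      module
    rw [e, norm_smul, F.unit z hz, mul_one, Real.norm_eq_abs, abs_sub_comm]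
  have h4 : f s - Ex s z = (f s - Ex r z) + (Ex r z - Ex s z) := by abel
  rw [h4]
  refine (norm_add_le _ _).trans ?_
  rw [h3]
  linarith

/-- the limit of rays -/
lemma C6b_base {R : ℝ} {z : ℕ → E n × E n} {z0 : E n × E n} (lz : Tendsto z atTop (𝓝 z0)) :
    ∀ ε > 0, ∃ k0, ∀ k ≥ k0, ∀ s, 0 ≤ s → s ≤ R → ‖Ex s (z k) - Ex s z0‖ ≤ ε := by
  intro ε hε
  by_cases hR : 0 ≤ R
  · obtain ⟨k0, hk0⟩ := Metric.tendsto_atTop.1 lz (ε / (1 + R)) (by positivity)
    refine ⟨k0, fun k hk s h0 h1 => (C6b_ray h0 h1).trans ?_⟩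
    have h2 := (hk0 k hk).le
    have h3 : (0 : ℝ) < 1 + R := by linarith
    rw [le_div_iff₀ h3] at h2
    linarith
  · exact ⟨0, fun k _ s h0 h1 => absurd (h0.trans h1) hR⟩

theorem PN_closed {σ R : ℝ} (hσ : 0 < σ) (N : ℕ) : ∀ {z : ℕ → E n × E n} {T : ℕ → ℝ} {f : ℕ → ℝ → E n}
    {z0 : E n × E n} {T0 : ℝ} (_ : ∀ k, F.PN σ N (z k) (T k) (f k)) (_ : Tendsto z atTop (𝓝 z0))
    (_ : Tendsto T atTop (𝓝 T0)) (_ : 0 < T0), ∃ φ : ℕ → ℕ, StrictMono φ ∧ ∃ f0, F.PN σ N z0 T0 f0 ∧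
      ∀ ε > 0, ∃ k0, ∀ k ≥ k0, ∀ s, 0 ≤ s → s ≤ R → ‖f (φ k) s - f0 s‖ ≤ ε := by
  induction N with
  | zero =>
    intro z T f z0 T0 h lz lT hT0
    have hzB : z0 ∈ F.B := F.compB.isClosed.mem_of_tendsto lz (Eventually.of_forall fun k => (h k).1)
    refine ⟨id, strictMono_id, fun s => Ex s z0, ⟨hzB, hT0, fun s => rfl⟩, ?_⟩
    intro ε hε
    obtain ⟨k0, hk0⟩ := C6b_base (R := R) lz ε hε
    refine ⟨k0, fun k hk s h0 h1 => ?_⟩
    have h2 := hk0 k hk s h0 h1
    rw [id, (h k).2.2 s]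
    exact h2
  | succ N ih =>
    intro z T f z0 T0 h lz lT hT0
    have hB : ∀ k, z k ∈ F.B := fun k => by
      rcases h k with h1 | ⟨r, y, f', h1, -⟩
      · exact h1.1
      · exact h1
    have hzB : z0 ∈ F.B := F.compB.isClosed.mem_of_tendsto lz (Eventually.of_forall hB)
    by_cases hfr : ∃ᶠ k in atTop, z k ∈ F.B ∧ 0 < T k ∧ ∀ s, f k s = Ex s (z k)
    · obtain ⟨φ, hφ, hφ1⟩ := extraction_of_frequently_atTop hfr
      refine ⟨φ, hφ, fun s => Ex s z0, Or.inl ⟨hzB, hT0, fun s => rfl⟩, ?_⟩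
      intro ε hε
      obtain ⟨k0, hk0⟩ := C6b_base (R := R) (lz.comp hφ.tendsto_atTop) ε hε
      refine ⟨k0, fun k hk s h0 h1 => ?_⟩
      have h2 := hk0 k hk s h0 h1
      rw [(hφ1 k).2.2 s]
      exact h2
    · rw [not_frequently] at hfr
      obtain ⟨k1, hk1⟩ := eventually_atTop.1 hfr
      have hj : ∀ k, ∃ r y f', z (k + k1) ∈ F.B ∧ σ ≤ r ∧ r ≤ T (k + k1) ∧ y ∈ F.Cc (z (k + k1)) r ∧
          F.PN σ N y r f' ∧ ∀ s, f (k + k1) s = glue r f' (z (k + k1)) s := by
        intro k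
        rcases h (k + k1) with h1 | h1
        · exact absurd h1 (hk1 _ (Nat.le_add_left _ _))
        · exact h1
      choose r y f' hj1 hj2 hj3 hj4 hj5 hj6 using hj
      have hs1 : StrictMono (fun k => k + k1) := fun a b hab => Nat.add_lt_add_right hab _
      have lz1 : Tendsto (fun k => z (k + k1)) atTop (𝓝 z0) := lz.comp hs1.tendsto_atTop
      have lT1 : Tendsto (fun k => T (k + k1)) atTop (𝓝 T0) := lT.comp hs1.tendsto_atTop
      obtain ⟨C, hC⟩ := lT1.bddAbove_range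
      have hrC : ∀ k, (r k, y k) ∈ Icc σ C ×ˢ F.B := fun k =>
        ⟨⟨hj2 k, (hj3 k).trans (hC ⟨k, rfl⟩)⟩, F.Cc_B (hj4 k)⟩
      obtain ⟨⟨r0, y0⟩, hm, ψ, hψ, lψ⟩ := (isCompact_Icc.prod F.compB).tendsto_subseq hrC
      have lr : Tendsto (fun k => r (ψ k)) atTop (𝓝 r0) := (continuous_fst.tendsto _).comp lψ
      have ly : Tendsto (fun k => y (ψ k)) atTop (𝓝 y0) := (continuous_snd.tendsto _).comp lψ
      have lz2 : Tendsto (fun k => z (ψ k + k1)) atTop (𝓝 z0) := lz1.comp hψ.tendsto_atTop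
      have lT2 : Tendsto (fun k => T (ψ k + k1)) atTop (𝓝 T0) := lT1.comp hψ.tendsto_atTop
      have hr0 : σ ≤ r0 := hm.1.1
      have hrT : r0 ≤ T0 := le_of_tendsto_of_tendsto' lr lT2 fun k => hj3 (ψ k)
      have hy0 : y0 ∈ F.Cc z0 r0 := F.Cc_closed (fun k => hj1 (ψ k)) (fun k => hj4 (ψ k)) lz2 ly lr
      obtain ⟨φ, hφ, g0, hg0, hg1⟩ := ih (fun k => hj5 (ψ k)) ly lr (hσ.trans_le hr0)
      refine ⟨fun k => ψ (φ k) + k1, fun a b hab => Nat.add_lt_add_right (hψ (hφ hab)) _,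
        glue r0 g0 z0, Or.inr ⟨r0, y0, g0, hzB, hr0, hrT, hy0, hg0, fun s => rfl⟩, ?_⟩
      intro ε hε
      have lr3 : Tendsto (fun k => r (ψ (φ k))) atTop (𝓝 r0) := lr.comp hφ.tendsto_atTop
      have lz3 : Tendsto (fun k => z (ψ (φ k) + k1)) atTop (𝓝 z0) := lz2.comp hφ.tendsto_atTop
      obtain ⟨ka, hka⟩ := Metric.tendsto_atTop.1 lr3 (ε / 4) (by linarith)
      obtain ⟨kb, hkb⟩ := hg1 (ε / 4) (by linarith)
      obtain ⟨kc, hkc⟩ := C6b_base (R := R) lz3 (ε / 4) (by linarith)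
      refine ⟨max ka (max kb kc), fun k hk s h0 h1 => ?_⟩
      have ea := (hka k ((le_max_left _ _).trans hk)).le
      have eb := hkb k (((le_max_left _ _).trans (le_max_right _ _)).trans hk) s h0 h1
      have ec := hkc k (((le_max_right _ _).trans (le_max_right _ _)).trans hk) s h0 h1
      rw [Real.dist_eq] at ea
      show ‖f (ψ (φ k) + k1) s - glue r0 g0 z0 s‖ ≤ ε
      rw [hj6 (ψ (φ k)) s]
      simp only [glue]
      split_ifs with c1 c2 c2
      · exact eb.trans (by linarith)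
      · -- `r0 < s ≤ r k`
        have e1 := C6b_near (hj1 (ψ (φ k))) (hj4 (ψ (φ k))) (PN.isPath hσ (hj5 (ψ (φ k)))) s
        have e2 : |s - r (ψ (φ k))| ≤ ε / 4 := by
          rw [abs_of_nonpos (by linarith)]
          rw [abs_of_nonneg (by linarith [not_le.1 c2])] at ea
          linarith [not_le.1 c2]
        have e3 : f' (ψ (φ k)) s - Ex s z0 = (f' (ψ (φ k)) s - Ex s (z (ψ (φ k) + k1))) +
            (Ex s (z (ψ (φ k) + k1)) - Ex s z0) := by abel
        rw [e3]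
        refine (norm_add_le _ _).trans ?_
        linarith
      · -- `r k < s ≤ r0`
        have e1 := C6b_near hzB hy0 (PN.isPath hσ hg0) s
        have e2 : |s - r0| ≤ ε / 4 := by
          rw [abs_of_nonpos (by linarith)]
          rw [abs_of_nonpos (by linarith [not_le.1 c1])] at ea
          linarith [not_le.1 c1]
        have e3 : Ex s (z (ψ (φ k) + k1)) - g0 s = (Ex s (z (ψ (φ k) + k1)) - Ex s z0) -
            (g0 s - Ex s z0) := by abel
        rw [e3]
        refine (norm_sub_le _ _).trans ?_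
        linarith
      · exact ec.trans (by linarith)

/-- the cut off of a path as a bounded continuous function -/
lemma exists_pth {z : E n × E n} {T R : ℝ} (hR : 0 ≤ R) {f : ℝ → E n} (h : F.IsPath z T f) :
    ∃ g : Pth n, ∀ s, g s = f (max 0 (min s R)) := by
  have hb : ∀ s, ‖f (max 0 (min s R))‖ ≤ ‖f 0‖ + R := by
    intro s
    have h0 : 0 ≤ max 0 (min s R) := le_max_left _ _
    have h1 : max 0 (min s R) ≤ R := max_le hR (min_le_right _ _)
    have h2 := h.lip (max 0 (min s R)) 0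
    rw [sub_zero, abs_of_nonneg h0] at h2
    have h3 : f (max 0 (min s R)) = f 0 + (f (max 0 (min s R)) - f 0) := by abel
    rw [h3]
    exact (norm_add_le _ _).trans (by linarith)
  exact ⟨BoundedContinuousFunction.ofNormedAddCommGroup (fun s => f (max 0 (min s R)))
    (h.cont.comp (by fun_prop)) _ hb, fun s => rfl⟩

theorem K_compact {z : E n × E n} {T R : ℝ} (hz : z ∈ F.B) (hT : 0 < T) (hR : T ≤ R) :
    IsCompact (F.K R z T) := by
  have hR0 : 0 ≤ R := hT.le.trans hR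
  obtain ⟨σ, hσ, hσ1⟩ := F.small_free
  apply IsSeqCompact.isCompact
  intro g hg
  choose f hf1 hf2 using hg
  obtain ⟨φ, hφ, f0, hf0, hf3⟩ := PN_closed (F := F) (R := R) hσ n (z := fun _ => z) (T := fun _ => T)
    (f := f) (fun k => IsPath.bound (fun z hz s h0 h1 => (hσ1 z hz s h0 h1).1) (hf1 k))
    tendsto_const_nhds tendsto_const_nhds hT
  have hp0 := PN.isPath hσ hf0
  obtain ⟨g0, hg0⟩ := exists_pth hR0 hp0
  refine ⟨g0, ⟨f0, hp0, hg0⟩, φ, hφ, ?_⟩
  rw [Metric.tendsto_atTop]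
  intro ε hε
  obtain ⟨k0, hk0⟩ := hf3 (ε / 2) (by linarith)
  refine ⟨k0, fun k hk => lt_of_le_of_lt ?_ (half_lt_self hε)⟩
  refine (BoundedContinuousFunction.dist_le (by linarith)).2 fun s => ?_
  show dist (g (φ k) s) (g0 s) ≤ ε / 2
  rw [hf2 (φ k) s, hg0 s, dist_eq_norm]
  exact hk0 k hk _ (le_max_left _ _) (max_le hR0 (min_le_right _ _))

end Foc

end F7H
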