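import Pool.Agent.Lib.MP_f7aa1b_gt.H.C6b

/-!
Row f7h-C7 (200 lines): the map of the path space to the leaf at the last focal time, and its fibres.

`rho t δ g` is the point `y` with `g = Ex · y` on `[t - δ, t]`.  For `g ∈ K R z T` with path `f = glue t f' z`, `f'` a path of `y ∈ Cc z t` at
time `t - δ` (`decomp`): `g t = f' t = Ex t y`, `g (t - δ) = Ex (t - δ) y` (`ray_above`; `0 ≤ t - δ ≤ t ≤ R` so the cut off does
nothing), hence `rho t δ g = y` (pure algebra).
`shiftP y z t R`: the bounded continuous function `s ↦ max 0 (min (max s 0) R - t) • (z.2 - y.2)` (zero for `s ≤ t`).  For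
`g' ∈ K R y (t - δ)` with path `f'`: `g' + shiftP` is the cut off of `glue t f' z`: for `s > t`: `Ex s y + (s - t) • (z.2 - y.2) = Ex s z`
because `Ex t y = Ex t z`.  Both inclusions of `fibre_eq` follow (`←` uses `exists_pth`-type formulas, `decomp`).
`hz_fibre`, `hg_fibre`: translation by a fixed vector is an isometry of the path space; `ASC.Coc.pb`, `ASC.Cob.pb` in both directions
(`φ g = g - shiftP`), and the cochain `loc {‖g 0 - y.1‖ ≤ r} (GG k (P (g 0 - y.1)))` is literally invariant under the translation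
because `shiftP 0 = 0`.
-/

set_option autoImplicit false

open Set Filter Topology Metric
open scoped BoundedContinuousFunction

namespace F7H

open MPf7aa (E)

namespace Foc

variable {n : ℕ} {F : Foc n}

/-- the point of `B` whose ray agrees with the path on `[t - δ, t]` -/
noncomputable def rho (t δ : ℝ) (g : Pth n) : E n × E n :=
  (g t - (t / δ) • (g t - g (t - δ)), (1 / δ) • (g t - g (t - δ)))

lemma rho_cont (t δ : ℝ) : Continuous (rho t δ : Pth n → E n × E n) := by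
  have h : ∀ s : ℝ, Continuous (fun g : Pth n => g s) := fun s =>
    (continuous_apply s).comp BoundedContinuousFunction.continuous_coe
  have h1 : Continuous (fun g : Pth n => g t - g (t - δ)) := (h t).sub (h (t - δ))
  exact ((h t).sub (h1.const_smul (t / δ))).prodMk (h1.const_smul (1 / δ))

/-- the difference of the rays of `z` and `y` above time `t` -/
theorem exists_shiftP (y z : E n × E n) (t R : ℝ) (ht : 0 ≤ t) :
    ∃ b : Pth n, ∀ s, b s = max 0 (max 0 (min s R) - t) • (z.2 - y.2) := by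
  refine ⟨BoundedContinuousFunction.ofNormedAddCommGroup
    (fun s : ℝ => max 0 (max 0 (min s R) - t) • (z.2 - y.2)) ?_ (|R| * ‖z.2 - y.2‖) ?_,
    fun s => rfl⟩
  · have : Continuous fun s : ℝ => max 0 (max 0 (min s R) - t) := by fun_prop
    exact this.smul continuous_const
  · intro s
    rw [norm_smul]
    refine mul_le_mul_of_nonneg_right ?_ (norm_nonneg _)
    rw [Real.norm_eq_abs, abs_of_nonneg (le_max_left _ _)]
    refine max_le (abs_nonneg R) ?_
    have h1 : max 0 (min s R) ≤ |R| := max_le (abs_nonneg R) ((min_le_right _ _).trans (le_abs_self R))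
    linarith

noncomputable def shiftP (y z : E n × E n) (t R : ℝ) (ht : 0 ≤ t) : Pth n := (exists_shiftP y z t R ht).choose

lemma shiftP_apply (y z : E n × E n) (t R : ℝ) (ht : 0 ≤ t) (s : ℝ) :
    shiftP y z t R ht s = max 0 (max 0 (min s R) - t) • (z.2 - y.2) := (exists_shiftP y z t R ht).choose_spec s

lemma C7_alg {z y : E n × E n} {t δ : ℝ} (hδ : 0 < δ) (hy : y ∈ F.Cc z t) {f' : ℝ → E n}
    (hf' : F.IsPath y (t - δ) f') (u : ℝ) :
    glue t f' z u = f' u + max 0 (u - t) • (z.2 - y.2) := by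
  unfold glue
  split_ifs with h
  · rw [max_eq_left (by linarith), zero_smul, add_zero]
  · have h' : t < u := not_le.1 h
    rw [max_eq_right (by linarith), hf'.ray_above u (by linarith)]
    have hE : y.1 + t • y.2 = z.1 + t • z.2 := F.Ex_eq hy
    have hz1 : z.1 = y.1 + t • y.2 - t • z.2 := by rw [hE]; abel
    unfold Ex
    rw [hz1]
    module

lemma C7_cut {s R : ℝ} (h0 : 0 ≤ s) (h1 : s ≤ R) : max 0 (min s R) = s := by
  rw [min_eq_left h1, max_eq_right h0]

lemma C7_rho {z y : E n × E n} {t δ R : ℝ} (htR : t ≤ R) (hδ : 0 < δ) (hδt : δ < t)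
    {f' : ℝ → E n} (hf' : F.IsPath y (t - δ) f') {g : Pth n}
    (hg : ∀ s, g s = glue t f' z (max 0 (min s R))) : rho t δ g = y := by
  have h1 : g t = y.1 + t • y.2 := by
    rw [hg, C7_cut (by linarith) htR]
    unfold glue
    rw [if_pos le_rfl]
    exact hf'.ray_above t (by linarith)
  have h2 : g (t - δ) = y.1 + (t - δ) • y.2 := by
    rw [hg, C7_cut (by linarith) (by linarith)]
    unfold glue
    rw [if_pos (by linarith)]
    exact hf'.ray_above (t - δ) le_rfl
  have h3 : g t - g (t - δ) = δ • y.2 := by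
    rw [h1, h2]
    module
  unfold rho
  rw [h3, h1, smul_smul, smul_smul, div_mul_cancel₀ _ hδ.ne', one_div_mul_cancel hδ.ne', one_smul,
    add_sub_cancel_right]

lemma rho_mem {z : E n × E n} {T t δ R : ℝ} (ht : t ≤ T) (hR : T ≤ R) (hδ : 0 < δ) (hδt : δ < t)
    (hz : z ∈ F.B) (hf : ∀ s, t < s → s ≤ T → F.mul z s = 0)
    (hg : ∀ y ∈ F.Cc z t, ∀ s, t - δ ≤ s → s < t → F.mul y s = 0) : MapsTo (rho t δ) (F.K R z T) (F.Cc z t) := by
  rintro g ⟨f, hfp, hgf⟩
  obtain ⟨y, hy, f', hf', rfl⟩ := (IsPath.decomp ht hδ hδt hz hf hg f).1 hfp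
  rw [C7_rho (ht.trans hR) hδ hδt hf' hgf]
  exact hy

theorem fibre_eq {z y : E n × E n} {T t δ R : ℝ} (ht : t ≤ T) (hR : T ≤ R) (hδ : 0 < δ) (hδt : δ < t)
    (hz : z ∈ F.B) (hf : ∀ s, t < s → s ≤ T → F.mul z s = 0)
    (hg : ∀ y ∈ F.Cc z t, ∀ s, t - δ ≤ s → s < t → F.mul y s = 0) (hy : y ∈ F.Cc z t) (g : Pth n) :
    g ∈ F.K R z T ∩ rho t δ ⁻¹' {y} ↔ g - shiftP y z t R (hδ.le.trans hδt.le) ∈ F.K R y (t - δ) := by
  constructor
  · rintro ⟨⟨f, hfp, hgf⟩, hr⟩
    obtain ⟨y', hy', f', hf', rfl⟩ := (IsPath.decomp ht hδ hδt hz hf hg f).1 hfp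
    have h1 : rho t δ g = y' := C7_rho (ht.trans hR) hδ hδt hf' hgf
    have h2 : rho t δ g = y := hr
    have h3 : y' = y := h1.symm.trans h2
    subst h3
    refine ⟨f', hf', fun s => ?_⟩
    rw [BoundedContinuousFunction.sub_apply, shiftP_apply, hgf, C7_alg hδ hy' hf']
    exact add_sub_cancel_right _ _
  · rintro ⟨f', hf', hgf⟩
    have h1 : ∀ s, g s = glue t f' z (max 0 (min s R)) := by
      intro s
      have h2 := hgf s
      rw [BoundedContinuousFunction.sub_apply, shiftP_apply, sub_eq_iff_eq_add] at h2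
      rw [h2, C7_alg hδ hy hf']
    exact ⟨⟨glue t f' z, (IsPath.decomp ht hδ hδt hz hf hg _).2 ⟨y, hy, f', hf', rfl⟩, h1⟩,
      C7_rho (ht.trans hR) hδ hδt hf' h1⟩

lemma C7_shift_zero (y z : E n × E n) (t R : ℝ) (ht : 0 ≤ t) (hR : 0 ≤ R) : shiftP y z t R ht 0 = 0 := by
  rw [shiftP_apply, min_eq_left hR, max_self, zero_sub, max_eq_left (by linarith), zero_smul]

lemma C7_inv {k : ℕ} (P : E n →L[ℝ] (Fin k → ℝ)) (r : ℝ) (p : E n) {φ : Pth n → Pth n}
    (h : ∀ g, φ g 0 = g 0) :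
    ASC.pb φ (ASC.loc {g : Pth n | ‖g 0 - p‖ ≤ r} (ASC.GG k (fun g => P (g 0 - p)))) =
      ASC.loc {g : Pth n | ‖g 0 - p‖ ≤ r} (ASC.GG k (fun g => P (g 0 - p))) := by
  have h1 : ASC.pb φ (ASC.GG k (fun g : Pth n => P (g 0 - p))) = ASC.GG k (fun g => P (g 0 - p)) := by
    rw [ASC.pb_GG]
    congr 1
    funext g
    simp only [Function.comp_apply, h]
  funext x
  have h2 := congrFun h1 x
  unfold ASC.pb at h2 ⊢
  unfold ASC.loc
  simp only [mem_ofPred_eq, h, h2]

lemma C7_unif (b : Pth n) (S : Set (Pth n)) : UniformContinuousOn (fun g : Pth n => g + b) S :=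
  (uniformContinuous_id.add uniformContinuous_const).uniformContinuousOn

lemma C7_unif' (b : Pth n) (S : Set (Pth n)) : UniformContinuousOn (fun g : Pth n => g - b) S :=
  (uniformContinuous_id.sub uniformContinuous_const).uniformContinuousOn

theorem C7_hz {S S1 : Set (Pth n)} (b : Pth n) (hS : ∀ g, g ∈ S ↔ g - b ∈ S1) {m : ℕ}
    (h : ASC.HZ m S1 ∅) : ASC.HZ m S ∅ := by
  intro f hf
  have m1 : MapsTo (fun g : Pth n => g + b) S1 S := by
    intro g hg
    show g + b ∈ S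
    rw [hS, add_sub_cancel_right]
    exact hg
  have m2 : MapsTo (fun g : Pth n => g - b) S S1 := fun g hg => (hS g).1 hg
  have c1 : ASC.Coc S1 ∅ (ASC.pb (fun g : Pth n => g + b) f) :=
    ASC.Coc.pb (empty_subset _) (C7_unif b _) m1 (mapsTo_empty _ _) hf
  have c2 := ASC.Cob.pb (S := S) (S' := ∅) (empty_subset _) (C7_unif' b _) m2 (mapsTo_empty _ _)
    (h _ c1)
  have e : ASC.pb (fun g : Pth n => g - b) (ASC.pb (fun g : Pth n => g + b) f) = f := by
    funext x
    show f (fun i => x i - b + b) = f x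
    simp only [sub_add_cancel]
  rwa [e] at c2

theorem C7_hg {S S1 : Set (Pth n)} (b : Pth n) (hS : ∀ g, g ∈ S ↔ g - b ∈ S1) {m : ℕ}
    {G : ASC.Coch (Pth n) m} (hG1 : ASC.pb (fun g : Pth n => g + b) G = G)
    (hG2 : ASC.pb (fun g : Pth n => g - b) G = G)
    (h : ASC.HG S1 ∅ G) : ASC.HG S ∅ G := by
  have m1 : MapsTo (fun g : Pth n => g + b) S1 S := by
    intro g hg
    show g + b ∈ S
    rw [hS, add_sub_cancel_right]
    exact hg
  have m2 : MapsTo (fun g : Pth n => g - b) S S1 := fun g hg => (hS g).1 hg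
  refine ⟨?_, ?_, ?_⟩
  · have := ASC.Coc.pb (S := S) (S' := ∅) (empty_subset _) (C7_unif' b _) m2 (mapsTo_empty _ _) h.coc
    rwa [hG2] at this
  · intro hc
    have := ASC.Cob.pb (S := S1) (S' := ∅) (empty_subset _) (C7_unif b _) m1 (mapsTo_empty _ _) hc
    rw [hG1] at this
    exact h.ne this
  · intro f hf
    have c1 : ASC.Coc S1 ∅ (ASC.pb (fun g : Pth n => g + b) f) :=
      ASC.Coc.pb (empty_subset _) (C7_unif b _) m1 (mapsTo_empty _ _) hf
    have e : ASC.pb (fun g : Pth n => g - b) (ASC.pb (fun g : Pth n => g + b) f) = f := by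
      funext x
      show f (fun i => x i - b + b) = f x
      simp only [sub_add_cancel]
    rcases h.gen _ c1 with h1 | h1
    · left
      have := ASC.Cob.pb (S := S) (S' := ∅) (empty_subset _) (C7_unif' b _) m2 (mapsTo_empty _ _) h1
      rwa [e] at this
    · right
      have := ASC.Cob.pb (S := S) (S' := ∅) (empty_subset _) (C7_unif' b _) m2 (mapsTo_empty _ _) h1
      rwa [ASC.pb_add, e, hG2] at this

theorem hz_fibre {z y : E n × E n} {T t δ R : ℝ} (ht : t ≤ T) (hR : T ≤ R) (hδ : 0 < δ) (hδt : δ < t)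
    (hz : z ∈ F.B) (hf : ∀ s, t < s → s ≤ T → F.mul z s = 0)
    (hg : ∀ y ∈ F.Cc z t, ∀ s, t - δ ≤ s → s < t → F.mul y s = 0) (hy : y ∈ F.Cc z t) {m : ℕ}
    (h : ASC.HZ m (F.K R y (t - δ)) ∅) : ASC.HZ m (F.K R z T ∩ rho t δ ⁻¹' {y}) ∅ :=
  C7_hz (shiftP y z t R (hδ.le.trans hδt.le)) (fibre_eq ht hR hδ hδt hz hf hg hy) h

theorem hg_fibre {z y : E n × E n} {T t δ R : ℝ} (ht : t ≤ T) (hR : T ≤ R) (hδ : 0 < δ) (hδt : δ < t)
    (hz : z ∈ F.B) (hf : ∀ s, t < s → s ≤ T → F.mul z s = 0)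
    (hg : ∀ y ∈ F.Cc z t, ∀ s, t - δ ≤ s → s < t → F.mul y s = 0) (hy : y ∈ F.Cc z t) {k : ℕ}
    (P : E n →L[ℝ] (Fin k → ℝ)) (r : ℝ)
    (h : ASC.HG (F.K R y (t - δ)) ∅ (ASC.loc {g : Pth n | ‖g 0 - y.1‖ ≤ r} (ASC.GG k (fun g => P (g 0 - y.1))))) :
    ASC.HG (F.K R z T ∩ rho t δ ⁻¹' {y}) ∅
      (ASC.loc {g : Pth n | ‖g 0 - y.1‖ ≤ r} (ASC.GG k (fun g => P (g 0 - y.1)))) := by
  have hR0 : 0 ≤ R := by linarith
  have hb := C7_shift_zero y z t R (hδ.le.trans hδt.le) hR0
  refine C7_hg (shiftP y z t R (hδ.le.trans hδt.le)) (fibre_eq ht hR hδ hδt hz hf hg hy)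
    (C7_inv P r y.1 fun g => ?_) (C7_inv P r y.1 fun g => ?_) h
  · rw [BoundedContinuousFunction.add_apply, hb, add_zero]
  · rw [BoundedContinuousFunction.sub_apply, hb, sub_zero]

end Foc

end F7H
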