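import Pool.Agent.Lib.MP_f7aa1b_gt.H.C3

/-!
Row f7h-C8a (150 lines): linear algebra of the second derivative.  Everything in the eigenbasis `b` of `lam_eig`:
`‖w‖ ^ 2 - s * ⟪A w, w⟫ = ∑ j, (1 - s * lam j) * ⟪b j, w⟫ ^ 2`.

`exists_pos`: `P w = (⟪b j, w⟫)_{j < k}`, `k = idx z s`.  The `j` with `1 < s * lam j z` are exactly the `j < k` (antitone); for the others
`s * lam j z ≤ 1`, and `≠ 1` because `mul z s = 0`.
`exists_coord`: coordinates in an orthonormal basis of the subspace `N z s` of dimension `mul z s` (`finrank_N`), composed with the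
projection.
`N_tangent`: `w = s • A w = s • Pr (A w)`.
-/

set_option autoImplicit false

open Set Filter Topology Metric

namespace F7H

open MPf7aa (E)

namespace Foc

variable {n : ℕ} (F : Foc n)

lemma mem_N {z : E n × E n} {s : ℝ} {w : E n} : w ∈ F.N z s ↔ s • F.A z w = w := by
  unfold N
  rw [LinearMap.mem_ker, LinearMap.sub_apply, LinearMap.smul_apply, LinearMap.id_apply, sub_eq_zero]
  rfl

/-- the second derivative in an eigenbasis -/
lemma C8a_sum {z : E n × E n} (hz : z ∈ F.B) (s : ℝ) (b : OrthonormalBasis (Fin n) ℝ (E n))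
    (hb : ∀ j : Fin n, F.A z (b j) = F.lam j z • b j) (w : E n) :
    ‖w‖ ^ 2 - s * inner ℝ (F.A z w) w = ∑ j : Fin n, (1 - s * F.lam j z) * inner ℝ (b j) w ^ 2 := by
  have h1 : ‖w‖ ^ 2 = ∑ j : Fin n, inner ℝ (b j) w ^ 2 := by
    rw [← real_inner_self_eq_norm_sq, ← b.sum_inner_mul_inner w w]
    apply Finset.sum_congr rfl
    intro j _
    rw [real_inner_comm w (b j)]
    ring
  have h2 : inner ℝ (F.A z w) w = ∑ j : Fin n, F.lam j z * inner ℝ (b j) w ^ 2 := by
    rw [← b.sum_inner_mul_inner (F.A z w) w]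
    apply Finset.sum_congr rfl
    intro j _
    rw [F.A_symm z hz, hb j, real_inner_smul_right, real_inner_comm w (b j)]
    ring
  rw [h1, h2, Finset.mul_sum, ← Finset.sum_sub_distrib]
  apply Finset.sum_congr rfl
  intro j _
  ring

/-- beyond the index the eigenvalues are small -/
lemma C8a_small {z : E n × E n} (hz : z ∈ F.B) {s : ℝ} (hs : 0 < s) (hm : F.mul z s = 0) {j : ℕ}
    (hj : j < n) (hk : F.idx z s ≤ j) : 0 < 1 - s * F.lam j z := by
  have h1 : ¬ (1 < s * F.lam j z) := by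
    intro h
    have h2 : Finset.range (j + 1) ⊆ (Finset.range n).filter (fun j => 1 < s * F.lam j z) := by
      intro i hi
      rw [Finset.mem_range] at hi
      rw [Finset.mem_filter, Finset.mem_range]
      refine ⟨by omega, ?_⟩
      have h3 := F.lam_anti z hz i j (by omega)
      exact h.trans_le (mul_le_mul_of_nonneg_left h3 hs.le)
    have h4 := Finset.card_le_card h2
    rw [Finset.card_range] at h4
    unfold idx at hk
    omega
  have h2 : s * F.lam j z ≠ 1 := by
    intro h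
    unfold mul at hm
    rw [Finset.card_eq_zero] at hm
    have h3 : j ∈ (Finset.range n).filter (fun j => s * F.lam j z = 1) := by
      rw [Finset.mem_filter, Finset.mem_range]
      exact ⟨hj, h⟩
    rw [hm] at h3
    exact absurd h3 (Finset.notMem_empty j)
  rw [not_lt] at h1
  have := lt_of_le_of_ne h1 h2
  linarith

lemma exists_pos {z : E n × E n} (hz : z ∈ F.B) {s : ℝ} (hs : 0 < s) (hm : F.mul z s = 0) {k : ℕ}
    (hk : F.idx z s = k) : ∃ P : E n →L[ℝ] (Fin k → ℝ), F.Pos z s P := by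
  obtain ⟨b, hb⟩ := F.lam_eig z hz
  have hkn : k ≤ n := by
    rw [← hk]
    unfold idx
    refine (Finset.card_filter_le _ _).trans ?_
    rw [Finset.card_range]
  refine ⟨ContinuousLinearMap.pi (fun j : Fin k => innerSL ℝ (b (Fin.castLE hkn j))), ?_⟩
  intro w _ hP hw
  rw [F.C8a_sum hz s b hb w]
  have hterm : ∀ j : Fin n, 0 ≤ (1 - s * F.lam j z) * inner ℝ (b j) w ^ 2 ∧
      (inner ℝ (b j) w ≠ 0 → 0 < (1 - s * F.lam j z) * inner ℝ (b j) w ^ 2) := by
    intro j
    rcases lt_or_ge (j : ℕ) k with hj | hj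
    · have h0 : inner ℝ (b j) w = 0 := by
        have h1 := congrFun hP ⟨j, hj⟩
        rw [ContinuousLinearMap.coe_pi'] at h1
        exact h1
      rw [h0]
      exact ⟨by simp, fun h => absurd rfl h⟩
    · have h1 := F.C8a_small hz hs hm j.2 (hk.le.trans hj)
      refine ⟨mul_nonneg h1.le (sq_nonneg _), fun h => mul_pos h1 ?_⟩
      positivity
  obtain ⟨j0, hj0⟩ : ∃ j : Fin n, inner ℝ (b j) w ≠ 0 := by
    by_contra hcon
    push Not at hcon
    apply hw
    have h1 : ‖w‖ ^ 2 = 0 := by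
      rw [← real_inner_self_eq_norm_sq, ← b.sum_inner_mul_inner w w]
      apply Finset.sum_eq_zero
      intro j _
      rw [hcon j, mul_zero]
    exact norm_eq_zero.mp (pow_eq_zero_iff (two_ne_zero)|>.mp h1)
  exact Finset.sum_pos' (fun j _ => (hterm j).1) ⟨j0, Finset.mem_univ _, (hterm j0).2 hj0⟩

lemma exists_coord {z : E n × E n} (hz : z ∈ F.B) (s : ℝ) {m : ℕ} (hm : F.mul z s = m) :
    ∃ κ0 : E n →L[ℝ] (Fin m → ℝ), (∀ w, κ0 ((F.N z s).starProjection w) = κ0 w) ∧
      ∀ w ∈ F.N z s, κ0 w = 0 → w = 0 := by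
  have hf : Module.finrank ℝ (F.N z s) = Module.finrank ℝ (Fin m → ℝ) := by
    rw [F.finrank_N hz s, hm, Module.finrank_fin_fun]
  obtain ⟨φ⟩ : Nonempty ((F.N z s) ≃ₗ[ℝ] (Fin m → ℝ)) := ⟨LinearEquiv.ofFinrankEq _ _ hf⟩
  refine ⟨(φ.toContinuousLinearEquiv : (F.N z s) →L[ℝ] (Fin m → ℝ)).comp
    ((F.N z s).orthogonalProjectionOnto), ?_, ?_⟩
  · intro w
    simp only [ContinuousLinearMap.comp_apply]
    congr 1
    rw [Submodule.starProjection_apply]
    exact Submodule.orthogonalProjectionOnto_mem_subspace_eq_self _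
  · intro w hw h
    simp only [ContinuousLinearMap.comp_apply] at h
    have h1 : (F.N z s).orthogonalProjectionOnto w = 0 := by
      have : φ ((F.N z s).orthogonalProjectionOnto w) = 0 := h
      exact (LinearEquiv.map_eq_zero_iff φ).mp this
    have h2 : (F.N z s).orthogonalProjectionOnto w = (⟨w, hw⟩ : F.N z s) :=
      Submodule.orthogonalProjectionOnto_mem_subspace_eq_self (⟨w, hw⟩ : F.N z s)
    rw [h1] at h2
    exact (congrArg Subtype.val h2).symm

lemma N_tangent {z : E n × E n} (hz : z ∈ F.B) {s : ℝ} {w : E n} (hw : w ∈ F.N z s) : F.Pr z.1 w = w := by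
  have h := (F.mem_N).mp hw
  calc F.Pr z.1 w = F.Pr z.1 (s • F.A z w) := by rw [h]
    _ = s • F.Pr z.1 (F.A z w) := by rw [map_smul]
    _ = s • F.A z w := by rw [F.Pr_A z hz]
    _ = w := h

/-- positivity is inherited by shorter segments -/
lemma Pos.mono {z : E n × E n} {s T : ℝ} {k : ℕ} {P : E n →L[ℝ] (Fin k → ℝ)} (h : F.Pos z T P)
    (hs : 0 < s) (hsT : s ≤ T) : F.Pos z s P := by
  intro w h1 h2 h3
  have h4 := h w h1 h2 h3
  have h5 : 0 < ‖w‖ ^ 2 := by
    have : 0 < ‖w‖ := norm_pos_iff.mpr h3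
    positivity
  rcases le_total (inner ℝ (F.A z w) w) 0 with h6 | h6
  · have : s * inner ℝ (F.A z w) w ≤ 0 := mul_nonpos_of_nonneg_of_nonpos hs.le h6
    linarith
  · have : s * inner ℝ (F.A z w) w ≤ T * inner ℝ (F.A z w) w := mul_le_mul_of_nonneg_right hsT h6
    linarith

end Foc

end F7H
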