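import Mathlib
import Pool.Agent.Lib.MP_f7aa1b_gt.Defs
import Pool.Agent.Lib.MP_f7aa1b_gt.ASC.Basic

/-!
# Part C (path spaces): definitions

`ASC.loc S U`: the cochain `U` cut off outside tuples of points of `S`; `ASC.LAM`: iterated `lam`.
`Foc n`: the data of a compact submanifold of `E n` whose distance functions are Morse-Bott, seen through its
unit normal bundle `B`: shape operators `A z`, their sorted eigenvalues `lam j z`, second order
expansion of `M`, and the structure of the fibres of `z ↦ z.1 + s • z.2`.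
`Foc.IsPath`: broken normal segments; `Foc.K`: compact space of such paths; `Foc.TT`: the claim on its cohomology.
-/

set_option autoImplicit false

open Set Filter Topology Metric
open scoped BoundedContinuousFunction

namespace ASC

variable {X : Type*}

open Classical in
/-- the cochain `U`, replaced by zero on tuples which are not contained in `S` -/
noncomputable def loc (S : Set X) {n : ℕ} (U : Coch X n) : Coch X n :=
  fun x => if ∀ i, x i ∈ S then U x else 0

/-- iterated `lam` with respect to the coordinates of `κ` -/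
noncomputable def LAM : ∀ (m : ℕ) (_ : X → Fin m → ℝ) {n : ℕ} (_ : Coch X (n + 1)), Coch X (n + m + 1)
  | 0, _, _, U => U
  | m + 1, κ, _, U => lam (fun y => κ y 0) (LAM m (fun y => Fin.tail (κ y)) U)

/-- the vector `(κ, v)` with the `m` coordinates of `κ` in front of the coordinates of `v` -/
def app {b : ℕ} : ∀ (m : ℕ) (_ : Fin m → ℝ) (_ : Fin b → ℝ), Fin (b + m) → ℝ
  | 0, _, v => v
  | m + 1, κ, v => Fin.cons (κ 0) (app m (Fin.tail κ) v)

/-- `κ` is a chart of `Q` around `y` with values in `ℝ^m` -/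
structure Chart {Y : Type*} [PseudoMetricSpace Y] (Q : Set Y) (y : Y) {m : ℕ} (κ : Y → Fin m → ℝ) : Prop where
  cont : Continuous κ
  zero : κ y = 0
  inj : ∃ δ > 0, InjOn κ (Q ∩ closedBall y δ)
  surj : ∀ δ > 0, ∃ r > 0, ∀ w : Fin m → ℝ, ‖w‖ < r → ∃ y' ∈ Q, dist y' y < δ ∧ κ y' = w

/-- `U` is a cocycle over the closed ball of radius `δ` around `y` in `Q` whose restrictions generate the
cohomology of all fibres -/
structure Gen {X Y : Type*} [PseudoMetricSpace X] [PseudoMetricSpace Y] (K : Set X) (ρ : X → Y) (Q : Set Y)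
    (y : Y) (δ : ℝ) {n : ℕ} (U : Coch X n) : Prop where
  coc : Coc (K ∩ ρ ⁻¹' (closedBall y δ)) ∅ U
  gen : ∀ y' ∈ Q, dist y' y ≤ δ → HG (K ∩ ρ ⁻¹' {y'}) ∅ U

end ASC

namespace F7H

open MPf7aa (E)

/-- the space of paths: bounded continuous maps from the line to Euclidean space, with the sup distance -/
abbrev Pth (n : ℕ) := ℝ →ᵇ E n

/-- The data of a compact submanifold of Euclidean space all of whose distance functions are Morse-Bott. -/
structure Foc (n : ℕ) where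
  /-- the submanifold -/
  M : Set (E n)
  /-- its unit normal bundle -/
  B : Set (E n × E n)
  /-- `Pr x` is the orthogonal projection onto the tangent space at `x` -/
  Pr : E n → E n →L[ℝ] E n
  /-- shape operator, extended by zero on the normal space -/
  A : E n × E n → E n →L[ℝ] E n
  /-- sorted eigenvalues of `A z` -/
  lam : ℕ → E n × E n → ℝ
  compM : IsCompact M
  compB : IsCompact B
  memM : ∀ z ∈ B, z.1 ∈ M
  unit : ∀ z ∈ B, ‖z.2‖ = 1
  Pr_cont : ContinuousOn Pr M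
  Pr_idem : ∀ x ∈ M, ∀ w, Pr x (Pr x w) = Pr x w
  Pr_symm : ∀ x ∈ M, ∀ v w, inner ℝ (Pr x v) w = inner ℝ v (Pr x w)
  A_cont : ContinuousOn A B
  A_symm : ∀ z ∈ B, ∀ v w, inner ℝ (A z v) w = inner ℝ v (A z w)
  A_Pr : ∀ z ∈ B, ∀ w, A z (Pr z.1 w) = A z w
  Pr_A : ∀ z ∈ B, ∀ w, Pr z.1 (A z w) = A z w
  lam_cont : ∀ j, ContinuousOn (lam j) B
  lam_anti : ∀ z ∈ B, ∀ i j, i ≤ j → lam j z ≤ lam i z
  lam_eig : ∀ z ∈ B, ∃ b : OrthonormalBasis (Fin n) ℝ (E n), ∀ j : Fin n, A z (b j) = lam j z • b j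
  est : ∃ C : ℝ, ∀ x ∈ M, ∀ y ∈ M, ‖y - x - Pr x (y - x)‖ ≤ C * ‖y - x‖ ^ 2
  tay : ∀ R : ℝ, ∀ ε > 0, ∃ δ > 0, ∀ z ∈ B, ∀ s, 0 ≤ s → s ≤ R → ∀ x ∈ M, ‖x - z.1‖ ≤ δ →
    |‖x - (z.1 + s • z.2)‖ ^ 2 - s ^ 2 -
      (‖Pr z.1 (x - z.1)‖ ^ 2 - s * inner ℝ (A z (x - z.1)) (x - z.1))| ≤ ε * ‖x - z.1‖ ^ 2
  ch_inj : ∀ z ∈ B, ∀ s : ℝ, 0 < s → ∃ δ > 0,
    InjOn (fun y : E n × E n => (LinearMap.ker (s • (A z : E n →ₗ[ℝ] E n) - LinearMap.id)).starProjection (y.1 - z.1))
      ({y | y ∈ B ∧ y.1 + s • y.2 = z.1 + s • z.2} ∩ closedBall z δ)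
  ch_open : ∀ z ∈ B, ∀ s : ℝ, 0 < s → ∀ δ > 0, ∃ r > 0,
    ∀ w ∈ LinearMap.ker (s • (A z : E n →ₗ[ℝ] E n) - LinearMap.id), ‖w‖ < r →
      ∃ y : E n × E n, (y ∈ B ∧ y.1 + s • y.2 = z.1 + s • z.2) ∧ dist y z < δ ∧
        (LinearMap.ker (s • (A z : E n →ₗ[ℝ] E n) - LinearMap.id)).starProjection (y.1 - z.1) = w
  ch_tan : ∀ z ∈ B, ∀ s : ℝ, 0 < s → ∀ ε > 0, ∃ δ > 0, ∀ y : E n × E n, y ∈ B → y.1 + s • y.2 = z.1 + s • z.2 →
    dist y z < δ → ‖(y.1 - z.1) -
      (LinearMap.ker (s • (A z : E n →ₗ[ℝ] E n) - LinearMap.id)).starProjection (y.1 - z.1)‖ ≤ ε * ‖y.1 - z.1‖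
  ch_mul : ∀ z ∈ B, ∀ s : ℝ, 0 < s → ∃ δ > 0, ∀ y : E n × E n, y ∈ B → y.1 + s • y.2 = z.1 + s • z.2 →
    dist y z < δ → Module.finrank ℝ (LinearMap.ker (s • (A y : E n →ₗ[ℝ] E n) - LinearMap.id)) =
      Module.finrank ℝ (LinearMap.ker (s • (A z : E n →ₗ[ℝ] E n) - LinearMap.id))

namespace Foc

variable {n : ℕ} (F : Foc n)

/-- the end point of the normal segment of length `s` -/
def Ex (s : ℝ) (z : E n × E n) : E n := z.1 + s • z.2

/-- the null space of the second derivative of the distance function from `Ex s z` at `z.1` -/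
def N (z : E n × E n) (s : ℝ) : Submodule ℝ (E n) := LinearMap.ker (s • (F.A z : E n →ₗ[ℝ] E n) - LinearMap.id)

/-- number of focal points (with multiplicity) on the open normal segment of length `s` -/
noncomputable def idx (z : E n × E n) (s : ℝ) : ℕ := ((Finset.range n).filter (fun j => 1 < s * F.lam j z)).card

/-- multiplicity of the focal point `Ex s z` -/
noncomputable def mul (z : E n × E n) (s : ℝ) : ℕ := ((Finset.range n).filter (fun j => s * F.lam j z = 1)).card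

/-- the fibre through `z` of the map `Ex s` -/
def fib (z : E n × E n) (s : ℝ) : Set (E n × E n) := {y | y ∈ F.B ∧ y.1 + s • y.2 = z.1 + s • z.2}

/-- the focal leaf: the component of `z` in the fibre -/
def Cc (z : E n × E n) (s : ℝ) : Set (E n × E n) := connectedComponentIn (F.fib z s) z

/-- the second derivative of the distance function is positive definite on the kernel of `P` -/
def Pos (z : E n × E n) (s : ℝ) {k : ℕ} (P : E n →L[ℝ] (Fin k → ℝ)) : Prop :=
  ∀ w, F.Pr z.1 w = w → P w = 0 → w ≠ 0 → 0 < ‖w‖ ^ 2 - s * inner ℝ (F.A z w) w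

open Classical in
/-- glue a path `f` on `(-∞, r]` with the ray of `z` on `(r, ∞)` -/
noncomputable def glue (r : ℝ) (f : ℝ → E n) (z : E n × E n) : ℝ → E n := fun s => if s ≤ r then f s else Ex s z

/-- broken normal segments: `f` is the ray of `z`, or the ray of `z` above some time `r ≤ T` and below `r` a
broken normal segment which starts from a point of the focal leaf of `z` at time `r` -/
inductive IsPath : E n × E n → ℝ → (ℝ → E n) → Prop
  | ray (z : E n × E n) (T : ℝ) : z ∈ F.B → 0 < T → IsPath z T (fun s => Ex s z)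
  | jump (z : E n × E n) (T r : ℝ) (y : E n × E n) (f : ℝ → E n) : z ∈ F.B → 0 < r → r ≤ T → y ∈ F.Cc z r →
      IsPath y r f → IsPath z T (glue r f z)

/-- the space of broken normal segments, as functions cut off outside `[0, R]` -/
def K (R : ℝ) (z : E n × E n) (T : ℝ) : Set (Pth n) :=
  {g | ∃ f, F.IsPath z T f ∧ ∀ s, g s = f (max 0 (min s R))}

/-- the claim on the cohomology of the path space -/
def TT (R : ℝ) (z : E n × E n) (T : ℝ) : Prop :=
  (∀ m, F.idx z T + 1 < m → ASC.HZ m (F.K R z T) ∅) ∧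
  ∀ (k : ℕ), F.idx z T = k → ∀ P : E n →L[ℝ] (Fin k → ℝ), F.Pos z T P → ∃ ρ0 > 0, ∀ ρ, 0 < ρ → ρ < ρ0 →
    ASC.HG (F.K R z T) ∅ (ASC.loc {g : Pth n | ‖g 0 - z.1‖ ≤ ρ} (ASC.GG k (fun g => P (g 0 - z.1))))

end Foc

end F7H
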