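import Pool.Agent.Lib.MP_f7aa1b_gt.H.D2
import Pool.Agent.Lib.MP_f7aa1b_gt.H.CDefs
import Pool.Agent.Lib.MP_f7aa1b_gt.ASC.Mod

/-!
# MP_f7aa1b_gt: what has to be known about a critical point

`Detect M p x α`: a compact space `K` with a map `ev` to the sublevel set `{‖y - p‖ ≤ ‖x - p‖}` of `M`, which
meets the level `‖y - p‖ = ‖x - p‖` only at `x`, such that the pull back of the local class at `x` is not zero in the cohomology of `K`.
-/

set_option autoImplicit false

open Set Filter Topology Metric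

open scoped RealInnerProductSpace

namespace F7D

open ASC

variable {E : Type} [NormedAddCommGroup E] [InnerProductSpace ℝ E]

/-- the local class at `x` is detected by a compact space over the sublevel set -/
def Detect (M : Set E) (p x : E) {i : ℕ} (α : E →L[ℝ] EuclideanSpace ℝ (Fin i)) : Prop :=
  ∃ (X : Type) (_ : PseudoMetricSpace X) (K : Set X) (ev : X → E), IsCompact K ∧ Continuous ev ∧
    (∀ g ∈ K, ev g ∈ M ∧ ‖ev g - p‖ ≤ ‖x - p‖ ∧ (‖ev g - p‖ = ‖x - p‖ → ev g = x)) ∧
    ∃ ρ0 > 0, ∀ ρ, 0 < ρ → ρ < ρ0 → ¬ Cob K ∅ (pb ev (ASC.loc (closedBall x ρ) (GG i (cf α x))))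

/-- a nondegenerate critical point of index `i` whose local class is detected -/
def CritPack (M : Set E) (P : E → E →L[ℝ] E) (p x : E) (i : ℕ) : Prop :=
  ∃ α : E →L[ℝ] EuclideanSpace ℝ (Fin i), LocMorse M P p x i α ∧ Detect M p x α

end F7D
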