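import Mathlib

/-!
# MP_f7aa1b_gt, part D: compact submanifolds, the nearest point retraction and the descent map

`GeomM M P`: `M` is compact, `P a` is the orthogonal projection onto the tangent space at `a ∈ M`, and the two
uniform second order estimates hold.
-/

set_option autoImplicit false

open Set Filter Topology Metric

open scoped RealInnerProductSpace

namespace F7D

variable {E : Type*} [NormedAddCommGroup E] [InnerProductSpace ℝ E]

/-- `M` is a compact `C^{1,1}` submanifold of `E` (without boundary), and `P a` is the orthogonal projection of `E`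
onto the tangent space of `M` at `a`. -/
structure GeomM (M : Set E) (P : E → E →L[ℝ] E) : Prop where
  compact : IsCompact M
  idem : ∀ a ∈ M, ∀ v, P a (P a v) = P a v
  symm : ∀ a ∈ M, ∀ u v, ⟪P a u, v⟫ = ⟪u, P a v⟫
  tan : ∃ C : ℝ, ∀ a ∈ M, ∀ b ∈ M, ‖b - a - P a (b - a)‖ ≤ C * ‖b - a‖ ^ 2
  near : ∃ C v₀ : ℝ, 0 < v₀ ∧ ∀ a ∈ M, ∀ v, P a v = v → ‖v‖ ≤ v₀ →
    ∃ b ∈ M, ‖b - (a + v)‖ ≤ C * ‖v‖ ^ 2

namespace GeomM

variable {M : Set E} {P : E → E →L[ℝ] E}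

lemma tan' (h : GeomM M P) : ∃ C : ℝ, 0 < C ∧ ∀ a ∈ M, ∀ b ∈ M, ‖b - a - P a (b - a)‖ ≤ C * ‖b - a‖ ^ 2 := by
  obtain ⟨C, hC⟩ := h.tan
  refine ⟨max C 1, lt_of_lt_of_le one_pos (le_max_right _ _), fun a ha b hb => (hC a ha b hb).trans ?_⟩
  exact mul_le_mul_of_nonneg_right (le_max_left _ _) (sq_nonneg _)

lemma near' (h : GeomM M P) : ∃ C v₀ : ℝ, 0 < C ∧ 0 < v₀ ∧ ∀ a ∈ M, ∀ v, P a v = v → ‖v‖ ≤ v₀ →
    ∃ b ∈ M, ‖b - (a + v)‖ ≤ C * ‖v‖ ^ 2 := by
  obtain ⟨C, v₀, hv₀, hC⟩ := h.near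
  refine ⟨max C 1, v₀, lt_of_lt_of_le one_pos (le_max_right _ _), hv₀, fun a ha v hv hv' => ?_⟩
  obtain ⟨b, hb, hb'⟩ := hC a ha v hv hv'
  exact ⟨b, hb, hb'.trans (mul_le_mul_of_nonneg_right (le_max_left _ _) (sq_nonneg _))⟩

lemma norm_P_sq (h : GeomM M P) {a : E} (ha : a ∈ M) (v : E) : ⟪v, P a v⟫ = ‖P a v‖ ^ 2 := by
  rw [← real_inner_self_eq_norm_sq, h.symm a ha (v) (P a v), h.idem a ha]

lemma norm_P_le (h : GeomM M P) {a : E} (ha : a ∈ M) (v : E) : ‖P a v‖ ≤ ‖v‖ := by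
  have h1 := h.norm_P_sq ha v
  have h2 := real_inner_le_norm v (P a v)
  rw [h1] at h2
  rcases (norm_nonneg (P a v)).eq_or_lt with h0 | h0
  · rw [← h0]
    exact norm_nonneg _
  · rw [sq] at h2
    exact le_of_mul_le_mul_right h2 h0

lemma norm_sub_P_le (h : GeomM M P) {a : E} (ha : a ∈ M) (v : E) : ‖v - P a v‖ ≤ ‖v‖ := by
  have h1 : ‖v - P a v‖ ^ 2 = ‖v‖ ^ 2 - ‖P a v‖ ^ 2 := by
    rw [norm_sub_sq_real, h.norm_P_sq ha]
    ring
  have h2 : ‖v - P a v‖ ^ 2 ≤ ‖v‖ ^ 2 := by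
    rw [h1]
    have := sq_nonneg ‖P a v‖
    linarith
  exact (sq_le_sq₀ (norm_nonneg _) (norm_nonneg _)).1 h2

/-- a point of `M` nearest to `y` -/
lemma perp_of_nearest (h : GeomM M P) {y a : E} (ha : a ∈ M) (hy : ∀ b ∈ M, ‖y - a‖ ≤ ‖y - b‖) :
    P a (y - a) = 0 := by
  obtain ⟨C, v₀, hC, hv₀, hn⟩ := h.near'
  by_contra hne
  set v := P a (y - a) with hv
  have hv0 : 0 < ‖v‖ := norm_pos_iff.2 hne
  have hPv : P a v = v := h.idem a ha _
  have hyv : ⟪y - a, v⟫ = ‖v‖ ^ 2 := h.norm_P_sq ha (y - a)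
  -- the estimate for small t
  have key : ∀ t : ℝ, 0 < t → t ≤ 1 → t * ‖v‖ ≤ v₀ →
      ‖v‖ ^ 2 ≤ t * (‖y - a‖ * C * ‖v‖ ^ 2 + (‖v‖ + C * ‖v‖ ^ 2) ^ 2) := by
    intro t ht ht1 htv
    obtain ⟨b, hb, hbe⟩ := hn a ha (t • v) (by rw [map_smul, hPv]) (by
      rw [norm_smul, Real.norm_of_nonneg ht.le]; exact htv)
    set e := b - (a + t • v) with he
    have hbn : y - b = (y - a) - (t • v + e) := by
      rw [he]
      abel
    have hle := hy b hb
    have hsq : ‖y - a‖ ^ 2 ≤ ‖y - b‖ ^ 2 := by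
      exact pow_le_pow_left₀ (norm_nonneg _) hle 2
    rw [hbn, norm_sub_sq_real (y - a), inner_add_right, inner_smul_right, hyv] at hsq
    have hen : ‖e‖ ≤ C * (t * ‖v‖) ^ 2 := by
      rw [norm_smul, Real.norm_of_nonneg ht.le] at hbe
      exact hbe
    have h1 : -(‖y - a‖ * ‖e‖) ≤ ⟪y - a, e⟫ := by
      have := abs_real_inner_le_norm (y - a) e
      exact (abs_le.1 this).1
    have h2 : ‖t • v + e‖ ≤ t * (‖v‖ + C * ‖v‖ ^ 2) := by
      refine (norm_add_le _ _).trans ?_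
      rw [norm_smul, Real.norm_of_nonneg ht.le]
      have : C * (t * ‖v‖) ^ 2 ≤ t * (C * ‖v‖ ^ 2) := by
        have : C * (t * ‖v‖) ^ 2 = t * (t * (C * ‖v‖ ^ 2)) := by ring
        rw [this]
        apply mul_le_mul_of_nonneg_left _ ht.le
        exact mul_le_of_le_one_left (by positivity) ht1
      nlinarith [hen]
    have h3 : ‖t • v + e‖ ^ 2 ≤ (t * (‖v‖ + C * ‖v‖ ^ 2)) ^ 2 := pow_le_pow_left₀ (norm_nonneg _) h2 2
    have h4 : ‖y - a‖ * ‖e‖ ≤ ‖y - a‖ * (C * (t * ‖v‖) ^ 2) := mul_le_mul_of_nonneg_left hen (norm_nonneg _)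
    have h5 : 2 * (t * ‖v‖ ^ 2) ≤ 2 * (‖y - a‖ * (C * (t * ‖v‖) ^ 2)) + (t * (‖v‖ + C * ‖v‖ ^ 2)) ^ 2 := by
      nlinarith
    have h6 : t * (2 * ‖v‖ ^ 2) ≤ t * (t * (2 * (‖y - a‖ * C * ‖v‖ ^ 2) + (‖v‖ + C * ‖v‖ ^ 2) ^ 2)) := by
      calc t * (2 * ‖v‖ ^ 2) = 2 * (t * ‖v‖ ^ 2) := by ring
        _ ≤ _ := h5
        _ = _ := by ring
    have h7 := le_of_mul_le_mul_left h6 ht
    have h8 : 0 ≤ t * (‖v‖ + C * ‖v‖ ^ 2) ^ 2 := mul_nonneg ht.le (sq_nonneg _)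
    nlinarith
  set K := ‖y - a‖ * C * ‖v‖ ^ 2 + (‖v‖ + C * ‖v‖ ^ 2) ^ 2 with hK
  have hKpos : 0 < K := by
    have : 0 < ‖v‖ + C * ‖v‖ ^ 2 := by positivity
    have : 0 < (‖v‖ + C * ‖v‖ ^ 2) ^ 2 := by positivity
    have : 0 ≤ ‖y - a‖ * C * ‖v‖ ^ 2 := by positivity
    linarith
  -- choose t
  obtain ⟨t, ht0, ht⟩ : ∃ t : ℝ, 0 < t ∧ t < min (min 1 (v₀ / ‖v‖)) (‖v‖ ^ 2 / K) :=
    exists_between (lt_min (lt_min one_pos (div_pos hv₀ hv0)) (div_pos (by positivity) hKpos))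
  have ht1 : t ≤ 1 := (ht.trans_le ((min_le_left _ _).trans (min_le_left _ _))).le
  have ht2 : t * ‖v‖ ≤ v₀ := by
    have := (ht.trans_le ((min_le_left _ _).trans (min_le_right _ _))).le
    exact (le_div_iff₀ hv0).1 this
  have ht3 : t * K < ‖v‖ ^ 2 := by
    have := ht.trans_le (min_le_right _ _)
    exact (lt_div_iff₀ hKpos).1 this
  exact absurd (key t ht0 ht1 ht2) (not_le.2 ht3)

/-- uniqueness of the nearest point near `M` -/
lemma nearest_unique (h : GeomM M P) : ∃ r : ℝ, 0 < r ∧ ∀ y a b, a ∈ M → b ∈ M →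
    (∀ c ∈ M, ‖y - a‖ ≤ ‖y - c‖) → (∀ c ∈ M, ‖y - b‖ ≤ ‖y - c‖) → ‖y - a‖ < r → a = b := by
  obtain ⟨C, hC, ht⟩ := h.tan'
  refine ⟨1 / (2 * C), by positivity, fun y a b ha hb hya hyb hr => ?_⟩
  have hpa := h.perp_of_nearest ha hya
  have hpb := h.perp_of_nearest hb hyb
  have hab : ‖y - b‖ ≤ ‖y - a‖ := hyb a ha
  have key : ∀ {a b : E}, a ∈ M → b ∈ M → P a (y - a) = 0 → ⟪y - a, b - a⟫ ≤ ‖y - a‖ * (C * ‖b - a‖ ^ 2) := by
    intro a b ha hb hp
    have h1 : ⟪y - a, P a (b - a)⟫ = 0 := by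
      rw [← h.symm a ha, hp, inner_zero_left]
    have h2 : ⟪y - a, b - a⟫ = ⟪y - a, b - a - P a (b - a)⟫ := by
      rw [inner_sub_right (y - a) (b - a), h1, sub_zero]
    rw [h2]
    exact (real_inner_le_norm _ _).trans (mul_le_mul_of_nonneg_left (ht a ha b hb) (norm_nonneg _))
  have k1 := key ha hb hpa
  have k2 := key hb ha hpb
  have k3 : ‖b - a‖ ^ 2 = ⟪y - a, b - a⟫ + ⟪y - b, a - b⟫ := by
    rw [← real_inner_self_eq_norm_sq]
    have e1 : a - b = -(b - a) := by abel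
    rw [e1, inner_neg_right, ← sub_eq_add_neg, ← inner_sub_left]
    congr 1
    abel
  have k4 : ‖a - b‖ = ‖b - a‖ := norm_sub_rev _ _
  rw [k4] at k2
  by_contra hne
  have k5 : 0 < ‖b - a‖ ^ 2 := by
    have : 0 < ‖b - a‖ := norm_pos_iff.2 (sub_ne_zero.2 (Ne.symm hne))
    positivity
  have k6 : ‖y - b‖ * (C * ‖b - a‖ ^ 2) ≤ ‖y - a‖ * (C * ‖b - a‖ ^ 2) :=
    mul_le_mul_of_nonneg_right hab (by positivity)
  have k7 : ‖b - a‖ ^ 2 ≤ (2 * C * ‖y - a‖) * ‖b - a‖ ^ 2 := by nlinarith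
  have k8 : 2 * C * ‖y - a‖ < 1 := by
    rw [lt_div_iff₀ (by positivity)] at hr
    linarith
  have k9 : (2 * C * ‖y - a‖) * ‖b - a‖ ^ 2 < 1 * ‖b - a‖ ^ 2 := mul_lt_mul_of_pos_right k8 k5
  linarith

open scoped Classical in
/-- the nearest point map -/
noncomputable def rho (M : Set E) (y : E) : E :=
  if h : ∃ a ∈ M, ∀ b ∈ M, ‖y - a‖ ≤ ‖y - b‖ then Classical.choose h else y

lemma exists_nearest (h : GeomM M P) (hne : M.Nonempty) (y : E) : ∃ a ∈ M, ∀ b ∈ M, ‖y - a‖ ≤ ‖y - b‖ := by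
  obtain ⟨a, ha, hmin⟩ := h.compact.exists_isMinOn hne
    (f := fun b => ‖y - b‖) (by fun_prop)
  exact ⟨a, ha, fun b hb => hmin hb⟩

lemma rho_mem (h : GeomM M P) (hne : M.Nonempty) (y : E) : rho M y ∈ M := by
  unfold rho
  rw [dif_pos (h.exists_nearest hne y)]
  exact (Classical.choose_spec (h.exists_nearest hne y)).1

lemma rho_le (h : GeomM M P) (y : E) {b : E} (hb : b ∈ M) : ‖y - rho M y‖ ≤ ‖y - b‖ := by
  unfold rho
  rw [dif_pos (h.exists_nearest ⟨b, hb⟩ y)]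
  exact (Classical.choose_spec (h.exists_nearest ⟨b, hb⟩ y)).2 b hb

lemma rho_self (h : GeomM M P) {a : E} (ha : a ∈ M) : rho M a = a := by
  have := h.rho_le a ha
  rw [sub_self, norm_zero] at this
  have h2 : ‖a - rho M a‖ = 0 := le_antisymm this (norm_nonneg _)
  rw [norm_eq_zero, sub_eq_zero] at h2
  exact h2.symm

/-- the nearest point map is continuous near `M` -/
lemma continuousOn_rho (h : GeomM M P) : ∃ r : ℝ, 0 < r ∧ ContinuousOn (rho M) {y | ∃ a ∈ M, ‖y - a‖ < r} := by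
  obtain ⟨r, hr, hu⟩ := h.nearest_unique
  refine ⟨r, hr, ?_⟩
  rintro y ⟨a, ha, hya⟩
  have hne : M.Nonempty := ⟨a, ha⟩
  refine IsCompact.tendsto_nhds_of_unique_mapClusterPt h.compact
    (Eventually.of_forall fun y => h.rho_mem hne y) ?_
  intro b hb hcl
  -- b is a nearest point of y
  have hmin : ∀ c ∈ M, ‖y - b‖ ≤ ‖y - c‖ := by
    intro c hc
    by_contra hlt
    rw [not_le] at hlt
    obtain ⟨m, hm1, hm2⟩ := exists_between hlt
    have hopen : IsOpen {q : E × E | ‖q.1 - c‖ < m ∧ m < ‖q.1 - q.2‖} :=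
      (isOpen_lt (continuous_fst.sub continuous_const).norm continuous_const).inter
        (isOpen_lt continuous_const (continuous_fst.sub continuous_snd).norm)
    have hmem : (y, b) ∈ {q : E × E | ‖q.1 - c‖ < m ∧ m < ‖q.1 - q.2‖} := ⟨hm1, hm2⟩
    have hnh := hopen.mem_nhds hmem
    rw [nhds_prod_eq, mem_prod_iff] at hnh
    obtain ⟨U, hU, V, hV, hUV⟩ := hnh
    have hf : ∃ᶠ x in 𝓝[{y | ∃ a ∈ M, ‖y - a‖ < r}] y, rho M x ∈ V := hcl.frequently hV
    have hU' : ∀ᶠ x in 𝓝[{y | ∃ a ∈ M, ‖y - a‖ < r}] y, x ∈ U := mem_nhdsWithin_of_mem_nhds hU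
    obtain ⟨x, hx1, hx2⟩ := (hf.and_eventually hU').exists
    have h3 : ‖x - c‖ < m ∧ m < ‖x - rho M x‖ := hUV (mk_mem_prod hx2 hx1)
    have h4 := h.rho_le x hc
    linarith [h3.1, h3.2]
  refine hu y b (rho M y) hb (h.rho_mem hne y) hmin (fun c hc => h.rho_le y hc) ?_
  exact (hmin a ha).trans_lt hya

/-- the tangent projection is Lipschitz on `M` -/
lemma lip_P (h : GeomM M P) : ∃ K : ℝ, 0 ≤ K ∧ ∀ a ∈ M, ∀ b ∈ M, ∀ w, ‖P a w - P b w‖ ≤ K * ‖a - b‖ * ‖w‖ := by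
  obtain ⟨C₁, hC₁, ht⟩ := h.tan'
  obtain ⟨C, v₀, hC, hv₀, hn⟩ := h.near'
  set K₁ : ℝ := C₁ * (2 + C * v₀) ^ 2 + C + C₁ with hK₁
  have hK₁0 : 0 ≤ K₁ := by positivity
  -- one-sided estimate for vectors of norm at most one
  have key1 : ∀ a ∈ M, ∀ b ∈ M, 0 < ‖a - b‖ → ‖a - b‖ ≤ v₀ → ∀ v, P a v = v → ‖v‖ ≤ 1 →
      ‖v - P b v‖ ≤ K₁ * ‖a - b‖ := by
    intro a ha b hb hd0 hd v hv hv1
    set δ := ‖a - b‖ with hδ
    have hnv : ‖δ • v‖ ≤ δ := by
      rw [norm_smul, Real.norm_of_nonneg hd0.le]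
      exact mul_le_of_le_one_right hd0.le hv1
    obtain ⟨b', hb', hbe⟩ := hn a ha (δ • v) (by rw [map_smul, hv]) (hnv.trans hd)
    have hbe' : ‖b' - (a + δ • v)‖ ≤ C * δ ^ 2 :=
      hbe.trans (mul_le_mul_of_nonneg_left (pow_le_pow_left₀ (norm_nonneg _) hnv 2) hC.le)
    have e1 : δ • v - P b (δ • v) = (b' - b - P b (b' - b)) - (b' - (a + δ • v) - P b (b' - (a + δ • v))) -
        (a - b - P b (a - b)) := by
      have : δ • v = (b' - b) - (b' - (a + δ • v)) - (a - b) := by abel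
      conv_lhs => rw [this]
      rw [map_sub, map_sub]
      abel
    have hb'b : ‖b' - b‖ ≤ (2 + C * v₀) * δ := by
      have e2 : b' - b = (b' - (a + δ • v)) + δ • v + (a - b) := by abel
      rw [e2]
      refine (norm_add_le _ _).trans ?_
      have h3 := norm_add_le (b' - (a + δ • v)) (δ • v)
      have h4 : C * δ ^ 2 ≤ C * v₀ * δ := by
        have : C * δ ^ 2 = C * δ * δ := by ring
        rw [this]
        exact mul_le_mul_of_nonneg_right (mul_le_mul_of_nonneg_left hd hC.le) hd0.le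
      linarith
    have h5 : ‖b' - b - P b (b' - b)‖ ≤ C₁ * ((2 + C * v₀) * δ) ^ 2 :=
      (ht b hb b' hb').trans (mul_le_mul_of_nonneg_left (pow_le_pow_left₀ (norm_nonneg _) hb'b 2) hC₁.le)
    have h6 : ‖b' - (a + δ • v) - P b (b' - (a + δ • v))‖ ≤ C * δ ^ 2 := by
      refine le_trans ?_ hbe'
      have h7 := h.norm_sub_P_le hb (b' - (a + δ • v))
      exact h7
    have h8 : ‖a - b - P b (a - b)‖ ≤ C₁ * δ ^ 2 := ht b hb a ha
    have h9 : ‖δ • v - P b (δ • v)‖ ≤ K₁ * δ * δ := by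
      rw [e1]
      refine (norm_sub_le _ _).trans ?_
      have h10 := norm_sub_le (b' - b - P b (b' - b)) (b' - (a + δ • v) - P b (b' - (a + δ • v)))
      have h11 : K₁ * δ * δ = C₁ * ((2 + C * v₀) * δ) ^ 2 + C * δ ^ 2 + C₁ * δ ^ 2 := by
        rw [hK₁]
        ring
      rw [h11]
      linarith
    have h12 : δ • v - P b (δ • v) = δ • (v - P b v) := by
      rw [map_smul, smul_sub]
    rw [h12, norm_smul, Real.norm_of_nonneg hd0.le, mul_comm (K₁ * δ) δ] at h9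
    exact le_of_mul_le_mul_left h9 hd0
  -- for all vectors
  have key2 : ∀ a ∈ M, ∀ b ∈ M, 0 < ‖a - b‖ → ‖a - b‖ ≤ v₀ → ∀ w, ‖P a w - P b (P a w)‖ ≤ K₁ * ‖a - b‖ * ‖w‖ := by
    intro a ha b hb hd0 hd w
    rcases (norm_nonneg w).eq_or_lt with hw | hw
    · have : w = 0 := norm_eq_zero.1 hw.symm
      rw [this]
      simp
    · have h1 := key1 a ha b hb hd0 hd (‖w‖⁻¹ • P a w) (by rw [map_smul, h.idem a ha]) (by
        rw [norm_smul, norm_inv, norm_norm, inv_mul_le_iff₀ hw, mul_one]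
        exact h.norm_P_le ha w)
      rw [map_smul, ← smul_sub, norm_smul, norm_inv, norm_norm, inv_mul_le_iff₀ hw] at h1
      linarith
  have key3 : ∀ a ∈ M, ∀ b ∈ M, 0 < ‖a - b‖ → ‖a - b‖ ≤ v₀ → ∀ w, ‖P a w - P b w‖ ≤ (2 * K₁) * ‖a - b‖ * ‖w‖ := by
    intro a ha b hb hd0 hd w
    have h1 := key2 a ha b hb hd0 hd w
    have h2 : ‖P b (w - P a w)‖ ≤ K₁ * ‖a - b‖ * ‖w‖ := by
      set u := P b (w - P a w) with hu
      have h3 : ‖u‖ ^ 2 = ⟪u - P a u, w⟫ := by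
        have h4 : P b u = u := h.idem b hb _
        calc ‖u‖ ^ 2 = ⟪u, u⟫ := (real_inner_self_eq_norm_sq u).symm
          _ = ⟪P b u, w - P a w⟫ := by rw [h.symm b hb u (w - P a w)]
          _ = ⟪u, w - P a w⟫ := by rw [h4]
          _ = ⟪u - P a u, w⟫ := by rw [inner_sub_right, inner_sub_left, h.symm a ha]
      have h5 : ‖u - P a u‖ ≤ K₁ * ‖a - b‖ * ‖u‖ := by
        have h6 := key2 b hb a ha (by rwa [norm_sub_rev]) (by rwa [norm_sub_rev]) u
        have h4 : P b u = u := h.idem b hb _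
        rw [h4, norm_sub_rev b a] at h6
        exact h6
      have h7 : ‖u‖ ^ 2 ≤ K₁ * ‖a - b‖ * ‖u‖ * ‖w‖ := by
        rw [h3]
        exact (real_inner_le_norm _ _).trans (mul_le_mul_of_nonneg_right h5 (norm_nonneg _))
      rcases (norm_nonneg u).eq_or_lt with hu0 | hu0
      · rw [← hu0]
        positivity
      · have h8 : ‖u‖ * ‖u‖ ≤ ‖u‖ * (K₁ * ‖a - b‖ * ‖w‖) := by
          rw [← sq]
          calc ‖u‖ ^ 2 ≤ K₁ * ‖a - b‖ * ‖u‖ * ‖w‖ := h7
            _ = ‖u‖ * (K₁ * ‖a - b‖ * ‖w‖) := by ring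
        exact le_of_mul_le_mul_left h8 hu0
    have e : P a w - P b w = (P a w - P b (P a w)) - P b (w - P a w) := by
      rw [map_sub]
      abel
    rw [e]
    refine (norm_sub_le _ _).trans ?_
    linarith
  refine ⟨2 * K₁ + 2 / v₀, by positivity, fun a ha b hb w => ?_⟩
  rcases (norm_nonneg (a - b)).eq_or_lt with hd | hd
  · have : a = b := sub_eq_zero.1 (norm_eq_zero.1 hd.symm)
    rw [this, sub_self, norm_zero]
    positivity
  · by_cases hd' : ‖a - b‖ ≤ v₀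
    · refine (key3 a ha b hb hd hd' w).trans ?_
      have : 0 ≤ 2 / v₀ * ‖a - b‖ * ‖w‖ := by positivity
      linarith
    · rw [not_le] at hd'
      have h1 : ‖P a w - P b w‖ ≤ 2 * ‖w‖ := by
        refine (norm_sub_le _ _).trans ?_
        have := h.norm_P_le ha w
        have := h.norm_P_le hb w
        linarith
      have h2 : 2 ≤ 2 / v₀ * ‖a - b‖ := by
        rw [div_mul_eq_mul_div, le_div_iff₀ hv₀]
        linarith
      have h3 : 2 * ‖w‖ ≤ 2 / v₀ * ‖a - b‖ * ‖w‖ := mul_le_mul_of_nonneg_right h2 (norm_nonneg _)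
      have h4 : 0 ≤ 2 * K₁ * ‖a - b‖ * ‖w‖ := by positivity
      linarith

lemma continuousOn_P (h : GeomM M P) {F : Type*} [TopologicalSpace F] {S : Set F} {a w : F → E}
    (ha : ContinuousOn a S) (haM : MapsTo a S M) (hw : ContinuousOn w S) :
    ContinuousOn (fun x => P (a x) (w x)) S := by
  obtain ⟨K, hK, hl⟩ := h.lip_P
  intro x hx
  have h1 := ha x hx
  have h2 := hw x hx
  have haM' := haM hx
  rw [ContinuousWithinAt, tendsto_iff_norm_sub_tendsto_zero]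
  have h3 : Tendsto (fun y => K * ‖a y - a x‖ * ‖w y‖ + ‖w y - w x‖) (𝓝[S] x) (𝓝 0) := by
    have h4 := tendsto_iff_norm_sub_tendsto_zero.1 h1
    have h5 := tendsto_iff_norm_sub_tendsto_zero.1 h2
    have h6 := ((h4.const_mul K).mul h2.norm).add h5
    rw [mul_zero, zero_mul, zero_add] at h6
    exact h6
  refine squeeze_zero' (Eventually.of_forall fun _ => norm_nonneg _) ?_ h3
  filter_upwards [self_mem_nhdsWithin] with y hy
  have e : P (a y) (w y) - P (a x) (w x) = (P (a y) (w y) - P (a x) (w y)) + P (a x) (w y - w x) := by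
    rw [map_sub]
    abel
  rw [e]
  refine (norm_add_le _ _).trans ?_
  exact add_le_add (hl _ (haM hy) _ haM' _) (h.norm_P_le haM' _)

/-- the function `|x - p|²` -/
def ff (p x : E) : ℝ := ‖x - p‖ ^ 2

/-- half of its gradient on `M` -/
def gr (P : E → E →L[ℝ] E) (p x : E) : E := P x (x - p)

/-- the descent map -/
noncomputable def stp (M : Set E) (P : E → E →L[ℝ] E) (p : E) (s : ℝ) (x : E) : E :=
  rho M (x - s • gr P p x)

omit [InnerProductSpace ℝ E] in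
lemma continuous_ff (p : E) : Continuous (ff p) := by
  unfold ff
  fun_prop

lemma stp_mem (h : GeomM M P) {p x : E} (hx : x ∈ M) (s : ℝ) : stp M P p s x ∈ M :=
  h.rho_mem ⟨x, hx⟩ _

lemma stp_zero (h : GeomM M P) {p x : E} (hx : x ∈ M) : stp M P p 0 x = x := by
  unfold stp
  rw [zero_smul, sub_zero, h.rho_self hx]

/-- **The descent map**: for small `τ`, the maps `stp s`, `0 ≤ s ≤ τ`, form a homotopy and decrease
`|x - p|²` by `s |grad|²` at least. -/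
theorem exists_stp (h : GeomM M P) (p : E) : ∃ τ C : ℝ, 0 < τ ∧ 0 < C ∧
    ContinuousOn (fun q : ℝ × E => stp M P p q.1 q.2) (Icc 0 τ ×ˢ M) ∧
    (∀ s ∈ Icc 0 τ, ∀ x ∈ M, ‖stp M P p s x - (x - s • gr P p x)‖ ≤ C * s ^ 2 * ‖gr P p x‖ ^ 2) ∧
    ∀ s ∈ Icc 0 τ, ∀ x ∈ M, ff p (stp M P p s x) ≤ ff p x - s * ‖gr P p x‖ ^ 2 := by
  obtain ⟨r, hr, hcont⟩ := h.continuousOn_rho
  obtain ⟨C, v₀, hC, hv₀, hn⟩ := h.near'
  obtain ⟨D, hD0, hD⟩ : ∃ D : ℝ, 0 < D ∧ ∀ x ∈ M, ‖x - p‖ ≤ D := by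
    obtain ⟨D, hD⟩ := h.compact.isBounded.exists_norm_le
    refine ⟨max D 0 + ‖p‖ + 1, by positivity, fun x hx => ?_⟩
    have := norm_sub_le x p
    have := hD x hx
    have := le_max_left D 0
    linarith
  have hg : ∀ x ∈ M, ‖gr P p x‖ ≤ D := fun x hx => (h.norm_P_le hx _).trans (hD x hx)
  set B : ℝ := 2 * D * C + (1 + C * D) ^ 2 with hB
  have hB0 : 0 < B := by positivity
  obtain ⟨τ, hτ0, hτ⟩ : ∃ τ : ℝ, 0 < τ ∧ τ < min (min 1 (v₀ / D)) (min (r / D) (1 / B)) :=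
    exists_between (lt_min (lt_min one_pos (by positivity)) (lt_min (by positivity) (by positivity)))
  have hτ1 : τ ≤ 1 := (hτ.trans_le ((min_le_left _ _).trans (min_le_left _ _))).le
  have hτ2 : τ * D ≤ v₀ :=
    (le_div_iff₀ hD0).1 (hτ.trans_le ((min_le_left _ _).trans (min_le_right _ _))).le
  have hτ3 : τ * D < r :=
    (lt_div_iff₀ hD0).1 (hτ.trans_le ((min_le_right _ _).trans (min_le_left _ _)))
  have hτ4 : τ * B ≤ 1 :=
    (le_div_iff₀ hB0).1 (hτ.trans_le ((min_le_right _ _).trans (min_le_right _ _))).le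
  have hsg : ∀ s ∈ Icc 0 τ, ∀ x ∈ M, ‖s • gr P p x‖ ≤ τ * D := by
    intro s hs x hx
    rw [norm_smul, Real.norm_of_nonneg hs.1]
    exact mul_le_mul hs.2 (hg x hx) (norm_nonneg _) hτ0.le
  have herr : ∀ s ∈ Icc 0 τ, ∀ x ∈ M,
      ‖stp M P p s x - (x - s • gr P p x)‖ ≤ C * s ^ 2 * ‖gr P p x‖ ^ 2 := by
    intro s hs x hx
    obtain ⟨b, hb, hbe⟩ := hn x hx (-(s • gr P p x)) (by
      rw [map_neg, map_smul]
      unfold gr
      rw [h.idem x hx]) (by rw [norm_neg]; exact (hsg s hs x hx).trans hτ2)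
    have h1 := h.rho_le (x - s • gr P p x) hb
    rw [norm_sub_rev] at h1
    unfold stp
    refine h1.trans ?_
    rw [norm_sub_rev, sub_eq_add_neg x]
    refine hbe.trans ?_
    rw [norm_neg, norm_smul, Real.norm_of_nonneg hs.1, mul_pow]
    apply le_of_eq
    ring
  refine ⟨τ, C, hτ0, hC, ?_, herr, ?_⟩
  · have h1 : ContinuousOn (fun q : ℝ × E => q.2 - q.1 • gr P p q.2) (Icc 0 τ ×ˢ M) := by
      have h2 : ContinuousOn (fun q : ℝ × E => gr P p q.2) (Icc 0 τ ×ˢ M) := by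
        unfold gr
        exact h.continuousOn_P continuousOn_snd (fun q hq => hq.2) (continuousOn_snd.sub continuousOn_const)
      exact continuousOn_snd.sub (continuousOn_fst.smul h2)
    refine hcont.comp h1 ?_
    rintro ⟨s, x⟩ ⟨hs, hx⟩
    refine ⟨x, hx, ?_⟩
    show ‖x - s • gr P p x - x‖ < r
    have : x - s • gr P p x - x = -(s • gr P p x) := by abel
    rw [this, norm_neg]
    exact (hsg s hs x hx).trans_lt hτ3
  · intro s hs x hx
    have hs0 : 0 ≤ s := hs.1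
    have hs1 : s ≤ 1 := hs.2.trans hτ1
    set G := ‖gr P p x‖ with hG
    have hG0 : 0 ≤ G := norm_nonneg _
    have hGD : G ≤ D := hg x hx
    set e := stp M P p s x - (x - s • gr P p x) with he
    have hen : ‖e‖ ≤ C * s ^ 2 * G ^ 2 := herr s hs x hx
    have h1 : stp M P p s x - p = (x - p) + (e - s • gr P p x) := by
      rw [he]
      abel
    have h2 : ⟪x - p, gr P p x⟫ = G ^ 2 := h.norm_P_sq hx (x - p)
    unfold ff
    rw [h1, norm_add_sq_real, inner_sub_right, inner_smul_right, h2]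
    have h3 : ⟪x - p, e⟫ ≤ D * (C * s ^ 2 * G ^ 2) :=
      (real_inner_le_norm _ _).trans (mul_le_mul (hD x hx) hen (norm_nonneg _) hD0.le)
    have h4 : ‖e - s • gr P p x‖ ≤ s * G * (1 + C * D) := by
      refine (norm_sub_le _ _).trans ?_
      rw [norm_smul, Real.norm_of_nonneg hs0]
      have h5 : C * s ^ 2 * G ^ 2 ≤ s * G * (C * D) := by
        have h6 : C * s ^ 2 * G ^ 2 = s * G * (C * (s * G)) := by ring
        rw [h6]
        apply mul_le_mul_of_nonneg_left _ (by positivity)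
        apply mul_le_mul_of_nonneg_left _ hC.le
        calc s * G ≤ 1 * D := mul_le_mul hs1 hGD hG0 zero_le_one
          _ = D := one_mul _
      have h7 : s * G * (1 + C * D) = s * G * (C * D) + s * G := by ring
      rw [h7]
      linarith
    have h8 : ‖e - s • gr P p x‖ ^ 2 ≤ (s * G * (1 + C * D)) ^ 2 := pow_le_pow_left₀ (norm_nonneg _) h4 2
    have h9 : s * (s * B) * G ^ 2 ≤ s * 1 * G ^ 2 := by
      apply mul_le_mul_of_nonneg_right _ (sq_nonneg _)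
      apply mul_le_mul_of_nonneg_left _ hs0
      calc s * B ≤ τ * B := mul_le_mul_of_nonneg_right hs.2 hB0.le
        _ ≤ 1 := hτ4
    have h10 : s * (s * B) * G ^ 2 = 2 * (D * (C * s ^ 2 * G ^ 2)) + (s * G * (1 + C * D)) ^ 2 := by
      rw [hB]
      ring
    nlinarith

end GeomM

end F7D
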