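import Mathlib
import Pool.Agent.Lib.MP_f7aa1b_gt.ASC.Basic
import Pool.Agent.Lib.MP_f7aa1b_gt.H.DGeom

/-!
# MP_f7aa1b_gt, part D1: sublevel sets without critical points
-/

set_option autoImplicit false

open Set Filter Topology Metric

open scoped RealInnerProductSpace

namespace F7D

open ASC

/-- If iterates of a map homotopic to the identity (preserving `S` and `S'`) bring `S` into `S'` then
the cohomology of `(S, S')` vanishes. -/
theorem HZ_iterate {X : Type*} [PseudoMetricSpace X] {S S' : Set X} (hS : S' ⊆ S) (hSc : IsCompact S)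
    (Φ : ℝ × X → X) (hΦ : ContinuousOn Φ (Icc (0 : ℝ) 1 ×ˢ S))
    (h0 : ∀ x ∈ S, Φ (0, x) = x)
    (hR : ∀ t ∈ Icc (0 : ℝ) 1, ∀ y ∈ S, Φ (t, y) ∈ S)
    (hR' : ∀ t ∈ Icc (0 : ℝ) 1, ∀ y ∈ S', Φ (t, y) ∈ S') (K : ℕ)
    (hK : ∀ x ∈ S, (fun x => Φ (1, x))^[K] x ∈ S') (n : ℕ) : HZ n S S' := by
  intro F hF
  set φ : X → X := fun x => Φ (1, x) with hφ
  have hφS : MapsTo φ S S := fun x hx => hR 1 (by simp) x hx
  have hφS' : MapsTo φ S' S' := fun x hx => hR' 1 (by simp) x hx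
  have hφc : ContinuousOn φ S := by
    have : ContinuousOn (fun x : X => ((1 : ℝ), x)) S := by fun_prop
    exact hΦ.comp this fun x hx => ⟨by simp, hx⟩
  have hφu : UniformContinuousOn φ S := hSc.uniformContinuousOn_of_continuous hφc
  have hstep : Cob S S' (F + pb φ F) := by
    have h1 := homotopy hS hSc Φ hΦ hR hR' hF
    have h2 : Cob S S' (F + pb (fun y => Φ (0, y)) F) := by
      apply Cob.of_van
      refine ⟨1, one_pos, fun x hx => ?_⟩
      have h3 : (fun i => Φ (0, x i)) = x := by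
        funext i
        exact h0 _ (hx.1 i)
      show F x + F (fun i => Φ (0, x i)) = 0
      rw [h3, z2]
    exact h2.trans h1
  have hit : ∀ k : ℕ, Cob S S' (F + pb (φ^[k]) F) := by
    intro k
    induction k with
    | zero =>
      have : pb (φ^[0]) F = F := rfl
      rw [this, add_self_coch]
      exact Cob.zero _ _
    | succ k ih =>
      have h1 : Cob S S' (pb φ (F + pb (φ^[k]) F)) := ih.pb hS hφu hφS hφS'
      have h2 : pb φ (F + pb (φ^[k]) F) = pb φ F + pb (φ^[k + 1]) F := rfl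
      rw [h2] at h1
      exact hstep.trans h1
  have hmaps : ∀ k : ℕ, MapsTo (φ^[k]) S S := fun k => hφS.iterate k
  have hcont : ∀ k : ℕ, ContinuousOn (φ^[k]) S := by
    intro k
    induction k with
    | zero => exact continuousOn_id
    | succ k ih =>
      rw [Function.iterate_succ]
      exact ih.comp hφc hφS
  have hlast : Van S (pb (φ^[K]) F) :=
    hF.van.pb (hSc.uniformContinuousOn_of_continuous (hcont K)) fun x hx => hK x hx
  have h1 := hit K
  rw [add_comm] at h1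
  exact h1.congr (Cob.of_van hlast)

variable {E : Type*} [NormedAddCommGroup E] [InnerProductSpace ℝ E] {M : Set E} {P : E → E →L[ℝ] E}

open GeomM

/-- **Descent.** `S ⊆ M` compact, preserved by the descent maps with small time, without critical points
at the levels `≥ c`: the cohomology of `(S, S ∩ {|x - p|² ≤ c})` vanishes. -/
theorem HZ_stp (h : GeomM M P) (p : E) {S : Set E} (hSc : IsCompact S) (hSM : S ⊆ M) (c : ℝ)
    (hpres : ∃ τ' : ℝ, 0 < τ' ∧ ∀ s ∈ Icc 0 τ', ∀ x ∈ S, stp M P p s x ∈ S)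
    (hcrit : ∀ x ∈ S, c ≤ ff p x → gr P p x ≠ 0) (n : ℕ) : HZ n S (S ∩ {x | ff p x ≤ c}) := by
  obtain ⟨τ₀, C, hτ₀, hC, hcont, -, hdec⟩ := h.exists_stp p
  obtain ⟨τ', hτ', hpres⟩ := hpres
  set τ := min τ₀ τ' with hτ
  have hτpos : 0 < τ := lt_min hτ₀ hτ'
  have hmem : ∀ t ∈ Icc (0 : ℝ) 1, t * τ ∈ Icc 0 τ := fun t ht =>
    ⟨mul_nonneg ht.1 hτpos.le, mul_le_of_le_one_left hτpos.le ht.2⟩
  have hsub : Icc 0 τ ⊆ Icc 0 τ₀ := Icc_subset_Icc_right (min_le_left _ _)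
  have hsub' : Icc 0 τ ⊆ Icc 0 τ' := Icc_subset_Icc_right (min_le_right _ _)
  have hdec' : ∀ s ∈ Icc 0 τ, ∀ x ∈ M, ff p (stp M P p s x) ≤ ff p x := by
    intro s hs x hx
    have h1 := hdec s (hsub hs) x hx
    have h2 : 0 ≤ s * ‖gr P p x‖ ^ 2 := mul_nonneg hs.1 (sq_nonneg _)
    linarith
  -- the set of points above level c
  have hSup : IsCompact (S ∩ {x | c ≤ ff p x}) :=
    hSc.inter_right (isClosed_le continuous_const (continuous_ff p))
  obtain ⟨m, hm0, hm⟩ : ∃ m : ℝ, 0 < m ∧ ∀ x ∈ S, c ≤ ff p x → m ≤ ‖gr P p x‖ ^ 2 := by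
    rcases (S ∩ {x | c ≤ ff p x}).eq_empty_or_nonempty with he | hne
    · refine ⟨1, one_pos, fun x hx hc => ?_⟩
      have : x ∈ S ∩ {x | c ≤ ff p x} := ⟨hx, hc⟩
      rw [he] at this
      exact this.elim
    · have hgc : ContinuousOn (fun x => ‖gr P p x‖ ^ 2) (S ∩ {x | c ≤ ff p x}) := by
        apply ContinuousOn.pow
        apply ContinuousOn.norm
        unfold gr
        exact h.continuousOn_P continuousOn_id (fun x hx => hSM hx.1) (by fun_prop)
      obtain ⟨x₀, hx₀, hmin⟩ := hSup.exists_isMinOn hne hgc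
      refine ⟨‖gr P p x₀‖ ^ 2, ?_, fun x hx hc => hmin ⟨hx, hc⟩⟩
      have := norm_pos_iff.2 (hcrit x₀ hx₀.1 hx₀.2)
      positivity
  obtain ⟨D, hD⟩ : ∃ D : ℝ, ∀ x ∈ S, ff p x ≤ D := by
    obtain ⟨D, hD⟩ := hSc.bddAbove_image (continuous_ff p).continuousOn
    exact ⟨D, fun x hx => hD ⟨x, hx, rfl⟩⟩
  obtain ⟨K, hK⟩ := exists_nat_gt ((D - c) / (τ * m))
  have hKm : D - c < K * (τ * m) := (div_lt_iff₀ (by positivity)).1 hK
  refine HZ_iterate inter_subset_left hSc (fun q => stp M P p (q.1 * τ) q.2) ?_ ?_ ?_ ?_ K ?_ n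
  · have h1 : ContinuousOn (fun q : ℝ × E => (q.1 * τ, q.2)) (Icc (0 : ℝ) 1 ×ˢ S) := by fun_prop
    exact hcont.comp h1 fun q hq => ⟨hsub (hmem _ hq.1), hSM hq.2⟩
  · intro x hx
    show stp M P p (0 * τ) x = x
    rw [zero_mul]
    exact h.stp_zero (hSM hx)
  · intro t ht x hx
    exact hpres _ (hsub' (hmem t ht)) x hx
  · intro t ht x hx
    exact ⟨hpres _ (hsub' (hmem t ht)) x hx.1, (hdec' _ (hmem t ht) x (hSM hx.1)).trans hx.2⟩
  · intro x hx
    set φ : E → E := fun x => stp M P p (1 * τ) x with hφ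
    have hφS : MapsTo φ S S := fun y hy => hpres _ (hsub' (hmem 1 (by simp))) y hy
    have key : ∀ k : ℕ, φ^[k] x ∈ S ∧ (ff p (φ^[k] x) ≤ c ∨ ff p (φ^[k] x) ≤ ff p x - k * (τ * m)) := by
      intro k
      induction k with
      | zero => exact ⟨hx, Or.inr (by simp)⟩
      | succ k ih =>
        rw [Function.iterate_succ_apply']
        refine ⟨hφS ih.1, ?_⟩
        have hle : ff p (φ (φ^[k] x)) ≤ ff p (φ^[k] x) := hdec' _ (hmem 1 (by simp)) _ (hSM ih.1)
        by_cases hc : ff p (φ^[k] x) ≤ c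
        · exact Or.inl (hle.trans hc)
        · right
          have h1 : ff p (φ (φ^[k] x)) ≤ ff p (φ^[k] x) - (1 * τ) * ‖gr P p (φ^[k] x)‖ ^ 2 :=
            hdec _ (hsub (hmem 1 (by simp))) _ (hSM ih.1)
          have h2 := hm _ ih.1 (not_le.1 hc).le
          rcases ih.2 with h3 | h3
          · exact absurd h3 hc
          · have h4 : τ * m ≤ (1 * τ) * ‖gr P p (φ^[k] x)‖ ^ 2 := by
              rw [one_mul]
              exact mul_le_mul_of_nonneg_left h2 hτpos.le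
            push_cast
            linarith
    obtain ⟨h1, h2⟩ := key K
    refine ⟨h1, ?_⟩
    rcases h2 with h2 | h2
    · exact h2
    · have := hD x hx
      show ff p (φ^[K] x) ≤ c
      linarith

/-- the sublevel set -/
def AA (M : Set E) (p : E) (c : ℝ) : Set E := M ∩ {x | ff p x ≤ c}

lemma AA_compact (h : GeomM M P) (p : E) (c : ℝ) : IsCompact (AA M p c) :=
  h.compact.inter_right (isClosed_le (continuous_ff p) continuous_const)

lemma AA_mono (M : Set E) (p : E) {c c' : ℝ} (hc : c ≤ c') : AA M p c ⊆ AA M p c' :=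
  fun _ hx => ⟨hx.1, hx.2.trans hc⟩

/-- (D1) no critical points in `{c₁ ≤ f ≤ c₂}`: the cohomology of `(A_{c₂}, A_{c₁})` vanishes. -/
theorem D1 (h : GeomM M P) (p : E) {c₁ c₂ : ℝ} (hc : c₁ ≤ c₂)
    (hcrit : ∀ x ∈ M, c₁ ≤ ff p x → ff p x ≤ c₂ → gr P p x ≠ 0) (n : ℕ) :
    HZ n (AA M p c₂) (AA M p c₁) := by
  obtain ⟨τ₀, C, hτ₀, hC, hcont, -, hdec⟩ := h.exists_stp p
  have h1 := HZ_stp h p (AA_compact h p c₂) inter_subset_left c₁ ⟨τ₀, hτ₀, ?_⟩ ?_ n
  · have h2 : AA M p c₂ ∩ {x | ff p x ≤ c₁} = AA M p c₁ := by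
      ext x
      constructor
      · rintro ⟨⟨hx, -⟩, hx'⟩
        exact ⟨hx, hx'⟩
      · rintro ⟨hx, hx'⟩
        exact ⟨⟨hx, le_trans hx' hc⟩, hx'⟩
    rwa [h2] at h1
  · intro s hs x hx
    refine ⟨h.stp_mem hx.1 s, ?_⟩
    have h2 := hdec s hs x hx.1
    have h3 : 0 ≤ s * ‖gr P p x‖ ^ 2 := mul_nonneg hs.1 (sq_nonneg _)
    have h4 : ff p x ≤ c₂ := hx.2
    show ff p (stp M P p s x) ≤ c₂
    linarith
  · intro x hx hx'
    exact hcrit x hx.1 hx' hx.2

end F7D
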