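import Mathlib
import Pool.Agent.Lib.MP_f7aa1b_gt.ASC.Glue

/-!
# MP_f7aa1b_gt, part D: the cohomology of the pair (ball, sphere)
-/

set_option autoImplicit false

open Set Filter Topology Metric

namespace F7D

open ASC

/-! ### transfer along a homotopy equivalence -/

section transfer

variable {X Y : Type*} [PseudoMetricSpace X] [PseudoMetricSpace Y] {S S' : Set X} {T T' : Set Y}

theorem HZ_transfer (hS : S' ⊆ S) (hT : T' ⊆ T) {a : X → Y} {σ : Y → X} (ha : UniformContinuousOn a S)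
    (hσ : UniformContinuousOn σ T) (haS : MapsTo a S T) (haS' : MapsTo a S' T') (hσT : MapsTo σ T S)
    (hσT' : MapsTo σ T' S') {n : ℕ} (hσa : ∀ F : Coch X n, Coc S S' F → Cob S S' (F + pb (fun x => σ (a x)) F))
    (h : HZ n T T') : HZ n S S' := by
  intro F hF
  have h1 : Cob T T' (pb σ F) := h _ (hF.pb hT hσ hσT hσT')
  have h2 : Cob S S' (pb a (pb σ F)) := h1.pb hS ha haS haS'
  exact (hσa F hF).congr' h2

theorem HG_transfer (hS : S' ⊆ S) (hT : T' ⊆ T) {a : X → Y} {σ : Y → X} (ha : UniformContinuousOn a S)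
    (hσ : UniformContinuousOn σ T) (haS : MapsTo a S T) (haS' : MapsTo a S' T') (hσT : MapsTo σ T S)
    (hσT' : MapsTo σ T' S') {n : ℕ} (hσa : ∀ F : Coch X n, Coc S S' F → Cob S S' (F + pb (fun x => σ (a x)) F))
    (haσ : ∀ w ∈ T, a (σ w) = w) {g : Coch Y n} (h : HG T T' g) : HG S S' (pb a g) := by
  refine ⟨h.coc.pb hS ha haS haS', fun hc => ?_, fun f hf => ?_⟩
  · have h1 : Cob T T' (pb σ (pb a g)) := hc.pb hT hσ hσT hσT'
    apply h.ne
    refine Cob.congr' (Cob.of_van ?_) h1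
    refine ⟨1, one_pos, fun x hx => ?_⟩
    have h2 : (fun i => a (σ (x i))) = x := by
      funext i
      exact haσ _ (hx.1 i)
    show g x + g (fun i => a (σ (x i))) = 0
    rw [h2, z2]
  · rcases h.gen _ (hf.pb hT hσ hσT hσT') with h1 | h1
    · left
      have h2 : Cob S S' (pb a (pb σ f)) := h1.pb hS ha haS haS'
      exact (hσa f hf).congr' h2
    · right
      have h2 : Cob S S' (pb a (pb σ f + g)) := h1.pb hS ha haS haS'
      exact (hσa f hf).trans h2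

/-- for maps which are inverse to each other -/
theorem cob_inv {a : X → Y} {σ : Y → X} (h : ∀ x ∈ S, σ (a x) = x) {n : ℕ} (F : Coch X n) :
    Cob S S' (F + pb (fun x => σ (a x)) F) := by
  apply Cob.of_van
  refine ⟨1, one_pos, fun x hx => ?_⟩
  have h2 : (fun i => σ (a (x i))) = x := by
    funext i
    exact h _ (hx.1 i)
  show F x + F (fun i => σ (a (x i))) = 0
  rw [h2, z2]

end transfer

/-- the ball (in coordinates) -/
def DD (m : ℕ) (ρ : ℝ) : Set (Fin m → ℝ) := {y | ∑ k, y k ^ 2 ≤ ρ ^ 2}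

/-- the sphere -/
def SS (m : ℕ) (ρ : ℝ) : Set (Fin m → ℝ) := {y | ∑ k, y k ^ 2 = ρ ^ 2}

/-- the lower half of the sphere -/
def SL (m : ℕ) (ρ : ℝ) : Set (Fin (m + 1) → ℝ) := {y | ∑ k, y k ^ 2 = ρ ^ 2 ∧ y 0 ≤ 0}

/-- the upper half of the sphere -/
def SU (m : ℕ) (ρ : ℝ) : Set (Fin (m + 1) → ℝ) := {y | ∑ k, y k ^ 2 = ρ ^ 2 ∧ 0 ≤ y 0}

lemma cont_sq (m : ℕ) : Continuous (fun y : Fin m → ℝ => ∑ k, y k ^ 2) := by fun_prop

lemma DD_compact (m : ℕ) {ρ : ℝ} (hρ : 0 < ρ) : IsCompact (DD m ρ) := by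
  refine Metric.isCompact_of_isClosed_isBounded (isClosed_le (cont_sq m) continuous_const) ?_
  refine (Metric.isBounded_closedBall (x := (0 : Fin m → ℝ)) (r := ρ)).subset fun y hy => ?_
  rw [mem_closedBall, dist_zero_right, pi_norm_le_iff_of_nonneg hρ.le]
  intro k
  rw [Real.norm_eq_abs]
  apply abs_le_of_sq_le_sq _ hρ.le
  have h1 : y k ^ 2 ≤ ∑ k, y k ^ 2 :=
    Finset.single_le_sum (f := fun k => y k ^ 2) (fun k _ => sq_nonneg _) (Finset.mem_univ k)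
  exact h1.trans hy

lemma SS_sub (m : ℕ) (ρ : ℝ) : SS m ρ ⊆ DD m ρ := fun _ hy => le_of_eq hy

lemma SS_compact (m : ℕ) {ρ : ℝ} (hρ : 0 < ρ) : IsCompact (SS m ρ) :=
  (DD_compact m hρ).of_isClosed_subset (isClosed_eq (cont_sq m) continuous_const) (SS_sub m ρ)

lemma SL_compact (m : ℕ) {ρ : ℝ} (hρ : 0 < ρ) : IsCompact (SL m ρ) :=
  (SS_compact (m + 1) hρ).inter_right (isClosed_le (continuous_apply 0) continuous_const)

lemma SU_compact (m : ℕ) {ρ : ℝ} (hρ : 0 < ρ) : IsCompact (SU m ρ) :=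
  (SS_compact (m + 1) hρ).inter_right (isClosed_le continuous_const (continuous_apply 0))

lemma SU_union_SL (m : ℕ) (ρ : ℝ) : SU m ρ ∪ SL m ρ = SS (m + 1) ρ := by
  ext y
  constructor
  · rintro (h | h)
    · exact h.1
    · exact h.1
  · intro h
    rcases le_total 0 (y 0) with h0 | h0
    · exact Or.inl ⟨h, h0⟩
    · exact Or.inr ⟨h, h0⟩

/-- the height of the sphere over `y` -/
noncomputable def hgt {m : ℕ} (ρ : ℝ) (y : Fin m → ℝ) : ℝ := Real.sqrt (ρ ^ 2 - ∑ k, y k ^ 2)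

lemma cont_hgt {m : ℕ} (ρ : ℝ) : Continuous (hgt ρ : (Fin m → ℝ) → ℝ) := by
  unfold hgt
  fun_prop

lemma sum_cons_sq {m : ℕ} (t : ℝ) (y : Fin m → ℝ) :
    ∑ k, (Fin.cons t y : Fin (m + 1) → ℝ) k ^ 2 = t ^ 2 + ∑ k, y k ^ 2 := by
  rw [Fin.sum_univ_succ]
  simp

lemma sum_tail_sq {m : ℕ} (y : Fin (m + 1) → ℝ) : ∑ k, y k ^ 2 = y 0 ^ 2 + ∑ k, Fin.tail y k ^ 2 := by
  rw [Fin.sum_univ_succ]
  rfl

lemma sq_hgt {m : ℕ} {ρ : ℝ} {y : Fin m → ℝ} (hy : y ∈ DD m ρ) : hgt ρ y ^ 2 = ρ ^ 2 - ∑ k, y k ^ 2 := by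
  unfold hgt
  exact Real.sq_sqrt (sub_nonneg.2 hy)

lemma tail_mem_DD {m : ℕ} {ρ : ℝ} {y : Fin (m + 1) → ℝ} (hy : y ∈ DD (m + 1) ρ) : Fin.tail y ∈ DD m ρ := by
  have h1 : ∑ k, y k ^ 2 ≤ ρ ^ 2 := hy
  rw [sum_tail_sq] at h1
  show ∑ k, Fin.tail y k ^ 2 ≤ ρ ^ 2
  have := sq_nonneg (y 0)
  linarith

lemma cont_cons {X : Type*} [TopologicalSpace X] {m : ℕ} {S : Set X} {f : X → ℝ} {g : X → Fin m → ℝ}
    (hf : ContinuousOn f S) (hg : ContinuousOn g S) :
    ContinuousOn (fun x => (Fin.cons (f x) (g x) : Fin (m + 1) → ℝ)) S := by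
  rw [continuousOn_pi]
  intro i
  refine Fin.cases ?_ (fun i => ?_) i
  · exact hf
  · exact (continuousOn_pi.1 hg) i

/-- the ball deforms to the lower half of the sphere -/
theorem HZ_low (m : ℕ) {ρ : ℝ} (hρ : 0 < ρ) (n : ℕ) : HZ n (DD (m + 1) ρ) (SL m ρ) := by
  have hsub : SL m ρ ⊆ DD (m + 1) ρ := fun y hy => SS_sub _ _ hy.1
  intro F hF
  -- the deformation
  have key : ∀ y ∈ DD (m + 1) ρ, |y 0| ≤ hgt ρ (Fin.tail y) := by
    intro y hy
    have h1 : ∑ k, y k ^ 2 ≤ ρ ^ 2 := hy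
    rw [sum_tail_sq] at h1
    apply abs_le_of_sq_le_sq
    · rw [sq_hgt (tail_mem_DD hy)]
      linarith
    · exact Real.sqrt_nonneg _
  have keyL : ∀ y ∈ SL m ρ, y 0 = -hgt ρ (Fin.tail y) := by
    intro y hy
    have h1 : ∑ k, y k ^ 2 = ρ ^ 2 := hy.1
    rw [sum_tail_sq] at h1
    have h2 : hgt ρ (Fin.tail y) ^ 2 = (y 0) ^ 2 := by
      rw [sq_hgt (tail_mem_DD (hsub hy))]
      linarith
    have h0 : 0 ≤ hgt ρ (Fin.tail y) := Real.sqrt_nonneg _
    have h3 := (sq_eq_sq_iff_abs_eq_abs _ _).1 h2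
    rw [abs_of_nonneg h0] at h3
    rw [h3, abs_of_nonpos hy.2, neg_neg]
  set Φ : ℝ × (Fin (m + 1) → ℝ) → (Fin (m + 1) → ℝ) := fun q =>
    Fin.cons ((1 - q.1) * q.2 0 - q.1 * hgt ρ (Fin.tail q.2)) (Fin.tail q.2) with hΦ
  have hcont : Continuous Φ := by
    rw [← continuousOn_univ]
    have ht : Continuous (fun q : ℝ × (Fin (m + 1) → ℝ) => Fin.tail q.2) := by
      unfold Fin.tail
      fun_prop
    have hh : Continuous (fun q : ℝ × (Fin (m + 1) → ℝ) => hgt ρ (Fin.tail q.2)) := (cont_hgt ρ).comp ht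
    apply cont_cons
    · rw [continuousOn_univ]
      fun_prop
    · exact ht.continuousOn
  have hmemD : ∀ t ∈ Icc (0 : ℝ) 1, ∀ y ∈ DD (m + 1) ρ, Φ (t, y) ∈ DD (m + 1) ρ := by
    intro t ht y hy
    show ∑ k, (Fin.cons ((1 - t) * y 0 - t * hgt ρ (Fin.tail y)) (Fin.tail y) : Fin (m + 1) → ℝ) k ^ 2 ≤ ρ ^ 2
    rw [sum_cons_sq]
    have h1 := sq_hgt (tail_mem_DD hy)
    have h2 := key y hy
    have h3 : |(1 - t) * y 0 - t * hgt ρ (Fin.tail y)| ≤ hgt ρ (Fin.tail y) := by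
      have h0 : 0 ≤ hgt ρ (Fin.tail y) := Real.sqrt_nonneg _
      rw [abs_le] at h2 ⊢
      constructor
      · nlinarith [ht.1, ht.2, h2.1]
      · nlinarith [ht.1, ht.2, h2.2]
    have h4 : ((1 - t) * y 0 - t * hgt ρ (Fin.tail y)) ^ 2 ≤ hgt ρ (Fin.tail y) ^ 2 :=
      sq_le_sq.2 (h3.trans (le_abs_self _))
    linarith
  have hmemL : ∀ t ∈ Icc (0 : ℝ) 1, ∀ y ∈ SL m ρ, Φ (t, y) ∈ SL m ρ := by
    intro t ht y hy
    have h1 : Φ (t, y) = y := by
      show (Fin.cons ((1 - t) * y 0 - t * hgt ρ (Fin.tail y)) (Fin.tail y) : Fin (m + 1) → ℝ) = y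
      have h2 : (1 - t) * y 0 - t * hgt ρ (Fin.tail y) = y 0 := by
        rw [keyL y hy]
        ring
      rw [h2, Fin.cons_self_tail]
    rw [h1]
    exact hy
  have h1 := homotopy hsub (DD_compact (m + 1) hρ) Φ hcont.continuousOn hmemD hmemL hF
  have h2 : Cob (DD (m + 1) ρ) (SL m ρ) (F + pb (fun y => Φ (0, y)) F) := by
    apply cob_inv (a := fun y => ((0 : ℝ), y)) (σ := Φ)
    intro y hy
    show (Fin.cons ((1 - 0) * y 0 - 0 * hgt ρ (Fin.tail y)) (Fin.tail y) : Fin (m + 1) → ℝ) = y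
    rw [sub_zero, one_mul, zero_mul, sub_zero, Fin.cons_self_tail]
  have h3 : Cob (DD (m + 1) ρ) (SL m ρ) (pb (fun y => Φ (1, y)) F) := by
    apply Cob.of_van
    refine hF.van.pb ?_ ?_
    · refine (DD_compact (m + 1) hρ).uniformContinuousOn_of_continuous ?_
      exact (hcont.comp (by fun_prop)).continuousOn
    · intro y hy
      have e : Φ (1, y) = Fin.cons (-hgt ρ (Fin.tail y)) (Fin.tail y) := by
        show (Fin.cons ((1 - 1) * y 0 - 1 * hgt ρ (Fin.tail y)) (Fin.tail y) : Fin (m + 1) → ℝ) = _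
        rw [sub_self, zero_mul, one_mul, zero_sub]
      show Φ (1, y) ∈ SL m ρ
      rw [e]
      refine ⟨?_, ?_⟩
      · rw [sum_cons_sq, neg_sq, sq_hgt (tail_mem_DD hy)]
        ring
      · rw [Fin.cons_zero]
        exact neg_nonpos.2 (Real.sqrt_nonneg _)
  exact (h2.trans h1).congr' h3

/-- the parametrization of the upper half sphere -/
noncomputable def up {m : ℕ} (ρ : ℝ) (y : Fin m → ℝ) : Fin (m + 1) → ℝ := Fin.cons (hgt ρ y) y

lemma cont_up {m : ℕ} (ρ : ℝ) : Continuous (up ρ : (Fin m → ℝ) → (Fin (m + 1) → ℝ)) := by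
  rw [← continuousOn_univ]
  exact cont_cons (cont_hgt ρ).continuousOn continuousOn_id

lemma cont_tail {m : ℕ} : Continuous (fun y : Fin (m + 1) → ℝ => (Fin.tail y : Fin m → ℝ)) := by
  unfold Fin.tail
  fun_prop

section

variable (m : ℕ) {ρ : ℝ} (hρ : 0 < ρ)

include hρ

lemma up_tail {y : Fin (m + 1) → ℝ} (hy : y ∈ SU m ρ) : up ρ (Fin.tail y) = y := by
  have h1 : ∑ k, y k ^ 2 = ρ ^ 2 := hy.1
  have h3 : hgt ρ (Fin.tail y) = y 0 := by
    unfold hgt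
    rw [sum_tail_sq] at h1
    rw [← h1, add_sub_cancel_right]
    exact Real.sqrt_sq hy.2
  unfold up
  rw [h3, Fin.cons_self_tail]

lemma up_mem {w : Fin m → ℝ} (hw : w ∈ DD m ρ) : up ρ w ∈ SU m ρ := by
  refine ⟨?_, ?_⟩
  · unfold up
    rw [sum_cons_sq, sq_hgt hw]
    ring
  · unfold up
    rw [Fin.cons_zero]
    exact Real.sqrt_nonneg _

lemma up_mem' {w : Fin m → ℝ} (hw : w ∈ SS m ρ) : up ρ w ∈ SU m ρ ∩ SL m ρ := by
  have h1 := up_mem m hρ (SS_sub _ _ hw)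
  refine ⟨h1, h1.1, ?_⟩
  unfold up
  rw [Fin.cons_zero]
  unfold hgt
  have h2 : ∑ k, w k ^ 2 = ρ ^ 2 := hw
  rw [h2, sub_self, Real.sqrt_zero]

lemma tail_mapsTo : MapsTo (fun y : Fin (m + 1) → ℝ => (Fin.tail y : Fin m → ℝ)) (SU m ρ) (DD m ρ) :=
  fun _ hy => tail_mem_DD (SS_sub _ _ hy.1)

lemma tail_mapsTo' :
    MapsTo (fun y : Fin (m + 1) → ℝ => (Fin.tail y : Fin m → ℝ)) (SU m ρ ∩ SL m ρ) (SS m ρ) := by
  intro y hy
  have h1 : ∑ k, y k ^ 2 = ρ ^ 2 := hy.1.1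
  have h2 : y 0 = 0 := le_antisymm hy.2.2 hy.1.2
  rw [sum_tail_sq, h2] at h1
  show ∑ k, Fin.tail y k ^ 2 = ρ ^ 2
  rw [← h1]
  ring

theorem HZ_up {n : ℕ} (h : HZ n (DD m ρ) (SS m ρ)) : HZ n (SU m ρ) (SU m ρ ∩ SL m ρ) :=
  HZ_transfer inter_subset_left (SS_sub m ρ)
    ((SU_compact m hρ).uniformContinuousOn_of_continuous cont_tail.continuousOn)
    ((DD_compact m hρ).uniformContinuousOn_of_continuous (cont_up ρ).continuousOn)
    (tail_mapsTo m hρ) (tail_mapsTo' m hρ) (fun _ hw => up_mem m hρ hw) (fun _ hw => up_mem' m hρ hw)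
    (fun F _ => cob_inv (fun _ hy => up_tail m hρ hy) F) h

theorem HG_up (h : HG (DD m ρ) (SS m ρ) (GG m id)) :
    HG (SU m ρ) (SU m ρ ∩ SL m ρ) (GG m fun y : Fin (m + 1) → ℝ => Fin.tail y) := by
  have h1 := HG_transfer inter_subset_left (SS_sub m ρ)
    ((SU_compact m hρ).uniformContinuousOn_of_continuous cont_tail.continuousOn)
    ((DD_compact m hρ).uniformContinuousOn_of_continuous (cont_up ρ).continuousOn)
    (tail_mapsTo m hρ) (tail_mapsTo' m hρ) (fun _ hw => up_mem m hρ hw) (fun _ hw => up_mem' m hρ hw)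
    (fun F _ => cob_inv (fun _ hy => up_tail m hρ hy) F) (fun w _ => by
      show Fin.tail (up ρ w) = w
      unfold up
      rw [Fin.tail_cons]) h
  rw [pb_GG] at h1
  exact h1

theorem HZ_sph {n : ℕ} (h : HZ n (DD m ρ) (SS m ρ)) : HZ n (SS (m + 1) ρ) (SL m ρ) := by
  rw [← SU_union_SL]
  exact HZ.exc (SU_compact m hρ) (SL_compact m hρ) (HZ_up m hρ h)

/-- the class on the sphere -/
noncomputable def sg (m : ℕ) : Coch (Fin (m + 1) → ℝ) (m + 1) :=
  chi (fun y => y 0) (GG m fun y : Fin (m + 1) → ℝ => Fin.tail y)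

omit hρ in
lemma dl_sg : dl (sg m) = GG (m + 1) id := by
  unfold sg
  rw [dl_chi, dl_GG, chi_zero, add_zero]
  rfl

lemma coc_sg : Coc (SS (m + 1) ρ) (SL m ρ) (sg m) := by
  constructor
  · -- van on the lower half
    have hK : IsCompact (SL m ρ ∩ {y : Fin (m + 1) → ℝ | -(ρ / 2) ≤ y 0}) :=
      (SL_compact m hρ).inter_right (isClosed_le continuous_const (continuous_apply 0))
    obtain ⟨ε, hε, hv⟩ := GG_van' hK (F := fun y : Fin (m + 1) → ℝ => (Fin.tail y : Fin m → ℝ))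
      cont_tail.continuousOn (by
      rintro y ⟨⟨h1, h2⟩, h3⟩ h0
      have h3' : -(ρ / 2) ≤ y 0 := h3
      rw [sum_tail_sq] at h1
      have h0' : Fin.tail y = 0 := h0
      rw [h0'] at h1
      simp only [Pi.zero_apply] at h1
      have h4 : (y 0) ^ 2 = ρ ^ 2 := by
        rw [← h1]
        simp
      nlinarith)
    refine ⟨min ε (ρ / 2), lt_min hε (half_pos hρ), fun x hx => ?_⟩
    show ind (0 ≤ x 0 0) * GG m _ x = 0
    by_cases h0 : 0 ≤ x 0 0
    · rw [hv x ⟨fun i => ⟨hx.1 i, ?_⟩, fun i j => (hx.2 i j).trans_le (min_le_left _ _)⟩, mul_zero]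
      have h1 : dist (x i 0) (x 0 0) ≤ dist (x i) (x 0) := dist_le_pi_dist (x i) (x 0) 0
      have h2 := (h1.trans_lt (hx.2 i 0)).trans_le (min_le_right _ _)
      rw [Real.dist_eq, abs_lt] at h2
      show -(ρ / 2) ≤ x i 0
      linarith [h2.1]
    · unfold ind
      rw [if_neg h0, zero_mul]
  · rw [dl_sg]
    apply GG_van' (SS_compact _ hρ) continuousOn_id
    intro y hy h0
    have h1 : ∑ k, y k ^ 2 = ρ ^ 2 := hy
    have h0' : y = 0 := h0
    rw [h0'] at h1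
    have h2 : (0 : ℝ) = ρ ^ 2 := by
      rw [← h1]
      simp
    have h3 : 0 < ρ ^ 2 := by positivity
    linarith

theorem HG_sph (h : HG (DD m ρ) (SS m ρ) (GG m id)) : HG (SS (m + 1) ρ) (SL m ρ) (sg m) := by
  rw [← SU_union_SL]
  have hc := coc_sg m hρ
  rw [← SU_union_SL] at hc
  refine HG.exc (SU_compact m hρ) (SL_compact m hρ) ?_ hc
  refine (HG_up m hρ h).congr (hc.mono subset_union_left inter_subset_right) ?_
  apply Cob.of_van
  refine ⟨1, one_pos, fun x hx => ?_⟩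
  show GG m _ x + ind (0 ≤ x 0 0) * GG m _ x = 0
  have h0 : 0 ≤ x 0 0 := (hx.1 0).2
  unfold ind
  rw [if_pos h0, one_mul, z2]

theorem ball_step_HZ {n : ℕ} (h : HZ n (DD m ρ) (SS m ρ)) : HZ (n + 1) (DD (m + 1) ρ) (SS (m + 1) ρ) := by
  intro F hF
  have hL : SL m ρ ⊆ SS (m + 1) ρ := fun y hy => hy.1
  have h1 : Cob (DD (m + 1) ρ) (SL m ρ) F := HZ_low m hρ (n + 1) F (hF.mono subset_rfl hL)
  obtain ⟨f, hf, hFf⟩ := les3 (SS_sub _ _) hF h1
  exact hFf.congr' ((HZ_sph m hρ h f hf).dl)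

theorem ball_step_HG (h : HG (DD m ρ) (SS m ρ) (GG m id)) :
    HG (DD (m + 1) ρ) (SS (m + 1) ρ) (GG (m + 1) id) := by
  have hL : SL m ρ ⊆ SS (m + 1) ρ := fun y hy => hy.1
  have hS := HG_sph m hρ h
  refine ⟨⟨?_, ?_⟩, fun hc => ?_, fun F hF => ?_⟩
  · rw [← dl_sg]
    exact (coc_sg m hρ).cl
  · rw [dl_GG]
    exact Van.zero _
  · rw [← dl_sg] at hc
    obtain ⟨F', hF', hc'⟩ := les2 hL (coc_sg m hρ) hc
    have h1 : Cob (DD (m + 1) ρ) (SL m ρ) F' := HZ_low m hρ (m + 1) F' hF'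
    exact hS.ne (hc'.congr (h1.mono (SS_sub _ _) subset_rfl))
  · have h1 : Cob (DD (m + 1) ρ) (SL m ρ) F := HZ_low m hρ (m + 2) F (hF.mono subset_rfl hL)
    obtain ⟨f, hf, hFf⟩ := les3 (SS_sub _ _) hF h1
    rcases hS.gen f hf with h2 | h2
    · left
      exact hFf.congr' h2.dl
    · right
      have h3 : Cob (DD (m + 1) ρ) (SS (m + 1) ρ) (dl (f + sg m)) := h2.dl
      rw [dl_add, dl_sg] at h3
      exact hFf.trans h3

end

lemma DD_zero {ρ : ℝ} (_ : 0 < ρ) : DD 0 ρ = univ := by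
  ext y
  simp only [DD, mem_univ, iff_true, mem_ofPred_eq]
  simp
  positivity

lemma SS_zero {ρ : ℝ} (hρ : 0 < ρ) : SS 0 ρ = ∅ := by
  ext y
  simp only [SS, mem_empty_iff_false, iff_false, mem_ofPred_eq]
  simp
  positivity

theorem HZ_DD : ∀ (m : ℕ) {ρ : ℝ} (_ : 0 < ρ) {n : ℕ} (_ : n ≠ m + 1), HZ n (DD m ρ) (SS m ρ) := by
  intro m
  induction m with
  | zero =>
    intro ρ hρ n hn
    rw [DD_zero hρ, SS_zero hρ]
    match n, hn with
    | 0, _ =>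
      intro F hF
      rw [hF.eq_zero]
      exact Cob.zero _ _
    | 1, hn => exact absurd rfl hn
    | n + 2, _ =>
      exact HZ_contractible isCompact_univ (fun q => q.2) continuousOn_snd (mem_univ 0)
        (fun _ _ _ _ => mem_univ _) (fun _ _ => rfl) (fun _ _ => Subsingleton.elim _ _) n
  | succ m ih =>
    intro ρ hρ n hn
    match n, hn with
    | 0, _ =>
      intro F hF
      rw [hF.eq_zero]
      exact Cob.zero _ _
    | n + 1, hn => exact ball_step_HZ m hρ (ih hρ (by omega))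

theorem HG_DD : ∀ (m : ℕ) {ρ : ℝ} (_ : 0 < ρ), HG (DD m ρ) (SS m ρ) (GG m id) := by
  intro m
  induction m with
  | zero =>
    intro ρ hρ
    rw [DD_zero hρ, SS_zero hρ]
    exact HG_contractible isCompact_univ (fun q => q.2) continuousOn_snd (mem_univ 0)
        (fun _ _ _ _ => mem_univ _) (fun _ _ => rfl) (fun _ _ => Subsingleton.elim _ _)
  | succ m ih =>
    intro ρ hρ
    exact ball_step_HG m hρ (ih hρ)

/-! ### Euclidean space -/

section

variable (i : ℕ)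

lemma cont_coord : Continuous (fun (w : EuclideanSpace ℝ (Fin i)) (k : Fin i) => w k) :=
  continuous_pi fun k => (EuclideanSpace.proj (𝕜 := ℝ) k).continuous

lemma cont_inv : Continuous (fun y : Fin i → ℝ => (WithLp.toLp 2 y : EuclideanSpace ℝ (Fin i))) :=
  PiLp.continuous_toLp 2 _

lemma sum_coord (w : EuclideanSpace ℝ (Fin i)) : ∑ k, w k ^ 2 = ‖w‖ ^ 2 := by
  rw [EuclideanSpace.norm_sq_eq]
  refine Finset.sum_congr rfl fun k _ => ?_
  rw [Real.norm_eq_abs, sq_abs]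

variable {ρ : ℝ} (hρ : 0 < ρ)

include hρ

lemma coord_mapsTo : MapsTo (fun (w : EuclideanSpace ℝ (Fin i)) (k : Fin i) => w k) (closedBall 0 ρ) (DD i ρ) := by
  intro w hw
  rw [mem_closedBall, dist_zero_right] at hw
  show ∑ k, w k ^ 2 ≤ ρ ^ 2
  rw [sum_coord]
  exact pow_le_pow_left₀ (norm_nonneg _) hw 2

lemma coord_mapsTo' : MapsTo (fun (w : EuclideanSpace ℝ (Fin i)) (k : Fin i) => w k) (sphere 0 ρ) (SS i ρ) := by
  intro w hw
  rw [mem_sphere, dist_zero_right] at hw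
  show ∑ k, w k ^ 2 = ρ ^ 2
  rw [sum_coord, hw]

lemma inv_mapsTo : MapsTo (fun y : Fin i → ℝ => (WithLp.toLp 2 y : EuclideanSpace ℝ (Fin i)))
    (DD i ρ) (closedBall 0 ρ) := by
  intro y hy
  rw [mem_closedBall, dist_zero_right]
  apply le_of_sq_le_sq _ hρ.le
  rw [← sum_coord]
  exact hy

lemma inv_mapsTo' : MapsTo (fun y : Fin i → ℝ => (WithLp.toLp 2 y : EuclideanSpace ℝ (Fin i)))
    (SS i ρ) (sphere 0 ρ) := by
  intro y hy
  rw [mem_sphere, dist_zero_right]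
  rw [← sq_eq_sq₀ (norm_nonneg _) hρ.le, ← sum_coord]
  exact hy

/-- the ball and the sphere in `ℝ^i` -/
theorem HG_ball : HG (closedBall (0 : EuclideanSpace ℝ (Fin i)) ρ) (sphere 0 ρ) (GG i fun w k => w k) := by
  have h1 := HG_transfer sphere_subset_closedBall (SS_sub i ρ)
    ((isCompact_closedBall (0 : EuclideanSpace ℝ (Fin i)) ρ).uniformContinuousOn_of_continuous
      (cont_coord i).continuousOn)
    ((DD_compact i hρ).uniformContinuousOn_of_continuous (cont_inv i).continuousOn)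
    (coord_mapsTo i hρ) (coord_mapsTo' i hρ) (inv_mapsTo i hρ) (inv_mapsTo' i hρ)
    (fun F _ => cob_inv (fun _ _ => rfl) F) (fun _ _ => rfl) (HG_DD i hρ)
  rw [pb_GG] at h1
  exact h1

theorem HZ_ball {n : ℕ} (hn : n ≠ i + 1) :
    HZ n (closedBall (0 : EuclideanSpace ℝ (Fin i)) ρ) (sphere 0 ρ) :=
  HZ_transfer sphere_subset_closedBall (SS_sub i ρ)
    ((isCompact_closedBall (0 : EuclideanSpace ℝ (Fin i)) ρ).uniformContinuousOn_of_continuous
      (cont_coord i).continuousOn)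
    ((DD_compact i hρ).uniformContinuousOn_of_continuous (cont_inv i).continuousOn)
    (coord_mapsTo i hρ) (coord_mapsTo' i hρ) (inv_mapsTo i hρ) (inv_mapsTo' i hρ)
    (fun F _ => cob_inv (fun _ _ => rfl) F) (HZ_DD i hρ hn)

end

end F7D
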