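import Mathlib
import Pool.Agent.Lib.MP_f7aa1b_gt.H.D1
import Pool.Agent.Lib.MP_f7aa1b_gt.H.DBall

/-!
# MP_f7aa1b_gt, part D2: sublevel sets at a critical level, local analysis
-/

set_option autoImplicit false

open Set Filter Topology Metric

open scoped RealInnerProductSpace

namespace F7D

open ASC

variable {E : Type*} [NormedAddCommGroup E] [InnerProductSpace ℝ E] {M : Set E} {P : E → E →L[ℝ] E}

open GeomM

/-- no critical points in `{c₁ < f ≤ c₂}` (`c₁` may be critical): the cohomology of `(A_{c₂}, A_{c₁})` vanishes. -/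
theorem D1' (h : GeomM M P) (p : E) {c₁ c₂ : ℝ} (hc : c₁ ≤ c₂)
    (hcrit : ∀ x ∈ M, c₁ < ff p x → ff p x ≤ c₂ → gr P p x ≠ 0) (n : ℕ) :
    HZ n (AA M p c₂) (AA M p c₁) := by
  rcases hc.eq_or_lt with rfl | hlt
  · intro F hF
    exact Cob.of_van hF.van
  intro F hF
  have hA1 := AA_compact h p c₁
  have hA2 := AA_compact h p c₂
  have hsub : AA M p c₁ ⊆ AA M p c₂ := AA_mono M p hc
  obtain ⟨η, hη, hcob⟩ := cob_thickening hA2 hA1 hA1.isClosed hsub hF (by
    rw [inter_self, inter_eq_right.2 hsub]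
    exact Cob.of_van hF.van)
  -- a level `c` with `A_c` inside the thickening
  obtain ⟨c, hc1, hc2, hc3⟩ : ∃ c : ℝ, c₁ < c ∧ c ≤ c₂ ∧ AA M p c ⊆ thickening η (AA M p c₁) := by
    have hcomp : IsCompact (AA M p c₂ \ thickening η (AA M p c₁)) := hA2.diff isOpen_thickening
    rcases (AA M p c₂ \ thickening η (AA M p c₁)).eq_empty_or_nonempty with he | hne
    · exact ⟨c₂, hlt, le_rfl, Set.sdiff_eq_empty.1 he⟩
    · obtain ⟨x₀, hx₀, hmin⟩ := hcomp.exists_isMinOn hne (continuous_ff p).continuousOn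
      have hx₀c : c₁ < ff p x₀ := by
        by_contra hle
        rw [not_lt] at hle
        exact hx₀.2 (self_subset_thickening hη _ ⟨hx₀.1.1, hle⟩)
      obtain ⟨c, hc1, hc2⟩ := exists_between hx₀c
      refine ⟨c, hc1, hc2.le.trans hx₀.1.2, fun x hx => ?_⟩
      by_contra hx'
      have h1 : ff p x₀ ≤ ff p x := hmin ⟨⟨hx.1, le_trans hx.2 (hc2.le.trans hx₀.1.2)⟩, hx'⟩
      have h2 : ff p x ≤ c := hx.2
      linarith
  have h1 : Cob (AA M p c) (AA M p c₁) F := hcob.mono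
    (fun x hx => ⟨AA_mono M p hc2 hx, hc3 hx⟩) (fun x hx => ⟨hx, self_subset_thickening hη _ hx⟩)
  obtain ⟨F', hF', hFF'⟩ := les1 hF h1
  have h2 : HZ n (AA M p c₂) (AA M p c) :=
    D1 h p hc2 (fun x hx hx1 hx2 => hcrit x hx (hc1.trans_le hx1) hx2) n
  have h3 : Cob (AA M p c₂) (AA M p c₁) F' := (h2 F' hF').mono subset_rfl (AA_mono M p hc1.le)
  exact hFF'.congr' h3

/-- A nondegenerate critical point `z` of index `i` of `|x - p|²` on `M`: `α` is the orthogonal projection onto the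
negative space of the second derivative, followed by an isometry with `ℝ^i`. -/
structure LocMorse (M : Set E) (P : E → E →L[ℝ] E) (p z : E) (i : ℕ)
    (α : E →L[ℝ] EuclideanSpace ℝ (Fin i)) : Prop where
  mem : z ∈ M
  crit : gr P p z = 0
  est : ∃ R C c : ℝ, 0 < R ∧ 0 < C ∧ 0 < c ∧ ∀ x ∈ M, ‖x - z‖ ≤ R → ff p x ≤ ff p z →
    ‖x - z‖ ≤ C * ‖α (x - z)‖ ∧ ⟪α (gr P p x), α (x - z)⟫ ≤ -(c * ‖α (x - z)‖ ^ 2)
  hom : ∃ (R K : ℝ) (Ψ : ℝ × E → E) (σ : EuclideanSpace ℝ (Fin i) → E), 0 < R ∧ 0 < K ∧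
    ContinuousOn Ψ (Icc 0 1 ×ˢ (AA M p (ff p z) ∩ closedBall z R)) ∧
    ContinuousOn σ (closedBall 0 R) ∧
    (∀ t ∈ Icc (0 : ℝ) 1, ∀ x ∈ AA M p (ff p z) ∩ closedBall z R, Ψ (t, x) ∈ AA M p (ff p z) ∧
      α (Ψ (t, x) - z) = α (x - z) ∧ ‖Ψ (t, x) - z‖ ≤ K * ‖x - z‖) ∧
    (∀ x ∈ AA M p (ff p z) ∩ closedBall z R, Ψ (0, x) = x ∧ Ψ (1, x) = σ (α (x - z))) ∧
    ∀ w ∈ closedBall (0 : EuclideanSpace ℝ (Fin i)) R, σ w ∈ AA M p (ff p z) ∧ α (σ w - z) = w ∧
      ‖σ w - z‖ ≤ K * ‖w‖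

/-- the open local piece (of the sublevel set) -/
def VV (M : Set E) (p z : E) {i : ℕ} (α : E →L[ℝ] EuclideanSpace ℝ (Fin i)) (R ρ : ℝ) : Set E :=
  {x | x ∈ AA M p (ff p z) ∧ ‖x - z‖ < R ∧ ‖α (x - z)‖ < ρ}

/-- the closed local piece -/
def VC (M : Set E) (p z : E) {i : ℕ} (α : E →L[ℝ] EuclideanSpace ℝ (Fin i)) (R ρ : ℝ) : Set E :=
  {x | x ∈ AA M p (ff p z) ∧ ‖x - z‖ ≤ R ∧ ‖α (x - z)‖ ≤ ρ}

/-- its boundary -/
def VB (M : Set E) (p z : E) {i : ℕ} (α : E →L[ℝ] EuclideanSpace ℝ (Fin i)) (R ρ : ℝ) : Set E :=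
  {x | x ∈ AA M p (ff p z) ∧ ‖x - z‖ ≤ R ∧ ‖α (x - z)‖ = ρ}

/-- coordinates as functions -/
def cf {i : ℕ} (α : E →L[ℝ] EuclideanSpace ℝ (Fin i)) (z : E) : E → Fin i → ℝ := fun y k => α (y - z) k

/-- the local class, cut off outside of the ball of radius `R` about `z` -/
noncomputable def loc {i : ℕ} (α : E →L[ℝ] EuclideanSpace ℝ (Fin i)) (z : E) (R : ℝ) : Coch E (i + 1) := by
  classical
  exact fun x => if ∀ j, ‖x j - z‖ ≤ R then GG i (cf α z) x else 0

lemma loc_of_mem {i : ℕ} {α : E →L[ℝ] EuclideanSpace ℝ (Fin i)} {z : E} {R : ℝ} {x : Fin (i + 1) → E}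
    (hx : ∀ j, ‖x j - z‖ ≤ R) : loc α z R x = GG i (cf α z) x := by
  unfold loc
  exact if_pos hx

lemma loc_of_not {i : ℕ} {α : E →L[ℝ] EuclideanSpace ℝ (Fin i)} {z : E} {R : ℝ} {x : Fin (i + 1) → E}
    (hx : ¬ ∀ j, ‖x j - z‖ ≤ R) : loc α z R x = 0 := by
  unfold loc
  exact if_neg hx

lemma continuous_cf {i : ℕ} (α : E →L[ℝ] EuclideanSpace ℝ (Fin i)) (z : E) : Continuous (cf α z) := by
  unfold cf
  have h1 : Continuous (fun y : E => α (y - z)) := α.continuous.comp (continuous_id.sub continuous_const)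
  exact continuous_pi fun k => (EuclideanSpace.proj (𝕜 := ℝ) k).continuous.comp h1

lemma cf_ne_zero {i : ℕ} {α : E →L[ℝ] EuclideanSpace ℝ (Fin i)} {z y : E} (hy : α (y - z) ≠ 0) :
    cf α z y ≠ 0 := by
  intro h0
  apply hy
  ext k
  exact congrFun h0 k

/-- everything we need about a nondegenerate critical point -/
theorem LocMorse.setup (h : GeomM M P) {p z : E} {i : ℕ} {α : E →L[ℝ] EuclideanSpace ℝ (Fin i)}
    (hz : LocMorse M P p z i α) {O : Set E} (hO : O ∈ 𝓝 z) : ∃ R ρ τ' : ℝ, 0 < R ∧ 0 < ρ ∧ 0 < τ' ∧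
      closedBall z R ⊆ O ∧
      (∀ x ∈ AA M p (ff p z), ‖x - z‖ ≤ R → x ≠ z → gr P p x ≠ 0) ∧
      (∀ x ∈ VC M p z α R ρ, ‖x - z‖ < R / 2) ∧
      (∀ s ∈ Icc 0 τ', ∀ x ∈ AA M p (ff p z), x ∉ VV M p z α R ρ → stp M P p s x ∉ VV M p z α R ρ) ∧
      HG (VC M p z α R ρ) (VB M p z α R ρ) (GG i (cf α z)) ∧
      (∀ n, n ≠ i + 1 → HZ n (VC M p z α R ρ) (VB M p z α R ρ)) ∧
      Coc (AA M p (ff p z)) (AA M p (ff p z) \ VV M p z α R ρ) (loc α z R) := by
  obtain ⟨R₁, C, c, hR₁, hC, hc, hest⟩ := hz.est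
  obtain ⟨R₂, K, Ψ, σ, hR₂, hK, hΨc, hσc, hΨ, hΨ01, hσ⟩ := hz.hom
  obtain ⟨R₃, hR₃, hR₃O⟩ := Metric.nhds_basis_closedBall.mem_iff.1 hO
  obtain ⟨τ₀, C', hτ₀, hC', -, herr, hdec⟩ := h.exists_stp p
  obtain ⟨KP, hKP, hlip⟩ := h.lip_P
  obtain ⟨D, hD0, hD⟩ : ∃ D : ℝ, 0 < D ∧ ∀ x ∈ M, ‖gr P p x‖ ≤ D := by
    obtain ⟨D, hD⟩ := h.compact.isBounded.exists_norm_le
    refine ⟨max D 0 + ‖p‖ + 1, by positivity, fun x hx => ?_⟩
    have := norm_sub_le x p
    have := hD x hx
    have := le_max_left D 0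
    have := h.norm_P_le hx (x - p)
    unfold gr
    linarith
  -- the radius R
  set R := min R₁ (min R₂ R₃) with hR
  have hR0 : 0 < R := lt_min hR₁ (lt_min hR₂ hR₃)
  have hRR₁ : R ≤ R₁ := min_le_left _ _
  have hRR₂ : R ≤ R₂ := (min_le_right _ _).trans (min_le_left _ _)
  have hRR₃ : R ≤ R₃ := (min_le_right _ _).trans (min_le_right _ _)
  have hestR : ∀ x ∈ AA M p (ff p z), ‖x - z‖ ≤ R → ‖x - z‖ ≤ C * ‖α (x - z)‖ ∧
      ⟪α (gr P p x), α (x - z)⟫ ≤ -(c * ‖α (x - z)‖ ^ 2) :=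
    fun x hx hxR => hest x hx.1 (hxR.trans hRR₁) hx.2
  have hα0 : ∀ x ∈ AA M p (ff p z), ‖x - z‖ ≤ R → α (x - z) = 0 → x = z := by
    intro x hx hxR h0
    have h1 := (hestR x hx hxR).1
    rw [h0, norm_zero, mul_zero] at h1
    exact sub_eq_zero.1 (norm_eq_zero.1 (le_antisymm h1 (norm_nonneg _)))
  -- ρ
  obtain ⟨ρ, hρ0, hρ⟩ : ∃ ρ : ℝ, 0 < ρ ∧ ρ < min (min (R / (2 * C)) (R / (K * C))) (min (R / K) R₂) :=
    exists_between (lt_min (lt_min (by positivity) (by positivity)) (lt_min (by positivity) hR₂))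
  have hρ1 : C * ρ < R / 2 := by
    have := hρ.trans_le ((min_le_left _ _).trans (min_le_left _ _))
    rw [lt_div_iff₀ (by positivity)] at this
    linarith
  have hρ2 : K * (C * ρ) ≤ R := by
    have := hρ.trans_le ((min_le_left _ _).trans (min_le_right _ _))
    rw [lt_div_iff₀ (by positivity)] at this
    linarith
  have hρ3 : K * ρ ≤ R := by
    have := hρ.trans_le ((min_le_right _ _).trans (min_le_left _ _))
    rw [lt_div_iff₀ (by positivity)] at this
    linarith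
  have hρ4 : ρ ≤ R₂ := (hρ.trans_le ((min_le_right _ _).trans (min_le_right _ _))).le
  have hVC : ∀ x ∈ VC M p z α R ρ, ‖x - z‖ ≤ C * ρ := by
    intro x hx
    exact (hestR x hx.1 hx.2.1).1.trans (mul_le_mul_of_nonneg_left hx.2.2 hC.le)
  -- the constants for the descent
  set K₂ : ℝ := 1 + KP * ‖z - p‖ with hK₂
  have hK₂0 : 0 < K₂ := by positivity
  have hgrz : ∀ x ∈ M, ‖gr P p x‖ ≤ K₂ * ‖x - z‖ := by
    intro x hx
    have e : gr P p x = P x (x - z) + (P x (z - p) - P z (z - p)) := by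
      have h1 : P z (z - p) = 0 := hz.crit
      rw [h1, sub_zero, ← map_add]
      unfold gr
      congr 1
      abel
    rw [e]
    refine (norm_add_le _ _).trans ?_
    have h1 := h.norm_P_le hx (x - z)
    have h2 := hlip x hx z hz.mem (z - p)
    rw [hK₂]
    have h3 : (1 + KP * ‖z - p‖) * ‖x - z‖ = ‖x - z‖ + KP * ‖x - z‖ * ‖z - p‖ := by ring
    rw [h3]
    exact add_le_add h1 h2
  set B : ℝ := ‖α‖ * (C' * (K₂ * C) ^ 2) * (‖α‖ * R) with hB
  have hB0 : 0 ≤ B := by positivity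
  obtain ⟨τ', hτ'0, hτ'⟩ : ∃ τ' : ℝ, 0 < τ' ∧ τ' < min (min τ₀ 1) (min (R / (2 * (D * (1 + C' * D)))) (c / (B + 1))) :=
    exists_between (lt_min (lt_min hτ₀ one_pos) (lt_min (by positivity) (by positivity)))
  have hτ1 : τ' ≤ τ₀ := (hτ'.trans_le ((min_le_left _ _).trans (min_le_left _ _))).le
  have hτ2 : τ' ≤ 1 := (hτ'.trans_le ((min_le_left _ _).trans (min_le_right _ _))).le
  have hτ3 : τ' * (D * (1 + C' * D)) ≤ R / 2 := by
    have := (hτ'.trans_le ((min_le_right _ _).trans (min_le_left _ _))).le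
    rw [le_div_iff₀ (by positivity)] at this
    linarith
  have hτ4 : τ' * B ≤ c := by
    have := (hτ'.trans_le ((min_le_right _ _).trans (min_le_right _ _))).le
    rw [le_div_iff₀ (by positivity)] at this
    have h1 : τ' * B ≤ τ' * (B + 1) := mul_le_mul_of_nonneg_left (by linarith) hτ'0.le
    linarith
  -- compactness
  have hAA := AA_compact h p (ff p z)
  have hcα : Continuous (fun x : E => ‖α (x - z)‖) := by fun_prop
  have hcn : Continuous (fun x : E => ‖x - z‖) := by fun_prop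
  have hVCc : IsCompact (VC M p z α R ρ) := by
    have : VC M p z α R ρ = AA M p (ff p z) ∩ ({x | ‖x - z‖ ≤ R} ∩ {x | ‖α (x - z)‖ ≤ ρ}) := rfl
    rw [this]
    exact hAA.inter_right ((isClosed_le hcn continuous_const).inter (isClosed_le hcα continuous_const))
  have hsub : VB M p z α R ρ ⊆ VC M p z α R ρ := fun x hx => ⟨hx.1, hx.2.1, hx.2.2.le⟩
  have hVC2 : VC M p z α R ρ ⊆ AA M p (ff p z) ∩ closedBall z R₂ := by
    intro x hx
    refine ⟨hx.1, ?_⟩
    rw [mem_closedBall, dist_eq_norm]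
    exact hx.2.1.trans hRR₂
  have hΨVC : ∀ t ∈ Icc (0 : ℝ) 1, ∀ x ∈ VC M p z α R ρ, ‖Ψ (t, x) - z‖ ≤ R := by
    intro t ht x hx
    refine ((hΨ t ht x (hVC2 hx)).2.2).trans ?_
    exact (mul_le_mul_of_nonneg_left (hVC x hx) hK.le).trans hρ2
  have hball : closedBall (0 : EuclideanSpace ℝ (Fin i)) ρ ⊆ closedBall 0 R₂ := closedBall_subset_closedBall hρ4
  have hσVC : ∀ w ∈ closedBall (0 : EuclideanSpace ℝ (Fin i)) ρ, ‖σ w - z‖ ≤ R := by
    intro w hw
    refine ((hσ w (hball hw)).2.2).trans ?_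
    rw [mem_closedBall, dist_zero_right] at hw
    exact (mul_le_mul_of_nonneg_left hw hK.le).trans hρ3
  -- transfer data
  have ha : UniformContinuousOn (fun x : E => α (x - z)) (VC M p z α R ρ) := by
    apply hVCc.uniformContinuousOn_of_continuous
    fun_prop
  have hσu : UniformContinuousOn σ (closedBall 0 ρ) :=
    (isCompact_closedBall _ _).uniformContinuousOn_of_continuous (hσc.mono hball)
  have haS : MapsTo (fun x : E => α (x - z)) (VC M p z α R ρ) (closedBall 0 ρ) := by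
    intro x hx
    show α (x - z) ∈ closedBall 0 ρ
    rw [mem_closedBall, dist_zero_right]
    exact hx.2.2
  have haS' : MapsTo (fun x : E => α (x - z)) (VB M p z α R ρ) (sphere 0 ρ) := by
    intro x hx
    show α (x - z) ∈ sphere 0 ρ
    rw [mem_sphere, dist_zero_right]
    exact hx.2.2
  have hσT : MapsTo σ (closedBall 0 ρ) (VC M p z α R ρ) := by
    intro w hw
    refine ⟨(hσ w (hball hw)).1, hσVC w hw, ?_⟩
    rw [(hσ w (hball hw)).2.1]
    rwa [mem_closedBall, dist_zero_right] at hw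
  have hσT' : MapsTo σ (sphere 0 ρ) (VB M p z α R ρ) := by
    intro w hw
    have hw' := sphere_subset_closedBall hw
    refine ⟨(hσ w (hball hw')).1, hσVC w hw', ?_⟩
    rw [(hσ w (hball hw')).2.1]
    rwa [mem_sphere, dist_zero_right] at hw
  have hσa : ∀ {n : ℕ} (F : Coch E n), Coc (VC M p z α R ρ) (VB M p z α R ρ) F →
      Cob (VC M p z α R ρ) (VB M p z α R ρ) (F + pb (fun x => σ (α (x - z))) F) := by
    intro n F hF
    have h1 := homotopy (R := VC M p z α R ρ) (R' := VB M p z α R ρ) hsub hVCc Ψ (hΨc.mono (prod_mono subset_rfl hVC2))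
      (fun t ht x hx => ⟨(hΨ t ht x (hVC2 hx)).1, hΨVC t ht x hx, by
        rw [(hΨ t ht x (hVC2 hx)).2.1]
        exact hx.2.2⟩)
      (fun t ht x hx => ⟨(hΨ t ht x (hVC2 (hsub hx))).1, hΨVC t ht x (hsub hx), by
        rw [(hΨ t ht x (hVC2 (hsub hx))).2.1]
        exact hx.2.2⟩) hF
    refine Cob.congr' (g := pb (fun x => Ψ (0, x)) F + pb (fun x => Ψ (1, x)) F) ?_ h1
    apply Cob.of_van
    refine ⟨1, one_pos, fun x hx => ?_⟩
    have e0 : (fun k => Ψ (0, x k)) = x := by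
      funext k
      exact (hΨ01 _ (hVC2 (hx.1 k))).1
    have e1 : (fun k => Ψ (1, x k)) = fun k => σ (α (x k - z)) := by
      funext k
      exact (hΨ01 _ (hVC2 (hx.1 k))).2
    show F x + F (fun k => σ (α (x k - z))) + (F (fun k => Ψ (0, x k)) + F (fun k => Ψ (1, x k))) = 0
    rw [e0, e1]
    exact z2 _
  refine ⟨R, ρ, τ', hR0, hρ0, hτ'0, (closedBall_subset_closedBall hRR₃).trans hR₃O, ?_, ?_, ?_, ?_, ?_, ?_⟩
  · -- (a)
    intro x hx hxR hne h0
    have h1 := (hestR x hx hxR).2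
    rw [h0, map_zero, inner_zero_left] at h1
    apply hne
    apply hα0 x hx hxR
    rw [← norm_eq_zero]
    by_contra hne'
    have h2 : 0 < ‖α (x - z)‖ := lt_of_le_of_ne (norm_nonneg _) (Ne.symm hne')
    have h3 : 0 < c * ‖α (x - z)‖ ^ 2 := by positivity
    linarith
  · -- (b)
    intro x hx
    exact (hVC x hx).trans_lt hρ1
  · -- (c)
    intro s hs x hx hxV hyV
    have hs0 : 0 ≤ s := hs.1
    have hsτ₀ : s ∈ Icc 0 τ₀ := ⟨hs.1, hs.2.trans hτ1⟩
    set y := stp M P p s x with hy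
    have hyn : ‖y - z‖ < R / 2 := (hVC y ⟨hyV.1, hyV.2.1.le, hyV.2.2.le⟩).trans_lt hρ1
    have he := herr s hsτ₀ x hx.1
    set e := y - (x - s • gr P p x) with hedef
    have hgD := hD x hx.1
    have hyx : ‖x - y‖ ≤ R / 2 := by
      have e1 : x - y = s • gr P p x - e := by
        rw [hedef]
        abel
      rw [e1]
      refine (norm_sub_le _ _).trans ?_
      rw [norm_smul, Real.norm_of_nonneg hs0]
      have h1 : s * ‖gr P p x‖ ≤ s * D := mul_le_mul_of_nonneg_left hgD hs0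
      have h2 : ‖e‖ ≤ s * (C' * D ^ 2) := by
        refine he.trans ?_
        have h3 : C' * s ^ 2 * ‖gr P p x‖ ^ 2 ≤ C' * s ^ 2 * D ^ 2 :=
          mul_le_mul_of_nonneg_left (pow_le_pow_left₀ (norm_nonneg _) hgD 2) (by positivity)
        have h4 : C' * s ^ 2 * D ^ 2 = s * (s * (C' * D ^ 2)) := by ring
        have h5 : s * (s * (C' * D ^ 2)) ≤ s * (1 * (C' * D ^ 2)) := by
          apply mul_le_mul_of_nonneg_left _ hs0
          exact mul_le_mul_of_nonneg_right (hs.2.trans hτ2) (by positivity)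
        rw [one_mul] at h5
        linarith
      have h6 : s * (D * (1 + C' * D)) ≤ τ' * (D * (1 + C' * D)) :=
        mul_le_mul_of_nonneg_right hs.2 (by positivity)
      have h7 : s * (D * (1 + C' * D)) = s * D + s * (C' * D ^ 2) := by ring
      linarith
    have hxR : ‖x - z‖ < R := by
      have : x - z = (x - y) + (y - z) := by abel
      rw [this]
      exact (norm_add_le _ _).trans_lt (by linarith)
    have hρx : ρ ≤ ‖α (x - z)‖ := by
      by_contra hlt
      exact hxV ⟨hx, hxR, not_le.1 hlt⟩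
    obtain ⟨k1, k2⟩ := hestR x hx hxR.le
    set A := ‖α (x - z)‖ with hA
    have hA0 : 0 ≤ A := norm_nonneg _
    have hAR : A ≤ ‖α‖ * R := (α.le_opNorm _).trans (mul_le_mul_of_nonneg_left hxR.le (norm_nonneg _))
    have hgA : ‖gr P p x‖ ≤ K₂ * C * A := by
      refine (hgrz x hx.1).trans ?_
      rw [mul_assoc]
      exact mul_le_mul_of_nonneg_left k1 hK₂0.le
    have heA : ‖α e‖ ≤ ‖α‖ * (C' * s ^ 2 * (K₂ * C * A) ^ 2) := by
      refine (α.le_opNorm _).trans (mul_le_mul_of_nonneg_left (he.trans ?_) (norm_nonneg _))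
      exact mul_le_mul_of_nonneg_left (pow_le_pow_left₀ (norm_nonneg _) hgA 2) (by positivity)
    have e2 : α (y - z) = α (x - z) + (α e - s • α (gr P p x)) := by
      have : y - z = (x - z) + (e - s • gr P p x) := by
        rw [hedef]
        abel
      rw [this, map_add α (x - z), map_sub α e, map_smul]
    have h8 : A ^ 2 ≤ ‖α (y - z)‖ ^ 2 := by
      rw [e2, norm_add_sq_real, inner_sub_right, inner_smul_right, real_inner_comm (α (gr P p x))]
      have h9 : -(A * ‖α e‖) ≤ ⟪α (x - z), α e⟫ := (abs_le.1 (abs_real_inner_le_norm _ _)).1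
      have h10 : A * ‖α e‖ ≤ s * (s * B) * A ^ 2 := by
        calc A * ‖α e‖ ≤ A * (‖α‖ * (C' * s ^ 2 * (K₂ * C * A) ^ 2)) := mul_le_mul_of_nonneg_left heA hA0
          _ = s ^ 2 * (‖α‖ * (C' * (K₂ * C) ^ 2) * A) * A ^ 2 := by ring
          _ ≤ s ^ 2 * (‖α‖ * (C' * (K₂ * C) ^ 2) * (‖α‖ * R)) * A ^ 2 := by
              apply mul_le_mul_of_nonneg_right _ (sq_nonneg _)
              apply mul_le_mul_of_nonneg_left _ (sq_nonneg _)
              exact mul_le_mul_of_nonneg_left hAR (by positivity)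
          _ = s * (s * B) * A ^ 2 := by
              rw [hB]
              ring
      have h11 : s * (s * B) * A ^ 2 ≤ s * c * A ^ 2 := by
        apply mul_le_mul_of_nonneg_right _ (sq_nonneg _)
        apply mul_le_mul_of_nonneg_left _ hs0
        exact (mul_le_mul_of_nonneg_right hs.2 hB0).trans hτ4
      have h12 : s * ⟪α (gr P p x), α (x - z)⟫ ≤ s * -(c * A ^ 2) := mul_le_mul_of_nonneg_left k2 hs0
      have h13 := sq_nonneg ‖α e - s • α (gr P p x)‖
      nlinarith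
    have h14 : A ≤ ‖α (y - z)‖ := (sq_le_sq₀ hA0 (norm_nonneg _)).1 h8
    exact absurd hyV.2.2 (not_lt.2 (hρx.trans h14))
  · -- (d) generator
    have h1 := HG_transfer hsub sphere_subset_closedBall ha hσu haS haS' hσT hσT' (fun F hF => hσa F hF)
      (fun w hw => (hσ w (hball hw)).2.1) (HG_ball i hρ0)
    rw [pb_GG] at h1
    exact h1
  · intro n hn
    exact HZ_transfer hsub sphere_subset_closedBall ha hσu haS haS' hσT hσT' (fun F hF => hσa F hF)
      (HZ_ball i hρ0 hn)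
  · -- (e)
    constructor
    · set S₀ : Set E := AA M p (ff p z) ∩ ({x | ‖x - z‖ ≤ R} ∩ {x | R ≤ ‖x - z‖ ∨ ρ ≤ ‖α (x - z)‖}) with hS₀
      have hS₀c : IsCompact S₀ :=
        hAA.inter_right ((isClosed_le hcn continuous_const).inter
          ((isClosed_le continuous_const hcn).union (isClosed_le continuous_const hcα)))
      obtain ⟨ε, hε, hv⟩ := GG_van' hS₀c (continuous_cf α z).continuousOn (by
        rintro x ⟨hx, hxR, hx'⟩
        apply cf_ne_zero
        intro h0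
        have hxz := hα0 x hx hxR h0
        rcases hx' with h1 | h1
        · rw [hxz, sub_self, norm_zero] at h1
          linarith
        · rw [h0, norm_zero] at h1
          linarith)
      refine ⟨ε, hε, fun x hx => ?_⟩
      by_cases hall : ∀ j, ‖x j - z‖ ≤ R
      · rw [loc_of_mem hall]
        apply hv
        refine ⟨fun j => ⟨(hx.1 j).1, hall j, ?_⟩, hx.2⟩
        by_contra hcon
        have hcon' : ¬ (R ≤ ‖x j - z‖ ∨ ρ ≤ ‖α (x j - z)‖) := hcon
        push Not at hcon'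
        exact (hx.1 j).2 ⟨(hx.1 j).1, hcon'.1, hcon'.2⟩
      · exact loc_of_not hall
    · set S₁ : Set E := AA M p (ff p z) ∩ ({x | ‖x - z‖ ≤ R} ∩ {x | R / 2 ≤ ‖x - z‖}) with hS₁
      have hS₁c : IsCompact S₁ :=
        hAA.inter_right ((isClosed_le hcn continuous_const).inter (isClosed_le continuous_const hcn))
      obtain ⟨ε, hε, hv⟩ := GG_van' hS₁c (continuous_cf α z).continuousOn (by
        rintro x ⟨hx, hxR, hx'⟩
        apply cf_ne_zero
        intro h0
        have hxz := hα0 x hx hxR h0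
        have h1 : R / 2 ≤ ‖x - z‖ := hx'
        rw [hxz, sub_self, norm_zero] at h1
        linarith)
      refine ⟨min ε (R / 2), lt_min hε (by positivity), fun x hx => ?_⟩
      by_cases hall : ∀ j, ‖x j - z‖ ≤ R
      · have h1 : dl (loc α z R) x = dl (GG i (cf α z)) x := by
          apply dl_congr
          intro w hw
          apply loc_of_mem
          intro j
          obtain ⟨k, hk⟩ := hw j
          rw [hk]
          exact hall k
        rw [h1, dl_GG]
        rfl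
      · apply dl_eq_zero
        intro w hw
        by_cases hall' : ∀ j, ‖w j - z‖ ≤ R
        · rw [loc_of_mem hall']
          apply hv
          refine ⟨fun j => ?_, fun j k => ?_⟩
          · obtain ⟨k, hk⟩ := hw j
            refine ⟨by rw [hk]; exact hx.1 k, hall' j, ?_⟩
            push Not at hall
            obtain ⟨l, hl⟩ := hall
            have h2 : dist (x l) (x k) < R / 2 := (hx.2 l k).trans_le (min_le_right _ _)
            have h3 : ‖x l - z‖ ≤ dist (x l) (x k) + ‖x k - z‖ := by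
              rw [dist_eq_norm]
              have : x l - z = (x l - x k) + (x k - z) := by abel
              rw [this]
              exact norm_add_le _ _
            show R / 2 ≤ ‖w j - z‖
            rw [hk]
            linarith
          · obtain ⟨j', hj'⟩ := hw j
            obtain ⟨k', hk'⟩ := hw k
            rw [hj', hk']
            exact (hx.2 _ _).trans_le (min_le_left _ _)
        · exact loc_of_not hall'

end F7D
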