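import Mathlib
import Pool.Agent.Lib.MP_f7aa1b_gt.H.D2
import Pool.Agent.Lib.MP_f7aa1b_gt.ASC.Equiv

/-!
# MP_f7aa1b_gt, part D2: passing a critical level
-/

set_option autoImplicit false

open Set Filter Topology Metric

open scoped RealInnerProductSpace

namespace F7D

open ASC

lemma coc_sum {X ι : Type*} [PseudoMetricSpace X] {S S' : Set X} {n : ℕ} (s : Finset ι) (F : ι → Coch X n)
    (h : ∀ z ∈ s, Coc S S' (F z)) : Coc S S' (∑ z ∈ s, F z) :=
  Finset.sum_induction F (Coc S S') (fun _ _ ha hb => ha.add hb) (Coc.zero _ _) h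

/-- a class on a finite disjoint union -/
theorem cob_biUnion {X : Type*} [MetricSpace X] {B : Set X} (hB : IsCompact B) {VC : X → Set X} {n : ℕ}
    {F : Coch X n} (Z : Finset X) (hVC : ∀ z ∈ Z, IsCompact (VC z))
    (hd : ∀ z ∈ Z, ∀ z' ∈ Z, z ≠ z' → Disjoint (VC z) (VC z'))
    (hF : Coc (⋃ z ∈ Z, VC z) ((⋃ z ∈ Z, VC z) ∩ B) F) (h : ∀ z ∈ Z, Cob (VC z) (VC z ∩ B) F) :
    Cob (⋃ z ∈ Z, VC z) ((⋃ z ∈ Z, VC z) ∩ B) F := by
  classical
  induction Z using Finset.induction_on with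
  | empty =>
    have e : (⋃ z ∈ (∅ : Finset X), VC z) = ∅ := by simp
    rw [e] at hF ⊢
    exact HZ.empty _ _ _ hF
  | insert a Z ha ih =>
    rw [Finset.set_biUnion_insert] at hF ⊢
    have hcZ : IsCompact (⋃ z ∈ Z, VC z) :=
      Z.isCompact_biUnion fun z hz => hVC z (Finset.mem_insert_of_mem hz)
    have hca : IsCompact (VC a) := hVC a (Finset.mem_insert_self _ _)
    refine cob_disjoint hca hcZ ((hca.union hcZ).inter hB) inter_subset_left ?_ hF ?_ ?_
    · rw [Set.disjoint_iUnion₂_right]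
      intro z hz
      refine hd a (Finset.mem_insert_self _ _) z (Finset.mem_insert_of_mem hz) ?_
      rintro rfl
      exact ha hz
    · rw [← inter_assoc, inter_eq_left.2 subset_union_left]
      exact h a (Finset.mem_insert_self _ _)
    · rw [← inter_assoc, inter_eq_left.2 subset_union_right]
      refine ih (fun z hz => hVC z (Finset.mem_insert_of_mem hz))
        (fun z hz z' hz' hne => hd z (Finset.mem_insert_of_mem hz) z' (Finset.mem_insert_of_mem hz') hne)
        (hF.mono subset_union_right ?_) (fun z hz => h z (Finset.mem_insert_of_mem hz))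
      exact inter_subset_inter_left _ subset_union_right

variable {E : Type*} [NormedAddCommGroup E] [InnerProductSpace ℝ E] {M : Set E} {P : E → E →L[ℝ] E}

open GeomM

/-- the local piece at a nondegenerate critical point -/
theorem LocMorse.piece (h : GeomM M P) {p z : E} {i : ℕ} {α : E →L[ℝ] EuclideanSpace ℝ (Fin i)}
    (hz : LocMorse M P p z i α) {O : Set E} (hO : O ∈ 𝓝 z) : ∃ (V VC : Set E) (R τ : ℝ), 0 < R ∧ 0 < τ ∧
      closedBall z R ⊆ O ∧ IsCompact VC ∧ IsCompact (AA M p (ff p z) \ V) ∧ V ⊆ VC ∧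
      VC ⊆ AA M p (ff p z) ∧ VC ⊆ closedBall z R ∧ z ∈ V ∧
      (∀ s ∈ Icc 0 τ, ∀ x ∈ AA M p (ff p z), x ∉ V → stp M P p s x ∉ V) ∧
      HG VC (VC \ V) (loc α z R) ∧ (∀ n, n ≠ i + 1 → HZ n VC (VC \ V)) ∧
      Coc (AA M p (ff p z)) (AA M p (ff p z) \ V) (loc α z R) := by
  obtain ⟨R, ρ, τ, hR, hρ, hτ, hRO, -, hVC, hpres, hHG, hHZ, hcoc⟩ := hz.setup h hO
  have hAA := AA_compact h p (ff p z)
  have hcα : Continuous (fun x : E => ‖α (x - z)‖) := by fun_prop
  have hcn : Continuous (fun x : E => ‖x - z‖) := by fun_prop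
  have hVCc : IsCompact (VC M p z α R ρ) :=
    hAA.inter_right ((isClosed_le hcn continuous_const).inter (isClosed_le hcα continuous_const))
  have hball : VC M p z α R ρ ⊆ closedBall z R := by
    intro x hx
    rw [mem_closedBall, dist_eq_norm]
    exact hx.2.1
  have hVB : VC M p z α R ρ \ VV M p z α R ρ = VB M p z α R ρ := by
    ext x
    constructor
    · rintro ⟨hx, hx'⟩
      refine ⟨hx.1, hx.2.1, le_antisymm hx.2.2 ?_⟩
      by_contra hlt
      exact hx' ⟨hx.1, (hVC x hx).trans (half_lt_self hR), not_le.1 hlt⟩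
    · rintro ⟨h1, h2, h3⟩
      exact ⟨⟨h1, h2, h3.le⟩, fun hx => absurd hx.2.2 (by rw [h3]; exact lt_irrefl _)⟩
  have hdiff : IsCompact (AA M p (ff p z) \ VV M p z α R ρ) := by
    have e : AA M p (ff p z) \ VV M p z α R ρ =
        AA M p (ff p z) ∩ ({x | R ≤ ‖x - z‖} ∪ {x | ρ ≤ ‖α (x - z)‖}) := by
      ext x
      constructor
      · rintro ⟨hx, hx'⟩
        refine ⟨hx, ?_⟩
        by_contra hcon
        rw [mem_union, not_or] at hcon
        exact hx' ⟨hx, not_le.1 hcon.1, not_le.1 hcon.2⟩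
      · rintro ⟨hx, hx'⟩
        refine ⟨hx, fun hV => ?_⟩
        rcases hx' with h1 | h1
        · exact absurd hV.2.1 (not_lt.2 h1)
        · exact absurd hV.2.2 (not_lt.2 h1)
    rw [e]
    exact hAA.inter_right ((isClosed_le continuous_const hcn).union (isClosed_le continuous_const hcα))
  refine ⟨VV M p z α R ρ, VC M p z α R ρ, R, τ, hR, hτ, hRO, hVCc, hdiff,
    fun x hx => ⟨hx.1, hx.2.1.le, hx.2.2.le⟩, fun x hx => hx.1, hball, ?_, hpres, ?_, ?_, hcoc⟩
  · refine ⟨⟨hz.mem, le_refl (ff p z)⟩, ?_, ?_⟩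
    · rw [sub_self, norm_zero]
      exact hR
    · rw [sub_self, map_zero, norm_zero]
      exact hρ
  · rw [hVB]
    refine hHG.congr (hcoc.mono (fun x hx => hx.1) ?_) ?_
    · intro x hx
      exact ⟨hx.1, fun hV => absurd hV.2.2 (by rw [hx.2.2]; exact lt_irrefl _)⟩
    · apply Cob.of_van
      refine ⟨1, one_pos, fun x hx => ?_⟩
      show GG i (cf α z) x + loc α z R x = 0
      rw [loc_of_mem (fun j => (hx.1 j).2.1), z2]
  · intro n hn
    rw [hVB]
    exact hHZ n hn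

/-- **Passing a critical level.** `c' < c`, the critical points `x` of `|x - p|²` on `M` with `c' < |x - p|² ≤ c` are
nondegenerate and of level `c`; those of index `m` form `Zm`. The local classes at the points of `Zm` form a basis of
the cohomology of `(A_c, A_{c'})` in degree `m` (cochains on `m + 1` points). -/
theorem D2 (h : GeomM M P) (p : E) {c c' : ℝ} (hc : c' < c) (m : ℕ) (Zm Zo : Finset E)
    (β : E → E →L[ℝ] EuclideanSpace ℝ (Fin m))
    (hZm : ∀ z ∈ Zm, ff p z = c ∧ LocMorse M P p z m (β z))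
    (hZo : ∀ z ∈ Zo, ff p z = c ∧ ∃ i, i ≠ m ∧ ∃ α : E →L[ℝ] EuclideanSpace ℝ (Fin i), LocMorse M P p z i α)
    (hall : ∀ x ∈ M, c' < ff p x → ff p x ≤ c → gr P p x = 0 → x ∈ Zm ∨ x ∈ Zo)
    (O : E → Set E) (hO : ∀ z ∈ Zm, O z ∈ 𝓝 z) :
    ∃ R : E → ℝ, (∀ z ∈ Zm, 0 < R z ∧ closedBall z (R z) ⊆ O z) ∧
      (∀ z ∈ Zm, Coc (AA M p c) (AA M p c') (loc (β z) z (R z))) ∧
      (∀ f : Coch E (m + 1), Coc (AA M p c) (AA M p c') f →
        ∃ s ⊆ Zm, Cob (AA M p c) (AA M p c') (f + ∑ z ∈ s, loc (β z) z (R z))) ∧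
      (∀ s ⊆ Zm, Cob (AA M p c) (AA M p c') (∑ z ∈ s, loc (β z) z (R z)) → s = ∅) := by
  classical
  set Z := Zm ∪ Zo with hZ
  obtain ⟨c'', hc1, hc2⟩ := exists_between hc
  obtain ⟨U, hU, hUd⟩ := Set.Finite.t2_separation Z.finite_toSet
  have hZc : ∀ z ∈ Z, ff p z = c := by
    intro z hz
    rcases Finset.mem_union.1 hz with h1 | h1
    · exact (hZm z h1).1
    · exact (hZo z h1).1
  -- the pieces
  have hpiece : ∀ z ∈ Z, ∃ (V VC : Set E) (R τ : ℝ), 0 < R ∧ 0 < τ ∧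
      closedBall z R ⊆ U z ∩ {x | c'' < ff p x} ∧ IsCompact VC ∧ IsCompact (AA M p c \ V) ∧ V ⊆ VC ∧
      VC ⊆ AA M p c ∧ VC ⊆ closedBall z R ∧ z ∈ V ∧
      (∀ s ∈ Icc 0 τ, ∀ x ∈ AA M p c, x ∉ V → stp M P p s x ∉ V) ∧
      (z ∈ Zm → HG VC (VC \ V) (loc (β z) z R) ∧ Coc (AA M p c) (AA M p c \ V) (loc (β z) z R) ∧
        closedBall z R ⊆ O z) ∧ (z ∉ Zm → HZ (m + 1) VC (VC \ V)) := by
    intro z hz
    have hzc := hZc z hz
    have hU' : U z ∩ {x | c'' < ff p x} ∈ 𝓝 z := by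
      apply inter_mem ((hU z).2.mem_nhds (hU z).1)
      apply (isOpen_lt continuous_const (continuous_ff p)).mem_nhds
      show c'' < ff p z
      rw [hzc]
      exact hc2
    by_cases hzm : z ∈ Zm
    · obtain ⟨V, VC, R, τ, h1, h2, h3, h4, h5, h6, h7, h8, h9, h10, h11, h12, h13⟩ :=
        (hZm z hzm).2.piece h (inter_mem hU' (hO z hzm))
      rw [hzc] at h5 h7 h10 h13
      exact ⟨V, VC, R, τ, h1, h2, h3.trans inter_subset_left, h4, h5, h6, h7, h8, h9, h10,
        fun _ => ⟨h11, h13, h3.trans inter_subset_right⟩, fun h0 => absurd hzm h0⟩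
    · obtain ⟨i, him, α, hα⟩ := (hZo z ((Finset.mem_union.1 hz).resolve_left hzm)).2
      obtain ⟨V, VC, R, τ, h1, h2, h3, h4, h5, h6, h7, h8, h9, h10, h11, h12, h13⟩ := hα.piece h hU'
      rw [hzc] at h5 h7 h10 h13
      exact ⟨V, VC, R, τ, h1, h2, h3, h4, h5, h6, h7, h8, h9, h10, fun h0 => absurd h0 hzm,
        fun _ => h12 _ (by omega)⟩
  choose! V VC R τ hR hτ hRU hVCc hVc hVVC hVCA hVCR hzV hpres hgen hvan using hpiece
  have hmZ : ∀ z ∈ Zm, z ∈ Z := fun z hz => Finset.mem_union_left _ hz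
  have hAA := AA_compact h p c
  -- disjointness
  have hdisj : ∀ z ∈ Z, ∀ z' ∈ Z, z ≠ z' → Disjoint (closedBall z (R z)) (closedBall z' (R z')) := by
    intro z hz z' hz' hne
    exact (hUd (Finset.mem_coe.2 hz) (Finset.mem_coe.2 hz') hne).mono
      ((hRU z hz).trans inter_subset_left) ((hRU z' hz').trans inter_subset_left)
  have hVCd : ∀ z ∈ Z, ∀ z' ∈ Z, z ≠ z' → Disjoint (VC z) (VC z') := fun z hz z' hz' hne =>
    (hdisj z hz z' hz' hne).mono (hVCR z hz) (hVCR z' hz')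
  -- the set `B`
  set B : Set E := AA M p c ∩ ⋂ z ∈ Z, AA M p c \ V z with hB
  have hBc : IsCompact B := hAA.inter_right (isClosed_biInter fun z hz => (hVc z hz).isClosed)
  have hBA : B ⊆ AA M p c := inter_subset_left
  have hBmem : ∀ x, x ∈ B ↔ x ∈ AA M p c ∧ ∀ z ∈ Z, x ∉ V z := by
    intro x
    constructor
    · rintro ⟨h1, h2⟩
      rw [mem_iInter₂] at h2
      exact ⟨h1, fun z hz => (h2 z hz).2⟩
    · rintro ⟨h1, h2⟩
      refine ⟨h1, ?_⟩
      rw [mem_iInter₂]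
      exact fun z hz => ⟨h1, h2 z hz⟩
  have hBV : ∀ z ∈ Z, B ⊆ AA M p c \ V z := fun z hz x hx =>
    ⟨hBA hx, ((hBmem x).1 hx).2 z hz⟩
  have hVff : ∀ z ∈ Z, ∀ x ∈ V z, c'' < ff p x := fun z hz x hx =>
    (hRU z hz (hVCR z hz (hVVC z hz hx))).2
  have hA''B : AA M p c'' ⊆ B := by
    intro x hx
    rw [hBmem]
    refine ⟨AA_mono M p hc2.le hx, fun z hz hxV => ?_⟩
    exact absurd (hVff z hz x hxV) (not_lt.2 hx.2)
  have hA'B : AA M p c' ⊆ B := (AA_mono M p hc1.le).trans hA''B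
  -- the common time
  obtain ⟨τ₁, hτ₁, hτ₁'⟩ : ∃ τ₁ : ℝ, 0 < τ₁ ∧ ∀ z ∈ Z, τ₁ ≤ τ z := by
    rcases Z.eq_empty_or_nonempty with h0 | h0
    · refine ⟨1, one_pos, fun z hz => ?_⟩
      rw [h0] at hz
      exact absurd hz (Finset.notMem_empty z)
    · obtain ⟨z₀, hz₀, hmin⟩ := Z.exists_min_image τ h0
      exact ⟨τ z₀, hτ z₀ hz₀, hmin⟩
  obtain ⟨τ₀, C, hτ₀, hC, hcont, -, hdec⟩ := h.exists_stp p
  have hHZB : ∀ n, HZ n B (AA M p c') := by
    intro n
    have h1 : HZ n B (B ∩ {x | ff p x ≤ c''}) := by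
      refine HZ_stp h p hBc (fun x hx => hx.1.1) c'' ⟨min τ₀ τ₁, lt_min hτ₀ hτ₁, ?_⟩ ?_ n
      · intro s hs x hx
        have hxA := hBA hx
        rw [hBmem]
        have hs0 : s ∈ Icc 0 τ₀ := ⟨hs.1, hs.2.trans (min_le_left _ _)⟩
        refine ⟨⟨h.stp_mem hxA.1 s, ?_⟩, fun z hz => ?_⟩
        · have h2 := hdec s hs0 x hxA.1
          have h3 : 0 ≤ s * ‖gr P p x‖ ^ 2 := mul_nonneg hs.1 (sq_nonneg _)
          have h4 : ff p x ≤ c := hxA.2
          show ff p (stp M P p s x) ≤ c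
          linarith
        · exact hpres z hz s ⟨hs.1, hs.2.trans ((min_le_right _ _).trans (hτ₁' z hz))⟩ x hxA
            (((hBmem x).1 hx).2 z hz)
      · intro x hx hx' h0
        have hxA := hBA hx
        have h2 := hall x hxA.1 (hc1.trans_le hx') hxA.2 h0
        have h3 : x ∈ Z := Finset.mem_union.2 h2
        exact ((hBmem x).1 hx).2 x h3 (hzV x h3)
    have h2 : B ∩ {x | ff p x ≤ c''} = AA M p c'' := by
      ext x
      constructor
      · rintro ⟨hx, hx'⟩
        exact ⟨(hBA hx).1, hx'⟩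
      · intro hx
        exact ⟨hA''B hx, hx.2⟩
    rw [h2] at h1
    have h3 : HZ n (AA M p c'') (AA M p c') := by
      refine D1' h p hc1.le (fun x hx hx1 hx2 h0 => ?_) n
      have h4 := hall x hx hx1 (hx2.trans hc2.le) h0
      have h5 := hZc x (Finset.mem_union.2 h4)
      linarith
    exact HZ.trans (AA_mono M p hc1.le) h1 h3 hA''B
  -- the set `A`
  set A : Set E := ⋃ z ∈ Z, VC z with hA
  have hAc : IsCompact A := Z.isCompact_biUnion hVCc
  have hAB : A ∪ B = AA M p c := by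
    ext x
    constructor
    · rintro (hx | hx)
      · rw [hA, mem_iUnion₂] at hx
        obtain ⟨z, hz, hx⟩ := hx
        exact hVCA z hz hx
      · exact hBA hx
    · intro hx
      by_cases hxB : x ∈ B
      · exact Or.inr hxB
      · left
        rw [hBmem] at hxB
        push Not at hxB
        obtain ⟨z, hz, hxz⟩ := hxB hx
        rw [hA, mem_iUnion₂]
        exact ⟨z, hz, hVVC z hz hxz⟩
  have hVCB : ∀ z ∈ Z, VC z ∩ B = VC z \ V z := by
    intro z hz
    ext x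
    constructor
    · rintro ⟨h1, h2⟩
      exact ⟨h1, ((hBmem x).1 h2).2 z hz⟩
    · rintro ⟨h1, h2⟩
      refine ⟨h1, (hBmem x).2 ⟨hVCA z hz h1, fun z' hz' hx' => ?_⟩⟩
      by_cases hzz : z = z'
      · rw [hzz] at h2
        exact h2 hx'
      · exact Set.disjoint_left.1 (hVCd z hz z' hz' hzz) h1 (hVVC z' hz' hx')
  -- the local classes
  have hlocB : ∀ s ⊆ Zm, Coc (AA M p c) B (∑ z ∈ s, loc (β z) z (R z)) := by
    intro s hs
    apply coc_sum
    intro z hz
    exact ((hgen z (hmZ z (hs hz)) (hs hz)).2.1).mono subset_rfl (hBV z (hmZ z (hs hz)))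
  have hsum : ∀ s ⊆ Zm, ∀ w ∈ Z, ∀ x : Fin (m + 1) → E, (∀ j, x j ∈ VC w) →
      (∑ z ∈ s, loc (β z) z (R z)) x = if w ∈ s then loc (β w) w (R w) x else 0 := by
    intro s hs w hw x hx
    rw [Finset.sum_apply]
    have h0 : ∀ z ∈ s, z ≠ w → loc (β z) z (R z) x = 0 := by
      intro z hz hne
      apply loc_of_not
      intro hcon
      have h1 : x 0 ∈ closedBall z (R z) := by
        rw [mem_closedBall, dist_eq_norm]
        exact hcon 0
      exact Set.disjoint_left.1 (hdisj z (hmZ z (hs hz)) w hw hne) h1 (hVCR w hw (hx 0))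
    split_ifs with hws
    · exact Finset.sum_eq_single_of_mem w hws h0
    · apply Finset.sum_eq_zero
      intro z hz
      apply h0 z hz
      rintro rfl
      exact hws hz
  refine ⟨R, fun z hz => ⟨hR z (hmZ z hz), (hgen z (hmZ z hz) hz).2.2⟩, fun z hz => ?_, fun f hf => ?_,
    fun s hs hcob => ?_⟩
  · exact ((hgen z (hmZ z hz) hz).2.1).mono subset_rfl (hA'B.trans (hBV z (hmZ z hz)))
  · -- existence
    obtain ⟨F', hF', hfF'⟩ := les1 hf (hHZB (m + 1) f (hf.mono hBA subset_rfl))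
    set s := Zm.filter (fun z => ¬ Cob (VC z) (VC z \ V z) F') with hs
    have hsm : s ⊆ Zm := Finset.filter_subset _ _
    refine ⟨s, hsm, ?_⟩
    have hG : Coc (AA M p c) B (F' + ∑ z ∈ s, loc (β z) z (R z)) := hF'.add (hlocB s hsm)
    have hloc : ∀ w ∈ Z, Cob (VC w) (VC w ∩ B) (F' + ∑ z ∈ s, loc (β z) z (R z)) := by
      intro w hw
      rw [hVCB w hw]
      have hFw : Coc (VC w) (VC w \ V w) F' := by
        refine hF'.mono (hVCA w hw) ?_
        rw [← hVCB w hw]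
        exact inter_subset_right
      by_cases hws : w ∈ s
      · have hwm := hsm hws
        have h1 := (hgen w hw hwm).1.gen F' hFw
        have h2 : Cob (VC w) (VC w \ V w) (F' + loc (β w) w (R w)) :=
          h1.resolve_left (Finset.mem_filter.1 hws).2
        refine h2.trans (Cob.of_van ⟨1, one_pos, fun x hx => ?_⟩)
        show loc (β w) w (R w) x + (∑ z ∈ s, loc (β z) z (R z)) x = 0
        rw [hsum s hsm w hw x hx.1, if_pos hws, z2]
      · have h2 : Cob (VC w) (VC w \ V w) F' := by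
          by_cases hwm : w ∈ Zm
          · by_contra h0
            exact hws (Finset.mem_filter.2 ⟨hwm, h0⟩)
          · exact hvan w hw hwm F' hFw
        refine h2.add (Cob.of_van ⟨1, one_pos, fun x hx => ?_⟩)
        rw [hsum s hsm w hw x hx.1, if_neg hws]
    have h1 : Cob A (A ∩ B) (F' + ∑ z ∈ s, loc (β z) z (R z)) := by
      refine cob_biUnion hBc Z hVCc hVCd ?_ hloc
      refine hG.mono ?_ inter_subset_right
      rw [← hAB]
      exact subset_union_left
    have h2 : Cob (A ∪ B) B (F' + ∑ z ∈ s, loc (β z) z (R z)) := by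
      refine excision_inj hAc hBc hAc.isClosed hBc.isClosed ?_ h1
      rw [hAB]
      exact hG
    rw [hAB] at h2
    exact hfF'.trans (h2.mono subset_rfl hA'B)
  · -- independence
    obtain ⟨f, hf, hfc⟩ := les3 hBA (hlocB s hs) hcob
    have h1 : Cob (AA M p c) B (dl f) := (hHZB m f hf).dl
    have h2 : Cob (AA M p c) B (∑ z ∈ s, loc (β z) z (R z)) := hfc.congr' h1
    by_contra hne
    obtain ⟨w, hw⟩ := Finset.nonempty_iff_ne_empty.2 hne
    have hwZ := hmZ w (hs hw)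
    have h3 : Cob (VC w) (VC w \ V w) (∑ z ∈ s, loc (β z) z (R z)) := by
      refine h2.mono (hVCA w hwZ) ?_
      rw [← hVCB w hwZ]
      exact inter_subset_right
    apply (hgen w hwZ (hs hw)).1.ne
    refine Cob.congr' (Cob.of_van ⟨1, one_pos, fun x hx => ?_⟩) h3
    show loc (β w) w (R w) x + (∑ z ∈ s, loc (β z) z (R z)) x = 0
    rw [hsum s hs w hwZ x hx.1, if_pos hw, z2]

end F7D
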