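import Pool.Agent.Lib.MP_f7aa1b_gt.H.D34
import Pool.Agent.Lib.MP_f7aa1b_gt.H.D2b
import Pool.Agent.Lib.MP_f7aa1b_gt.H.CritPack

/-!
# MP_f7aa1b_gt: independence of the local classes, and the final form of the counting theorem
-/

set_option autoImplicit false

open Set Filter Topology Metric

open scoped RealInnerProductSpace

namespace F7D

open ASC

open GeomM

variable {E : Type} [NormedAddCommGroup E] [InnerProductSpace ℝ E] {M : Set E} {P : E → E →L[ℝ] E}

/-- the local classes, for all degrees `m` (they are used for `m = ind z`) -/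
noncomputable def uu (ind : E → ℕ) (α : ∀ z : E, E →L[ℝ] EuclideanSpace ℝ (Fin (ind z))) (r : ℝ) (m : ℕ) (z : E) :
    Coch E (m + 1) :=
  ASC.loc (closedBall z r) (GG m (fun y (k : Fin m) => if hk : (k : ℕ) < ind z then α z (y - z) ⟨k, hk⟩ else 0))

lemma uu_self (ind : E → ℕ) (α : ∀ z : E, E →L[ℝ] EuclideanSpace ℝ (Fin (ind z))) (r : ℝ) (z : E) :
    uu ind α r (ind z) z = ASC.loc (closedBall z r) (GG (ind z) (cf (α z) z)) := by
  unfold uu
  congr 2
  funext y k
  exact dif_pos k.2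

/-- on the level `c`, if no other point of the level is in the small ball -/
lemma van_other {X : Type*} [PseudoMetricSpace X] {K : Set X} {ev : X → E} (hK : IsCompact K) (hev : Continuous ev)
    {p : E} {c : ℝ} (hKM : ∀ g ∈ K, ev g ∈ M ∧ ff p (ev g) ≤ c) (hfin : {z | z ∈ M ∧ gr P p z = 0}.Finite) {m : ℕ}
    {z' : E} {r : ℝ} {G : Coch E (m + 1)}
    (hlt : ∀ g ∈ K, ev g ∈ closedBall z' r → ff p (ev g) < c)
    (hv : ∀ c' < c, (∀ x ∈ M, c' ≤ ff p x → ff p x < c → gr P p x ≠ 0) → Van (AA M p c') (ASC.loc (closedBall z' r) G)) :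
    Van K (pb ev (ASC.loc (closedBall z' r) G)) := by
  have hK' : IsCompact (K ∩ ev ⁻¹' (closedBall z' r)) := hK.inter_right (isClosed_closedBall.preimage hev)
  obtain ⟨c1, hc1, h1⟩ : ∃ c1 < c, ∀ g ∈ K ∩ ev ⁻¹' (closedBall z' r), ff p (ev g) ≤ c1 := by
    rcases (K ∩ ev ⁻¹' (closedBall z' r)).eq_empty_or_nonempty with he | hne
    · exact ⟨c - 1, by linarith, fun g hg => by rw [he] at hg; exact hg.elim⟩
    · obtain ⟨g0, hg0, hmax⟩ := hK'.exists_isMaxOn hne ((continuous_ff p).comp hev).continuousOn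
      exact ⟨ff p (ev g0), hlt g0 hg0.1 hg0.2, fun g hg => hmax hg⟩
  -- no critical values in [c2, c)
  obtain ⟨c2, hc2, h2⟩ : ∃ c2 < c, ∀ x ∈ M, gr P p x = 0 → ff p x < c → ff p x < c2 := by
    have hfin' : ({z | z ∈ M ∧ gr P p z = 0} ∩ {z | ff p z < c}).Finite := hfin.inter_of_left _
    rcases ({z | z ∈ M ∧ gr P p z = 0} ∩ {z | ff p z < c}).eq_empty_or_nonempty with he | hne
    · refine ⟨c - 1, by linarith, fun x hx h0 hxc => ?_⟩
      have : x ∈ ({z | z ∈ M ∧ gr P p z = 0} ∩ {z | ff p z < c}) := ⟨⟨hx, h0⟩, hxc⟩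
      rw [he] at this
      exact this.elim
    · obtain ⟨x0, hx0, hmax⟩ := Set.exists_max_image _ (ff p) hfin' hne
      obtain ⟨c2, h3, h4⟩ := exists_between (show ff p x0 < c from hx0.2)
      exact ⟨c2, h4, fun x hx h0 hxc => (hmax x ⟨⟨hx, h0⟩, hxc⟩).trans_lt h3⟩
  have h3 : Van (AA M p (max c1 c2)) (ASC.loc (closedBall z' r) G) :=
    hv _ (max_lt hc1 hc2) fun x hx h4 h5 h0 => absurd (h2 x hx h0 h5) (not_lt.2 ((le_max_right _ _).trans h4))
  have h4 : Van (K ∩ ev ⁻¹' (closedBall z' r)) (pb ev (ASC.loc (closedBall z' r) G)) :=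
    h3.pb (hK'.uniformContinuousOn_of_continuous hev.continuousOn)
      (fun g hg => (show ev g ∈ AA M p (max c1 c2) from ⟨(hKM g hg.1).1, (h1 g hg).trans (le_max_left _ _)⟩))
  obtain ⟨ε, hε, h5⟩ := h4
  refine ⟨ε, hε, fun x hx => ?_⟩
  by_cases hin : ∀ i, ev (x i) ∈ closedBall z' r
  · exact h5 x ⟨fun i => ⟨hx.1 i, hin i⟩, hx.2⟩
  · exact if_neg hin

/-- independence of the local classes on one level, from detection -/
theorem indep (ind : E → ℕ) (α : ∀ z : E, E →L[ℝ] EuclideanSpace ℝ (Fin (ind z))) {p : E}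
    (hfin : (Crit M P p).Finite) (hD : ∀ z ∈ Crit M P p, Detect M p z (α z)) :
    ∃ r0 > 0, ∀ r, 0 < r → r < r0 →
      (∀ c c' : ℝ, c' < c → (∀ x ∈ M, c' ≤ ff p x → ff p x < c → gr P p x ≠ 0) → ∀ z ∈ Crit M P p,
        ff p z = c → Coc (AA M p c) (AA M p c') (uu ind α r (ind z) z)) →
      ∀ (c : ℝ) (m : ℕ) (s : Finset E), (∀ z ∈ s, z ∈ Crit M P p ∧ ff p z = c ∧ ind z = m) → s.Nonempty →
        ¬ Cob (AA M p c) ∅ (∑ z ∈ s, uu ind α r m z) := by
  classical
  -- the radii of the detecting spaces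
  have hρ : ∃ r1 > 0, ∀ z ∈ Crit M P p, ∃ (X : Type) (_ : PseudoMetricSpace X) (K : Set X) (ev : X → E), IsCompact K ∧
      Continuous ev ∧ (∀ g ∈ K, ev g ∈ M ∧ ‖ev g - p‖ ≤ ‖z - p‖ ∧ (‖ev g - p‖ = ‖z - p‖ → ev g = z)) ∧
      ∀ ρ, 0 < ρ → ρ < r1 → ¬ Cob K ∅ (pb ev (ASC.loc (closedBall z ρ) (GG (ind z) (cf (α z) z)))) := by
    have key : ∀ s : Finset E, (∀ z ∈ s, z ∈ Crit M P p) → ∃ r1 > 0, ∀ z ∈ s, ∃ (X : Type) (_ : PseudoMetricSpace X)
        (K : Set X) (ev : X → E), IsCompact K ∧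
        Continuous ev ∧ (∀ g ∈ K, ev g ∈ M ∧ ‖ev g - p‖ ≤ ‖z - p‖ ∧ (‖ev g - p‖ = ‖z - p‖ → ev g = z)) ∧
        ∀ ρ, 0 < ρ → ρ < r1 → ¬ Cob K ∅ (pb ev (ASC.loc (closedBall z ρ) (GG (ind z) (cf (α z) z)))) := by
      intro s
      induction s using Finset.induction_on with
      | empty => exact fun _ => ⟨1, one_pos, fun z hz => by simp at hz⟩
      | insert a s ha ih =>
        intro hs
        obtain ⟨r1, hr1, h1⟩ := ih fun z hz => hs z (Finset.mem_insert_of_mem hz)
        obtain ⟨X, iX, K, ev, hK, hev, h2, r2, hr2, h3⟩ := hD a (hs a (Finset.mem_insert_self _ _))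
        refine ⟨min r1 r2, lt_min hr1 hr2, fun z hz => ?_⟩
        rcases Finset.mem_insert.1 hz with rfl | hz
        · exact ⟨X, iX, K, ev, hK, hev, h2, fun ρ h4 h5 => h3 ρ h4 (h5.trans_le (min_le_right _ _))⟩
        · obtain ⟨X, iX, K, ev, hK, hev, h2, h3⟩ := h1 z hz
          exact ⟨X, iX, K, ev, hK, hev, h2, fun ρ h4 h5 => h3 ρ h4 (h5.trans_le (min_le_left _ _))⟩
    obtain ⟨r1, hr1, h1⟩ := key hfin.toFinset (fun z hz => (hfin.mem_toFinset).1 hz)
    exact ⟨r1, hr1, fun z hz => h1 z ((hfin.mem_toFinset).2 hz)⟩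
  obtain ⟨r1, hr1, hρ⟩ := hρ
  -- the distances of the critical points
  obtain ⟨r2, hr2, h2⟩ : ∃ r2 > 0, ∀ z ∈ Crit M P p, ∀ z' ∈ Crit M P p, z ≠ z' → r2 ≤ dist z z' := by
    have hf2 : ((hfin.toFinset ×ˢ hfin.toFinset).filter (fun q : E × E => q.1 ≠ q.2)).Nonempty ∨
        ¬ ((hfin.toFinset ×ˢ hfin.toFinset).filter (fun q : E × E => q.1 ≠ q.2)).Nonempty := em _
    rcases hf2 with hne | he
    · obtain ⟨q, hq, hmin⟩ := Finset.exists_min_image _ (fun q : E × E => dist q.1 q.2) hne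
      refine ⟨dist q.1 q.2, dist_pos.2 (Finset.mem_filter.1 hq).2, fun z hz z' hz' hzz => ?_⟩
      exact hmin (z, z') (Finset.mem_filter.2 ⟨Finset.mem_product.2
        ⟨(hfin.mem_toFinset).2 hz, (hfin.mem_toFinset).2 hz'⟩, hzz⟩)
    · refine ⟨1, one_pos, fun z hz z' hz' hzz => absurd ?_ he⟩
      exact ⟨(z, z'), Finset.mem_filter.2 ⟨Finset.mem_product.2
        ⟨(hfin.mem_toFinset).2 hz, (hfin.mem_toFinset).2 hz'⟩, hzz⟩⟩
  refine ⟨min r1 r2, lt_min hr1 hr2, fun r hr hrr hcoc c m s hs hsne hcob => ?_⟩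
  obtain ⟨z, hz⟩ := hsne
  obtain ⟨hzC, hzc, hzm⟩ := hs z hz
  obtain ⟨X, iX, K, ev, hK, hev, hKM, hnot⟩ := hρ z hzC
  have hnn : ∀ y : E, ff p y = ‖y - p‖ ^ 2 := fun y => rfl
  have hKc : ∀ g ∈ K, ev g ∈ M ∧ ff p (ev g) ≤ c := by
    intro g hg
    refine ⟨(hKM g hg).1, ?_⟩
    rw [← hzc, hnn, hnn]
    exact pow_le_pow_left₀ (norm_nonneg _) (hKM g hg).2.1 2
  have h3 : Cob K ∅ (pb ev (∑ z ∈ s, uu ind α r m z)) :=
    hcob.pb (empty_subset _) (hK.uniformContinuousOn_of_continuous hev.continuousOn) (fun g hg => hKc g hg)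
      (fun g hg => hg.elim)
  have h4 : ∀ z' ∈ s, z' ≠ z → Van K (pb ev (uu ind α r m z')) := by
    intro z' hz' hne
    obtain ⟨hzC', hzc', hzm'⟩ := hs z' hz'
    unfold uu
    refine van_other (P := P) hK hev hKc hfin ?_ ?_
    · intro g hg hgb
      refine lt_of_le_of_ne (hKc g hg).2 fun heq => ?_
      have h5 : ‖ev g - p‖ = ‖z - p‖ := by
        rw [← hzc, hnn, hnn] at heq
        exact (pow_left_inj₀ (norm_nonneg _) (norm_nonneg _) two_ne_zero).1 heq
      rw [(hKM g hg).2.2 h5, mem_closedBall] at hgb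
      have := h2 z hzC z' hzC' hne.symm
      linarith [hrr.trans_le (min_le_right _ _)]
    · intro c' hc' hcr
      have := (hcoc c c' hc' hcr z' hzC' hzc').van
      rw [hzm'] at this
      exact this
  have h5 : pb ev (∑ z ∈ s, uu ind α r m z) = pb ev (uu ind α r m z) + ∑ z' ∈ s.erase z, pb ev (uu ind α r m z') := by
    rw [← Finset.add_sum_erase s _ hz]
    funext x
    simp only [pb, Pi.add_apply, Finset.sum_apply]
  have h6 : Cob K ∅ (∑ z' ∈ s.erase z, pb ev (uu ind α r m z')) := by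
    refine Cob.of_van ?_
    have : ∀ t : Finset E, (∀ z' ∈ t, Van K (pb ev (uu ind α r m z'))) → Van K (∑ z' ∈ t, pb ev (uu ind α r m z')) := by
      intro t
      induction t using Finset.induction_on with
      | empty => exact fun _ => by rw [Finset.sum_empty]; exact Van.zero _
      | insert a t ha ih =>
        intro ht
        rw [Finset.sum_insert ha]
        exact (ht a (Finset.mem_insert_self _ _)).add (ih fun z' hz' => ht z' (Finset.mem_insert_of_mem hz'))
    exact this _ fun z' hz' => h4 z' (Finset.mem_of_mem_erase hz') (Finset.ne_of_mem_erase hz')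
  rw [h5] at h3
  have h7 : Cob K ∅ (pb ev (uu ind α r m z)) := by
    have h8 := h3.add h6
    have h9 : pb ev (uu ind α r m z) + ∑ z' ∈ s.erase z, pb ev (uu ind α r m z') +
        ∑ z' ∈ s.erase z, pb ev (uu ind α r m z') = pb ev (uu ind α r m z) := by
      rw [add_assoc, add_self_coch, add_zero]
    rwa [h9] at h8
  subst hzm
  rw [uu_self] at h7
  exact hnot r hr (hrr.trans_le (min_le_left _ _)) h7

/-! ### bridge -/

/-- `α z` with `m` coordinates -/
noncomputable def bet (ind : E → ℕ) (α : ∀ z : E, E →L[ℝ] EuclideanSpace ℝ (Fin (ind z))) (m : ℕ) (z : E) :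
    E →L[ℝ] EuclideanSpace ℝ (Fin m) :=
  ((EuclideanSpace.equiv (Fin m) ℝ).symm : (Fin m → ℝ) →L[ℝ] EuclideanSpace ℝ (Fin m)).comp
    (ContinuousLinearMap.pi fun k : Fin m =>
      if hk : (k : ℕ) < ind z then (EuclideanSpace.proj (𝕜 := ℝ) (⟨k, hk⟩ : Fin (ind z))).comp (α z) else 0)

lemma bet_apply (ind : E → ℕ) (α : ∀ z : E, E →L[ℝ] EuclideanSpace ℝ (Fin (ind z))) (m : ℕ) (z v : E) (k : Fin m) :
    bet ind α m z v k = if hk : (k : ℕ) < ind z then α z v ⟨k, hk⟩ else 0 := by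
  show (ContinuousLinearMap.pi fun k : Fin m =>
      if hk : (k : ℕ) < ind z then (EuclideanSpace.proj (𝕜 := ℝ) (⟨k, hk⟩ : Fin (ind z))).comp (α z) else 0) v k = _
  rw [ContinuousLinearMap.pi_apply]
  by_cases hk : (k : ℕ) < ind z
  · rw [dif_pos hk, dif_pos hk]
    rfl
  · rw [dif_neg hk, dif_neg hk]
    rfl

lemma bet_self (ind : E → ℕ) (α : ∀ z : E, E →L[ℝ] EuclideanSpace ℝ (Fin (ind z))) (z : E) :
    bet ind α (ind z) z = α z := by
  ext v k
  rw [bet_apply, dif_pos k.2]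

lemma uu_eq (ind : E → ℕ) (α : ∀ z : E, E →L[ℝ] EuclideanSpace ℝ (Fin (ind z))) (r : ℝ) (m : ℕ) (z : E) :
    uu ind α r m z = loc (bet ind α m z) z r := by
  have h1 : (fun y (k : Fin m) => if hk : (k : ℕ) < ind z then α z (y - z) ⟨k, hk⟩ else 0) = cf (bet ind α m z) z := by
    funext y k
    exact (bet_apply ind α m z (y - z) k).symm
  unfold uu
  rw [h1]
  funext x
  by_cases hx : ∀ j, ‖x j - z‖ ≤ r
  · rw [loc_of_mem hx]
    exact if_pos fun j => mem_closedBall_iff_norm.2 (hx j)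
  · rw [loc_of_not hx]
    exact if_neg fun h => hx fun j => mem_closedBall_iff_norm.1 (h j)

/-- the local classes with different small radii differ by a cochain which vanishes on small tuples -/
lemma van_loc_add {S : Set E} (hS : IsCompact S) {i : ℕ} {α : E →L[ℝ] EuclideanSpace ℝ (Fin i)} {z : E} {R₁ : ℝ}
    (h0 : ∀ x ∈ S, ‖x - z‖ ≤ R₁ → α (x - z) = 0 → x = z) {r R : ℝ} (hr : 0 < r) (hR : 0 < R) (hr1 : r ≤ R₁)
    (hR1 : ∀ x : E, ‖x - z‖ ≤ R → ‖x - z‖ ≤ R₁) : Van S (loc α z r + loc α z R) := by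
  have hcn : Continuous (fun x : E => ‖x - z‖) := by fun_prop
  have hQ : IsCompact (S ∩ ({x | min r R / 2 ≤ ‖x - z‖} ∩ {x | ‖x - z‖ ≤ R₁})) :=
    hS.inter_right ((isClosed_le continuous_const hcn).inter (isClosed_le hcn continuous_const))
  have hm : 0 < min r R := lt_min hr hR
  obtain ⟨ε, hε, h1⟩ := GG_van' hQ (continuous_cf α z).continuousOn (F := cf α z) (fun x hx => by
    refine cf_ne_zero fun h2 => ?_
    have h3 := h0 x hx.1 hx.2.2 h2
    have h4 : min r R / 2 ≤ ‖x - z‖ := hx.2.1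
    rw [h3, sub_self, norm_zero] at h4
    linarith)
  refine ⟨min ε (min r R / 2), lt_min hε (by positivity), fun x hx => ?_⟩
  have hx' : Sm S ε x := ⟨hx.1, fun i j => (hx.2 i j).trans_le (min_le_left _ _)⟩
  -- one point outside of the ball of radius `ρ ≥ min r R`, all inside the ball of radius `R₁`
  have key : ∀ ρ, min r R ≤ ρ → (∀ j, ‖x j - z‖ ≤ R₁) → (¬ ∀ j, ‖x j - z‖ ≤ ρ) → GG i (cf α z) x = 0 := by
    intro ρ hρ h2 h3
    rw [not_forall] at h3
    obtain ⟨j0, hj0⟩ := h3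
    rw [not_le] at hj0
    refine h1 x ⟨fun j => ⟨hx.1 j, ?_, h2 j⟩, hx'.2⟩
    show min r R / 2 ≤ ‖x j - z‖
    have h4 : dist (x j0) (x j) < min r R / 2 := (hx.2 j0 j).trans_le (min_le_right _ _)
    rw [dist_eq_norm] at h4
    have h5 : ‖x j0 - z‖ ≤ ‖x j0 - x j‖ + ‖x j - z‖ := by
      have : x j0 - z = (x j0 - x j) + (x j - z) := by abel
      rw [this]
      exact norm_add_le _ _
    linarith
  show loc α z r x + loc α z R x = 0
  by_cases ha : ∀ j, ‖x j - z‖ ≤ r
  · by_cases hb : ∀ j, ‖x j - z‖ ≤ R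
    · rw [loc_of_mem ha, loc_of_mem hb, z2]
    · rw [loc_of_mem ha, loc_of_not hb, add_zero]
      exact key R (min_le_right _ _) (fun j => (ha j).trans hr1) hb
  · by_cases hb : ∀ j, ‖x j - z‖ ≤ R
    · rw [loc_of_not ha, loc_of_mem hb, zero_add]
      exact key r (min_le_left _ _) (fun j => hR1 _ (hb j)) ha
    · rw [loc_of_not ha, loc_of_not hb, add_zero]

/-! ### counting -/

theorem crit_finite (h : GeomM M P) (p : E)
    (hiso : ∀ x ∈ M, gr P p x = 0 → ∃ R > 0, ∀ y ∈ M, ‖y - x‖ ≤ R → gr P p y = 0 → y = x) : (Crit M P p).Finite := by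
  have hcl : IsCompact (Crit M P p) := by
    have h1 : ContinuousOn (fun x => gr P p x) M :=
      h.continuousOn_P (a := fun x => x) (w := fun x => x - p) continuousOn_id (fun x hx => hx)
        (continuousOn_id.sub continuousOn_const)
    have h2 : IsClosed (M ∩ (fun x => gr P p x) ⁻¹' {0}) :=
      h1.preimage_isClosed_of_isClosed h.compact.isClosed isClosed_singleton
    exact h.compact.of_isClosed_subset h2 inter_subset_left
  have h3 : ∀ x, ∃ R > 0, x ∈ Crit M P p → ∀ y ∈ M, ‖y - x‖ ≤ R → gr P p y = 0 → y = x := by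
    intro x
    by_cases hx : x ∈ Crit M P p
    · obtain ⟨R, hR, h4⟩ := hiso x hx.1 hx.2
      exact ⟨R, hR, fun _ => h4⟩
    · exact ⟨1, one_pos, fun hx' => absurd hx' hx⟩
  choose R hR h4 using h3
  obtain ⟨t, ht, hcov⟩ := hcl.elim_nhds_subcover (fun x => ball x (R x)) fun x _ => ball_mem_nhds x (hR x)
  refine t.finite_toSet.subset fun y hy => ?_
  obtain ⟨x, hxt, hyx⟩ := mem_iUnion₂.1 (hcov hy)
  have h5 : y = x := h4 x (ht x hxt) y hy.1 (by rw [← dist_eq_norm]; exact (mem_ball.1 hyx).le) hy.2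
  rw [h5]
  exact hxt

theorem coc_gen (h : GeomM M P) (p : E) (hfin : (Crit M P p).Finite) (ind : E → ℕ)
    (α : ∀ z : E, E →L[ℝ] EuclideanSpace ℝ (Fin (ind z)))
    (hLM : ∀ z ∈ Crit M P p, LocMorse M P p z (ind z) (α z)) :
    ∃ r0 > 0, ∀ r, 0 < r → r < r0 →
      (∀ c c' : ℝ, c' < c → (∀ x ∈ M, c' ≤ ff p x → ff p x < c → gr P p x ≠ 0) → ∀ z ∈ Crit M P p,
        ff p z = c → Coc (AA M p c) (AA M p c') (uu ind α r (ind z) z)) ∧
      (∀ c c' : ℝ, c' < c → (∀ x ∈ M, c' ≤ ff p x → ff p x < c → gr P p x ≠ 0) → ∀ (m : ℕ) (F : Coch E (m + 1)),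
        Coc (AA M p c) (AA M p c') F → ∃ s : Finset E, (∀ z ∈ s, z ∈ Crit M P p ∧ ff p z = c ∧ ind z = m) ∧
          Cob (AA M p c) (AA M p c') (F + ∑ z ∈ s, uu ind α r m z)) := by
  classical
  -- one radius for all critical points
  obtain ⟨r0, hr0, h0⟩ : ∃ r0 > 0, ∀ z ∈ Crit M P p, ∀ x ∈ AA M p (ff p z), ‖x - z‖ ≤ r0 → α z (x - z) = 0 → x = z := by
    have key : ∀ s : Finset E, (∀ z ∈ s, z ∈ Crit M P p) → ∃ r0 > 0, ∀ z ∈ s, ∀ x ∈ AA M p (ff p z), ‖x - z‖ ≤ r0 →
        α z (x - z) = 0 → x = z := by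
      intro s
      induction s using Finset.induction_on with
      | empty => exact fun _ => ⟨1, one_pos, fun z hz => by simp at hz⟩
      | insert a s ha ih =>
        intro hs
        obtain ⟨r1, hr1, h1⟩ := ih fun z hz => hs z (Finset.mem_insert_of_mem hz)
        obtain ⟨R, C, c, hR, hC, -, h2⟩ := (hLM a (hs a (Finset.mem_insert_self _ _))).est
        refine ⟨min r1 R, lt_min hr1 hR, fun z hz x hx hxr hα => ?_⟩
        rcases Finset.mem_insert.1 hz with rfl | hz
        · have h3 := (h2 x hx.1 (hxr.trans (min_le_right _ _)) hx.2).1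
          rw [hα, norm_zero, mul_zero] at h3
          exact sub_eq_zero.1 (norm_eq_zero.1 (le_antisymm h3 (norm_nonneg _)))
        · exact h1 z hz x hx (hxr.trans (min_le_left _ _)) hα
    obtain ⟨r1, hr1, h1⟩ := key hfin.toFinset (fun z hz => (hfin.mem_toFinset).1 hz)
    exact ⟨r1, hr1, fun z hz => h1 z ((hfin.mem_toFinset).2 hz)⟩
  refine ⟨r0, hr0, fun r hr hrr => ?_⟩
  -- all that follows from D2 on one level in one degree
  have main : ∀ c c' : ℝ, c' < c → (∀ x ∈ M, c' ≤ ff p x → ff p x < c → gr P p x ≠ 0) → ∀ m : ℕ,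
      (∀ z ∈ Crit M P p, ff p z = c → ind z = m → Coc (AA M p c) (AA M p c') (uu ind α r m z)) ∧
      ∀ F : Coch E (m + 1),
        Coc (AA M p c) (AA M p c') F → ∃ s : Finset E, (∀ z ∈ s, z ∈ Crit M P p ∧ ff p z = c ∧ ind z = m) ∧
          Cob (AA M p c) (AA M p c') (F + ∑ z ∈ s, uu ind α r m z) := by
    intro c c' hc hcr m
    have hAc := AA_compact h p c
    obtain ⟨R, hR1, hR2, hR3, -⟩ := D2 h p hc m
      (hfin.toFinset.filter fun z => ff p z = c ∧ ind z = m) (hfin.toFinset.filter fun z => ff p z = c ∧ ind z ≠ m)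
      (bet ind α m)
      (by
        intro z hz
        rw [Finset.mem_filter, hfin.mem_toFinset] at hz
        obtain ⟨hzC, hzc, hzm⟩ := hz
        refine ⟨hzc, ?_⟩
        subst hzm
        rw [bet_self]
        exact hLM z hzC)
      (by
        intro z hz
        rw [Finset.mem_filter, hfin.mem_toFinset] at hz
        exact ⟨hz.2.1, ind z, hz.2.2, α z, hLM z hz.1⟩)
      (by
        intro x hx h1 h2 h3
        have hxc : ff p x = c := by
          by_contra hne
          exact hcr x hx h1.le (lt_of_le_of_ne h2 hne) h3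
        by_cases hm : ind x = m
        · left
          rw [Finset.mem_filter, hfin.mem_toFinset]
          exact ⟨⟨hx, h3⟩, hxc, hm⟩
        · right
          rw [Finset.mem_filter, hfin.mem_toFinset]
          exact ⟨⟨hx, h3⟩, hxc, hm⟩)
      (fun z => ball z r0) (fun z _ => ball_mem_nhds z hr0)
    have hvan : ∀ z ∈ hfin.toFinset.filter (fun z => ff p z = c ∧ ind z = m),
        Van (AA M p c) (loc (bet ind α m z) z (R z) + uu ind α r m z) := by
      intro z hz
      rw [uu_eq]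
      have hz' := hz
      rw [Finset.mem_filter, hfin.mem_toFinset] at hz'
      rw [add_comm (loc (bet ind α m z) z (R z))]
      refine van_loc_add hAc (R₁ := r0) ?_ hr (hR1 z hz).1 hrr.le (fun x hx => ?_)
      swap
      · have h1 := (hR1 z hz).2 (mem_closedBall_iff_norm.2 hx)
        exact (mem_ball_iff_norm.1 h1).le
      intro x hx hxr hα
      have h1 := h0 z hz'.1
      rw [hz'.2.1] at h1
      refine h1 x hx hxr ?_
      obtain ⟨hzC, hzc, hzm⟩ := hz'
      subst hzm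
      rwa [bet_self] at hα
    refine ⟨fun z hz hzc hzm => ?_, fun F hF => ?_⟩
    · have hz' : z ∈ hfin.toFinset.filter (fun z => ff p z = c ∧ ind z = m) := by
        rw [Finset.mem_filter, hfin.mem_toFinset]
        exact ⟨hz, hzc, hzm⟩
      have h1 := hvan z hz'
      have h2 : Coc (AA M p c) (AA M p c') (loc (bet ind α m z) z (R z) + uu ind α r m z) :=
        ⟨h1.mono (AA_mono M p hc.le), h1.dl⟩
      have h3 := (hR2 z hz').add h2
      rwa [← add_assoc, add_self_coch, zero_add] at h3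
    · obtain ⟨s, hs, h1⟩ := hR3 F hF
      refine ⟨s, fun z hz => ?_, ?_⟩
      · have := hs hz
        rwa [Finset.mem_filter, hfin.mem_toFinset] at this
      · have h2 : Van (AA M p c) (∑ z ∈ s, (loc (bet ind α m z) z (R z) + uu ind α r m z)) := by
          have : ∀ t ⊆ s, Van (AA M p c) (∑ z ∈ t, (loc (bet ind α m z) z (R z) + uu ind α r m z)) := by
            intro t
            induction t using Finset.induction_on with
            | empty => exact fun _ => by rw [Finset.sum_empty]; exact Van.zero _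
            | insert a t ha ih =>
              intro ht
              rw [Finset.sum_insert ha]
              exact (hvan a (hs (ht (Finset.mem_insert_self _ _)))).add
                (ih fun z' hz' => ht (Finset.mem_insert_of_mem hz'))
          exact this s subset_rfl
        have h3 := h1.add (Cob.of_van (S' := AA M p c') h2)
        rw [Finset.sum_add_distrib] at h3
        have h4 : F + ∑ z ∈ s, loc (bet ind α m z) z (R z) +
            (∑ z ∈ s, loc (bet ind α m z) z (R z) + ∑ z ∈ s, uu ind α r m z) =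
            F + ∑ z ∈ s, uu ind α r m z + (∑ z ∈ s, loc (bet ind α m z) z (R z) + ∑ z ∈ s, loc (bet ind α m z) z (R z)) := by
          abel
        rw [h4, add_self_coch, add_zero] at h3
        exact h3
  exact ⟨fun c c' hc hcr z hz hzc => (main c c' hc hcr (ind z)).1 z hz hzc rfl,
    fun c c' hc hcr m => (main c c' hc hcr m).2⟩

/-- (final form of the counting) If `|x - p|²` has finitely many critical points, all nondegenerate and detected, then
the cohomology of `M` in degree `m` has dimension the number of critical points of index `m`. -/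
theorem counting (h : GeomM M P) (p : E) (idx : E → ℕ)
    (hfin : {x | x ∈ M ∧ gr P p x = 0}.Finite)
    (hcp : ∀ x ∈ M, gr P p x = 0 → CritPack M P p x (idx x)) :
    ∀ m, Module.Finite (ZMod 2) (ASC.HM (m + 1) M ∅) ∧
      Module.finrank (ZMod 2) (ASC.HM (m + 1) M ∅) = {x | x ∈ M ∧ gr P p x = 0 ∧ idx x = m}.ncard := by
  have h1 : ∀ x, ∃ α : E →L[ℝ] EuclideanSpace ℝ (Fin (idx x)), x ∈ Crit M P p →
      LocMorse M P p x (idx x) α ∧ Detect M p x α := by
    intro x
    by_cases hx : x ∈ Crit M P p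
    · obtain ⟨α, h1⟩ := hcp x hx.1 hx.2
      exact ⟨α, fun _ => h1⟩
    · exact ⟨0, fun hx' => absurd hx' hx⟩
  choose α hα using h1
  obtain ⟨r1, hr1, h2⟩ := coc_gen h p hfin idx α (fun z hz => (hα z hz).1)
  obtain ⟨r2, hr2, h3⟩ := indep idx α hfin (fun z hz => (hα z hz).2)
  obtain ⟨r, hr, hrr⟩ := exists_between (lt_min hr1 hr2)
  obtain ⟨h4, h5⟩ := h2 r hr (hrr.trans_le (min_le_left _ _))
  have h6 := h3 r hr (hrr.trans_le (min_le_right _ _)) h4
  intro m
  have h7 := D4_total h p hfin idx (uu idx α r) h4 h5 h6 m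
  refine ⟨h7.1, ?_⟩
  rw [h7.2]
  congr 1
  ext x
  exact ⟨fun hx => ⟨hx.1.1, hx.1.2, hx.2⟩, fun hx => ⟨⟨hx.1, hx.2.1⟩, hx.2.2⟩⟩

end F7D
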