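import Mathlib
import Pool.Agent.Lib.MP_f7aa1b_gt.ASC.Mod
import Pool.Agent.Lib.MP_f7aa1b_gt.H.D1

/-!
# MP_f7aa1b_gt, parts D3 and D4: passing critical levels, counting
-/

set_option autoImplicit false

open Set Filter Topology Metric

open scoped RealInnerProductSpace

namespace F7D

open ASC

variable {E : Type*} [NormedAddCommGroup E] [InnerProductSpace ℝ E] {M : Set E} {P : E → E →L[ℝ] E}

open GeomM

/-- sublevel sets slightly above `c` are in a small neighbourhood of the sublevel set `c` -/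
theorem AA_thick (h : GeomM M P) (p : E) {c₁ c₂ : ℝ} (hc : c₁ < c₂) {η : ℝ} (hη : 0 < η) :
    ∃ c, c₁ < c ∧ c ≤ c₂ ∧ AA M p c ⊆ thickening η (AA M p c₁) := by
  have hK : IsCompact (AA M p c₂ ∩ (thickening η (AA M p c₁))ᶜ) :=
    (AA_compact h p c₂).inter_right isOpen_thickening.isClosed_compl
  have hgt : ∀ x ∈ AA M p c₂ ∩ (thickening η (AA M p c₁))ᶜ, c₁ < ff p x := by
    rintro x ⟨hx, hx'⟩
    by_contra hle
    exact hx' (self_subset_thickening hη _ ⟨hx.1, not_lt.1 hle⟩)
  rcases (AA M p c₂ ∩ (thickening η (AA M p c₁))ᶜ).eq_empty_or_nonempty with he | hne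
  · refine ⟨c₂, hc, le_rfl, fun x hx => ?_⟩
    by_contra hx'
    have : x ∈ AA M p c₂ ∩ (thickening η (AA M p c₁))ᶜ := ⟨hx, hx'⟩
    rw [he] at this
    exact this
  · obtain ⟨x₀, hx₀, hmin⟩ := hK.exists_isMinOn hne (continuous_ff p).continuousOn
    have h0 := hgt x₀ hx₀
    have h1 : c₁ < min c₂ ((c₁ + ff p x₀) / 2) := lt_min hc (by linarith)
    refine ⟨min c₂ ((c₁ + ff p x₀) / 2), h1, min_le_left _ _, fun x hx => ?_⟩
    by_contra hx'
    have hxc : x ∈ AA M p c₂ := AA_mono M p (min_le_left _ _) hx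
    have h2 : ff p x₀ ≤ ff p x := hmin ⟨hxc, hx'⟩
    have h3 : ff p x ≤ (c₁ + ff p x₀) / 2 := le_trans hx.2 (min_le_right _ _)
    linarith

/-- (D3) no critical points in `{c₁ < f ≤ c₂}`: the cohomology of `(A_{c₂}, A_{c₁})` vanishes. -/
theorem D3 (h : GeomM M P) (p : E) {c₁ c₂ : ℝ} (hc : c₁ ≤ c₂)
    (hcrit : ∀ x ∈ M, c₁ < ff p x → ff p x ≤ c₂ → gr P p x ≠ 0) (n : ℕ) :
    HZ n (AA M p c₂) (AA M p c₁) := by
  intro F hF
  rcases hc.eq_or_lt with heq | hlt
  · subst heq
    exact Cob.of_van hF.van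
  · have h1 : Cob (AA M p c₂ ∩ AA M p c₁) (AA M p c₁ ∩ AA M p c₁) F := by
      have e1 : AA M p c₂ ∩ AA M p c₁ = AA M p c₁ := inter_eq_right.2 (AA_mono M p hc)
      rw [e1]
      exact Cob.of_van hF.van
    obtain ⟨η, hη, h2⟩ := cob_thickening (AA_compact h p c₂) (AA_compact h p c₁)
      (AA_compact h p c₁).isClosed (AA_mono M p hc) hF h1
    obtain ⟨c, hc1, hc2, hsub⟩ := AA_thick h p hlt hη
    have h3 : Cob (AA M p c) (AA M p c₁) F :=
      h2.mono (subset_inter (AA_mono M p hc2) hsub) (subset_inter Subset.rfl (self_subset_thickening hη _))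
    obtain ⟨F', hF', h4⟩ := les1 hF h3
    have h5 : Cob (AA M p c₂) (AA M p c) F' :=
      D1 h p hc2 (fun x hx h6 h7 => hcrit x hx (lt_of_lt_of_le hc1 h6) h7) n F' hF'
    have h6 : Cob (AA M p c₂) (AA M p c₁) F' := h5.mono Subset.rfl (AA_mono M p hc1.le)
    exact h4.congr' h6

/-- restriction is bijective if the relative cohomology vanishes -/
theorem D34_equiv {X : Type*} [PseudoMetricSpace X] {A A' : Set X} (hA : A' ⊆ A) (hz : ∀ n, HZ n A A') (n : ℕ) :
    Function.Bijective (HM.res (n := n) hA (Subset.refl (∅ : Set X))) := by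
  constructor
  · rw [HM.res_injective_iff]
    intro F hF hc
    obtain ⟨F', hF', h1⟩ := les1 hF hc
    exact h1.congr' ((hz n F' hF').mono Subset.rfl (empty_subset _))
  · rw [HM.res_surjective_iff]
    intro f hf
    exact les2 (empty_subset _) hf (hz _ _ hf.dl)

/-- a short exact sequence -/
theorem D34_exact {K V W : Type*} [AddCommGroup K] [AddCommGroup V] [AddCommGroup W] [Module (ZMod 2) K]
    [Module (ZMod 2) V] [Module (ZMod 2) W] (f : K →ₗ[ZMod 2] V) (g : V →ₗ[ZMod 2] W)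
    (hf : Function.Injective f) (hg : Function.Surjective g) (hex : Function.Exact f g)
    (hK : Module.Finite (ZMod 2) K) (hW : Module.Finite (ZMod 2) W) :
    Module.Finite (ZMod 2) V ∧
      Module.finrank (ZMod 2) V = Module.finrank (ZMod 2) K + Module.finrank (ZMod 2) W := by
  have hker : LinearMap.ker g = LinearMap.range f := by
    ext x
    rw [LinearMap.mem_ker, LinearMap.mem_range]
    exact hex x
  have h1 : Module.Finite (ZMod 2) (LinearMap.ker g) := by
    rw [hker]
    infer_instance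
  have h2 : Module.Finite (ZMod 2) (V ⧸ LinearMap.ker g) :=
    Module.Finite.equiv (g.quotKerEquivOfSurjective hg).symm
  have h3 : Module.Finite (ZMod 2) V := Module.Finite.of_submodule_quotient (LinearMap.ker g)
  refine ⟨h3, ?_⟩
  have h4 := g.finrank_range_add_finrank_ker
  rw [LinearMap.range_eq_top.2 hg, finrank_top, hker, LinearMap.finrank_range_of_inj hf] at h4
  omega

section level

variable {X : Type*} [PseudoMetricSpace X] {A A' : Set X} {m : ℕ} (Z : Finset X) (u : X → Coch X (m + 1))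
  (hu : ∀ z ∈ Z, Coc A A' (u z))

include hu

omit hu in
/-- the linear map sending the coordinate vectors to the local classes -/
noncomputable def lc (hu : ∀ z ∈ Z, Coc A A' (u z)) : (Z → ZMod 2) →ₗ[ZMod 2] HM (m + 1) A A' :=
  Fintype.linearCombination (ZMod 2) (fun z : Z => HM.mk (⟨u z.1, hu z.1 z.2⟩ : ↥(Zc (m + 1) A A')))

theorem lc_coc (s : Finset X) (hs : s ⊆ Z) : Coc A A' (∑ z ∈ s, u z) :=
  (Zc (m + 1) A A').sum_mem fun z hz => hu z (hs hz)

theorem lc_apply (f : Z → ZMod 2) : ∃ s : Finset X, ∃ hs : s ⊆ Z, (f ≠ 0 → s.Nonempty) ∧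
    lc Z u hu f = HM.mk (⟨∑ z ∈ s, u z, lc_coc Z u hu s hs⟩ : ↥(Zc (m + 1) A A')) := by
  classical
  refine ⟨(Finset.univ.filter (fun z : Z => f z = 1)).map (Function.Embedding.subtype _), ?_, ?_, ?_⟩
  · intro z hz
    rw [Finset.mem_map] at hz
    obtain ⟨a, _, rfl⟩ := hz
    exact a.2
  · intro hf
    obtain ⟨z, hz⟩ := Function.ne_iff.1 hf
    have h1 : f z = 1 := (zmod2_cases (f z)).resolve_left hz
    exact ⟨z.1, Finset.mem_map.2 ⟨z, by simpa using h1, rfl⟩⟩
  · unfold lc
    rw [Fintype.linearCombination_apply]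
    have h1 : ∀ z : Z, f z • HM.mk (⟨u z.1, hu z.1 z.2⟩ : ↥(Zc (m + 1) A A')) =
        HM.mk (f z • (⟨u z.1, hu z.1 z.2⟩ : ↥(Zc (m + 1) A A'))) := fun z => (map_smul _ _ _).symm
    simp only [h1]
    rw [← map_sum]
    congr 1
    apply Subtype.ext
    rw [AddSubmonoidClass.coe_finsetSum]
    show ∑ z : Z, f z • u z.1 =
      ∑ z ∈ (Finset.univ.filter (fun z : Z => f z = 1)).map (Function.Embedding.subtype _), u z
    rw [Finset.sum_map, Finset.sum_filter]
    refine Finset.sum_congr rfl fun z _ => ?_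
    rcases zmod2_cases (f z) with h2 | h2
    · rw [h2, zero_smul, if_neg (by decide)]
    · rw [h2, one_smul, if_pos rfl]
      rfl

theorem lc_surj (hgen : ∀ F : Coch X (m + 1), Coc A A' F → ∃ s : Finset X, s ⊆ Z ∧ Cob A A' (F + ∑ z ∈ s, u z)) :
    Function.Surjective (lc Z u hu) := by
  classical
  intro x
  obtain ⟨F, rfl⟩ := HM.mk_surjective x
  obtain ⟨s, hs, hc⟩ := hgen F.1 F.2
  refine ⟨fun z => if z.1 ∈ s then 1 else 0, ?_⟩
  unfold lc
  rw [Fintype.linearCombination_apply]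
  have h1 : ∀ z : Z, (if z.1 ∈ s then (1 : ZMod 2) else 0) • HM.mk (⟨u z.1, hu z.1 z.2⟩ : ↥(Zc (m + 1) A A')) =
      HM.mk ((if z.1 ∈ s then (1 : ZMod 2) else 0) • (⟨u z.1, hu z.1 z.2⟩ : ↥(Zc (m + 1) A A'))) :=
    fun z => (map_smul _ _ _).symm
  simp only [h1]
  rw [← map_sum, HM.mk_eq, AddSubmonoidClass.coe_finsetSum]
  have h2 : ∑ z : Z, (((if z.1 ∈ s then (1 : ZMod 2) else 0) • (⟨u z.1, hu z.1 z.2⟩ : ↥(Zc (m + 1) A A')) :
      ↥(Zc (m + 1) A A')) : Coch X (m + 1)) = ∑ z ∈ s, u z := by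
    have h3 : ∀ z : Z, (((if z.1 ∈ s then (1 : ZMod 2) else 0) • (⟨u z.1, hu z.1 z.2⟩ : ↥(Zc (m + 1) A A')) :
      ↥(Zc (m + 1) A A')) : Coch X (m + 1)) = (fun x => if x ∈ s then u x else 0) z.1 := by
      intro z
      show (if z.1 ∈ s then (1 : ZMod 2) else 0) • u z.1 = _
      by_cases hz : z.1 ∈ s
      · simp only [if_pos hz, one_smul]
      · simp only [if_neg hz, zero_smul]
    rw [Finset.sum_congr rfl fun z _ => h3 z, Finset.sum_coe_sort Z (fun x => if x ∈ s then u x else 0),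
      ← Finset.sum_filter]
    congr 1
    ext z
    rw [Finset.mem_filter]
    exact ⟨fun h => h.2, fun h => ⟨hs h, h⟩⟩
  rw [h2]
  convert hc using 1
  exact add_comm _ _

/-- (D4, one level) if the local classes generate the relative cohomology in degrees `m` and `m + 1` and are
independent in the cohomology of `A`, then passing from `A'` to `A` adds exactly the local classes -/
theorem level_step (hA : A' ⊆ A)
    (hgen : ∀ F : Coch X (m + 1), Coc A A' F → ∃ s : Finset X, s ⊆ Z ∧ Cob A A' (F + ∑ z ∈ s, u z))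
    (hind : ∀ s : Finset X, s ⊆ Z → s.Nonempty → ¬ Cob A ∅ (∑ z ∈ s, u z))
    (Z' : Finset X) (u' : X → Coch X (m + 2))
    (hgen' : ∀ F : Coch X (m + 2), Coc A A' F → ∃ s : Finset X, s ⊆ Z' ∧ Cob A A' (F + ∑ z ∈ s, u' z))
    (hind' : ∀ s : Finset X, s ⊆ Z' → s.Nonempty → ¬ Cob A ∅ (∑ z ∈ s, u' z))
    (hfin : Module.Finite (ZMod 2) (HM (m + 1) A' ∅)) :
    Module.Finite (ZMod 2) (HM (m + 1) A ∅) ∧ Module.finrank (ZMod 2) (HM (m + 1) A ∅) =
      Z.card + Module.finrank (ZMod 2) (HM (m + 1) A' ∅) := by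
  -- the relative group
  have hinj0 : Function.Injective (lc Z u hu) := by
    rw [injective_iff_map_eq_zero]
    intro f hf
    by_contra hne
    obtain ⟨s, hs, hs1, hs2⟩ := lc_apply Z u hu f
    rw [hs2, HM.mk_eq_zero] at hf
    exact hind s hs (hs1 hne) (hf.mono Subset.rfl (empty_subset _))
  have hbij : Function.Bijective (lc Z u hu) := ⟨hinj0, lc_surj Z u hu hgen⟩
  set e := LinearEquiv.ofBijective (lc Z u hu) hbij with he
  have hKfin : Module.Finite (ZMod 2) (HM (m + 1) A A') := Module.Finite.equiv e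
  have hKrank : Module.finrank (ZMod 2) (HM (m + 1) A A') = Z.card := by
    rw [← e.finrank_eq, Module.finrank_fintype_fun_eq_card, Fintype.card_coe]
  -- injectivity of H(A, A') → H(A)
  have hinj : Function.Injective (HM.res (n := m + 1) (Subset.refl A) (empty_subset A')) := by
    rw [HM.res_injective_iff]
    intro F hF hc
    obtain ⟨s, hs, h1⟩ := hgen F hF
    have h2 : Cob A ∅ (∑ z ∈ s, u z) := (h1.mono Subset.rfl (empty_subset _)).congr hc
    rcases s.eq_empty_or_nonempty with h3 | h3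
    · rw [h3, Finset.sum_empty, add_zero] at h1
      exact h1
    · exact absurd h2 (hind s hs h3)
  have hsurj : Function.Surjective (HM.res (n := m + 1) hA (Subset.refl (∅ : Set X))) := by
    rw [HM.res_surjective_iff]
    intro f hf
    refine les2 (empty_subset _) hf ?_
    obtain ⟨s, hs, h1⟩ := hgen' (dl f) hf.dl
    have h0 : Cob A ∅ (dl f) := Cob.dl'' hf
    have h2 : Cob A ∅ (∑ z ∈ s, u' z) := (h1.mono Subset.rfl (empty_subset _)).congr h0
    rcases s.eq_empty_or_nonempty with h3 | h3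
    · rw [h3, Finset.sum_empty, add_zero] at h1
      exact h1
    · exact absurd h2 (hind' s hs h3)
  have hex := HM.exact_res (n := m + 1) hA (empty_subset A')
  obtain ⟨h1, h2⟩ := D34_exact _ _ hinj hsurj hex hKfin hfin
  exact ⟨h1, by rw [h2, hKrank]⟩

end level

/-- a non-empty sublevel set contains a critical point -/
theorem exists_crit (h : GeomM M P) (p : E) {c : ℝ} (hne : (AA M p c).Nonempty) :
    ∃ z ∈ M, gr P p z = 0 ∧ ff p z ≤ c := by
  obtain ⟨x, hx⟩ := hne
  obtain ⟨a, ha, hmin⟩ := h.exists_nearest ⟨x, hx.1⟩ p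
  refine ⟨a, ha, ?_, ?_⟩
  · have h1 := h.perp_of_nearest ha hmin
    unfold gr
    have h2 : a - p = -(p - a) := by abel
    rw [h2, map_neg, h1, neg_zero]
  · have h1 := hmin x hx.1
    have h2 : ff p a ≤ ff p x := by
      unfold ff
      rw [norm_sub_rev a, norm_sub_rev x]
      exact pow_le_pow_left₀ (norm_nonneg _) h1 2
    exact h2.trans hx.2

/-- the critical points of `|x - p|²` on `M` -/
def Crit (M : Set E) (P : E → E →L[ℝ] E) (p : E) : Set E := {z | z ∈ M ∧ gr P p z = 0}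

/-- (D4) **Counting.** `u m z` are local classes at the critical points `z` of index `m`, which generate the
cohomology of `(A_c, A_{c'})` and are independent in the cohomology of `A_c` for every critical level. -/
theorem D4 (h : GeomM M P) (p : E) (hfin : (Crit M P p).Finite) (ind : E → ℕ) (u : ∀ m : ℕ, E → Coch E (m + 1))
    (hcoc : ∀ c c' : ℝ, c' < c → (∀ x ∈ M, c' ≤ ff p x → ff p x < c → gr P p x ≠ 0) → ∀ z ∈ Crit M P p,
      ff p z = c → Coc (AA M p c) (AA M p c') (u (ind z) z))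
    (hgen : ∀ c c' : ℝ, c' < c → (∀ x ∈ M, c' ≤ ff p x → ff p x < c → gr P p x ≠ 0) → ∀ (m : ℕ) (F : Coch E (m + 1)),
      Coc (AA M p c) (AA M p c') F → ∃ s : Finset E, (∀ z ∈ s, z ∈ Crit M P p ∧ ff p z = c ∧ ind z = m) ∧
        Cob (AA M p c) (AA M p c') (F + ∑ z ∈ s, u m z))
    (hind : ∀ (c : ℝ) (m : ℕ) (s : Finset E), (∀ z ∈ s, z ∈ Crit M P p ∧ ff p z = c ∧ ind z = m) → s.Nonempty →
      ¬ Cob (AA M p c) ∅ (∑ z ∈ s, u m z)) :
    ∀ (c : ℝ) (m : ℕ), Module.Finite (ZMod 2) (HM (m + 1) (AA M p c) ∅) ∧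
      Module.finrank (ZMod 2) (HM (m + 1) (AA M p c) ∅) =
        (hfin.toFinset.filter (fun z => ff p z ≤ c ∧ ind z = m)).card := by
  classical
  -- strong induction on the number of critical points below the level
  have key : ∀ (k : ℕ) (c : ℝ), (hfin.toFinset.filter (fun z => ff p z ≤ c)).card = k →
      ∀ m : ℕ, Module.Finite (ZMod 2) (HM (m + 1) (AA M p c) ∅) ∧
      Module.finrank (ZMod 2) (HM (m + 1) (AA M p c) ∅) =
        (hfin.toFinset.filter (fun z => ff p z ≤ c ∧ ind z = m)).card := by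
    intro k
    induction k using Nat.strong_induction_on with
    | _ k ih =>
    intro c hk m
    rcases (AA M p c).eq_empty_or_nonempty with he | hne
    · -- empty sublevel set
      have h1 : HZ (m + 1) (AA M p c) ∅ := by
        intro f _
        apply Cob.of_van
        rw [he]
        exact Van.empty f
      have hsub : Subsingleton (HM (m + 1) (AA M p c) ∅) :=
        ⟨fun a b => by rw [HM.eq_zero_of_HZ h1 a, HM.eq_zero_of_HZ h1 b]⟩
      refine ⟨inferInstance, ?_⟩
      rw [HM.finrank_of_HZ h1, eq_comm, Finset.card_eq_zero, Finset.filter_eq_empty_iff]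
      rintro z hz ⟨hz1, -⟩
      have h2 : z ∈ AA M p c := ⟨((hfin.mem_toFinset).1 hz).1, hz1⟩
      rw [he] at h2
      exact h2
    · obtain ⟨z0, hz0M, hz0, hz0c⟩ := exists_crit h p hne
      have hne' : (hfin.toFinset.filter (fun z => ff p z ≤ c)).Nonempty :=
        ⟨z0, Finset.mem_filter.2 ⟨hfin.mem_toFinset.2 ⟨hz0M, hz0⟩, hz0c⟩⟩
      obtain ⟨z1, hz1, hmax⟩ := Finset.exists_max_image _ (ff p) hne'
      obtain ⟨hz1C, hz1c⟩ := Finset.mem_filter.1 hz1
      set cs := ff p z1 with hcs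
      -- the next level below
      obtain ⟨c', hc', hc'1⟩ : ∃ c' < cs, ∀ z ∈ hfin.toFinset, ff p z < cs → ff p z < c' := by
        rcases (hfin.toFinset.filter (fun z => ff p z < cs)).eq_empty_or_nonempty with h1 | h1
        · refine ⟨cs - 1, by linarith, fun z hz hzc => ?_⟩
          have : z ∈ hfin.toFinset.filter (fun z => ff p z < cs) := Finset.mem_filter.2 ⟨hz, hzc⟩
          rw [h1] at this
          exact absurd this (Finset.notMem_empty z)
        · obtain ⟨z2, hz2, hmax2⟩ := Finset.exists_max_image _ (ff p) h1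
          have h2 := (Finset.mem_filter.1 hz2).2
          refine ⟨(ff p z2 + cs) / 2, by linarith, fun z hz hzc => ?_⟩
          have := hmax2 z (Finset.mem_filter.2 ⟨hz, hzc⟩)
          linarith
      have hno : ∀ x ∈ M, c' ≤ ff p x → ff p x < cs → gr P p x ≠ 0 := by
        intro x hx h1 h2 h3
        have := hc'1 x (hfin.mem_toFinset.2 ⟨hx, h3⟩) h2
        linarith
      have hno2 : ∀ x ∈ M, cs < ff p x → ff p x ≤ c → gr P p x ≠ 0 := by
        intro x hx h1 h2 h3
        have := hmax x (Finset.mem_filter.2 ⟨hfin.mem_toFinset.2 ⟨hx, h3⟩, h2⟩)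
        linarith
      have hcsc : cs ≤ c := hz1c
      -- from c to cs
      have hbij := D34_equiv (AA_mono M p hcsc) (fun n => D3 h p hcsc hno2 n) (m + 1)
      set e := LinearEquiv.ofBijective _ hbij with he'
      -- the induction hypothesis at c'
      have hlt : (hfin.toFinset.filter (fun z => ff p z ≤ c')).card < k := by
        rw [← hk]
        apply Finset.card_lt_card
        refine ⟨fun z hz => ?_, fun hss => ?_⟩
        · obtain ⟨h1, h2⟩ := Finset.mem_filter.1 hz
          exact Finset.mem_filter.2 ⟨h1, by linarith⟩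
        · have := (Finset.mem_filter.1 (hss hz1)).2
          linarith
      obtain ⟨ih1, ih2⟩ := ih _ hlt c' rfl m
      -- the step
      have hstep := level_step (A := AA M p cs) (A' := AA M p c')
        (hfin.toFinset.filter (fun z => ff p z = cs ∧ ind z = m)) (u m)
        (fun z hz => by
          obtain ⟨h1, h2, h3⟩ := Finset.mem_filter.1 hz
          have := hcoc cs c' hc' hno z (hfin.mem_toFinset.1 h1) h2
          rw [h3] at this
          exact this)
        (AA_mono M p hc'.le)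
        (fun F hF => by
          obtain ⟨s, hs, h1⟩ := hgen cs c' hc' hno m F hF
          exact ⟨s, fun z hz => Finset.mem_filter.2 ⟨hfin.mem_toFinset.2 (hs z hz).1, (hs z hz).2⟩, h1⟩)
        (fun s hs hs' => hind cs m s (fun z hz => by
          obtain ⟨h1, h2⟩ := Finset.mem_filter.1 (hs hz)
          exact ⟨hfin.mem_toFinset.1 h1, h2⟩) hs')
        (hfin.toFinset.filter (fun z => ff p z = cs ∧ ind z = m + 1)) (u (m + 1))
        (fun F hF => by
          obtain ⟨s, hs, h1⟩ := hgen cs c' hc' hno (m + 1) F hF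
          exact ⟨s, fun z hz => Finset.mem_filter.2 ⟨hfin.mem_toFinset.2 (hs z hz).1, (hs z hz).2⟩, h1⟩)
        (fun s hs hs' => hind cs (m + 1) s (fun z hz => by
          obtain ⟨h1, h2⟩ := Finset.mem_filter.1 (hs hz)
          exact ⟨hfin.mem_toFinset.1 h1, h2⟩) hs')
        ih1
      obtain ⟨hs1, hs2⟩ := hstep
      refine ⟨Module.Finite.equiv e.symm, ?_⟩
      rw [e.finrank_eq, hs2, ih2]
      rw [← Finset.card_union_of_disjoint]
      · congr 1
        ext z
        simp only [Finset.mem_union, Finset.mem_filter]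
        constructor
        · rintro (⟨h1, h2, h3⟩ | ⟨h1, h2, h3⟩)
          · exact ⟨h1, by linarith, h3⟩
          · exact ⟨h1, by linarith, h3⟩
        · rintro ⟨h1, h2, h3⟩
          have h4 : ff p z ≤ cs := hmax z (Finset.mem_filter.2 ⟨h1, h2⟩)
          rcases h4.lt_or_eq with h5 | h5
          · exact Or.inr ⟨h1, (hc'1 z h1 h5).le, h3⟩
          · exact Or.inl ⟨h1, h5, h3⟩
      · rw [Finset.disjoint_left]
        intro z hz hz'
        have h1 := (Finset.mem_filter.1 hz).2.1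
        have h2 := (Finset.mem_filter.1 hz').2.1
        linarith
  intro c m
  exact key _ c rfl m

/-- (D4) the whole manifold -/
theorem D4_total (h : GeomM M P) (p : E) (hfin : (Crit M P p).Finite) (ind : E → ℕ) (u : ∀ m : ℕ, E → Coch E (m + 1))
    (hcoc : ∀ c c' : ℝ, c' < c → (∀ x ∈ M, c' ≤ ff p x → ff p x < c → gr P p x ≠ 0) → ∀ z ∈ Crit M P p,
      ff p z = c → Coc (AA M p c) (AA M p c') (u (ind z) z))
    (hgen : ∀ c c' : ℝ, c' < c → (∀ x ∈ M, c' ≤ ff p x → ff p x < c → gr P p x ≠ 0) → ∀ (m : ℕ) (F : Coch E (m + 1)),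
      Coc (AA M p c) (AA M p c') F → ∃ s : Finset E, (∀ z ∈ s, z ∈ Crit M P p ∧ ff p z = c ∧ ind z = m) ∧
        Cob (AA M p c) (AA M p c') (F + ∑ z ∈ s, u m z))
    (hind : ∀ (c : ℝ) (m : ℕ) (s : Finset E), (∀ z ∈ s, z ∈ Crit M P p ∧ ff p z = c ∧ ind z = m) → s.Nonempty →
      ¬ Cob (AA M p c) ∅ (∑ z ∈ s, u m z)) (m : ℕ) :
    Module.Finite (ZMod 2) (HM (m + 1) M ∅) ∧
      Module.finrank (ZMod 2) (HM (m + 1) M ∅) = {z ∈ Crit M P p | ind z = m}.ncard := by
  classical
  obtain ⟨D, hD⟩ := h.compact.bddAbove_image (continuous_ff p).continuousOn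
  have hM : AA M p D = M := by
    ext x
    exact ⟨fun hx => hx.1, fun hx => ⟨hx, hD ⟨x, hx, rfl⟩⟩⟩
  have h1 := D4 h p hfin ind u hcoc hgen hind D m
  rw [hM] at h1
  refine ⟨h1.1, ?_⟩
  rw [h1.2, ← Set.ncard_coe_finset]
  congr 1
  ext z
  simp only [Finset.coe_filter, hfin.mem_toFinset, mem_ofPred_eq]
  constructor
  · rintro ⟨hz, -, hm⟩
    exact ⟨hz, hm⟩
  · rintro ⟨hz, hm⟩
    exact ⟨hz, hD ⟨z, hz.1, rfl⟩, hm⟩

/-- the number of critical points is the sum of the Betti numbers -/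
theorem sum_betti (p : E) (hfin : (Crit M P p).Finite) (ind : E → ℕ) (N : ℕ) (hN : ∀ z ∈ Crit M P p, ind z ≤ N)
    (hb : ∀ m, betti m M = {z ∈ Crit M P p | ind z = m}.ncard) :
    ∑ m ∈ Finset.range (N + 1), betti m M = (Crit M P p).ncard := by
  classical
  have h1 : ∀ m, {z ∈ Crit M P p | ind z = m}.ncard = (hfin.toFinset.filter (fun z => ind z = m)).card := by
    intro m
    rw [← Set.ncard_coe_finset]
    congr 1
    ext z
    simp [hfin.mem_toFinset]
  rw [Finset.sum_congr rfl fun m _ => (hb m).trans (h1 m), Set.ncard_eq_toFinset_card _ hfin]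
  refine (Finset.card_eq_sum_card_fiberwise (f := ind) (t := Finset.range (N + 1)) ?_).symm
  intro z hz
  have := hN z (hfin.mem_toFinset.1 hz)
  simpa using Nat.lt_succ_of_le this

end F7D
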