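import Mathlib
import Pool.Agent.Lib.MP_f7aa1b_gt.Defs

/-!
# Left inverse of an injective linear map, shape operator in a chart, uniform Taylor expansion
-/

set_option autoImplicit false

open Set Filter Topology Metric
open scoped ContDiff

namespace F7H

open MPf7aa (E)

/-- left inverse of an injective map, zero on the orthogonal complement of the range -/
noncomputable def linv {d n : ℕ} (L : E d →L[ℝ] E n) : E n →L[ℝ] E d :=
  (Ring.inverse ((ContinuousLinearMap.adjoint L).comp L)).comp (ContinuousLinearMap.adjoint L)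

lemma linv_unit {d n : ℕ} {L : E d →L[ℝ] E n} (h : Function.Injective L) :
    IsUnit ((ContinuousLinearMap.adjoint L).comp L) := by
  have hinj : Function.Injective ((ContinuousLinearMap.adjoint L).comp L) := by
    rw [injective_iff_map_eq_zero]
    intro v hv
    have h1 : inner ℝ (L v) (L v) = 0 := by
      have : inner ℝ (((ContinuousLinearMap.adjoint L).comp L) v) v = 0 := by
        rw [hv, inner_zero_left]
      rwa [ContinuousLinearMap.comp_apply, ContinuousLinearMap.adjoint_inner_left] at this
    have h2 : L v = 0 := inner_self_eq_zero.1 h1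
    exact (injective_iff_map_eq_zero L).1 h v h2
  rw [ContinuousLinearMap.isUnit_iff_bijective]
  exact ⟨hinj, (LinearMap.injective_iff_surjective
    (f := (((ContinuousLinearMap.adjoint L).comp L : E d →L[ℝ] E d) : E d →ₗ[ℝ] E d))).1 hinj⟩

lemma linv_mul {d n : ℕ} {L : E d →L[ℝ] E n} (h : Function.Injective L) (w : E d) :
    linv L (L w) = w := by
  have h1 := Ring.inverse_mul_cancel _ (linv_unit h)
  have h2 := congrArg (fun T : E d →L[ℝ] E d => T w) h1
  simpa [linv] using h2

lemma mul_linv {d n : ℕ} {L : E d →L[ℝ] E n} (h : Function.Injective L) (v : E n) :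
    (ContinuousLinearMap.adjoint L) (L (linv L v)) = (ContinuousLinearMap.adjoint L) v := by
  have h1 := Ring.mul_inverse_cancel _ (linv_unit h)
  have h2 := congrArg (fun T : E d →L[ℝ] E d => T ((ContinuousLinearMap.adjoint L) v)) h1
  simpa [linv] using h2

lemma linv_inner {d n : ℕ} {L : E d →L[ℝ] E n} (h : Function.Injective L) (v : E n) (w : E d) :
    inner ℝ (L (linv L v)) (L w) = inner ℝ v (L w) := by
  rw [← ContinuousLinearMap.adjoint_inner_left, mul_linv h, ContinuousLinearMap.adjoint_inner_left]

lemma linv_zero {d n : ℕ} (L : E d →L[ℝ] E n) {v : E n} (hv : ∀ w, inner ℝ (L w) v = 0) :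
    linv L v = 0 := by
  have : (ContinuousLinearMap.adjoint L) v = 0 := by
    apply ext_inner_left ℝ
    intro w
    rw [ContinuousLinearMap.adjoint_inner_right, hv, inner_zero_right]
  simp [linv, this]

lemma linv_proj {d n : ℕ} {L : E d →L[ℝ] E n} (h : Function.Injective L) (v : E n) :
    (LinearMap.range (L : E d →ₗ[ℝ] E n)).starProjection v = L (linv L v) := by
  apply Submodule.eq_starProjection_of_mem_of_inner_eq_zero
  · exact ⟨_, rfl⟩
  · rintro _ ⟨w, rfl⟩
    show inner ℝ (v - L (linv L v)) (L w) = 0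
    rw [inner_sub_left, linv_inner h, sub_self]

lemma linv_continuousAt {d n : ℕ} {L : E d →L[ℝ] E n} (h : Function.Injective L) :
    ContinuousAt (linv : (E d →L[ℝ] E n) → (E n →L[ℝ] E d)) L := by
  have hadj : Continuous fun L : E d →L[ℝ] E n => (ContinuousLinearMap.adjoint L : E n →L[ℝ] E d) :=
    (ContinuousLinearMap.adjoint (𝕜 := ℝ) (E := E d) (F := E n)).continuous
  have hc : Continuous fun L : E d →L[ℝ] E n => (ContinuousLinearMap.adjoint L).comp L :=
    hadj.clm_comp continuous_id
  obtain ⟨u, hu⟩ := linv_unit h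
  have h1 : ContinuousAt (Ring.inverse : (E d →L[ℝ] E d) → _) ((ContinuousLinearMap.adjoint L).comp L) := by
    rw [← hu]; exact NormedRing.inverse_continuousAt u
  have h2 : ContinuousAt (fun L : E d →L[ℝ] E n => Ring.inverse ((ContinuousLinearMap.adjoint L).comp L)) L :=
    ContinuousAt.comp (g := (Ring.inverse : (E d →L[ℝ] E d) → _)) h1 hc.continuousAt
  exact h2.clm_comp hadj.continuousAt

/-- the shape operator in a chart with derivative `L` and second derivative `D` -/
noncomputable def shp {d n : ℕ} (L : E d →L[ℝ] E n) (D : E d →L[ℝ] E d →L[ℝ] E n) (ξ : E n) :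
    E n →L[ℝ] E n :=
  LinearMap.toContinuousLinearMap
    { toFun := fun v => ContinuousLinearMap.adjoint ((D (linv L v)).comp (linv L)) ξ
      map_add' := fun v w => by
        rw [map_add, map_add, ContinuousLinearMap.add_comp, map_add]; rfl
      map_smul' := fun c v => by
        rw [map_smul, map_smul, ContinuousLinearMap.smul_comp, map_smulₛₗ]; simp }

lemma shp_apply {d n : ℕ} (L : E d →L[ℝ] E n) (D : E d →L[ℝ] E d →L[ℝ] E n) (ξ v : E n) :
    shp L D ξ v = ContinuousLinearMap.adjoint ((D (linv L v)).comp (linv L)) ξ := rfl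

lemma shp_inner {d n : ℕ} (L : E d →L[ℝ] E n) (D : E d →L[ℝ] E d →L[ℝ] E n) (ξ v w : E n) :
    inner ℝ (shp L D ξ v) w = inner ℝ ξ (D (linv L v) (linv L w)) := by
  rw [shp_apply, ContinuousLinearMap.adjoint_inner_left]; rfl

lemma shp_continuousOn {X : Type*} [TopologicalSpace X] {S : Set X} {d n : ℕ}
    {L : X → E d →L[ℝ] E n} {D : X → E d →L[ℝ] E d →L[ℝ] E n} {ξ : X → E n}
    (hL : ContinuousOn L S) (hi : ∀ x ∈ S, Function.Injective (L x)) (hD : ContinuousOn D S)
    (hξ : ContinuousOn ξ S) : ContinuousOn (fun x => shp (L x) (D x) (ξ x)) S := by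
  rw [continuousOn_clm_apply]
  intro v
  have h1 : ContinuousOn (fun x => linv (L x)) S := by
    intro x hx
    exact ContinuousAt.comp_continuousWithinAt (g := linv) (linv_continuousAt (hi x hx)) (hL x hx)
  have h2 : ContinuousOn (fun x => (D x (linv (L x) v)).comp (linv (L x))) S :=
    (hD.clm_apply (h1.clm_apply continuousOn_const)).clm_comp h1
  have hadj : Continuous fun L : E n →L[ℝ] E n => (ContinuousLinearMap.adjoint L : E n →L[ℝ] E n) :=
    (ContinuousLinearMap.adjoint (𝕜 := ℝ) (E := E n) (F := E n)).continuous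
  exact (hadj.comp_continuousOn h2).clm_apply hξ

end F7H
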