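import Mathlib
import Pool.Agent.Lib.MP_f7aa1b_gt.Defs

/-!
# Uniform Taylor expansion of order two and lower bound for immersions
-/

set_option autoImplicit false

open Set Filter Topology Metric
open scoped ContDiff

namespace F7H

open MPf7aa (E)

lemma lower_of_strict {F G : Type*} [NormedAddCommGroup F] [NormedSpace ℝ F]
    [NormedAddCommGroup G] [NormedSpace ℝ G] {f : F → G} {f' : F →L[ℝ] G} {a : F}
    (hf : HasStrictFDerivAt f f' a) {K : ℝ} (hK : 0 < K) (h : ∀ v, ‖v‖ ≤ K * ‖f' v‖) :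
    ∀ᶠ p : F × F in 𝓝 (a, a), ‖p.1 - p.2‖ ≤ 2 * K * ‖f p.1 - f p.2‖ := by
  have h1 := hf.isLittleO.bound (show 0 < 1 / (2 * K) by positivity)
  filter_upwards [h1] with p hp
  have h2 := h (p.1 - p.2)
  have h3 : ‖f' (p.1 - p.2)‖ ≤ ‖f p.1 - f p.2‖ + ‖f p.1 - f p.2 - f' (p.1 - p.2)‖ := by
    have := norm_sub_le (f p.1 - f p.2) (f p.1 - f p.2 - f' (p.1 - p.2))
    rwa [sub_sub_cancel] at this
  have h4 : K * ‖f p.1 - f p.2 - f' (p.1 - p.2)‖ ≤ 1 / 2 * ‖p.1 - p.2‖ := by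
    calc K * ‖f p.1 - f p.2 - f' (p.1 - p.2)‖ ≤ K * (1 / (2 * K) * ‖p.1 - p.2‖) :=
          mul_le_mul_of_nonneg_left hp hK.le
      _ = 1 / 2 * ‖p.1 - p.2‖ := by field_simp
  have h5 : K * ‖f' (p.1 - p.2)‖ ≤ K * ‖f p.1 - f p.2‖ + K * ‖f p.1 - f p.2 - f' (p.1 - p.2)‖ := by
    rw [← mul_add]; exact mul_le_mul_of_nonneg_left h3 hK.le
  linarith

lemma unif_of_cont {X F : Type*} [NormedAddCommGroup X] [NormedAddCommGroup F] {f : X → F}
    {K : Set X} (hK : IsCompact K) (hf : ContinuousOn f K) :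
    ∀ ε > 0, ∃ δ > 0, ∀ x ∈ K, ∀ y ∈ K, ‖x - y‖ < δ → ‖f x - f y‖ < ε := by
  intro ε hε
  obtain ⟨δ, hδ, H⟩ := Metric.uniformContinuousOn_iff.1
    (hK.uniformContinuousOn_of_continuous hf) ε hε
  refine ⟨δ, hδ, fun x hx y hy h => ?_⟩
  rw [← dist_eq_norm] at h ⊢
  exact H x hx y hy h

section
variable {d n : ℕ} {U : Set (E d)} {φ : E d → E n}

lemma hasF1 (hU : IsOpen U) (hφ : ContDiffOn ℝ ∞ φ U) {u : E d} (hu : u ∈ U) :
    HasFDerivAt φ (fderiv ℝ φ u) u :=
  ((hφ.contDiffAt (hU.mem_nhds hu)).differentiableAt (by simp)).hasFDerivAt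

lemma smooth1 (hU : IsOpen U) (hφ : ContDiffOn ℝ ∞ φ U) : ContDiffOn ℝ ∞ (fderiv ℝ φ) U :=
  hφ.fderiv_of_isOpen hU (by simp)

lemma hasF2 (hU : IsOpen U) (hφ : ContDiffOn ℝ ∞ φ U) {u : E d} (hu : u ∈ U) :
    HasFDerivAt (fderiv ℝ φ) (fderiv ℝ (fderiv ℝ φ) u) u :=
  (((smooth1 hU hφ).contDiffAt (hU.mem_nhds hu)).differentiableAt (by simp)).hasFDerivAt

lemma cont1 (hU : IsOpen U) (hφ : ContDiffOn ℝ ∞ φ U) : ContinuousOn (fderiv ℝ φ) U :=
  (smooth1 hU hφ).continuousOn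

lemma cont2 (hU : IsOpen U) (hφ : ContDiffOn ℝ ∞ φ U) :
    ContinuousOn (fderiv ℝ (fderiv ℝ φ)) U :=
  ((smooth1 hU hφ).fderiv_of_isOpen hU (m := ∞) (by simp)).continuousOn

lemma symm2 (hU : IsOpen U) (hφ : ContDiffOn ℝ ∞ φ U) {u : E d} (hu : u ∈ U) (v w : E d) :
    fderiv ℝ (fderiv ℝ φ) u v w = fderiv ℝ (fderiv ℝ φ) u w v :=
  ((hφ.contDiffAt (hU.mem_nhds hu)).isSymmSndFDerivAt
    (by rw [minSmoothness_of_isRCLikeNormedField]; exact WithTop.coe_le_coe.2 le_top)) v w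

/-- first order expansion, uniform -/
lemma taylor1 (hU : IsOpen U) (hφ : ContDiffOn ℝ ∞ φ U) {r : ℝ} (hr : closedBall 0 r ⊆ U) :
    ∀ ε > 0, ∃ δ > 0, ∀ u ∈ ball (0 : E d) r, ∀ u' ∈ ball (0 : E d) r, ‖u' - u‖ ≤ δ →
      ‖φ u' - φ u - fderiv ℝ φ u (u' - u)‖ ≤ ε * ‖u' - u‖ := by
  intro ε hε
  obtain ⟨δ, hδ, H⟩ := unif_of_cont (isCompact_closedBall (0 : E d) r) ((cont1 hU hφ).mono hr) ε hε
  refine ⟨δ / 2, half_pos hδ, fun u hu u' hu' hd => ?_⟩
  have hconv : Convex ℝ (ball (0 : E d) r ∩ closedBall u (δ / 2)) :=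
    (convex_ball _ _).inter (convex_closedBall _ _)
  have hder : ∀ y ∈ ball (0 : E d) r ∩ closedBall u (δ / 2),
      HasFDerivWithinAt (fun y => φ y - fderiv ℝ φ u (y - u)) (fderiv ℝ φ y - fderiv ℝ φ u)
        (ball (0 : E d) r ∩ closedBall u (δ / 2)) y := by
    intro y hy
    have h1 := hasF1 hU hφ (hr (ball_subset_closedBall hy.1))
    have h2 : HasFDerivAt (fun y => fderiv ℝ φ u (y - u)) (fderiv ℝ φ u) y := by
      have := (fderiv ℝ φ u).hasFDerivAt.comp y ((hasFDerivAt_id y).sub_const u)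
      rw [ContinuousLinearMap.comp_id] at this
      exact this
    exact (h1.sub h2).hasFDerivWithinAt
  have hbd : ∀ y ∈ ball (0 : E d) r ∩ closedBall u (δ / 2), ‖fderiv ℝ φ y - fderiv ℝ φ u‖ ≤ ε := by
    intro y hy
    have : dist y u < δ := lt_of_le_of_lt (mem_closedBall.1 hy.2) (half_lt_self hδ)
    rw [dist_eq_norm] at this
    exact (H y (ball_subset_closedBall hy.1) u (ball_subset_closedBall hu) this).le
  have key := hconv.norm_image_sub_le_of_norm_hasFDerivWithin_le hder hbd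
    (x := u) (y := u') ⟨hu, mem_closedBall_self (half_pos hδ).le⟩
    ⟨hu', by rw [mem_closedBall, dist_eq_norm]; exact hd⟩
  simpa [sub_sub, add_comm] using key

/-- second order expansion, uniform -/
lemma taylor2 (hU : IsOpen U) (hφ : ContDiffOn ℝ ∞ φ U) {r : ℝ} (hr : closedBall 0 r ⊆ U) :
    ∀ ε > 0, ∃ δ > 0, ∀ u ∈ ball (0 : E d) r, ∀ u' ∈ ball (0 : E d) r, ‖u' - u‖ ≤ δ →
      ‖φ u' - φ u - fderiv ℝ φ u (u' - u) -
        (1 / 2 : ℝ) • fderiv ℝ (fderiv ℝ φ) u (u' - u) (u' - u)‖ ≤ ε * ‖u' - u‖ ^ 2 := by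
  intro ε hε
  obtain ⟨δ, hδ, H⟩ := unif_of_cont (F := E d →L[ℝ] E d →L[ℝ] E n)
    (isCompact_closedBall (0 : E d) r) ((cont2 hU hφ).mono hr) ε hε
  refine ⟨δ / 2, half_pos hδ, fun u hu u' hu' hd => ?_⟩
  set L := fderiv ℝ φ u with hL
  set D := fderiv ℝ (fderiv ℝ φ) u with hD
  -- expansion of the first derivative
  have step1 : ∀ y ∈ ball (0 : E d) r ∩ closedBall u (δ / 2),
      ‖fderiv ℝ φ y - L - D (y - u)‖ ≤ ε * ‖y - u‖ := by
    have hconv : Convex ℝ (ball (0 : E d) r ∩ closedBall u (δ / 2)) :=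
      (convex_ball _ _).inter (convex_closedBall _ _)
    have hder : ∀ y ∈ ball (0 : E d) r ∩ closedBall u (δ / 2),
        HasFDerivWithinAt (fun y => fderiv ℝ φ y - D (y - u)) (fderiv ℝ (fderiv ℝ φ) y - D)
          (ball (0 : E d) r ∩ closedBall u (δ / 2)) y := by
      intro y hy
      have h1 := hasF2 hU hφ (hr (ball_subset_closedBall hy.1))
      have h2 : HasFDerivAt (fun y => D (y - u)) D y := by
        have := D.hasFDerivAt.comp y ((hasFDerivAt_id y).sub_const u)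
        rw [ContinuousLinearMap.comp_id] at this
        exact this
      exact (h1.sub h2).hasFDerivWithinAt
    have hbd : ∀ y ∈ ball (0 : E d) r ∩ closedBall u (δ / 2),
        ‖fderiv ℝ (fderiv ℝ φ) y - D‖ ≤ ε := by
      intro y hy
      have : dist y u < δ := lt_of_le_of_lt (mem_closedBall.1 hy.2) (half_lt_self hδ)
      rw [dist_eq_norm] at this
      exact (H y (ball_subset_closedBall hy.1) u (ball_subset_closedBall hu) this).le
    intro y hy
    have key := hconv.norm_image_sub_le_of_norm_hasFDerivWithin_le hder hbd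
      (x := u) (y := y) ⟨hu, mem_closedBall_self (half_pos hδ).le⟩ hy
    simp only [sub_self, map_zero, sub_zero] at key
    rwa [sub_right_comm] at key
  have hconv : Convex ℝ (ball (0 : E d) r ∩ closedBall u ‖u' - u‖) :=
    (convex_ball _ _).inter (convex_closedBall _ _)
  have hder : ∀ y ∈ ball (0 : E d) r ∩ closedBall u ‖u' - u‖,
      HasFDerivWithinAt (fun y => φ y - L (y - u) - (1 / 2 : ℝ) • D (y - u) (y - u))
        (fderiv ℝ φ y - L - D (y - u)) (ball (0 : E d) r ∩ closedBall u ‖u' - u‖) y := by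
    intro y hy
    have h1 := hasF1 hU hφ (hr (ball_subset_closedBall hy.1))
    have h0 : HasFDerivAt (fun y : E d => y - u) (ContinuousLinearMap.id ℝ (E d)) y :=
      (hasFDerivAt_id y).sub_const u
    have h2 : HasFDerivAt (fun y => L (y - u)) L y := by
      have := L.hasFDerivAt.comp y h0
      rw [ContinuousLinearMap.comp_id] at this
      exact this
    have h3 : HasFDerivAt (fun y => D (y - u)) D y := by
      have := D.hasFDerivAt.comp y h0
      rw [ContinuousLinearMap.comp_id] at this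
      exact this
    have h4 := (h3.clm_apply h0).const_smul (1 / 2 : ℝ)
    have h5 := (h1.sub h2).sub h4
    refine HasFDerivAt.hasFDerivWithinAt (HasFDerivAt.congr_fderiv h5 ?_)
    ext1 w
    have hs : D w (y - u) = D (y - u) w :=
      symm2 hU hφ (hr (ball_subset_closedBall hu)) w (y - u)
    simp only [sub_apply, smul_apply,
      add_apply, ContinuousLinearMap.comp_apply, ContinuousLinearMap.id_apply,
      ContinuousLinearMap.flip_apply, hs]
    rw [← two_smul ℝ (D (y - u) w), smul_smul]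
    norm_num
  have hbd : ∀ y ∈ ball (0 : E d) r ∩ closedBall u ‖u' - u‖,
      ‖fderiv ℝ φ y - L - D (y - u)‖ ≤ ε * ‖u' - u‖ := by
    intro y hy
    have h1 : ‖y - u‖ ≤ ‖u' - u‖ := by rw [← dist_eq_norm]; exact hy.2
    exact (step1 y ⟨hy.1, by rw [mem_closedBall, dist_eq_norm]; exact h1.trans hd⟩).trans
      (mul_le_mul_of_nonneg_left h1 hε.le)
  have key := hconv.norm_image_sub_le_of_norm_hasFDerivWithin_le hder hbd
    (x := u) (y := u') ⟨hu, mem_closedBall_self (norm_nonneg _)⟩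
    ⟨hu', by rw [mem_closedBall, dist_eq_norm]⟩
  simp only [sub_self, map_zero, sub_zero, smul_zero] at key
  calc _ = ‖φ u' - L (u' - u) - (1 / 2 : ℝ) • D (u' - u) (u' - u) - φ u‖ := by
        congr 1; abel
    _ ≤ _ := key
    _ = _ := by ring

end

end F7H
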