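import Mathlib
import Pool.Agent.Lib.MP_f7aa1b_gt.F1b
import Pool.Agent.Lib.MP_f7aa1b_gt.H.DGeom

/-!
# A compact smooth submanifold in the sense of `IsSubmfd` satisfies `GeomM`
-/

set_option autoImplicit false

open Set Filter Topology Metric
open scoped ContDiff RealInnerProductSpace

namespace MPf7aa

/-- orthogonal projection onto the (span of the) tangent space -/
noncomputable def PrM {n : ℕ} (M : Set (E n)) (x : E n) : E n →L[ℝ] E n :=
  (Submodule.span ℝ (TanSet M x)).starProjection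

variable {n d : ℕ}

theorem PrM_idem (M : Set (E n)) (x v : E n) : PrM M x (PrM M x v) = PrM M x v := by
  unfold PrM
  rw [Submodule.starProjection_eq_self_iff]
  exact Submodule.starProjection_apply_mem _ _

theorem PrM_symm (M : Set (E n)) (x u v : E n) : inner ℝ (PrM M x u) v = inner ℝ u (PrM M x v) :=
  Submodule.inner_starProjection_left_eq_right _ u v

theorem PrM_sub_le (M : Set (E n)) (x z : E n) : ‖z - PrM M x z‖ ≤ ‖z‖ := by
  have h := (Submodule.span ℝ (TanSet M x)).starProjection_minimal z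
  have h2 : ‖z - (Submodule.span ℝ (TanSet M x)).starProjection z‖ ≤ ‖z - ((0 : Submodule.span ℝ (TanSet M x)) : E n)‖ := by
    rw [h]
    exact ciInf_le ⟨0, by rintro _ ⟨y, rfl⟩; exact norm_nonneg _⟩ (0 : Submodule.span ℝ (TanSet M x))
  rw [Submodule.coe_zero, sub_zero] at h2
  exact h2

/-- the tangent space in a chart -/
theorem span_tanSet_chart {M : Set (E n)} {p : E n} {U : Set (E d)} {φ : E d → E n}
    (h : IsChart d M p U φ) {u : E d} (hu : u ∈ U) :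
    Submodule.span ℝ (TanSet M (φ u)) = LinearMap.range (fderiv ℝ φ u : E d →ₗ[ℝ] E n) := by
  rw [tanSet_chart h hu]
  have : range (fderiv ℝ φ u) = ((LinearMap.range (fderiv ℝ φ u : E d →ₗ[ℝ] E n) : Submodule ℝ (E n)) : Set (E n)) := by
    ext v
    simp
  rw [this, Submodule.span_eq]

theorem PrM_eq_self_chart {M : Set (E n)} {p : E n} {U : Set (E d)} {φ : E d → E n}
    (h : IsChart d M p U φ) {u : E d} (hu : u ∈ U) (v : E n) :
    PrM M (φ u) v = v ↔ ∃ y, fderiv ℝ φ u y = v := by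
  unfold PrM
  rw [Submodule.starProjection_eq_self_iff, span_tanSet_chart h hu]
  simp

/-- the tangent space is the range of the projection -/
theorem mem_tanSet_iff {M : Set (E n)} (hM : IsSubmfd d M) {x : E n} (hx : x ∈ M) (v : E n) :
    v ∈ TanSet M x ↔ PrM M x v = v := by
  obtain ⟨U, φ, h⟩ := hM x hx
  have h1 := PrM_eq_self_chart h h.zero v
  have h2 := tanSet_chart h h.zero
  rw [h.base] at h1 h2
  rw [h1, h2]
  rfl

theorem finrank_span_tanSet {M : Set (E n)} (hM : IsSubmfd d M) {x : E n} (hx : x ∈ M) :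
    Module.finrank ℝ (Submodule.span ℝ (TanSet M x)) = d := by
  obtain ⟨U, φ, h⟩ := hM x hx
  have h1 := span_tanSet_chart h h.zero
  rw [h.base] at h1
  rw [h1, LinearMap.finrank_range_of_inj (h.imm 0 h.zero)]
  simp

/-- uniform estimates in a chart -/
theorem chart_estimates {M : Set (E n)} {p : E n} {U : Set (E d)} {φ : E d → E n}
    (h : IsChart d M p U φ) : ∃ R K B : ℝ, 0 < R ∧ 0 < K ∧ 0 < B ∧ ball (0 : E d) R ⊆ U ∧
      (∀ u ∈ ball (0 : E d) R, ∀ w ∈ ball (0 : E d) R,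
        ‖φ w - φ u - fderiv ℝ φ u (w - u)‖ ≤ B * ‖w - u‖ ^ 2) ∧
      (∀ u ∈ ball (0 : E d) R, ∀ w ∈ ball (0 : E d) R, ‖w - u‖ ≤ K * ‖φ w - φ u‖) ∧
      (∀ u ∈ ball (0 : E d) R, ∀ v, ‖v‖ ≤ K * ‖fderiv ℝ φ u v‖) ∧
      ∀ u ∈ ball (0 : E d) R, ∀ w ∈ ball (0 : E d) R, ‖fderiv ℝ φ w - fderiv ℝ φ u‖ ≤ B * ‖w - u‖ := by
  obtain ⟨K0, hK0, hK⟩ := F1b_below h h.zero
  have hUn : U ∈ 𝓝 (0 : E d) := h.op.mem_nhds h.zero
  have hcd : ContDiffAt ℝ ∞ φ 0 := h.smooth.contDiffAt hUn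
  have hcd1 : ContDiffAt ℝ 1 (fderiv ℝ φ) 0 := hcd.fderiv_right (m := 1) (by norm_cast)
  obtain ⟨B0, t, ht, hBt⟩ := hcd1.exists_lipschitzOnWith
  obtain ⟨R1, hR1, hR1t⟩ := Metric.mem_nhds_iff.1 (Filter.inter_mem ht hUn)
  set B : ℝ := B0 + 1 with hB
  have hBpos : 0 < B := by positivity
  have hlip : ∀ u ∈ ball (0 : E d) R1, ∀ w ∈ ball (0 : E d) R1,
      ‖fderiv ℝ φ w - fderiv ℝ φ u‖ ≤ B * ‖w - u‖ := by
    intro u hu w hw
    have := hBt.dist_le_mul w (hR1t hw).1 u (hR1t hu).1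
    rw [dist_eq_norm, dist_eq_norm] at this
    refine this.trans ?_
    rw [hB]
    apply mul_le_mul_of_nonneg_right _ (norm_nonneg _)
    linarith
  have hU1 : ball (0 : E d) R1 ⊆ U := fun u hu => (hR1t hu).2
  have htay : ∀ u ∈ ball (0 : E d) R1, ∀ w ∈ ball (0 : E d) R1,
      ‖φ w - φ u - fderiv ℝ φ u (w - u)‖ ≤ B * ‖w - u‖ ^ 2 := by
    intro u hu w hw
    have hseg : segment ℝ u w ⊆ ball (0 : E d) R1 := (convex_ball _ _).segment_subset hu hw
    have h1 := (convex_segment (𝕜 := ℝ) u w).norm_image_sub_le_of_norm_hasFDerivWithin_le'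
      (f := φ) (f' := fderiv ℝ φ) (φ := fderiv ℝ φ u) (C := B * ‖w - u‖) (x := u) (y := w)
      (fun x hx => (F1b_hasFDerivAt h (hU1 (hseg hx))).hasFDerivWithinAt)
      (fun x hx => (hlip u hu x (hseg hx)).trans (by
        apply mul_le_mul_of_nonneg_left _ hBpos.le
        obtain ⟨a, b, ha, hb, hab, rfl⟩ := hx
        have e : a • u + b • w - u = b • (w - u) := by
          have ha' : a = 1 - b := by linarith
          rw [ha', smul_sub, sub_smul, one_smul]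
          abel
        rw [e, norm_smul, Real.norm_of_nonneg hb]
        exact mul_le_of_le_one_left (norm_nonneg _) (by linarith)))
      (left_mem_segment ℝ u w) (right_mem_segment ℝ u w)
    calc _ ≤ B * ‖w - u‖ * ‖w - u‖ := h1
      _ = B * ‖w - u‖ ^ 2 := by ring
  set R : ℝ := min R1 (1 / (8 * K0 * B)) with hR
  have hRpos : 0 < R := lt_min hR1 (by positivity)
  have hRB : B * R ≤ 1 / (8 * K0) := by
    have : R ≤ 1 / (8 * K0 * B) := min_le_right _ _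
    calc B * R ≤ B * (1 / (8 * K0 * B)) := mul_le_mul_of_nonneg_left this hBpos.le
      _ = 1 / (8 * K0) := by field_simp
  have hsub : ball (0 : E d) R ⊆ ball (0 : E d) R1 := ball_subset_ball (min_le_left _ _)
  have hbelow : ∀ u ∈ ball (0 : E d) R, ∀ v, ‖v‖ ≤ 2 * K0 * ‖fderiv ℝ φ u v‖ := by
    intro u hu v
    have h1 := hlip 0 (by simpa using hR1) u (hsub hu)
    rw [sub_zero] at h1
    have hu' : ‖u‖ < R := by simpa using hu
    have h2 : ‖fderiv ℝ φ u - fderiv ℝ φ 0‖ ≤ 1 / (8 * K0) :=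
      h1.trans ((mul_le_mul_of_nonneg_left hu'.le hBpos.le).trans hRB)
    have h3 : ‖(fderiv ℝ φ u - fderiv ℝ φ 0) v‖ ≤ 1 / (8 * K0) * ‖v‖ :=
      (ContinuousLinearMap.le_opNorm _ _).trans (mul_le_mul_of_nonneg_right h2 (norm_nonneg _))
    have h4 : ‖fderiv ℝ φ 0 v‖ ≤ ‖fderiv ℝ φ u v‖ + 1 / (8 * K0) * ‖v‖ := by
      have e : fderiv ℝ φ 0 v = fderiv ℝ φ u v - (fderiv ℝ φ u - fderiv ℝ φ 0) v := by
        rw [sub_apply]
        abel
      rw [e]
      exact (norm_sub_le _ _).trans (by gcongr)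
    have h5 := hK v
    have h6 : K0 * ‖fderiv ℝ φ 0 v‖ ≤ K0 * (‖fderiv ℝ φ u v‖ + 1 / (8 * K0) * ‖v‖) :=
      mul_le_mul_of_nonneg_left h4 hK0.le
    have h7 : K0 * (1 / (8 * K0) * ‖v‖) = ‖v‖ / 8 := by field_simp
    have h8 : 0 ≤ ‖v‖ := norm_nonneg _
    nlinarith
  refine ⟨R, 4 * K0, B, hRpos, by positivity, hBpos, hsub.trans hU1,
    fun u hu w hw => htay u (hsub hu) w (hsub hw), ?_, ?_, fun u hu w hw => hlip u (hsub hu) w (hsub hw)⟩
  · intro u hu w hw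
    have h1 := htay u (hsub hu) w (hsub hw)
    have h2 := hbelow u hu (w - u)
    have hu' : ‖u‖ < R := by simpa using hu
    have hw' : ‖w‖ < R := by simpa using hw
    have h3 : ‖w - u‖ ≤ 2 * R := (norm_sub_le _ _).trans (by linarith)
    have h4 : B * ‖w - u‖ ^ 2 ≤ 1 / (4 * K0) * ‖w - u‖ := by
      have h5 : B * ‖w - u‖ ≤ 1 / (4 * K0) := by
        calc B * ‖w - u‖ ≤ B * (2 * R) := mul_le_mul_of_nonneg_left h3 hBpos.le
          _ = 2 * (B * R) := by ring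
          _ ≤ 2 * (1 / (8 * K0)) := by linarith
          _ = 1 / (4 * K0) := by field_simp; norm_num
      calc B * ‖w - u‖ ^ 2 = (B * ‖w - u‖) * ‖w - u‖ := by ring
        _ ≤ _ := mul_le_mul_of_nonneg_right h5 (norm_nonneg _)
    have h5 : ‖fderiv ℝ φ u (w - u)‖ ≤ ‖φ w - φ u‖ + 1 / (4 * K0) * ‖w - u‖ := by
      have e : fderiv ℝ φ u (w - u) = (φ w - φ u) - (φ w - φ u - fderiv ℝ φ u (w - u)) := by abel
      rw [e]
      refine (norm_sub_le _ _).trans ?_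
      linarith
    have h6 : 2 * K0 * ‖fderiv ℝ φ u (w - u)‖ ≤ 2 * K0 * (‖φ w - φ u‖ + 1 / (4 * K0) * ‖w - u‖) :=
      mul_le_mul_of_nonneg_left h5 (by positivity)
    have h7 : 2 * K0 * (1 / (4 * K0) * ‖w - u‖) = ‖w - u‖ / 2 := by field_simp; norm_num
    linarith
  · intro u hu v
    have h1 := hbelow u hu v
    have h2 : 0 ≤ K0 * ‖fderiv ℝ φ u v‖ := by positivity
    linarith

/-- `GeomM` locally -/
theorem geom_local {M : Set (E n)} {p : E n} {U : Set (E d)} {φ : E d → E n}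
    (h : IsChart d M p U φ) : ∃ C δ : ℝ, 0 < C ∧ 0 < δ ∧ ∀ a ∈ M, dist a p < δ →
      (∀ b ∈ M, dist b a < δ → ‖b - a - PrM M a (b - a)‖ ≤ C * ‖b - a‖ ^ 2) ∧
      ∀ v, PrM M a v = v → ‖v‖ ≤ δ → ∃ b ∈ M, ‖b - (a + v)‖ ≤ C * ‖v‖ ^ 2 := by
  obtain ⟨R, K, B, hR, hK, hB, hRU, htay, hinj, hbel, -⟩ := chart_estimates h
  have hsub : ball (0 : E d) (R / 2) ⊆ ball (0 : E d) R := ball_subset_ball (by linarith)
  obtain ⟨W, hW, hWφ⟩ := h.homeo (ball (0 : E d) (R / 2)) (hsub.trans hRU) isOpen_ball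
  have hpW : p ∈ W := by
    have : φ 0 ∈ φ '' ball (0 : E d) (R / 2) := ⟨0, by simpa using by positivity, rfl⟩
    rw [hWφ, h.base] at this
    exact this.2
  obtain ⟨r, hr, hrW⟩ := Metric.mem_nhds_iff.1 (hW.mem_nhds hpW)
  have hpar : ∀ a ∈ M, dist a p < r → ∃ u ∈ ball (0 : E d) (R / 2), φ u = a := by
    intro a ha hap
    have : a ∈ M ∩ W := ⟨ha, hrW hap⟩
    rw [← hWφ] at this
    exact this
  refine ⟨B * K ^ 2, min (r / 2) (R / (2 * K) / 2), by positivity, by positivity, ?_⟩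
  intro a ha hap
  have hδr : min (r / 2) (R / (2 * K) / 2) ≤ r / 2 := min_le_left _ _
  have hδR : min (r / 2) (R / (2 * K) / 2) ≤ R / (2 * K) / 2 := min_le_right _ _
  obtain ⟨u, hu, rfl⟩ := hpar a ha (by linarith)
  refine ⟨fun b hb hba => ?_, fun v hv hvn => ?_⟩
  · obtain ⟨w, hw, rfl⟩ := hpar b hb (by
      have := dist_triangle b (φ u) p
      linarith)
    have e : φ w - φ u - PrM M (φ u) (φ w - φ u) =
        (φ w - φ u - fderiv ℝ φ u (w - u)) - PrM M (φ u) (φ w - φ u - fderiv ℝ φ u (w - u)) := by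
      have h1 : PrM M (φ u) (fderiv ℝ φ u (w - u)) = fderiv ℝ φ u (w - u) :=
        (PrM_eq_self_chart h (hRU (hsub hu)) _).2 ⟨_, rfl⟩
      rw [map_sub (PrM M (φ u)) (φ w - φ u), h1]
      abel
    rw [e]
    refine (PrM_sub_le _ _ _).trans ((htay u (hsub hu) w (hsub hw)).trans ?_)
    have h2 : ‖w - u‖ ^ 2 ≤ (K * ‖φ w - φ u‖) ^ 2 :=
      pow_le_pow_left₀ (norm_nonneg _) (hinj u (hsub hu) w (hsub hw)) 2
    calc B * ‖w - u‖ ^ 2 ≤ B * (K * ‖φ w - φ u‖) ^ 2 := mul_le_mul_of_nonneg_left h2 hB.le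
      _ = B * K ^ 2 * ‖φ w - φ u‖ ^ 2 := by ring
  · obtain ⟨y, hy⟩ := (PrM_eq_self_chart h (hRU (hsub hu)) v).1 hv
    have hyn : ‖y‖ ≤ K * ‖v‖ := by
      have := hbel u (hsub hu) y
      rwa [hy] at this
    have hu' : ‖u‖ < R / 2 := by simpa using hu
    have hyR : ‖y‖ < R / 2 := by
      have h1 : K * ‖v‖ ≤ K * (R / (2 * K) / 2) := mul_le_mul_of_nonneg_left (hvn.trans hδR) hK.le
      have h2 : K * (R / (2 * K) / 2) = R / 4 := by field_simp; norm_num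
      linarith
    have hw : u + y ∈ ball (0 : E d) R := by
      rw [mem_ball_zero_iff]
      exact (norm_add_le _ _).trans_lt (by linarith)
    refine ⟨φ (u + y), F1b_mem h (hRU hw), ?_⟩
    have h1 := htay u (hsub hu) (u + y) hw
    rw [add_sub_cancel_left, hy] at h1
    have e : φ (u + y) - (φ u + v) = φ (u + y) - φ u - v := by abel
    rw [e]
    refine h1.trans ?_
    have h2 : ‖y‖ ^ 2 ≤ (K * ‖v‖) ^ 2 := pow_le_pow_left₀ (norm_nonneg _) hyn 2
    calc B * ‖y‖ ^ 2 ≤ B * (K * ‖v‖) ^ 2 := mul_le_mul_of_nonneg_left h2 hB.le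
      _ = B * K ^ 2 * ‖v‖ ^ 2 := by ring

/-- **`GeomM` for a compact smooth submanifold** -/
theorem geomM_of_submfd {M : Set (E n)} (hc : IsCompact M) (hM : IsSubmfd d M) :
    F7D.GeomM M (PrM M) := by
  obtain ⟨C, δ, hC, hδ, H⟩ : ∃ C δ : ℝ, 0 < C ∧ 0 < δ ∧ ∀ a ∈ M,
      (∀ b ∈ M, dist b a < δ → ‖b - a - PrM M a (b - a)‖ ≤ C * ‖b - a‖ ^ 2) ∧
      ∀ v, PrM M a v = v → ‖v‖ ≤ δ → ∃ b ∈ M, ‖b - (a + v)‖ ≤ C * ‖v‖ ^ 2 := by
    have key := hc.induction_on (p := fun S => ∃ C δ : ℝ, 0 < C ∧ 0 < δ ∧ ∀ a ∈ S, a ∈ M →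
      (∀ b ∈ M, dist b a < δ → ‖b - a - PrM M a (b - a)‖ ≤ C * ‖b - a‖ ^ 2) ∧
      ∀ v, PrM M a v = v → ‖v‖ ≤ δ → ∃ b ∈ M, ‖b - (a + v)‖ ≤ C * ‖v‖ ^ 2) ?_ ?_ ?_ ?_
    · obtain ⟨C, δ, hC, hδ, H⟩ := key
      exact ⟨C, δ, hC, hδ, fun a ha => H a ha ha⟩
    · exact ⟨1, 1, one_pos, one_pos, fun a ha => ha.elim⟩
    · rintro s t hst ⟨C, δ, hC, hδ, H⟩
      exact ⟨C, δ, hC, hδ, fun a ha => H a (hst ha)⟩
    · rintro s t ⟨C1, δ1, hC1, hδ1, H1⟩ ⟨C2, δ2, hC2, hδ2, H2⟩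
      refine ⟨C1 + C2, min δ1 δ2, by positivity, lt_min hδ1 hδ2, ?_⟩
      rintro a (ha | ha) haM
      · refine ⟨fun b hb hba => ?_, fun v hv hvn => ?_⟩
        · refine ((H1 a ha haM).1 b hb (hba.trans_le (min_le_left _ _))).trans ?_
          exact mul_le_mul_of_nonneg_right (by linarith) (sq_nonneg _)
        · obtain ⟨b, hb, hb'⟩ := (H1 a ha haM).2 v hv (hvn.trans (min_le_left _ _))
          refine ⟨b, hb, hb'.trans ?_⟩
          exact mul_le_mul_of_nonneg_right (by linarith) (sq_nonneg _)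
      · refine ⟨fun b hb hba => ?_, fun v hv hvn => ?_⟩
        · refine ((H2 a ha haM).1 b hb (hba.trans_le (min_le_right _ _))).trans ?_
          exact mul_le_mul_of_nonneg_right (by linarith) (sq_nonneg _)
        · obtain ⟨b, hb, hb'⟩ := (H2 a ha haM).2 v hv (hvn.trans (min_le_right _ _))
          refine ⟨b, hb, hb'.trans ?_⟩
          exact mul_le_mul_of_nonneg_right (by linarith) (sq_nonneg _)
    · intro p hp
      obtain ⟨U, φ, h⟩ := hM p hp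
      obtain ⟨C, δ, hC, hδ, H⟩ := geom_local h
      exact ⟨ball p δ, mem_nhdsWithin_of_mem_nhds (ball_mem_nhds p hδ), C, δ, hC, hδ,
        fun a ha haM => H a haM ha⟩
  refine ⟨hc, fun a _ v => PrM_idem M a v, fun a _ u v => PrM_symm M a u v, ⟨C + 1 / δ, ?_⟩,
    ⟨C, δ, hδ, fun a ha v hv hvn => (H a ha).2 v hv hvn⟩⟩
  intro a ha b hb
  by_cases hd : dist b a < δ
  · refine ((H a ha).1 b hb hd).trans ?_
    apply mul_le_mul_of_nonneg_right _ (sq_nonneg _)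
    have : 0 < 1 / δ := by positivity
    linarith
  · refine (PrM_sub_le _ _ _).trans ?_
    rw [not_lt, dist_eq_norm] at hd
    have h1 : ‖b - a‖ ≤ 1 / δ * ‖b - a‖ ^ 2 := by
      rw [div_mul_eq_mul_div, one_mul, le_div_iff₀ hδ, sq]
      exact mul_le_mul_of_nonneg_left hd (norm_nonneg _)
    refine h1.trans ?_
    apply mul_le_mul_of_nonneg_right _ (sq_nonneg _)
    linarith

end MPf7aa
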