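import Mathlib
import Pool.Agent.Lib.MP_f7aa1b_gt.H.GeomOf
import Pool.Agent.Lib.MP_f7aa1b_gt.H.G1a
import Pool.Agent.Lib.MP_f7aa1b_gt.H.G1b

/-!
# The shape operator near a point, in a chart
-/

set_option autoImplicit false

open Set Filter Topology Metric
open scoped ContDiff

namespace F7H

open MPf7aa (E IsChart IsSubmfd TanSet UNB PrM)

variable {n d : ℕ}

theorem PrM_chart {M : Set (E n)} {p : E n} {U : Set (E d)} {φ : E d → E n}
    (h : IsChart d M p U φ) {u : E d} (hu : u ∈ U) (v : E n) :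
    PrM M (φ u) v = fderiv ℝ φ u (linv (fderiv ℝ φ u) v) := by
  unfold PrM
  apply Submodule.eq_starProjection_of_mem_of_inner_eq_zero
  · rw [MPf7aa.span_tanSet_chart h hu]; exact ⟨_, rfl⟩
  · intro w hw
    rw [MPf7aa.span_tanSet_chart h hu] at hw
    obtain ⟨y, rfl⟩ := hw
    show inner ℝ (v - fderiv ℝ φ u (linv (fderiv ℝ φ u) v)) (fderiv ℝ φ u y) = 0
    rw [inner_sub_left, linv_inner (h.imm u hu), sub_self]

/-- algebraic properties of the shape operator and the Weingarten equation -/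
structure ShAlg (M : Set (E n)) (z : E n × E n) (A : E n →L[ℝ] E n) : Prop where
  symm : ∀ v w, inner ℝ (A v) w = inner ℝ v (A w)
  APr : ∀ w, A (PrM M z.1 w) = A w
  PrA : ∀ w, PrM M z.1 (A w) = A w
  wein : ∀ w ∈ TanSet (UNB M) z,
    PrM M z.1 w.1 = w.1 ∧ inner ℝ w.2 z.2 = 0 ∧ PrM M z.1 w.2 = -A w.1

theorem shAlg_chart {M : Set (E n)} {p : E n} {U : Set (E d)} {φ : E d → E n}
    (h : IsChart d M p U φ) {u : E d} (hu : u ∈ U) {z : E n × E n}
    (hzu : φ u = z.1) : ShAlg M z (shp (fderiv ℝ φ u) (fderiv ℝ (fderiv ℝ φ) u) z.2) := by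
  have hi := h.imm u hu
  have hPr : ∀ v, PrM M z.1 v = fderiv ℝ φ u (linv (fderiv ℝ φ u) v) := by
    intro v; rw [← hzu]; exact PrM_chart h hu v
  have hlPr : ∀ v, linv (fderiv ℝ φ u) (PrM M z.1 v) = linv (fderiv ℝ φ u) v := by
    intro v; rw [hPr, linv_mul hi]
  refine ⟨fun v w => ?_, fun w => ?_, fun w => ?_, ?_⟩
  · rw [shp_inner, symm2 h.op h.smooth hu, ← shp_inner, real_inner_comm]
  · apply ext_inner_right ℝ
    intro w'
    rw [shp_inner, shp_inner, hlPr]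
  · apply ext_inner_right ℝ
    intro w'
    rw [MPf7aa.PrM_symm, shp_inner, shp_inner, hlPr]
  · rintro w ⟨γ, hγ0, hγ, hS⟩
    have hγ1 : HasDerivAt (fun t => (γ t).1) w.1 0 := by
      have := hγ.hasFDerivAt.fst
      exact this.hasDerivAt.congr_deriv (by simp)
    have hγ2 : HasDerivAt (fun t => (γ t).2) w.2 0 := by
      have := hγ.hasFDerivAt.snd
      exact this.hasDerivAt.congr_deriv (by simp)
    have hT : w.1 ∈ TanSet M z.1 :=
      ⟨fun t => (γ t).1, by simp only [hγ0], hγ1, hS.mono fun t ht => ht.1⟩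
    have hT' := hT
    rw [← hzu, MPf7aa.tanSet_chart h hu] at hT'
    obtain ⟨y, hy⟩ := hT'
    obtain ⟨c, hc0, hc, hcS⟩ := MPf7aa.curve_lift h hu (γ := fun t => (γ t).1) (y := y)
      (by simp only [hγ0, hzu]) (by rw [hy]; exact hγ1) (hS.mono fun t ht => ht.1)
    have hly : linv (fderiv ℝ φ u) w.1 = y := by rw [← hy, linv_mul hi]
    refine ⟨?_, ?_, ?_⟩
    · rw [hPr, hly, hy]
    · have h1 : HasDerivAt (fun t => inner ℝ (γ t).2 (γ t).2) (inner ℝ (γ 0).2 w.2 + inner ℝ w.2 (γ 0).2) 0 :=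
        hγ2.inner ℝ hγ2
      have h2 : HasDerivAt (fun t => inner ℝ (γ t).2 (γ t).2) (0 : ℝ) 0 := by
        refine (hasDerivAt_const (0 : ℝ) (1 : ℝ)).congr_of_eventuallyEq ?_
        filter_upwards [hS] with t ht
        rw [real_inner_self_eq_norm_sq, ht.2.1]; norm_num
      have h3 := h1.unique h2
      rw [hγ0, real_inner_comm] at h3
      linarith
    · -- the Weingarten equation
      have hfd : HasDerivAt (fun t => fderiv ℝ φ (c t)) (fderiv ℝ (fderiv ℝ φ) u y) 0 := by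
        have h1 := hasF2 h.op h.smooth hu
        rw [← hc0] at h1
        have := h1.comp_hasDerivAt (0 : ℝ) hc
        rw [hc0] at this
        exact this
      have key : ∀ a : E d, inner ℝ (fderiv ℝ (fderiv ℝ φ) u y a) z.2 +
          inner ℝ (fderiv ℝ φ u a) w.2 = 0 := by
        intro a
        have hfa : HasDerivAt (fun t => fderiv ℝ φ (c t) a) (fderiv ℝ (fderiv ℝ φ) u y a) 0 := by
          have := hfd.clm_apply (hasDerivAt_const (0 : ℝ) a)
          simpa using this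
        have h1 := hfa.inner ℝ hγ2
        have h2 : HasDerivAt (fun t => inner ℝ (fderiv ℝ φ (c t) a) (γ t).2) (0 : ℝ) 0 := by
          refine (hasDerivAt_const (0 : ℝ) (0 : ℝ)).congr_of_eventuallyEq ?_
          filter_upwards [hS, hcS] with t ht ht'
          apply ht.2.2
          rw [← ht'.2, MPf7aa.tanSet_chart h ht'.1]
          exact ⟨a, rfl⟩
        have h3 := h1.unique h2
        rw [hγ0, hc0] at h3
        linarith
      apply ext_inner_right ℝ
      intro w'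
      rw [MPf7aa.PrM_symm, hPr, inner_neg_left, shp_inner, hly]
      have := key (linv (fderiv ℝ φ u) w')
      rw [real_inner_comm _ w.2, real_inner_comm _ z.2]
      linarith

/-- the shape operator near a point, with a uniform second order expansion of the submanifold -/
theorem shp_local {M : Set (E n)} {x0 : E n} {U : Set (E d)} {φ : E d → E n}
    (h : IsChart d M x0 U φ) :
    ∃ ρ > 0, ∃ A0 : E n × E n → E n →L[ℝ] E n,
      ContinuousOn A0 (UNB M ∩ {z | z.1 ∈ ball x0 ρ}) ∧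
      (∀ z ∈ UNB M, z.1 ∈ ball x0 ρ → ShAlg M z (A0 z)) ∧
      (∀ ε > 0, ∃ δ > 0, ∀ z ∈ UNB M, z.1 ∈ ball x0 ρ → ∀ x ∈ M, ‖x - z.1‖ ≤ δ →
        |2 * inner ℝ (x - z.1) z.2 - inner ℝ (A0 z (x - z.1)) (x - z.1)| ≤
          ε * ‖x - z.1‖ ^ 2) := by
  classical
  obtain ⟨R, K, B, hR, hK, hB, hRU, htay, hinj, hbel, -⟩ := MPf7aa.chart_estimates h
  set r := R / 2 with hr
  have hr0 : 0 < r := half_pos hR
  have hcR : closedBall (0 : E d) r ⊆ ball (0 : E d) R := closedBall_subset_ball (by rw [hr]; linarith)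
  have hbR : ball (0 : E d) r ⊆ ball (0 : E d) R := ball_subset_closedBall.trans hcR
  obtain ⟨CD, hCD⟩ := IsCompact.exists_bound_of_continuousOn (E := E d →L[ℝ] E d →L[ℝ] E n)
    (isCompact_closedBall (0 : E d) r) ((cont2 h.op h.smooth).mono (hcR.trans hRU))
  obtain ⟨W, hW, hWφ⟩ := h.homeo (ball (0 : E d) r) (hbR.trans hRU) isOpen_ball
  have hx0W : x0 ∈ W := by
    have : x0 ∈ φ '' ball (0 : E d) r := ⟨0, mem_ball_self hr0, h.base⟩
    rw [hWφ] at this
    exact this.2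
  obtain ⟨ρ1, hρ1, hρW⟩ := Metric.isOpen_iff.1 hW x0 hx0W
  -- the inverse chart
  have hg : ∀ x ∈ M, x ∈ ball x0 ρ1 → ∃ u ∈ ball (0 : E d) r, φ u = x := by
    intro x hx hx'
    have : x ∈ φ '' ball (0 : E d) r := by rw [hWφ]; exact ⟨hx, hρW hx'⟩
    obtain ⟨u, hu, rfl⟩ := this
    exact ⟨u, hu, rfl⟩
  choose! g hg1 hg2 using hg
  have hgL : ∀ x ∈ M, x ∈ ball x0 ρ1 → ∀ y ∈ M, y ∈ ball x0 ρ1 → ‖g y - g x‖ ≤ K * ‖y - x‖ := by
    intro x hx hx' y hy hy'
    have := hinj (g x) (hbR (hg1 x hx hx')) (g y) (hbR (hg1 y hy hy'))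
    rwa [hg2 x hx hx', hg2 y hy hy'] at this
  have hgc : ContinuousOn g (M ∩ ball x0 ρ1) := by
    have : LipschitzOnWith (Real.toNNReal K) g (M ∩ ball x0 ρ1) := by
      apply LipschitzOnWith.of_dist_le_mul
      intro x hx y hy
      rw [dist_eq_norm, dist_eq_norm, Real.coe_toNNReal _ hK.le]
      exact hgL y hy.1 hy.2 x hx.1 hx.2
    exact this.continuousOn
  refine ⟨ρ1 / 2, half_pos hρ1, fun z => shp (fderiv ℝ φ (g z.1)) (fderiv ℝ (fderiv ℝ φ) (g z.1)) z.2,
    ?_, ?_, ?_⟩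
  · have hsub : ∀ z ∈ UNB M ∩ {z : E n × E n | z.1 ∈ ball x0 (ρ1 / 2)}, z.1 ∈ M ∩ ball x0 ρ1 :=
      fun z hz => ⟨hz.1.1, ball_subset_ball (half_le_self hρ1.le) hz.2⟩
    have hgz : ContinuousOn (fun z : E n × E n => g z.1)
        (UNB M ∩ {z : E n × E n | z.1 ∈ ball x0 (ρ1 / 2)}) :=
      hgc.comp continuous_fst.continuousOn hsub
    have hgU : MapsTo (fun z : E n × E n => g z.1)
        (UNB M ∩ {z : E n × E n | z.1 ∈ ball x0 (ρ1 / 2)}) U :=
      fun z hz => hRU (hbR (hg1 z.1 (hsub z hz).1 (hsub z hz).2))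
    exact shp_continuousOn ((cont1 h.op h.smooth).comp hgz hgU) (fun z hz => h.imm _ (hgU hz))
      ((cont2 h.op h.smooth).comp hgz hgU) continuous_snd.continuousOn
  · intro z hz hz'
    have hz1 : z.1 ∈ ball x0 ρ1 := ball_subset_ball (half_le_self hρ1.le) hz'
    exact shAlg_chart h (hRU (hbR (hg1 z.1 hz.1 hz1))) (hg2 z.1 hz.1 hz1)
  · intro ε hε
    have hCD0 : 0 ≤ CD := (norm_nonneg _).trans (hCD 0 (mem_closedBall_self hr0.le))
    obtain ⟨δ1, hδ1, H2⟩ := taylor2 h.op h.smooth (hcR.trans hRU) (ε / (4 * K ^ 2)) (by positivity)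
    -- the constant of the error term
    set Q := CD * (2 * (K * B) + (K * B) ^ 2) * K ^ 2 with hQ
    have hQ0 : 0 ≤ Q := by positivity
    set η := min (min δ1 1) (ε / (2 * (Q + 1))) with hη
    have hη0 : 0 < η := by positivity
    refine ⟨min (η / K) (ρ1 / 2), by positivity, fun z hz hz' x hx hxz => ?_⟩
    have hz1 : z.1 ∈ ball x0 ρ1 := ball_subset_ball (half_le_self hρ1.le) hz'
    have hx1 : x ∈ ball x0 ρ1 := by
      rw [mem_ball] at hz' ⊢
      have h1 : dist x z.1 ≤ ρ1 / 2 := by rw [dist_eq_norm]; exact hxz.trans (min_le_right _ _)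
      have := dist_triangle x z.1 x0
      linarith
    have hu := hg1 z.1 hz.1 hz1
    have hu' := hg1 x hx hx1
    have hφu := hg2 z.1 hz.1 hz1
    have hφu' := hg2 x hx hx1
    have hhK := hgL z.1 hz.1 hz1 x hx hx1
    set u := g z.1 with hudef
    set u' := g x with hu'def
    set L := fderiv ℝ φ u with hL
    set D := fderiv ℝ (fderiv ℝ φ) u with hD
    set a := u' - u with ha
    have hiL := h.imm u (hRU (hbR hu))
    have han : ‖a‖ ≤ η := by
      refine hhK.trans ?_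
      have := hxz.trans (min_le_left _ _)
      calc K * ‖x - z.1‖ ≤ K * (η / K) := mul_le_mul_of_nonneg_left this hK.le
        _ = η := by field_simp
    have haδ : ‖a‖ ≤ δ1 := han.trans ((min_le_left _ _).trans (min_le_left _ _))
    have ha1 : ‖a‖ ≤ 1 := han.trans ((min_le_left _ _).trans (min_le_right _ _))
    have haQ : ‖a‖ ≤ ε / (2 * (Q + 1)) := han.trans (min_le_right _ _)
    have hv : x - z.1 = φ u' - φ u := by rw [hφu, hφu']
    have e1 : ‖x - z.1 - L a‖ ≤ B * ‖a‖ ^ 2 := by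
      rw [hv]; exact htay u (hbR hu) u' (hbR hu')
    have e2 : ‖x - z.1 - L a - (1 / 2 : ℝ) • D a a‖ ≤ ε / (4 * K ^ 2) * ‖a‖ ^ 2 := by
      rw [hv]; exact H2 u hu u' hu' haδ
    set v := x - z.1 with hvdef
    clear_value v
    set q := linv L v - a with hq
    have hqn : ‖q‖ ≤ K * B * ‖a‖ ^ 2 := by
      have h1 : q = linv L (v - L a) := by rw [hq, map_sub, linv_mul hiL]
      have h2 : ‖linv L (v - L a)‖ ≤ K * ‖L (linv L (v - L a))‖ := hbel u (hbR hu) _
      have h3 : ‖L (linv L (v - L a))‖ ≤ ‖v - L a‖ := by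
        have h4 : inner ℝ (L (linv L (v - L a))) (L (linv L (v - L a))) ≤
            ‖v - L a‖ * ‖L (linv L (v - L a))‖ := by
          rw [linv_inner hiL]; exact real_inner_le_norm _ _
        rw [real_inner_self_eq_norm_sq] at h4
        by_contra hcon
        push Not at hcon
        have h5 : 0 < ‖L (linv L (v - L a))‖ := (norm_nonneg _).trans_lt hcon
        nlinarith
      rw [h1]
      calc _ ≤ K * ‖v - L a‖ := h2.trans (mul_le_mul_of_nonneg_left h3 hK.le)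
        _ ≤ K * (B * ‖a‖ ^ 2) := mul_le_mul_of_nonneg_left e1 hK.le
        _ = _ := by ring
    have hLperp : inner ℝ (L a) z.2 = 0 := by
      apply hz.2.2
      rw [← hφu, MPf7aa.tanSet_chart h (hRU (hbR hu))]
      exact ⟨a, rfl⟩
    have hξ : ‖z.2‖ = 1 := hz.2.1
    -- first part
    have p1 : |2 * inner ℝ v z.2 - inner ℝ z.2 (D a a)| ≤ ε / 2 * ‖v‖ ^ 2 := by
      have h1 : 2 * inner ℝ v z.2 - inner ℝ z.2 (D a a) =
          2 * inner ℝ (v - L a - (1 / 2 : ℝ) • D a a) z.2 := by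
        rw [inner_sub_left, inner_sub_left, hLperp, inner_smul_left, real_inner_comm (D a a) z.2]
        simp only [conj_trivial]
        ring
      rw [h1, abs_mul, abs_two]
      have h2 : |inner ℝ (v - L a - (1 / 2 : ℝ) • D a a) z.2| ≤ ε / (4 * K ^ 2) * ‖a‖ ^ 2 := by
        refine (abs_real_inner_le_norm _ _).trans ?_
        rw [hξ, mul_one]; exact e2
      have h3 : ‖a‖ ^ 2 ≤ K ^ 2 * ‖v‖ ^ 2 := by
        rw [← mul_pow]; exact pow_le_pow_left₀ (norm_nonneg _) hhK 2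
      calc 2 * |inner ℝ (v - L a - (1 / 2 : ℝ) • D a a) z.2|
          ≤ 2 * (ε / (4 * K ^ 2) * (K ^ 2 * ‖v‖ ^ 2)) := by
            apply mul_le_mul_of_nonneg_left _ (by norm_num)
            exact h2.trans (mul_le_mul_of_nonneg_left h3 (by positivity))
        _ = ε / 2 * ‖v‖ ^ 2 := by field_simp; ring
    have p2 : |inner ℝ z.2 (D a a) - inner ℝ (shp L D z.2 v) v| ≤ ε / 2 * ‖v‖ ^ 2 := by
      rw [shp_inner]
      have hS : linv L v = a + q := by rw [hq]; abel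
      have h1 : inner ℝ z.2 (D a a) - inner ℝ z.2 (D (linv L v) (linv L v)) =
          -inner ℝ z.2 (D a q + D q a + D q q) := by
        rw [hS, ← inner_sub_right, ← inner_neg_right]
        congr 1
        simp only [map_add, add_apply]
        abel
      rw [h1, abs_neg]
      have hDn : ‖D‖ ≤ CD := hCD u (ball_subset_closedBall hu)
      have hD2 : ∀ b c : E d, ‖D b c‖ ≤ CD * ‖b‖ * ‖c‖ := by
        intro b c
        refine (D.le_opNorm₂ b c).trans ?_
        gcongr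
      have h2 : ‖D a q + D q a + D q q‖ ≤ CD * (2 * (K * B) + (K * B) ^ 2) * ‖a‖ ^ 3 := by
        have t1 : ‖D a q‖ ≤ CD * (K * B) * ‖a‖ ^ 3 := by
          calc ‖D a q‖ ≤ CD * ‖a‖ * ‖q‖ := hD2 _ _
            _ ≤ CD * ‖a‖ * (K * B * ‖a‖ ^ 2) := by gcongr
            _ = _ := by ring
        have t2 : ‖D q a‖ ≤ CD * (K * B) * ‖a‖ ^ 3 := by
          calc ‖D q a‖ ≤ CD * ‖q‖ * ‖a‖ := hD2 _ _
            _ ≤ CD * (K * B * ‖a‖ ^ 2) * ‖a‖ := by gcongr
            _ = _ := by ring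
        have t3 : ‖D q q‖ ≤ CD * (K * B) ^ 2 * ‖a‖ ^ 3 := by
          calc ‖D q q‖ ≤ CD * ‖q‖ * ‖q‖ := hD2 _ _
            _ ≤ CD * (K * B * ‖a‖ ^ 2) * (K * B * ‖a‖ ^ 2) := by gcongr
            _ = CD * (K * B) ^ 2 * (‖a‖ ^ 3 * ‖a‖) := by ring
            _ ≤ CD * (K * B) ^ 2 * (‖a‖ ^ 3 * 1) := by gcongr
            _ = _ := by ring
        calc _ ≤ ‖D a q‖ + ‖D q a‖ + ‖D q q‖ := norm_add₃_le
          _ ≤ _ := by
            have e : CD * (2 * (K * B) + (K * B) ^ 2) * ‖a‖ ^ 3 = CD * (K * B) * ‖a‖ ^ 3 +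
              CD * (K * B) * ‖a‖ ^ 3 + CD * (K * B) ^ 2 * ‖a‖ ^ 3 := by ring
            rw [e]; gcongr
      have h3 : ‖a‖ ^ 2 ≤ K ^ 2 * ‖v‖ ^ 2 := by
        rw [← mul_pow]; exact pow_le_pow_left₀ (norm_nonneg _) hhK 2
      calc |inner ℝ z.2 (D a q + D q a + D q q)| ≤ ‖z.2‖ * ‖D a q + D q a + D q q‖ :=
            abs_real_inner_le_norm _ _
        _ ≤ CD * (2 * (K * B) + (K * B) ^ 2) * ‖a‖ ^ 3 := by rw [hξ, one_mul]; exact h2
        _ = CD * (2 * (K * B) + (K * B) ^ 2) * ‖a‖ ^ 2 * ‖a‖ := by ring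
        _ ≤ CD * (2 * (K * B) + (K * B) ^ 2) * (K ^ 2 * ‖v‖ ^ 2) * (ε / (2 * (Q + 1))) := by
            gcongr
        _ = (Q / (Q + 1)) * (ε / 2 * ‖v‖ ^ 2) := by rw [hQ]; field_simp
        _ ≤ 1 * (ε / 2 * ‖v‖ ^ 2) := by
            apply mul_le_mul_of_nonneg_right _ (by positivity)
            rw [div_le_one (by positivity)]; linarith
        _ = _ := one_mul _
    calc |2 * inner ℝ v z.2 - inner ℝ (shp L D z.2 v) v|
        = |(2 * inner ℝ v z.2 - inner ℝ z.2 (D a a)) +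
            (inner ℝ z.2 (D a a) - inner ℝ (shp L D z.2 v) v)| := by congr 1; ring
      _ ≤ _ := abs_add_le _ _
      _ ≤ ε / 2 * ‖v‖ ^ 2 + ε / 2 * ‖v‖ ^ 2 := add_le_add p1 p2
      _ = ε * ‖v‖ ^ 2 := by ring

end F7H
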