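import Mathlib
import Pool.Agent.Lib.MP_f7aa1b_gt.H.G1c

/-!
# The shape operator of a compact submanifold
-/

set_option autoImplicit false

open Set Filter Topology Metric
open scoped ContDiff

namespace F7H

open MPf7aa (E IsChart IsSubmfd TanSet UNB PrM)

variable {n d : ℕ}

/-- `A` is the shape operator at `z` -/
structure Shp (M : Set (E n)) (z : E n × E n) (A : E n →L[ℝ] E n) : Prop extends ShAlg M z A where
  exp : ∀ ε > 0, ∃ δ > 0, ∀ x ∈ M, ‖x - z.1‖ ≤ δ →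
    |2 * inner ℝ (x - z.1) z.2 - inner ℝ (A (x - z.1)) (x - z.1)| ≤ ε * ‖x - z.1‖ ^ 2

theorem Shp.unique {M : Set (E n)} (hM : IsSubmfd d M) {z : E n × E n} (hz : z.1 ∈ M)
    {A A' : E n →L[ℝ] E n} (h : Shp M z A) (h' : Shp M z A') : A = A' := by
  -- the quadratic form of the difference vanishes on tangent vectors
  set q : E n → ℝ := fun v => inner ℝ (A v) v - inner ℝ (A' v) v with hq
  have hqc : Continuous q :=
    (A.continuous.inner continuous_id).sub (A'.continuous.inner continuous_id)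
  have hqs : ∀ (t : ℝ) v, q (t • v) = t ^ 2 * q v := by
    intro t v
    simp only [hq, map_smul, inner_smul_left, inner_smul_right, conj_trivial]
    ring
  have h0 : ∀ v ∈ TanSet M z.1, q v = 0 := by
    rintro v ⟨γ, hγ0, hγ, hS⟩
    have hlim : Tendsto (fun t : ℝ => t⁻¹ • (γ t - γ 0)) (𝓝[≠] 0) (𝓝 v) := by
      have := hγ.tendsto_slope_zero
      simpa using this
    have hle : ∀ ε > 0, |q v| ≤ ε * ‖v‖ ^ 2 := by
      intro ε hε
      obtain ⟨δ, hδ, H⟩ := h.exp (ε / 2) (half_pos hε)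
      obtain ⟨δ', hδ', H'⟩ := h'.exp (ε / 2) (half_pos hε)
      have hcl : ∀ᶠ t in 𝓝 (0 : ℝ), ‖γ t - γ 0‖ < min δ δ' := by
        have h1 : Tendsto (fun t => ‖γ t - γ 0‖) (𝓝 0) (𝓝 0) := by
          have := (hγ.continuousAt.sub (continuousAt_const (y := γ 0))).norm
          simpa [ContinuousAt] using this
        exact h1.eventually_lt_const (by positivity)
      have hev : ∀ᶠ t in 𝓝[≠] (0 : ℝ), |q (t⁻¹ • (γ t - γ 0))| ≤ ε * ‖t⁻¹ • (γ t - γ 0)‖ ^ 2 := by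
        filter_upwards [nhdsWithin_le_nhds hS, nhdsWithin_le_nhds hcl] with t ht1 ht2
        have e1 := H (γ t) ht1 (by rw [← hγ0]; exact (ht2.le.trans (min_le_left _ _)))
        have e2 := H' (γ t) ht1 (by rw [← hγ0]; exact (ht2.le.trans (min_le_right _ _)))
        rw [← hγ0] at e1 e2
        have e3 : |q (γ t - γ 0)| ≤ ε * ‖γ t - γ 0‖ ^ 2 := by
          have : q (γ t - γ 0) = (2 * inner ℝ (γ t - γ 0) z.2 - inner ℝ (A' (γ t - γ 0)) (γ t - γ 0)) -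
            (2 * inner ℝ (γ t - γ 0) z.2 - inner ℝ (A (γ t - γ 0)) (γ t - γ 0)) := by
            simp only [hq]; ring
          rw [this]
          refine (abs_sub _ _).trans ?_
          linarith
        rw [hqs, abs_mul, norm_smul, mul_pow, Real.norm_eq_abs, sq_abs, abs_of_nonneg (sq_nonneg _)]
        calc t⁻¹ ^ 2 * |q (γ t - γ 0)| ≤ t⁻¹ ^ 2 * (ε * ‖γ t - γ 0‖ ^ 2) :=
              mul_le_mul_of_nonneg_left e3 (sq_nonneg _)
          _ = _ := by ring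
      exact le_of_tendsto_of_tendsto ((hqc.tendsto v).comp hlim).abs
        ((hlim.norm.pow 2).const_mul ε) hev
    have h2 : |q v| ≤ 0 := by
      apply le_of_forall_pos_le_add
      intro ε hε
      have := hle (ε / (‖v‖ ^ 2 + 1)) (by positivity)
      refine this.trans ?_
      rw [zero_add, div_mul_eq_mul_div, div_le_iff₀ (by positivity)]
      nlinarith [sq_nonneg ‖v‖]
    exact abs_eq_zero.1 (le_antisymm h2 (abs_nonneg _))
  have h1 : ∀ v, q v = 0 := by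
    intro v
    have hv : q v = q (PrM M z.1 v) := by
      simp only [hq]
      rw [h.APr, h'.APr, ← MPf7aa.PrM_symm, ← MPf7aa.PrM_symm, h.PrA, h'.PrA]
    rw [hv]
    apply h0
    rw [MPf7aa.mem_tanSet_iff hM hz]
    exact MPf7aa.PrM_idem M z.1 v
  have hs : ((A - A' : E n →L[ℝ] E n) : E n →ₗ[ℝ] E n).IsSymmetric := by
    intro v w
    show inner ℝ (A v - A' v) w = inner ℝ v (A w - A' w)
    rw [inner_sub_left, inner_sub_right, h.symm, h'.symm]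
  have h2 : ((A - A' : E n →L[ℝ] E n) : E n →ₗ[ℝ] E n) = 0 := by
    rw [← hs.inner_map_self_eq_zero]
    intro v
    show inner ℝ (A v - A' v) v = 0
    rw [inner_sub_left]; exact h1 v
  have h3 : A - A' = 0 := by
    ext1 v
    have := congrArg (fun T : E n →ₗ[ℝ] E n => T v) h2
    simpa using this
  exact sub_eq_zero.1 h3

open Classical in
/-- the shape operator of `M` at `z = (x, ξ)` -/
noncomputable def ShM (M : Set (E n)) (z : E n × E n) : E n →L[ℝ] E n :=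
  if h : ∃ A, Shp M z A then h.choose else 0

/-- local form of all the statements -/
theorem shM_local {M : Set (E n)} (hM : IsSubmfd d M) {x0 : E n} (hx0 : x0 ∈ M) :
    ∃ ρ > 0, ContinuousOn (ShM M) (UNB M ∩ {z | z.1 ∈ ball x0 ρ}) ∧
      (∀ z ∈ UNB M, z.1 ∈ ball x0 ρ → Shp M z (ShM M z)) ∧
      (∀ ε > 0, ∃ δ > 0, ∀ z ∈ UNB M, z.1 ∈ ball x0 ρ → ∀ x ∈ M, ‖x - z.1‖ ≤ δ →
        |2 * inner ℝ (x - z.1) z.2 - inner ℝ (ShM M z (x - z.1)) (x - z.1)| ≤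
          ε * ‖x - z.1‖ ^ 2) := by
  obtain ⟨U, φ, h⟩ := hM x0 hx0
  obtain ⟨ρ, hρ, A0, h1, h2, h3⟩ := shp_local h
  have hS : ∀ z ∈ UNB M, z.1 ∈ ball x0 ρ → Shp M z (A0 z) := by
    intro z hz hz'
    refine ⟨h2 z hz hz', fun ε hε => ?_⟩
    obtain ⟨δ, hδ, H⟩ := h3 ε hε
    exact ⟨δ, hδ, H z hz hz'⟩
  have hE : ∀ z ∈ UNB M, z.1 ∈ ball x0 ρ → ShM M z = A0 z := by
    intro z hz hz'
    have hex : ∃ A, Shp M z A := ⟨_, hS z hz hz'⟩
    rw [ShM, dif_pos hex]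
    exact Shp.unique hM hz.1 hex.choose_spec (hS z hz hz')
  refine ⟨ρ, hρ, h1.congr fun z hz => hE z hz.1 hz.2, fun z hz hz' => ?_, fun ε hε => ?_⟩
  · rw [hE z hz hz']; exact hS z hz hz'
  · obtain ⟨δ, hδ, H⟩ := h3 ε hε
    refine ⟨δ, hδ, fun z hz hz' x hx hxz => ?_⟩
    rw [hE z hz hz']
    exact H z hz hz' x hx hxz

theorem shM_spec {M : Set (E n)} (hM : IsSubmfd d M) {z : E n × E n} (hz : z ∈ UNB M) :
    Shp M z (ShM M z) := by
  obtain ⟨ρ, hρ, -, h, -⟩ := shM_local hM hz.1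
  exact h z hz (mem_ball_self hρ)

theorem shM_cont {M : Set (E n)} (hM : IsSubmfd d M) : ContinuousOn (ShM M) (UNB M) := by
  intro z hz
  obtain ⟨ρ, hρ, h, -, -⟩ := shM_local hM hz.1
  have h1 := h z ⟨hz, mem_ball_self hρ⟩
  refine h1.mono_of_mem_nhdsWithin ?_
  apply inter_mem_nhdsWithin
  exact (isOpen_ball.preimage continuous_fst).mem_nhds (mem_ball_self hρ)

theorem shM_unif {M : Set (E n)} (hM : IsSubmfd d M) (hc : IsCompact M) :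
    ∀ ε > 0, ∃ δ > 0, ∀ z ∈ UNB M, ∀ x ∈ M, ‖x - z.1‖ ≤ δ →
      |2 * inner ℝ (x - z.1) z.2 - inner ℝ (ShM M z (x - z.1)) (x - z.1)| ≤
        ε * ‖x - z.1‖ ^ 2 := by
  intro ε hε
  have key := hc.induction_on (p := fun S => ∃ δ > 0, ∀ z ∈ UNB M, z.1 ∈ S → ∀ x ∈ M,
    ‖x - z.1‖ ≤ δ → |2 * inner ℝ (x - z.1) z.2 - inner ℝ (ShM M z (x - z.1)) (x - z.1)| ≤
        ε * ‖x - z.1‖ ^ 2) ?_ ?_ ?_ ?_
  · obtain ⟨δ, hδ, H⟩ := key
    exact ⟨δ, hδ, fun z hz x hx hxz => H z hz hz.1 x hx hxz⟩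
  · exact ⟨1, one_pos, fun z _ hz => hz.elim⟩
  · rintro S T hST ⟨δ, hδ, H⟩
    exact ⟨δ, hδ, fun z hz hz' => H z hz (hST hz')⟩
  · rintro S T ⟨δ, hδ, H⟩ ⟨δ', hδ', H'⟩
    refine ⟨min δ δ', by positivity, fun z hz hz' x hx hxz => ?_⟩
    rcases hz' with hz' | hz'
    · exact H z hz hz' x hx (hxz.trans (min_le_left _ _))
    · exact H' z hz hz' x hx (hxz.trans (min_le_right _ _))
  · intro x0 hx0
    obtain ⟨ρ, hρ, -, -, h⟩ := shM_local hM hx0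
    obtain ⟨δ, hδ, H⟩ := h ε hε
    exact ⟨ball x0 ρ, mem_nhdsWithin_of_mem_nhds (ball_mem_nhds _ hρ), δ, hδ, H⟩

/-- second order expansion of the distance functions -/
theorem shM_tay {M : Set (E n)} (hM : IsSubmfd d M) (hc : IsCompact M) (R : ℝ) :
    ∀ ε > 0, ∃ δ > 0, ∀ z ∈ UNB M, ∀ s, 0 ≤ s → s ≤ R → ∀ x ∈ M, ‖x - z.1‖ ≤ δ →
    |‖x - (z.1 + s • z.2)‖ ^ 2 - s ^ 2 -
      (‖PrM M z.1 (x - z.1)‖ ^ 2 - s * inner ℝ (ShM M z (x - z.1)) (x - z.1))| ≤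
        ε * ‖x - z.1‖ ^ 2 := by
  intro ε hε
  obtain ⟨C, hC0, hC⟩ := (MPf7aa.geomM_of_submfd hc hM).tan'
  obtain ⟨δ, hδ, H⟩ := shM_unif hM hc (ε / (2 * (|R| + 1))) (by positivity)
  set δ' := min 1 (ε / (2 * C ^ 2)) with hδ'
  have hδ'0 : 0 < δ' := by positivity
  refine ⟨min δ δ', by positivity, fun z hz s hs0 hsR x hx hxz => ?_⟩
  have hxδ := hxz.trans (min_le_left _ _)
  have hx1 : ‖x - z.1‖ ≤ 1 := (hxz.trans (min_le_right _ _)).trans (min_le_left _ _)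
  have hx2 : ‖x - z.1‖ ≤ ε / (2 * C ^ 2) := (hxz.trans (min_le_right _ _)).trans (min_le_right _ _)
  have e1 := H z hz x hx hxδ
  have e2 := hC z.1 hz.1 x hx
  set v := x - z.1 with hv
  have hvx : x - (z.1 + s • z.2) = v - s • z.2 := by rw [hv]; abel
  clear_value v
  have e3 : ‖v - s • z.2‖ ^ 2 = ‖v‖ ^ 2 - s * (2 * inner ℝ v z.2) + s ^ 2 := by
    rw [norm_sub_sq_real, inner_smul_right, norm_smul, hz.2.1, mul_one, Real.norm_eq_abs, sq_abs]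
    ring
  have e4 : ‖v‖ ^ 2 = ‖PrM M z.1 v‖ ^ 2 + ‖v - PrM M z.1 v‖ ^ 2 := by
    have h1 : inner ℝ (PrM M z.1 v) (v - PrM M z.1 v) = 0 := by
      rw [inner_sub_right, MPf7aa.PrM_symm, MPf7aa.PrM_symm M z.1 v, MPf7aa.PrM_idem, sub_self]
    have h2 : v = PrM M z.1 v + (v - PrM M z.1 v) := by abel
    conv_lhs => rw [h2]
    rw [norm_add_sq_real, h1]; ring
  rw [hvx, e3, e4]
  have e5 : ‖v - PrM M z.1 v‖ ^ 2 ≤ ε / 2 * ‖v‖ ^ 2 := by
    calc ‖v - PrM M z.1 v‖ ^ 2 ≤ (C * ‖v‖ ^ 2) ^ 2 := pow_le_pow_left₀ (norm_nonneg _) e2 2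
      _ = C ^ 2 * ‖v‖ * ‖v‖ * ‖v‖ ^ 2 := by ring
      _ ≤ C ^ 2 * (ε / (2 * C ^ 2)) * 1 * ‖v‖ ^ 2 := by gcongr
      _ = ε / 2 * ‖v‖ ^ 2 := by field_simp
  have e6 : s * |2 * inner ℝ v z.2 - inner ℝ (ShM M z v) v| ≤ ε / 2 * ‖v‖ ^ 2 := by
    have hsR' : s ≤ |R| + 1 := hsR.trans ((le_abs_self R).trans (by linarith))
    calc s * |2 * inner ℝ v z.2 - inner ℝ (ShM M z v) v|
        ≤ (|R| + 1) * (ε / (2 * (|R| + 1)) * ‖v‖ ^ 2) := by gcongr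
      _ = ε / 2 * ‖v‖ ^ 2 := by field_simp
  have e7 : ‖PrM M z.1 v‖ ^ 2 + ‖v - PrM M z.1 v‖ ^ 2 - s * (2 * inner ℝ v z.2) + s ^ 2 - s ^ 2 -
      (‖PrM M z.1 v‖ ^ 2 - s * inner ℝ (ShM M z v) v) =
      ‖v - PrM M z.1 v‖ ^ 2 - s * (2 * inner ℝ v z.2 - inner ℝ (ShM M z v) v) := by ring
  rw [e7]
  calc _ ≤ |‖v - PrM M z.1 v‖ ^ 2| + |s * (2 * inner ℝ v z.2 - inner ℝ (ShM M z v) v)| := abs_sub _ _
    _ = ‖v - PrM M z.1 v‖ ^ 2 + s * |2 * inner ℝ v z.2 - inner ℝ (ShM M z v) v| := by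
        rw [abs_of_nonneg (sq_nonneg _), abs_mul, abs_of_nonneg hs0]
    _ ≤ ε / 2 * ‖v‖ ^ 2 + ε / 2 * ‖v‖ ^ 2 := add_le_add e5 e6
    _ = _ := by rw [← e4]; ring

end F7H
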