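import Mathlib
import Pool.Agent.Lib.MP_f7aa1b_gt.Defs

/-!
# Sorted eigenvalues of a symmetric operator of Euclidean space and their continuity
-/

set_option autoImplicit false

namespace F7H

open MPf7aa (E)

/-- symmetric operators -/
def Sy {n : ℕ} (A : E n →L[ℝ] E n) : Prop := ∀ v w, inner ℝ (A v) w = inner ℝ v (A w)

lemma Sy.isSymmetric {n : ℕ} {A : E n →L[ℝ] E n} (h : Sy A) :
    (A : E n →ₗ[ℝ] E n).IsSymmetric := fun v w => h v w

open Classical in
/-- the sorted eigenvalues, continued by `-‖A‖` -/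
noncomputable def eig {n : ℕ} (A : E n →L[ℝ] E n) (j : ℕ) : ℝ :=
  if h : Sy A ∧ j < n then h.1.isSymmetric.eigenvalues finrank_euclideanSpace_fin ⟨j, h.2⟩
  else -‖A‖

lemma eig_spec {n : ℕ} {A : E n →L[ℝ] E n} (h : Sy A) :
    ∃ b : OrthonormalBasis (Fin n) ℝ (E n), ∀ j : Fin n, A (b j) = eig A j • b j := by
  refine ⟨h.isSymmetric.eigenvectorBasis finrank_euclideanSpace_fin, fun j => ?_⟩
  have h1 : Sy A ∧ (j : ℕ) < n := ⟨h, j.2⟩
  rw [eig, dif_pos h1]
  exact h.isSymmetric.apply_eigenvectorBasis finrank_euclideanSpace_fin j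

lemma quad_eig {n : ℕ} {A : E n →L[ℝ] E n} {b : OrthonormalBasis (Fin n) ℝ (E n)}
    {μ : Fin n → ℝ} (h : ∀ j, A (b j) = μ j • b j) (v : E n) :
    inner ℝ (A v) v = ∑ i, μ i * (inner ℝ (b i) v) ^ 2 := by
  have e : A v = ∑ i, (inner ℝ (b i) v * μ i) • b i := by
    conv_lhs => rw [← b.sum_repr' v]
    rw [map_sum]
    refine Finset.sum_congr rfl (fun i _ => ?_)
    rw [map_smul, h, smul_smul]
  rw [e, sum_inner]
  refine Finset.sum_congr rfl (fun i _ => ?_)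
  rw [inner_smul_left]
  simp only [conj_trivial]
  ring

lemma norm_sq_eig {n : ℕ} (b : OrthonormalBasis (Fin n) ℝ (E n)) (v : E n) :
    ‖v‖ ^ 2 = ∑ i, (inner ℝ (b i) v) ^ 2 := by
  have := quad_eig (A := ContinuousLinearMap.id ℝ (E n)) (b := b) (μ := fun _ => 1)
    (fun j => by simp) v
  simp only [ContinuousLinearMap.id_apply, one_mul] at this
  rw [← this, real_inner_self_eq_norm_sq]

lemma eig_anti_fin {n : ℕ} {A : E n →L[ℝ] E n} (h : Sy A) {i j : Fin n} (hij : i ≤ j) :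
    eig A j ≤ eig A i := by
  rw [eig, eig, dif_pos ⟨h, j.2⟩, dif_pos ⟨h, i.2⟩]
  exact h.isSymmetric.eigenvalues_antitone finrank_euclideanSpace_fin hij

lemma eig_ge {n : ℕ} {A : E n →L[ℝ] E n} (h : Sy A) (j : ℕ) : -‖A‖ ≤ eig A j := by
  by_cases hj : j < n
  · obtain ⟨b, hb⟩ := eig_spec h
    have h1 := hb ⟨j, hj⟩
    have h2 : ‖A (b ⟨j, hj⟩)‖ ≤ ‖A‖ := by
      have := A.le_opNorm (b ⟨j, hj⟩)
      rwa [b.norm_eq_one, mul_one] at this
    rw [h1, norm_smul, b.norm_eq_one, mul_one, Real.norm_eq_abs] at h2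
    exact neg_le_of_abs_le h2
  · rw [eig, dif_neg (fun h => hj h.2)]

lemma eig_anti {n : ℕ} {A : E n →L[ℝ] E n} (h : Sy A) {i j : ℕ} (hij : i ≤ j) :
    eig A j ≤ eig A i := by
  by_cases hj : j < n
  · exact eig_anti_fin h (i := ⟨i, hij.trans_lt hj⟩) (j := ⟨j, hj⟩) hij
  · have : eig A j = -‖A‖ := by rw [eig, dif_neg (fun h => hj h.2)]
    rw [this]; exact eig_ge h i

/-- Weyl's inequality, one half -/
lemma eig_le_add {n : ℕ} {A B : E n →L[ℝ] E n} (hA : Sy A) (hB : Sy B) (j : ℕ) :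
    eig A j ≤ eig B j + ‖A - B‖ := by
  by_cases hj : j < n
  swap
  · have hA' : eig A j = -‖A‖ := by rw [eig, dif_neg (fun h => hj h.2)]
    have hB' : eig B j = -‖B‖ := by rw [eig, dif_neg (fun h => hj h.2)]
    rw [hA', hB']
    have := norm_sub_norm_le B A
    rw [norm_sub_rev] at this
    linarith
  obtain ⟨b, hb⟩ := eig_spec hA
  obtain ⟨c, hc⟩ := eig_spec hB
  let J : Fin n := ⟨j, hj⟩
  classical
  -- a vector orthogonal to `b i`, `i > j`, and to `c i`, `i < j`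
  obtain ⟨v, hv0, hvb, hvc⟩ : ∃ v : E n, v ≠ 0 ∧ (∀ i, J < i → inner ℝ (b i) v = 0) ∧
      (∀ i, i < J → inner ℝ (c i) v = 0) := by
    let T : E n →ₗ[ℝ] (Fin n → ℝ) := LinearMap.pi (fun i =>
      if J < i then (innerSL ℝ (b i) : E n →ₗ[ℝ] ℝ) else
        if i < J then (innerSL ℝ (c i) : E n →ₗ[ℝ] ℝ) else 0)
    have hT : ¬ Function.Injective T := by
      intro hinj
      have hsurj : Function.Surjective T :=
        (LinearMap.injective_iff_surjective_of_finrank_eq_finrank (by simp)).1 hinj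
      obtain ⟨v, hv⟩ := hsurj (Pi.single J 1)
      have := congrFun hv J
      simp [T] at this
    rw [injective_iff_map_eq_zero] at hT
    push Not at hT
    obtain ⟨v, hv, hv0⟩ := hT
    refine ⟨v, hv0, fun i hi => ?_, fun i hi => ?_⟩
    · have := congrFun hv i
      simpa [T, hi] using this
    · have := congrFun hv i
      simpa [T, hi, not_lt.2 hi.le] using this
  have hpos : 0 < ‖v‖ ^ 2 := by positivity
  have h1 : eig A j * ‖v‖ ^ 2 ≤ inner ℝ (A v) v := by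
    rw [quad_eig hb, norm_sq_eig b, Finset.mul_sum]
    refine Finset.sum_le_sum (fun i _ => ?_)
    by_cases hi : J < i
    · rw [hvb i hi]; simp
    · exact mul_le_mul_of_nonneg_right (eig_anti_fin hA (not_lt.1 hi)) (sq_nonneg _)
  have h2 : inner ℝ (B v) v ≤ eig B j * ‖v‖ ^ 2 := by
    rw [quad_eig hc, norm_sq_eig c, Finset.mul_sum]
    refine Finset.sum_le_sum (fun i _ => ?_)
    by_cases hi : i < J
    · rw [hvc i hi]; simp
    · exact mul_le_mul_of_nonneg_right (eig_anti_fin hB (not_lt.1 hi)) (sq_nonneg _)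
  have h3 : inner ℝ (A v) v - inner ℝ (B v) v ≤ ‖A - B‖ * ‖v‖ ^ 2 := by
    have e : inner ℝ (A v) v - inner ℝ (B v) v = inner ℝ ((A - B) v) v := by
      rw [sub_apply, inner_sub_left]
    rw [e]
    calc inner ℝ ((A - B) v) v ≤ ‖(A - B) v‖ * ‖v‖ := real_inner_le_norm _ _
      _ ≤ (‖A - B‖ * ‖v‖) * ‖v‖ :=
          mul_le_mul_of_nonneg_right ((A - B).le_opNorm v) (norm_nonneg _)
      _ = ‖A - B‖ * ‖v‖ ^ 2 := by ring
  have h4 : eig A j * ‖v‖ ^ 2 ≤ (eig B j + ‖A - B‖) * ‖v‖ ^ 2 := by nlinarith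
  exact le_of_mul_le_mul_right h4 hpos

lemma eig_sub_le {n : ℕ} {A B : E n →L[ℝ] E n} (hA : Sy A) (hB : Sy B) (j : ℕ) :
    |eig A j - eig B j| ≤ ‖A - B‖ := by
  rw [abs_le]
  have h1 := eig_le_add hA hB j
  have h2 := eig_le_add hB hA j
  rw [norm_sub_rev] at h2
  constructor <;> linarith

lemma continuousOn_eig {n : ℕ} {S : Set (E n × E n)} {A : E n × E n → E n →L[ℝ] E n}
    (hA : ContinuousOn A S) (hS : ∀ z ∈ S, Sy (A z)) (j : ℕ) :
    ContinuousOn (fun z => eig (A z) j) S := by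
  rw [Metric.continuousOn_iff] at hA ⊢
  intro z hz ε hε
  obtain ⟨δ, hδ, h⟩ := hA z hz ε hε
  refine ⟨δ, hδ, fun y hy hyz => ?_⟩
  have h1 := h y hy hyz
  rw [dist_eq_norm] at h1
  rw [Real.dist_eq]
  exact (eig_sub_le (hS y hy) (hS z hz) j).trans_lt h1

end F7H
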