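import Pool.Agent.Lib.MP_f7aa1b_gt.Defs
import Pool.Agent.Lib.MP_f7aa1b_gt.F1b
import Pool.Agent.Lib.MP_f7aa1b_gt.F2c

/-!
# The tangent space of the unit normal bundle in terms of a shape operator
-/

open Set Filter Topology Metric
open scoped ContDiff

namespace MPf7aa

theorem tan_unb_iff {m d : ℕ} {M : Set (E (m + 1))} (hM : IsSubmfd d M)
    {z : E (m + 1) × E (m + 1)} (hz : z ∈ UNB M) (P A : E (m + 1) →L[ℝ] E (m + 1))
    (hPP : ∀ w, P (P w) = P w) (hPs : ∀ v w, inner ℝ (P v) w = inner ℝ v (P w))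
    (hPz : P z.2 = 0) (hPA : ∀ w, P (A w) = A w)
    (hW : ∀ w ∈ TanSet (UNB M) z, P w.1 = w.1 ∧ inner ℝ w.2 z.2 = 0 ∧ P w.2 = -A w.1) :
    ∀ w : E (m + 1) × E (m + 1), w ∈ TanSet (UNB M) z ↔
      P w.1 = w.1 ∧ inner ℝ w.2 z.2 = 0 ∧ P w.2 = -A w.1 := by
  obtain ⟨U, φ, hφ⟩ := unb_submfd hM z hz
  have hT : TanSet (UNB M) z = range (fderiv ℝ φ 0) := by
    have h := tanSet_chart hφ hφ.zero
    rw [hφ.base] at h
    exact h
  let T : Submodule ℝ (E (m + 1) × E (m + 1)) := LinearMap.range (fderiv ℝ φ 0).toLinearMap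
  have hTfin : Module.finrank ℝ T = m := by
    rw [LinearMap.finrank_range_of_inj (hφ.imm 0 hφ.zero)]
    simp
  let V : Submodule ℝ (E (m + 1) × E (m + 1)) :=
    { carrier := {w | P w.1 = w.1 ∧ inner ℝ w.2 z.2 = 0 ∧ P w.2 = -A w.1}
      zero_mem' := by simp
      add_mem' := by
        rintro v w ⟨h1, h2, h3⟩ ⟨k1, k2, k3⟩
        refine ⟨?_, ?_, ?_⟩
        · simp only [Prod.fst_add, map_add, h1, k1]
        · simp only [Prod.snd_add, inner_add_left, h2, k2, add_zero]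
        · simp only [Prod.fst_add, Prod.snd_add, map_add, h3, k3]
          abel
      smul_mem' := by
        rintro c w ⟨h1, h2, h3⟩
        refine ⟨?_, ?_, ?_⟩
        · simp only [Prod.smul_fst, map_smul, h1]
        · simp only [Prod.smul_snd, inner_smul_left, h2, mul_zero]
        · simp only [Prod.smul_fst, Prod.smul_snd, map_smul, h3, smul_neg] }
  have hTV : T ≤ V := by
    rintro w ⟨u, rfl⟩
    refine hW _ ?_
    rw [hT]
    exact ⟨u, rfl⟩
  have hz2 : z.2 ≠ 0 := by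
    intro h
    have := hz.2.1
    rw [h, norm_zero] at this
    exact zero_ne_one this
  let Q : Submodule ℝ (E (m + 1)) := (ℝ ∙ z.2)ᗮ
  have hQ : Module.finrank ℝ Q = m := by
    have h1 := Submodule.finrank_add_finrank_orthogonal (ℝ ∙ z.2)
    rw [finrank_span_singleton hz2] at h1
    simp only [finrank_euclideanSpace, Fintype.card_fin] at h1
    change Module.finrank ℝ (ℝ ∙ z.2)ᗮ = m
    omega
  let F : V →ₗ[ℝ] E (m + 1) :=
    (LinearMap.fst ℝ _ _ + (LinearMap.id - P.toLinearMap) ∘ₗ LinearMap.snd ℝ _ _) ∘ₗ V.subtype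
  have hF : ∀ w : V, F w = w.1.1 + (w.1.2 - P w.1.2) := fun w => rfl
  have hFinj : Function.Injective F := by
    rw [← LinearMap.ker_eq_bot, LinearMap.ker_eq_bot']
    rintro ⟨w, h1, h2, h3⟩ h
    rw [hF] at h
    have h4 := congrArg P h
    simp only [map_add, map_sub, hPP, sub_self, add_zero, map_zero, h1] at h4
    have h5 : P w.2 = 0 := by rw [h3, h4, map_zero, neg_zero]
    simp only [h4, h5, sub_zero, zero_add] at h
    apply Subtype.ext
    exact Prod.ext h4 h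
  have hFQ : ∀ w : V, F w ∈ Q := by
    rintro ⟨w, h1, h2, h3⟩
    rw [Submodule.mem_orthogonal_singleton_iff_inner_right, hF]
    have e1 : inner ℝ z.2 w.1 = 0 := by
      rw [← h1, ← hPs, hPz, inner_zero_left]
    have e2 : inner ℝ z.2 w.2 = 0 := by
      rw [real_inner_comm]
      exact h2
    have e3 : inner ℝ z.2 (P w.2) = 0 := by
      rw [← hPs, hPz, inner_zero_left]
    simp only [inner_add_right, inner_sub_right, e1, e2, e3]
    ring
  have hVfin : Module.finrank ℝ V ≤ m := by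
    exact (LinearMap.finrank_le_finrank_of_injective (f := F.codRestrict Q hFQ)
      (fun a b hab => hFinj (congrArg Subtype.val hab))).trans hQ.le
  have hEq : T = V := Submodule.eq_of_le_of_finrank_le hTV (by rw [hTfin]; exact hVfin)
  intro w
  constructor
  · exact hW w
  · intro h
    have h1 : w ∈ V := h
    rw [← hEq] at h1
    rw [hT]
    exact h1

theorem princ_iff_A {m d : ℕ} {M : Set (E (m + 1))} (hM : IsSubmfd d M)
    {z : E (m + 1) × E (m + 1)} (hz : z ∈ UNB M) (P A : E (m + 1) →L[ℝ] E (m + 1))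
    (hPP : ∀ w, P (P w) = P w) (hPs : ∀ v w, inner ℝ (P v) w = inner ℝ v (P w))
    (hPz : P z.2 = 0) (hPA : ∀ w, P (A w) = A w) (hAP : ∀ w, A (P w) = A w)
    (hW : ∀ w ∈ TanSet (UNB M) z, P w.1 = w.1 ∧ inner ℝ w.2 z.2 = 0 ∧ P w.2 = -A w.1)
    {s : ℝ} (hs : 0 < s) :
    ∀ w : E (m + 1) × E (m + 1), w ∈ PrincSpace M s⁻¹ z ↔
      s • A w.1 = w.1 ∧ w.2 = -(s⁻¹ • w.1) := by
  intro w
  have h := tan_unb_iff hM hz P A hPP hPs hPz hPA hW w
  constructor
  · rintro ⟨h1, h2⟩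
    obtain ⟨k1, k2, k3⟩ := h.1 h1
    refine ⟨?_, h2⟩
    rw [h2, map_neg, map_smul, k1, neg_inj] at k3
    rw [← k3, smul_smul, mul_inv_cancel₀ hs.ne', one_smul]
  · rintro ⟨h1, h2⟩
    have k1 : P w.1 = w.1 := by
      rw [← h1, map_smul, hPA]
    refine ⟨h.2 ⟨k1, ?_, ?_⟩, h2⟩
    · rw [h2, inner_neg_left, inner_smul_left, ← k1, hPs, hPz, inner_zero_right]
      simp
    · rw [h2, map_neg, map_smul, k1, neg_inj]
      calc s⁻¹ • w.1 = s⁻¹ • (s • A w.1) := by rw [h1]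
        _ = A w.1 := by rw [smul_smul, inv_mul_cancel₀ hs.ne', one_smul]

end MPf7aa
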