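import Pool.Agent.Lib.MP_f7aa1b_gt.F8

/-!
Fields ch_inj, ch_open, ch_tan, ch_mul of the structure Foc from fibre_submfd.
-/

open Set Filter Topology Metric
open scoped ContDiff

namespace MPf7aa

/-- the null space N(z, s) = ker (s A - 1) -/
abbrev NN {n : ℕ} (A : E n → E n →L[ℝ] E n) (x : E n) (s : ℝ) : Submodule ℝ (E n) :=
  LinearMap.ker (s • (A x : E n →ₗ[ℝ] E n) - LinearMap.id)

section

variable {m : ℕ} {M : Set (E (m + 1))}
  (A : E (m + 1) × E (m + 1) → E (m + 1) →L[ℝ] E (m + 1))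

theorem G5_mem_ker (y : E (m + 1) × E (m + 1)) (s : ℝ) (w : E (m + 1)) :
    w ∈ LinearMap.ker (s • (A y : E (m + 1) →ₗ[ℝ] E (m + 1)) - LinearMap.id) ↔ s • A y w = w := by
  rw [LinearMap.mem_ker]
  simp only [LinearMap.sub_apply, LinearMap.smul_apply, ContinuousLinearMap.coe_coe,
    LinearMap.id_coe, id_eq]
  exact sub_eq_zero

variable (hP : ∀ y ∈ UNB M, ∀ s : ℝ, 0 < s → ∀ w, w ∈ PrincSpace M s⁻¹ y ↔
    s • A y w.1 = w.1 ∧ w.2 = -(s⁻¹ • w.1))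

include hP

/-- the first component of the derivative of a chart of the fibre -/
theorem G5_tan {y : E (m + 1) × E (m + 1)} (hy : y ∈ UNB M) {s : ℝ} (hs : 0 < s) {k : ℕ}
    {S : Set (E (m + 1) × E (m + 1))} (hS : TanSet S y = PrincSpace M s⁻¹ y)
    {U : Set (E k)} {ψ : E k → E (m + 1) × E (m + 1)} (hψ : IsChart k S y U ψ) :
    Function.Injective ((ContinuousLinearMap.fst ℝ (E (m + 1)) (E (m + 1))).comp (fderiv ℝ ψ 0)) ∧
      ∀ w, w ∈ LinearMap.ker (s • (A y : E (m + 1) →ₗ[ℝ] E (m + 1)) - LinearMap.id) ↔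
        ∃ v, ((ContinuousLinearMap.fst ℝ (E (m + 1)) (E (m + 1))).comp (fderiv ℝ ψ 0)) v = w := by
  have hT : range (fderiv ℝ ψ 0) = PrincSpace M s⁻¹ y := by
    rw [← tanSet_chart hψ hψ.zero, hψ.base, hS]
  have hmem : ∀ v, fderiv ℝ ψ 0 v ∈ PrincSpace M s⁻¹ y := fun v => by rw [← hT]; exact ⟨v, rfl⟩
  constructor
  · intro v1 v2 h12
    have h3 : (fderiv ℝ ψ 0 (v1 - v2)).1 = 0 := by
      have h4 : (fderiv ℝ ψ 0 v1).1 = (fderiv ℝ ψ 0 v2).1 := h12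
      rw [map_sub]
      show (fderiv ℝ ψ 0 v1).1 - (fderiv ℝ ψ 0 v2).1 = 0
      rw [h4, sub_self]
    have h5 := ((hP y hy s hs _).1 (hmem (v1 - v2))).2
    rw [h3, smul_zero, neg_zero] at h5
    have h6 : fderiv ℝ ψ 0 (v1 - v2) = 0 := Prod.ext h3 h5
    have h7 : fderiv ℝ ψ 0 v1 = fderiv ℝ ψ 0 v2 := by
      rw [map_sub] at h6
      exact sub_eq_zero.1 h6
    exact hψ.imm 0 hψ.zero h7
  · intro w
    rw [G5_mem_ker]
    constructor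
    · intro hw
      have h1 : (w, -(s⁻¹ • w)) ∈ PrincSpace M s⁻¹ y := (hP y hy s hs _).2 ⟨hw, rfl⟩
      rw [← hT] at h1
      obtain ⟨v, hv⟩ := h1
      refine ⟨v, ?_⟩
      show (fderiv ℝ ψ 0 v).1 = w
      rw [hv]
    · rintro ⟨v, rfl⟩
      exact ((hP y hy s hs _).1 (hmem v)).1

theorem G5_finrank {y : E (m + 1) × E (m + 1)} (hy : y ∈ UNB M) {s : ℝ} (hs : 0 < s) {k : ℕ}
    {S : Set (E (m + 1) × E (m + 1))} (hS : TanSet S y = PrincSpace M s⁻¹ y)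
    {U : Set (E k)} {ψ : E k → E (m + 1) × E (m + 1)} (hψ : IsChart k S y U ψ) :
    Module.finrank ℝ (LinearMap.ker (s • (A y : E (m + 1) →ₗ[ℝ] E (m + 1)) - LinearMap.id)) =
      k := by
  obtain ⟨hinj, hran⟩ := G5_tan A hP hy hs hS hψ
  set L : E k →ₗ[ℝ] E (m + 1) :=
    ((ContinuousLinearMap.fst ℝ (E (m + 1)) (E (m + 1))).comp (fderiv ℝ ψ 0) : E k →ₗ[ℝ] E (m + 1))
    with hL
  have h1 : LinearMap.range L =
      LinearMap.ker (s • (A y : E (m + 1) →ₗ[ℝ] E (m + 1)) - LinearMap.id) := by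
    ext w
    rw [hran w, LinearMap.mem_range]
    rfl
  rw [← h1, LinearMap.finrank_range_of_inj (f := L) hinj, finrank_euclideanSpace_fin]

end

section

variable {m d : ℕ} {M : Set (E (m + 1))} (hM : IsSubmfd d M) (hD : IsDupin M)
  (A : E (m + 1) × E (m + 1) → E (m + 1) →L[ℝ] E (m + 1))
  (hP : ∀ y ∈ UNB M, ∀ s : ℝ, 0 < s → ∀ w, w ∈ PrincSpace M s⁻¹ y ↔
    s • A y w.1 = w.1 ∧ w.2 = -(s⁻¹ • w.1))

include hM hD hP

theorem G5_ch_mul : ∀ z ∈ UNB M, ∀ s : ℝ, 0 < s → ∃ δ > 0, ∀ y : E (m + 1) × E (m + 1),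
    y ∈ UNB M → y.1 + s • y.2 = z.1 + s • z.2 → dist y z < δ →
      Module.finrank ℝ (LinearMap.ker (s • (A y : E (m + 1) →ₗ[ℝ] E (m + 1)) - LinearMap.id)) =
      Module.finrank ℝ (LinearMap.ker (s • (A z : E (m + 1) →ₗ[ℝ] E (m + 1)) - LinearMap.id)) := by
  intro z hz s hs
  obtain ⟨k, W, hW, hzW, hsub, htan⟩ := fibre_submfd hM hD hz hs.ne'
  have hk : ∀ y ∈ ({y | y ∈ UNB M ∧ y.1 + s • y.2 = z.1 + s • z.2} ∩ W),
      Module.finrank ℝ (LinearMap.ker (s • (A y : E (m + 1) →ₗ[ℝ] E (m + 1)) - LinearMap.id)) =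
        k := by
    intro y hy
    obtain ⟨U, ψ, hψ⟩ := hsub y hy
    exact G5_finrank A hP hy.1.1 hs (htan y hy) hψ
  obtain ⟨δ, hδ, hδW⟩ := Metric.isOpen_iff.1 hW z hzW
  refine ⟨δ, hδ, ?_⟩
  intro y hy hys hyd
  rw [hk y ⟨⟨hy, hys⟩, hδW hyd⟩, hk z ⟨⟨hz, rfl⟩, hzW⟩]

/-- everything needed near one point -/
theorem G5_local {z : E (m + 1) × E (m + 1)} (hz : z ∈ UNB M) {s : ℝ} (hs : 0 < s) :
    ∃ (k : ℕ) (ψ : E k → E (m + 1) × E (m + 1)) (L : E k →L[ℝ] E (m + 1)) (r0 : ℝ),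
      0 < r0 ∧ ψ 0 = z ∧
      (∀ u ∈ ball (0 : E k) r0, ψ u ∈ UNB M ∧ (ψ u).1 + s • (ψ u).2 = z.1 + s • z.2) ∧
      ContinuousAt ψ 0 ∧ HasStrictFDerivAt (fun u => (ψ u).1 - z.1) L 0 ∧
      Function.Injective L ∧
      (∀ w, w ∈ LinearMap.ker (s • (A z : E (m + 1) →ₗ[ℝ] E (m + 1)) - LinearMap.id) ↔
        ∃ v, L v = w) ∧
      ∀ r > 0, ∃ δ > 0, ∀ y : E (m + 1) × E (m + 1), y ∈ UNB M →
        y.1 + s • y.2 = z.1 + s • z.2 → dist y z < δ → ∃ u ∈ ball (0 : E k) r, ψ u = y := by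
  obtain ⟨k, W, hW, hzW, hsub, htan⟩ := fibre_submfd hM hD hz hs.ne'
  have hzF : z ∈ ({y | y ∈ UNB M ∧ y.1 + s • y.2 = z.1 + s • z.2} ∩ W) := ⟨⟨hz, rfl⟩, hzW⟩
  obtain ⟨U, ψ, hψ⟩ := hsub z hzF
  obtain ⟨hinj, hran⟩ := G5_tan A hP hz hs (htan z hzF) hψ
  obtain ⟨r0, hr0, hr0U⟩ := Metric.isOpen_iff.1 hψ.op 0 hψ.zero
  obtain ⟨W1, hW1, hψW1⟩ := hψ.homeo U (Subset.refl _) hψ.op
  have hstr : HasStrictFDerivAt ψ (fderiv ℝ ψ 0) 0 :=
    (hψ.smooth.contDiffAt (hψ.op.mem_nhds hψ.zero)).hasStrictFDerivAt (by simp)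
  refine ⟨k, ψ, (ContinuousLinearMap.fst ℝ (E (m + 1)) (E (m + 1))).comp (fderiv ℝ ψ 0), r0, hr0,
    hψ.base, ?_, hstr.continuousAt, ?_, hinj, hran, ?_⟩
  · intro u hu
    have h1 : ψ u ∈ ψ '' U := ⟨u, hr0U hu, rfl⟩
    rw [hψW1] at h1
    exact h1.1.1
  · have h2 : HasStrictFDerivAt (fun u => (ψ u).1)
        ((ContinuousLinearMap.fst ℝ (E (m + 1)) (E (m + 1))).comp (fderiv ℝ ψ 0)) 0 :=
      ((ContinuousLinearMap.fst ℝ (E (m + 1)) (E (m + 1))).hasStrictFDerivAt).comp 0 hstr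
    exact h2.sub_const _
  · intro r hr
    obtain ⟨W2, hW2, hψW2⟩ := hψ.homeo (ball 0 (min r r0))
      ((ball_subset_ball (min_le_right _ _)).trans hr0U) isOpen_ball
    have hzW2 : z ∈ W2 := by
      have : z ∈ ψ '' ball (0 : E k) (min r r0) :=
        ⟨0, mem_ball_self (lt_min hr hr0), hψ.base⟩
      rw [hψW2] at this
      exact this.2
    obtain ⟨δ, hδ, hδW⟩ := Metric.isOpen_iff.1 (hW.inter hW2) z ⟨hzW, hzW2⟩
    refine ⟨δ, hδ, ?_⟩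
    intro y hy hys hyd
    have hyW := hδW (show y ∈ ball z δ from hyd)
    have : y ∈ ψ '' ball (0 : E k) (min r r0) := by
      rw [hψW2]
      exact ⟨⟨⟨hy, hys⟩, hyW.1⟩, hyW.2⟩
    obtain ⟨u, hu, huy⟩ := this
    exact ⟨u, ball_subset_ball (min_le_left _ _) hu, huy⟩

theorem G5_ch_inj : ∀ z ∈ UNB M, ∀ s : ℝ, 0 < s → ∃ δ > 0,
    InjOn (fun y : E (m + 1) × E (m + 1) =>
      (LinearMap.ker (s • (A z : E (m + 1) →ₗ[ℝ] E (m + 1)) - LinearMap.id)).starProjection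
        (y.1 - z.1))
      ({y | y ∈ UNB M ∧ y.1 + s • y.2 = z.1 + s • z.2} ∩ closedBall z δ) := by
  intro z hz s hs
  obtain ⟨k, ψ, L, r0, hr0, hψ0, hψm, hψc, hstr, hinj, hran, hcov⟩ := G5_local hM hD A hP hz hs
  set N := LinearMap.ker (s • (A z : E (m + 1) →ₗ[ℝ] E (m + 1)) - LinearMap.id) with hN
  -- G = P_N ∘ h
  have hG : HasStrictFDerivAt (fun u => N.starProjection ((ψ u).1 - z.1))
      (N.starProjection.comp L) 0 := (N.starProjection.hasStrictFDerivAt).comp 0 hstr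
  have hGinj : Function.Injective (N.starProjection.comp L) := by
    intro v1 v2 h12
    have h1 : ∀ v, (N.starProjection.comp L) v = L v := by
      intro v
      exact Submodule.starProjection_eq_self_iff.2 ((hran _).2 ⟨v, rfl⟩)
    rw [h1, h1] at h12
    exact hinj h12
  -- bounded below
  obtain ⟨K, hK0, hK⟩ : ∃ K : NNReal, 0 < K ∧ AntilipschitzWith K (N.starProjection.comp L) :=
    (LinearMap.injective_iff_antilipschitz
      ((N.starProjection.comp L : E k →L[ℝ] E (m + 1)) : E k →ₗ[ℝ] E (m + 1))).1 hGinj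
  obtain ⟨S, hS, happ⟩ := hG.approximates_deriv_on_nhds (c := K⁻¹ / 2) (Or.inr (by positivity))
  obtain ⟨r1, hr1, hr1S⟩ := Metric.mem_nhds_iff.1 hS
  have hinjOn : ∀ u ∈ S, ∀ u' ∈ S, N.starProjection ((ψ u).1 - z.1) =
      N.starProjection ((ψ u').1 - z.1) → u = u' := by
    intro u hu u' hu' he
    have h1 := happ u hu u' hu'
    have he' : N.starProjection ((ψ u).1 - z.1) - N.starProjection ((ψ u').1 - z.1) = 0 := by
      rw [he, sub_self]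
    simp only [he', zero_sub, norm_neg] at h1
    have h2 : ‖u - u'‖ ≤ K * ‖(N.starProjection.comp L) (u - u')‖ := by
      have := hK.le_mul_dist u u'
      rw [dist_eq_norm, dist_eq_norm, ← map_sub] at this
      exact this
    by_contra hne
    have hpos : 0 < ‖u - u'‖ := norm_pos_iff.2 (sub_ne_zero.2 hne)
    have hKpos : (0 : ℝ) < K := hK0
    have h3 : ‖u - u'‖ ≤ K * (((K⁻¹ / 2 : NNReal) : ℝ) * ‖u - u'‖) :=
      h2.trans (mul_le_mul_of_nonneg_left h1 hKpos.le)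
    have h4 : (K : ℝ) * (((K⁻¹ / 2 : NNReal) : ℝ) * ‖u - u'‖) = ‖u - u'‖ / 2 := by
      push_cast
      field_simp
    rw [h4] at h3
    linarith
  obtain ⟨δ, hδ, hcov'⟩ := hcov r1 hr1
  refine ⟨δ / 2, by positivity, ?_⟩
  rintro y1 ⟨⟨hy1, hy1s⟩, hy1d⟩ y2 ⟨⟨hy2, hy2s⟩, hy2d⟩ h12
  obtain ⟨u1, hu1, rfl⟩ := hcov' y1 hy1 hy1s (lt_of_le_of_lt (mem_closedBall.1 hy1d) (by linarith))
  obtain ⟨u2, hu2, rfl⟩ := hcov' y2 hy2 hy2s (lt_of_le_of_lt (mem_closedBall.1 hy2d) (by linarith))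
  rw [hinjOn u1 (hr1S hu1) u2 (hr1S hu2) h12]

theorem G5_ch_open : ∀ z ∈ UNB M, ∀ s : ℝ, 0 < s → ∀ δ > 0, ∃ r > 0,
    ∀ w ∈ LinearMap.ker (s • (A z : E (m + 1) →ₗ[ℝ] E (m + 1)) - LinearMap.id), ‖w‖ < r →
      ∃ y : E (m + 1) × E (m + 1), (y ∈ UNB M ∧ y.1 + s • y.2 = z.1 + s • z.2) ∧ dist y z < δ ∧
        (LinearMap.ker (s • (A z : E (m + 1) →ₗ[ℝ] E (m + 1)) - LinearMap.id)).starProjection
          (y.1 - z.1) = w := by
  intro z hz s hs δ hδ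
  obtain ⟨k, ψ, L, r0, hr0, hψ0, hψm, hψc, hstr, hinj, hran, hcov⟩ := G5_local hM hD A hP hz hs
  set N := LinearMap.ker (s • (A z : E (m + 1) →ₗ[ℝ] E (m + 1)) - LinearMap.id) with hN
  have hG : HasStrictFDerivAt (fun u => N.orthogonalProjectionOnto ((ψ u).1 - z.1))
      (N.orthogonalProjectionOnto.comp L) 0 := (N.orthogonalProjectionOnto.hasStrictFDerivAt).comp 0 hstr
  have hsurj : (N.orthogonalProjectionOnto.comp L : E k →L[ℝ] N).range = ⊤ := by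
    rw [LinearMap.range_eq_top]
    intro w
    obtain ⟨v, hv⟩ := (hran w).1 w.2
    refine ⟨v, ?_⟩
    show N.orthogonalProjectionOnto (L v) = w
    rw [hv]
    exact Submodule.orthogonalProjectionOnto_mem_subspace_eq_self w
  have hmap := hG.map_nhds_eq_of_surj hsurj
  have h0 : N.orthogonalProjectionOnto ((ψ 0).1 - z.1) = 0 := by
    rw [hψ0, sub_self, map_zero]
  rw [h0] at hmap
  have hnb : {u : E k | dist (ψ u) z < δ} ∩ ball 0 r0 ∈ 𝓝 (0 : E k) := by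
    refine inter_mem ?_ (ball_mem_nhds _ hr0)
    have h1 : Tendsto ψ (𝓝 0) (𝓝 z) := by
      have := hψc.tendsto
      rwa [hψ0] at this
    exact h1.eventually (ball_mem_nhds z hδ)
  have himg := image_mem_map (m := fun u => N.orthogonalProjectionOnto ((ψ u).1 - z.1)) hnb
  rw [hmap] at himg
  obtain ⟨r, hr, hrsub⟩ := Metric.mem_nhds_iff.1 himg
  refine ⟨r, hr, ?_⟩
  intro w hw hwr
  have hw' : (⟨w, hw⟩ : N) ∈ ball (0 : N) r := by
    rw [mem_ball_zero_iff]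
    exact hwr
  obtain ⟨u, ⟨hu1, hu2⟩, hu3⟩ := hrsub hw'
  refine ⟨ψ u, hψm u hu2, hu1, ?_⟩
  have h3 : N.orthogonalProjectionOnto ((ψ u).1 - z.1) = ⟨w, hw⟩ := hu3
  rw [Submodule.starProjection_apply, h3]

theorem G5_ch_tan : ∀ z ∈ UNB M, ∀ s : ℝ, 0 < s → ∀ ε > 0, ∃ δ > 0,
    ∀ y : E (m + 1) × E (m + 1), y ∈ UNB M → y.1 + s • y.2 = z.1 + s • z.2 →
    dist y z < δ → ‖(y.1 - z.1) -
      (LinearMap.ker (s • (A z : E (m + 1) →ₗ[ℝ] E (m + 1)) - LinearMap.id)).starProjection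
        (y.1 - z.1)‖ ≤ ε * ‖y.1 - z.1‖ := by
  intro z hz s hs ε hε
  obtain ⟨k, ψ, L, r0, hr0, hψ0, hψm, hψc, hstr, hinj, hran, hcov⟩ := G5_local hM hD A hP hz hs
  set N := LinearMap.ker (s • (A z : E (m + 1) →ₗ[ℝ] E (m + 1)) - LinearMap.id) with hN
  obtain ⟨K, hK0, hK⟩ : ∃ K : NNReal, 0 < K ∧ AntilipschitzWith K L :=
    (LinearMap.injective_iff_antilipschitz (L : E k →ₗ[ℝ] E (m + 1))).1 hinj
  have hKpos : (0 : ℝ) < K := hK0
  have hLlow : ∀ v, ‖v‖ ≤ K * ‖L v‖ := by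
    intro v
    have := hK.le_mul_dist v 0
    rwa [map_zero, dist_zero_right, dist_zero_right] at this
  -- little o
  set η : ℝ := min (1 / (2 * K)) (ε / (2 * K * 2)) with hη
  have hηpos : 0 < η := by positivity
  have hlo := hstr.hasFDerivAt.isLittleO
  have hev := hlo.def hηpos
  obtain ⟨r1, hr1, hr1e⟩ := Metric.eventually_nhds_iff.1 hev
  obtain ⟨δ, hδ, hcov'⟩ := hcov r1 hr1
  refine ⟨δ, hδ, ?_⟩
  intro y hy hys hyd
  obtain ⟨u, hu, rfl⟩ := hcov' y hy hys hyd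
  have h1 : ‖(ψ u).1 - z.1 - L u‖ ≤ η * ‖u‖ := by
    have := hr1e (mem_ball.1 hu)
    simpa [hψ0] using this
  have hLN : L u ∈ N := (hran _).2 ⟨u, rfl⟩
  have h2 : N.starProjection (L u) = L u := Submodule.starProjection_eq_self_iff.2 hLN
  have h3 : (ψ u).1 - z.1 - N.starProjection ((ψ u).1 - z.1) =
      ((ψ u).1 - z.1 - L u) - N.starProjection ((ψ u).1 - z.1 - L u) := by
    have h5 : N.starProjection ((ψ u).1 - z.1 - L u) =
        N.starProjection ((ψ u).1 - z.1) - N.starProjection (L u) := map_sub _ _ _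
    rw [h5, h2]
    abel
  have h4 : ‖(ψ u).1 - z.1 - N.starProjection ((ψ u).1 - z.1)‖ ≤ 2 * (η * ‖u‖) := by
    rw [h3]
    calc ‖((ψ u).1 - z.1 - L u) - N.starProjection ((ψ u).1 - z.1 - L u)‖
        ≤ ‖(ψ u).1 - z.1 - L u‖ + ‖N.starProjection ((ψ u).1 - z.1 - L u)‖ := norm_sub_le _ _
      _ ≤ ‖(ψ u).1 - z.1 - L u‖ + ‖(ψ u).1 - z.1 - L u‖ := by
          gcongr
          exact N.norm_starProjection_apply_le _
      _ ≤ 2 * (η * ‖u‖) := by linarith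
  have h6 : ‖u‖ ≤ 2 * K * ‖(ψ u).1 - z.1‖ := by
    have h7 : ‖L u‖ ≤ ‖(ψ u).1 - z.1‖ + η * ‖u‖ := by
      have h8 : L u = ((ψ u).1 - z.1) - ((ψ u).1 - z.1 - L u) := by abel
      calc ‖L u‖ = ‖((ψ u).1 - z.1) - ((ψ u).1 - z.1 - L u)‖ := by rw [← h8]
        _ ≤ ‖(ψ u).1 - z.1‖ + ‖(ψ u).1 - z.1 - L u‖ := norm_sub_le _ _
        _ ≤ _ := by gcongr
    have h9 : η ≤ 1 / (2 * K) := min_le_left _ _
    have h10 : K * (η * ‖u‖) ≤ ‖u‖ / 2 := by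
      have h11 : K * η ≤ 1 / 2 := by
        calc (K : ℝ) * η ≤ K * (1 / (2 * K)) := by gcongr
          _ = 1 / 2 := by field_simp
      nlinarith [norm_nonneg u]
    have h12 := hLlow u
    have h13 : K * ‖L u‖ ≤ K * (‖(ψ u).1 - z.1‖ + η * ‖u‖) := by gcongr
    nlinarith
  have h14 : η ≤ ε / (2 * K * 2) := min_le_right _ _
  calc ‖(ψ u).1 - z.1 - N.starProjection ((ψ u).1 - z.1)‖ ≤ 2 * (η * ‖u‖) := h4
    _ ≤ 2 * (ε / (2 * K * 2) * (2 * K * ‖(ψ u).1 - z.1‖)) := by gcongr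
    _ = ε * ‖(ψ u).1 - z.1‖ := by field_simp

end

end MPf7aa
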