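import Pool.Agent.Lib.MP_f7aa1b_gt.F1b

/-!
The unit normal bundle of a compact submanifold is compact.
-/

open Set Filter Topology Metric
open scoped ContDiff

namespace MPf7aa

/-- points of S converging to p come from parameters converging to 0 -/
theorem chart_seq {F : Type*} [NormedAddCommGroup F] [NormedSpace ℝ F] {d : ℕ} {S : Set F}
    {p : F} {U : Set (E d)} {φ : E d → F} (h : IsChart d S p U φ) {pn : ℕ → F}
    (hp : Tendsto pn atTop (𝓝 p)) (hS : ∀ i, pn i ∈ S) :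
    ∃ yn : ℕ → E d, Tendsto yn atTop (𝓝 0) ∧ ∀ᶠ i in atTop, yn i ∈ U ∧ φ (yn i) = pn i := by
  classical
  obtain ⟨W, hW, hφW⟩ := h.homeo U (Subset.refl _) h.op
  have hpW : p ∈ W := by
    have : p ∈ φ '' U := ⟨0, h.zero, h.base⟩
    rw [hφW] at this
    exact this.2
  have hev : ∀ᶠ i in atTop, pn i ∈ φ '' U := by
    filter_upwards [hp.eventually (hW.mem_nhds hpW)] with i hi
    rw [hφW]; exact ⟨hS i, hi⟩
  let yn : ℕ → E d := fun i => if hi : pn i ∈ φ '' U then hi.choose else 0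
  have hyn : ∀ i, pn i ∈ φ '' U → yn i ∈ U ∧ φ (yn i) = pn i := by
    intro i hi
    have h1 : yn i = hi.choose := by simp only [yn, dif_pos hi]
    rw [h1]
    exact hi.choose_spec
  refine ⟨yn, ?_, hev.mono hyn⟩
  rw [Metric.tendsto_nhds]
  intro ε hε
  obtain ⟨r, hr, hrU⟩ := Metric.isOpen_iff.1 h.op 0 h.zero
  set r' := min r ε with hr'
  have hr'pos : 0 < r' := lt_min hr hε
  have hsub : ball (0 : E d) r' ⊆ U := (ball_subset_ball (min_le_left _ _)).trans hrU
  obtain ⟨W', hW', hφW'⟩ := h.homeo (ball 0 r') hsub isOpen_ball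
  have hpW' : p ∈ W' := by
    have : p ∈ φ '' ball (0 : E d) r' := ⟨0, mem_ball_self hr'pos, h.base⟩
    rw [hφW'] at this
    exact this.2
  filter_upwards [hp.eventually (hW'.mem_nhds hpW'), hev] with i hi1 hi2
  have h1 : pn i ∈ φ '' ball (0 : E d) r' := by rw [hφW']; exact ⟨hS i, hi1⟩
  obtain ⟨y, hy, hyp⟩ := h1
  have h2 := hyn i hi2
  have h3 : yn i = y := h.inj h2.1 (hsub hy) (by rw [h2.2, hyp])
  rw [h3]
  exact lt_of_lt_of_le (mem_ball.1 hy) (min_le_right _ _)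

theorem unb_closed {n d : ℕ} {M : Set (E n)} (hM : IsSubmfd d M) (hc : IsClosed M) :
    IsClosed (UNB M) := by
  rw [← closure_subset_iff_isClosed]
  intro b hb
  obtain ⟨bn, hbn, hlim⟩ := mem_closure_iff_seq_limit.1 hb
  have h1 : Tendsto (fun i => (bn i).1) atTop (𝓝 b.1) := (continuous_fst.tendsto b).comp hlim
  have h2 : Tendsto (fun i => (bn i).2) atTop (𝓝 b.2) := (continuous_snd.tendsto b).comp hlim
  have hbM : b.1 ∈ M := hc.mem_of_tendsto h1 (Eventually.of_forall fun i => (hbn i).1)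
  refine ⟨hbM, ?_, ?_⟩
  · have h3 : Tendsto (fun i => ‖(bn i).2‖) atTop (𝓝 ‖b.2‖) := h2.norm
    have h4 : (fun i => ‖(bn i).2‖) = fun _ => (1 : ℝ) := by
      funext i; exact (hbn i).2.1
    rw [h4] at h3
    exact (tendsto_nhds_unique h3 tendsto_const_nhds)
  · intro v hv
    obtain ⟨U, φ, hφ⟩ := hM b.1 hbM
    have hv' : v ∈ range (fderiv ℝ φ 0) := by
      rw [← tanSet_chart hφ hφ.zero, hφ.base]; exact hv
    obtain ⟨a, rfl⟩ := hv'
    obtain ⟨yn, hyn, hev⟩ := chart_seq hφ h1 (fun i => (hbn i).1)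
    have hfd : ContinuousAt (fderiv ℝ φ) 0 := by
      have := (hφ.smooth.continuousOn_fderiv_of_isOpen hφ.op (by simp))
      exact this.continuousAt (hφ.op.mem_nhds hφ.zero)
    have h5 : Tendsto (fun i => fderiv ℝ φ (yn i) a) atTop (𝓝 (fderiv ℝ φ 0 a)) :=
      ((ContinuousLinearMap.apply ℝ (E n) a).continuous.tendsto _).comp (hfd.tendsto.comp hyn)
    have h6 : Tendsto (fun i => (inner ℝ (fderiv ℝ φ (yn i) a) (bn i).2 : ℝ)) atTop
        (𝓝 (inner ℝ (fderiv ℝ φ 0 a) b.2)) := h5.inner h2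
    have h7 : ∀ᶠ i in atTop, (inner ℝ (fderiv ℝ φ (yn i) a) (bn i).2 : ℝ) = 0 := by
      filter_upwards [hev] with i hi
      refine (hbn i).2.2 _ ?_
      rw [← hi.2, tanSet_chart hφ hi.1]
      exact ⟨a, rfl⟩
    exact tendsto_nhds_unique h6 (tendsto_const_nhds.congr' (h7.mono fun i hi => hi.symm))

theorem unb_compact {n d : ℕ} {M : Set (E n)} (hM : IsSubmfd d M) (hc : IsCompact M) :
    IsCompact (UNB M) := by
  refine IsCompact.of_isClosed_subset (hc.prod (isCompact_sphere (0 : E n) 1))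
    (unb_closed hM hc.isClosed) ?_
  intro b hb
  exact ⟨hb.1, by rw [mem_sphere_zero_iff_norm]; exact hb.2.1⟩

end MPf7aa
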