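import Mathlib
import Pool.Agent.Lib.MP_f7aa1b_gt.H.C1
import Pool.Agent.Lib.MP_f7aa1b_gt.H.G2
import Pool.Agent.Lib.MP_f7aa1b_gt.H.G3
import Pool.Agent.Lib.MP_f7aa1b_gt.H.G4a
import Pool.Agent.Lib.MP_f7aa1b_gt.H.G5
import Pool.Agent.Lib.MP_f7aa1b_gt.H.UnbCompact

/-!
# The data `Foc` of a compact Dupin submanifold
-/

set_option autoImplicit false

open Set Filter Topology Metric
open scoped ContDiff

namespace MPf7aa

open F7H

variable {m d : ℕ} {M : Set (E (m + 1))}

theorem shM_princ (hM : IsSubmfd d M) : ∀ y ∈ UNB M, ∀ s : ℝ, 0 < s → ∀ w,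
    w ∈ PrincSpace M s⁻¹ y ↔ s • ShM M y w.1 = w.1 ∧ w.2 = -(s⁻¹ • w.1) := by
  intro y hy s hs w
  have h := shM_spec hM hy
  refine princ_iff_A hM hy (PrM M y.1) (ShM M y) (PrM_idem M y.1)
    (fun v w => PrM_symm M y.1 v w) ?_ h.PrA h.APr h.wein hs w
  -- the normal vector is orthogonal to the tangent space
  have h1 : PrM M y.1 y.2 ∈ TanSet M y.1 := by
    rw [mem_tanSet_iff hM hy.1]; exact PrM_idem M y.1 y.2
  have h2 : inner ℝ (PrM M y.1 y.2) y.2 = 0 := hy.2.2 _ h1
  have h3 : inner ℝ (PrM M y.1 y.2) (PrM M y.1 y.2) = 0 := by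
    rw [← PrM_symm, PrM_idem]; exact h2
  exact inner_self_eq_zero.1 h3

/-- the data `Foc` of a compact Dupin submanifold -/
noncomputable def focOf (hc : IsCompact M) (hM : IsSubmfd d M) (hD : IsDupin M) : Foc (m + 1) where
  M := M
  B := UNB M
  Pr := PrM M
  A := ShM M
  lam := fun j z => eig (ShM M z) j
  compM := hc
  compB := unb_compact hM hc
  memM := fun z hz => hz.1
  unit := fun z hz => hz.2.1
  Pr_cont := by
    rw [continuousOn_clm_apply]
    intro w
    exact (geomM_of_submfd hc hM).continuousOn_P continuousOn_id (fun x hx => hx)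
      continuousOn_const
  Pr_idem := fun x _ w => PrM_idem M x w
  Pr_symm := fun x _ v w => PrM_symm M x v w
  A_cont := shM_cont hM
  A_symm := fun z hz => (shM_spec hM hz).symm
  A_Pr := fun z hz => (shM_spec hM hz).APr
  Pr_A := fun z hz => (shM_spec hM hz).PrA
  lam_cont := fun j => continuousOn_eig (shM_cont hM) (fun z hz => (shM_spec hM hz).symm) j
  lam_anti := fun z hz i j hij => eig_anti (shM_spec hM hz).symm hij
  lam_eig := fun z hz => eig_spec (shM_spec hM hz).symm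
  est := (geomM_of_submfd hc hM).tan
  tay := shM_tay hM hc
  ch_inj := G5_ch_inj hM hD (ShM M) (shM_princ hM)
  ch_open := G5_ch_open hM hD (ShM M) (shM_princ hM)
  ch_tan := G5_ch_tan hM hD (ShM M) (shM_princ hM)
  ch_mul := G5_ch_mul hM hD (ShM M) (shM_princ hM)

theorem focOf_mul (hc : IsCompact M) (hM : IsSubmfd d M) (hD : IsDupin M)
    {z : E (m + 1) × E (m + 1)} (hz : z ∈ UNB M) {s : ℝ} (hs : 0 < s) :
    (focOf hc hM hD).mul z s = 0 ↔ PrincSpace M (1 / s) z = {0} := by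
  have h1 : Module.finrank ℝ ((focOf hc hM hD).N z s) = (focOf hc hM hD).mul z s :=
    (focOf hc hM hD).finrank_N hz s
  rw [← h1, Submodule.finrank_eq_zero, one_div]
  have hN : ∀ w, w ∈ (focOf hc hM hD).N z s ↔ s • ShM M z w = w := fun w => G5_mem_ker (ShM M) z s w
  constructor
  · intro h
    apply Subset.antisymm
    · intro w hw
      rw [shM_princ hM z hz s hs] at hw
      have h2 : w.1 ∈ (focOf hc hM hD).N z s := (hN _).2 hw.1
      rw [h, Submodule.mem_bot] at h2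
      have h3 : w.2 = 0 := by rw [hw.2, h2, smul_zero, neg_zero]
      exact Prod.ext h2 h3
    · rintro _ rfl
      rw [shM_princ hM z hz s hs]
      simp
  · intro h
    rw [Submodule.eq_bot_iff]
    intro w hw
    have h2 : (w, -(s⁻¹ • w)) ∈ PrincSpace M s⁻¹ z := by
      rw [shM_princ hM z hz s hs]
      exact ⟨(hN _).1 hw, rfl⟩
    rw [h] at h2
    exact congrArg Prod.fst h2

/-- the form asked for -/
theorem foc_of (m : ℕ) {d : ℕ} (M : Set (E (m + 1))) (hc : IsCompact M) (hM : IsSubmfd d M)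
    (hD : IsDupin M) : ∃ F : Foc (m + 1), F.M = M ∧ F.B = UNB M ∧ F.Pr = PrM M ∧ F.A = ShM M ∧
      ∀ z ∈ UNB M, ∀ s : ℝ, 0 < s → (F.mul z s = 0 ↔ PrincSpace M (1 / s) z = {0}) :=
  ⟨focOf hc hM hD, rfl, rfl, rfl, rfl, fun _ hz _ hs => focOf_mul hc hM hD hz hs⟩

end MPf7aa
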