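import Pool.Agent.Lib.MP_f7aa1b_gt.F7c
import Pool.Agent.Lib.MP_f7aa1b_gt.F2c

/-!
The critical point x of L_p is nondegenerate iff 1/|p-x| is not a principal curvature at
(x, (p-x)/|p-x|).
-/

open Set Filter Topology Metric
open scoped ContDiff

namespace MPf7aa

theorem crit_unb {n : ℕ} {M : Set (E n)} {p x : E n} (hx : x ∈ CritSet M p) (hne : x ≠ p) :
    (x, ‖p - x‖⁻¹ • (p - x)) ∈ UNB M := by
  have hT : ‖p - x‖ ≠ 0 := norm_ne_zero_iff.2 (sub_ne_zero.2 hne.symm)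
  refine ⟨hx.1, ?_, ?_⟩
  · show ‖‖p - x‖⁻¹ • (p - x)‖ = 1
    rw [norm_smul, norm_inv, norm_norm, inv_mul_cancel₀ hT]
  · intro v hv
    show inner ℝ v (‖p - x‖⁻¹ • (p - x)) = 0
    rw [inner_smul_right, hx.2 v hv, mul_zero]

theorem hessNull_zero_iff {m d : ℕ} {M : Set (E (m + 1))} (hM : IsSubmfd d M)
    {p x : E (m + 1)} (hx : x ∈ CritSet M p) (hne : x ≠ p) {U1 : Set (E d)} {φ : E d → E (m + 1)}
    (hφ : IsChart d M x U1 φ) :
    HessNull p φ = {0} ↔ PrincSpace M ‖p - x‖⁻¹ (x, ‖p - x‖⁻¹ • (p - x)) = {0} := by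
  have hT : ‖p - x‖ ≠ 0 := norm_ne_zero_iff.2 (sub_ne_zero.2 hne.symm)
  obtain ⟨U, b, hb⟩ := unb_submfd hM _ (crit_unb hx hne)
  have hb0 : b 0 = (x, ‖p - x‖⁻¹ • (p - x)) := hb.base
  have hφ' : IsChart d M (b 0).1 U1 φ := by rw [hb0]; exact hφ
  have hp : (b 0).1 + ‖p - x‖ • (b 0).2 = p := by
    rw [hb0]
    show x + ‖p - x‖ • (‖p - x‖⁻¹ • (p - x)) = p
    rw [smul_smul, mul_inv_cancel₀ hT, one_smul, add_sub_cancel]
  have hnull : ∀ a, a ∈ HessNull p φ ↔ ∃ v : E m, fderiv ℝ (fun u => (b u).1) 0 v = fderiv ℝ φ 0 a ∧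
        fderiv ℝ (fun u => (b u).1) 0 v + ‖p - x‖ • fderiv ℝ (fun u => (b u).2) 0 v = 0 := by
    intro a
    have := hessNull_iff hb hb.zero hφ' hT a
    rwa [hp] at this
  have hpr : ∀ w, w ∈ PrincSpace M ‖p - x‖⁻¹ (x, ‖p - x‖⁻¹ • (p - x)) ↔ ∃ v : E m,
      w = fderiv ℝ b 0 v ∧
      fderiv ℝ (fun u => (b u).2) 0 v + ‖p - x‖⁻¹ • fderiv ℝ (fun u => (b u).1) 0 v = 0 := by
    intro w
    have := princ_iff hb hb.zero ‖p - x‖⁻¹ w
    rwa [hb0] at this
  have hequiv : ∀ v, (fderiv ℝ (fun u => (b u).2) 0 v +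
        ‖p - x‖⁻¹ • fderiv ℝ (fun u => (b u).1) 0 v = 0 ↔
        fderiv ℝ (fun u => (b u).1) 0 v + ‖p - x‖ • fderiv ℝ (fun u => (b u).2) 0 v = 0) := by
    intro v
    constructor
    · intro hv
      have := congrArg (fun x' => ‖p - x‖ • x') hv
      simp only [smul_add, smul_smul, mul_inv_cancel₀ hT, one_smul, smul_zero] at this
      exact (add_comm _ _).trans this
    · intro hv
      have := congrArg (fun x' => ‖p - x‖⁻¹ • x') hv
      simp only [smul_add, smul_smul, inv_mul_cancel₀ hT, one_smul, smul_zero] at this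
      exact (add_comm _ _).trans this
  have hphi : fderiv ℝ φ 0 0 = 0 := map_zero _
  constructor
  · intro hH
    apply Subset.antisymm
    · intro w hw
      obtain ⟨v, rfl, hv⟩ := (hpr w).1 hw
      obtain ⟨a, ha, -⟩ := phi_lift hb hb.zero hφ' v
      have hv2 := (hequiv v).1 hv
      have haH : a ∈ HessNull p φ := (hnull a).2 ⟨v, ha.symm, hv2⟩
      rw [hH] at haH
      have ha0 : a = 0 := haH
      rw [ha0, map_zero] at ha
      have h1 : fderiv ℝ (fun u => (b u).1) 0 v = 0 := ha.symm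
      rw [h1, smul_zero, add_zero] at hv
      show fderiv ℝ b 0 v = 0
      rw [fderiv_pair hb hb.zero v, h1, hv]
      rfl
    · rintro w rfl
      refine (hpr 0).2 ⟨0, by rw [map_zero], by simp⟩
  · intro hP
    apply Subset.antisymm
    · intro a ha
      obtain ⟨v, hv1, hv2⟩ := (hnull a).1 ha
      have hw : fderiv ℝ b 0 v ∈ PrincSpace M ‖p - x‖⁻¹ (x, ‖p - x‖⁻¹ • (p - x)) :=
        (hpr _).2 ⟨v, rfl, (hequiv v).2 hv2⟩
      rw [hP] at hw
      have hw0 : fderiv ℝ b 0 v = 0 := hw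
      rw [fderiv_pair hb hb.zero v] at hw0
      have h1 : fderiv ℝ (fun u => (b u).1) 0 v = 0 := congrArg Prod.fst hw0
      rw [h1] at hv1
      have : fderiv ℝ φ 0 a = fderiv ℝ φ 0 0 := by rw [← hv1, map_zero]
      exact hφ.imm 0 hφ.zero this
    · rintro a rfl
      refine (hnull 0).2 ⟨0, by rw [map_zero, map_zero], by simp⟩

end MPf7aa
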