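import Mathlib
import Pool.Agent.Lib.MP_f7aa1b_gt.TautDefs
import Pool.Agent.Lib.MP_f7aa1b_gt.H.GeomOf

/-!
# MP_f7aa1b_gt: critical points with nondegenerate Hessian are isolated; there are finitely many
-/

set_option autoImplicit false

open Set Filter Topology Metric
open scoped ContDiff RealInnerProductSpace

namespace MPf7aa

variable {n d : ℕ}

/-- critical points and the gradient -/
theorem mem_critSet_iff_gr {M : Set (E n)} (hM : IsSubmfd d M) {p x : E n} :
    x ∈ CritSet M p ↔ x ∈ M ∧ F7D.GeomM.gr (PrM M) p x = 0 := by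
  constructor
  · rintro ⟨hx, h⟩
    refine ⟨hx, ?_⟩
    have h1 : PrM M x (x - p) ∈ TanSet M x := (mem_tanSet_iff hM hx _).2 (PrM_idem M x _)
    have h2 := h _ h1
    have h3 : inner ℝ (PrM M x (x - p)) (PrM M x (x - p)) = 0 := by
      rw [← PrM_symm, PrM_idem, ← neg_sub p x, inner_neg_right, neg_sub, h2, neg_zero]
    show PrM M x (x - p) = 0
    exact inner_self_eq_zero.1 h3
  · rintro ⟨hx, h⟩
    refine ⟨hx, fun v hv => ?_⟩
    have h1 : PrM M x v = v := (mem_tanSet_iff hM hx v).1 hv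
    have h2 : PrM M x (x - p) = 0 := h
    rw [← h1, PrM_symm, ← neg_sub x p, map_neg, h2, neg_zero, inner_zero_right]

/-- critical points in a chart -/
theorem crit_chart {M : Set (E n)} {p x : E n} {U : Set (E d)} {φ : E d → E n} (h : IsChart d M x U φ)
    {u : E d} (hu : u ∈ U) :
    φ u ∈ CritSet M p ↔ fderiv ℝ (fun u => ‖p - φ u‖ ^ 2) u = 0 := by
  have hφ : HasFDerivAt φ (fderiv ℝ φ u) u :=
    ((h.smooth.contDiffAt (h.op.mem_nhds hu)).differentiableAt (by simp)).hasFDerivAt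
  have h1 : HasFDerivAt (fun u => p - φ u) (-fderiv ℝ φ u) u := hφ.const_sub p
  have h2 := h1.norm_sq
  have hder : ∀ a, fderiv ℝ (fun u => ‖p - φ u‖ ^ 2) u a = -(2 * inner ℝ (fderiv ℝ φ u a) (p - φ u)) := by
    intro a
    rw [h2.fderiv]
    show 2 • (inner ℝ (p - φ u) (-(fderiv ℝ φ u a)) : ℝ) = _
    rw [inner_neg_right, real_inner_comm, nsmul_eq_mul]
    push_cast
    ring
  have hmem : φ u ∈ M := by
    obtain ⟨W, -, hW⟩ := h.homeo U subset_rfl h.op
    have : φ u ∈ φ '' U := ⟨u, hu, rfl⟩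
    rw [hW] at this
    exact this.1
  constructor
  · rintro ⟨-, hc⟩
    ext a
    rw [hder]
    have h3 : fderiv ℝ φ u a ∈ TanSet M (φ u) := by
      rw [tanSet_chart h hu]
      exact ⟨a, rfl⟩
    rw [hc _ h3]
    simp
  · intro h0
    refine ⟨hmem, fun v hv => ?_⟩
    rw [tanSet_chart h hu] at hv
    obtain ⟨a, rfl⟩ := hv
    have h3 := hder a
    rw [h0] at h3
    simp only [zero_apply] at h3
    linarith

theorem smooth_dist {M : Set (E n)} {p x : E n} {U : Set (E d)} {φ : E d → E n} (h : IsChart d M x U φ) :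
    ContDiffOn ℝ ∞ (fun u => ‖p - φ u‖ ^ 2) U :=
  (contDiffOn_const.sub h.smooth).norm_sq ℝ

/-- the derivative of the distance function in a chart is differentiable -/
theorem diff_dist {M : Set (E n)} {p x : E n} {U : Set (E d)} {φ : E d → E n} (h : IsChart d M x U φ) :
    DifferentiableAt ℝ (fderiv ℝ (fun u => ‖p - φ u‖ ^ 2)) 0 := by
  have h1 : ContDiffOn ℝ ∞ (fderiv ℝ (fun u => ‖p - φ u‖ ^ 2)) U :=
    (smooth_dist h).fderiv_of_isOpen h.op (by simp)
  exact (h1.contDiffAt (h.op.mem_nhds h.zero)).differentiableAt (by simp)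

/-- the image of a neighbourhood of `0` -/
theorem chart_nhds {M : Set (E n)} {x : E n} {U : Set (E d)} {φ : E d → E n} (h : IsChart d M x U φ)
    {Q : E d → Prop} (hQ : ∀ᶠ u in 𝓝 0, Q u) : ∃ R : ℝ, 0 < R ∧ ∀ y ∈ M, ‖y - x‖ ≤ R → ∃ u ∈ U, φ u = y ∧ Q u := by
  obtain ⟨r, hr, hball⟩ := Metric.eventually_nhds_iff_ball.1 (hQ.and (h.op.mem_nhds h.zero))
  obtain ⟨W, hW, hφW⟩ := h.homeo (ball 0 r) (fun u hu => (hball u hu).2) isOpen_ball
  have hxW : x ∈ W := by
    have : φ 0 ∈ φ '' ball 0 r := ⟨0, mem_ball_self hr, rfl⟩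
    rw [hφW, h.base] at this
    exact this.2
  obtain ⟨R, hR, hRW⟩ := Metric.nhds_basis_closedBall.mem_iff.1 (hW.mem_nhds hxW)
  refine ⟨R, hR, fun y hy hyR => ?_⟩
  have h1 : y ∈ φ '' ball 0 r := by
    rw [hφW]
    exact ⟨hy, hRW (by rwa [mem_closedBall, dist_eq_norm])⟩
  obtain ⟨u, hu, rfl⟩ := h1
  exact ⟨u, (hball u hu).2, rfl, (hball u hu).1⟩

/-- a critical point with nondegenerate Hessian is isolated -/
theorem crit_isolated {M : Set (E n)} {p x : E n} {U : Set (E d)} {φ : E d → E n} (h : IsChart d M x U φ)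
    (hx : x ∈ CritSet M p) (hH : HessNull p φ = {0}) :
    ∃ R : ℝ, 0 < R ∧ ∀ y ∈ M, ‖y - x‖ ≤ R → y ∈ CritSet M p → y = x := by
  set G := fderiv ℝ (fun u => ‖p - φ u‖ ^ 2) with hG
  have hG0 : G 0 = 0 := by
    rw [← h.base] at hx
    exact (crit_chart h h.zero).1 hx
  have hinj : Function.Injective (fderiv ℝ G 0) := by
    rw [injective_iff_map_eq_zero]
    intro a ha
    have h1 : a ∈ HessNull p φ := by
      intro b
      show fderiv ℝ G 0 a b = 0
      rw [ha]
      rfl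
    rw [hH] at h1
    exact h1
  obtain ⟨K, hK, hanti⟩ := (fderiv ℝ G 0).exists_antilipschitzWith (LinearMap.ker_eq_bot.2 hinj)
  have h1 : ∀ᶠ u in 𝓝[≠] (0 : E d), G u ≠ G 0 := by
    exact (diff_dist (p := p) h).hasFDerivAt.eventually_ne ⟨K, hanti⟩
  rw [eventually_nhdsWithin_iff] at h1
  obtain ⟨R, hR, hball⟩ := chart_nhds h h1
  refine ⟨R, hR, fun y hy hyR hyc => ?_⟩
  obtain ⟨u, hu, rfl, hQ⟩ := hball y hy hyR
  by_contra hne
  have hu0 : u ≠ 0 := by
    rintro rfl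
    exact hne h.base
  apply hQ hu0
  rw [hG0]
  exact (crit_chart h hu).1 hyc

/-- the critical set is closed in `M` -/
theorem not_crit_nhds {M : Set (E n)} {p x : E n} {U : Set (E d)} {φ : E d → E n} (h : IsChart d M x U φ)
    (hx : x ∉ CritSet M p) : ∃ R : ℝ, 0 < R ∧ ∀ y ∈ M, ‖y - x‖ ≤ R → y ∉ CritSet M p := by
  set G := fderiv ℝ (fun u => ‖p - φ u‖ ^ 2) with hG
  have hG0 : G 0 ≠ 0 := by
    intro h0
    apply hx
    rw [← h.base]
    exact (crit_chart h h.zero).2 h0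
  obtain ⟨R, hR, hball⟩ := chart_nhds h ((diff_dist (p := p) h).continuousAt.eventually_ne hG0)
  refine ⟨R, hR, fun y hy hyR hyc => ?_⟩
  obtain ⟨u, hu, rfl, hQ⟩ := hball y hy hyR
  exact hQ ((crit_chart h hu).1 hyc)

/-- a Morse distance function has finitely many critical points -/
theorem finite_crit {M : Set (E n)} (hc : IsCompact M) (hM : IsSubmfd d M) {p : E n} (hp : IsMorse d M p) :
    (CritSet M p).Finite := by
  by_contra hinf
  obtain ⟨x, hxM, hacc⟩ := Set.Infinite.exists_accPt_of_subset_isCompact hinf hc (fun y hy => hy.1)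
  obtain ⟨U, φ, h⟩ := hM x hxM
  rw [accPt_iff_frequently] at hacc
  have key : ∃ R : ℝ, 0 < R ∧ ∀ y ∈ M, ‖y - x‖ ≤ R → y ∈ CritSet M p → y = x := by
    by_cases hx : x ∈ CritSet M p
    · exact crit_isolated h hx (hp x hx U φ h)
    · obtain ⟨R, hR, hball⟩ := not_crit_nhds h hx
      exact ⟨R, hR, fun y hy hyR hyc => absurd hyc (hball y hy hyR)⟩
  obtain ⟨R, hR, hball⟩ := key
  apply hacc
  filter_upwards [closedBall_mem_nhds x hR] with y hy
  rintro ⟨hne, hyc⟩
  exact hne (hball y hyc.1 (by rwa [mem_closedBall, dist_eq_norm] at hy) hyc)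

end MPf7aa
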