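import Pool.Agent.Lib.MP_f7aa1b_gt.ASC.Cube
import Pool.Agent.Lib.MP_f7aa1b_gt.H.CDefs

/-!
# Lemma L in the form used in part C
-/

set_option autoImplicit false

open Set Metric

namespace ASC

section

variable {X : Type*}

lemma lamI_eq_LAM {n : ℕ} : ∀ (m : ℕ) (F : X → Fin m → ℝ) (U : Coch X (n + 1)),
    lamI m F U = LAM m F U := by
  intro m
  induction m with
  | zero => intro F U; rfl
  | succ m ih => intro F U; rw [lamI, LAM, ih]

lemma LAM_congr {n : ℕ} : ∀ {m : ℕ} {F G : X → Fin m → ℝ} (U : Coch X (n + 1))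
    (x : Fin (n + m + 1) → X), (∀ i, F (x i) = G (x i)) → LAM m F U x = LAM m G U x := by
  intro m
  induction m with
  | zero => intro F G U x _; rfl
  | succ m ih =>
    intro F G U x h
    have h1 : LAM m (fun y => Fin.tail (F y)) U (Fin.tail x) =
        LAM m (fun y => Fin.tail (G y)) U (Fin.tail x) := by
      apply ih
      intro i
      show Fin.tail (F (x i.succ)) = Fin.tail (G (x i.succ))
      rw [h]
    simp only [LAM, lam, h, h1]

end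

/-- the part of the cochain `loc` over a ball is a cocycle -/
lemma loc_coc {X Y : Type*} [MetricSpace X] [MetricSpace Y] {K : Set X} (hK : IsCompact K)
    {ρ : X → Y} (hρ : Continuous ρ) {y : Y} {r δ : ℝ} (hr : 0 < r) (hrδ : r ≤ δ) {b μ : ℕ}
    {U : Coch X (b + 1)} (hU : Van (K ∩ ρ ⁻¹' (closedBall y δ)) (dl U)) {κ : Y → Fin μ → ℝ}
    (hκ : Continuous κ) (hne : ∀ g ∈ K, ρ g ∈ closedBall y δ → κ (ρ g) = 0 → ρ g = y)
    {W : Set Y} (hW : IsOpen W) (hyW : y ∈ W) :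
    Coc K (K ∩ ρ ⁻¹' Wᶜ) (loc {g | ρ g ∈ closedBall y r} (LAM μ (fun g => κ (ρ g)) U)) := by
  classical
  have hκρ : Continuous (fun g => κ (ρ g)) := hκ.comp hρ
  -- a neighbourhood of `y`
  obtain ⟨s, hs, hsr, hsW⟩ : ∃ s > 0, s < r ∧ ball y s ⊆ W := by
    obtain ⟨s, hs, h⟩ := Metric.isOpen_iff.1 hW y hyW
    refine ⟨min s (r / 2), lt_min hs (by linarith), (min_le_right _ _).trans_lt (by linarith),
      (ball_subset_ball (min_le_left _ _)).trans h⟩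
  have hK3 : IsCompact (K ∩ ρ ⁻¹' (closedBall y r \ ball y s)) := by
    refine isCompact_inter_pre hK hρ.continuousOn ?_
    exact isClosed_closedBall.sdiff isOpen_ball
  have hvan3 : Van (K ∩ ρ ⁻¹' (closedBall y r \ ball y s)) (LAM μ (fun g => κ (ρ g)) U) := by
    rw [← lamI_eq_LAM]
    refine lamI_van hK3 U hκρ.continuousOn ?_
    rintro g ⟨hg, h1, h2⟩ h3
    refine h2 ?_
    rw [hne g hg (closedBall_subset_closedBall hrδ h1) h3]
    exact mem_ball_self hs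
  have hdl : Van (K ∩ ρ ⁻¹' (closedBall y δ)) (dl (LAM μ (fun g => κ (ρ g)) U)) := by
    rw [← lamI_eq_LAM]
    exact dl_lamI_van hU _
  obtain ⟨ε1, hε1, h1⟩ := hvan3
  obtain ⟨ε2, hε2, h2⟩ := hdl
  obtain ⟨ε3, hε3, h3⟩ := Metric.uniformContinuousOn_iff.1
    (hK.uniformContinuousOn_of_continuous hρ.continuousOn) (r - s) (by linarith)
  -- tuples away from the small ball
  have haway : ∀ {k : ℕ} (x : Fin k → X), k = b + μ + 1 → Sm K ε1 x →
      (∀ i, ρ (x i) ∉ ball y s) → ∀ x' : Fin (b + μ + 1) → X, (∀ i, ∃ j, x' i = x j) →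
      loc {g | ρ g ∈ closedBall y r} (LAM μ (fun g => κ (ρ g)) U) x' = 0 := by
    intro k x _ hx hxs x' hx'
    rw [loc]
    split_ifs with h4
    · refine h1 x' ⟨fun i => ?_, fun i j => (hx.sub hx').2 i j⟩
      obtain ⟨j, hj⟩ := hx' i
      refine ⟨(hx.sub hx').1 i, h4 i, ?_⟩
      rw [hj]; exact hxs j
    · rfl
  constructor
  · refine ⟨ε1, hε1, fun x hx => ?_⟩
    rw [loc]
    split_ifs with h4
    · refine h1 x ⟨fun i => ⟨(hx.1 i).1, h4 i, fun h5 => (hx.1 i).2 (hsW h5)⟩, hx.2⟩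
    · rfl
  · refine ⟨min ε1 (min ε2 ε3), lt_min hε1 (lt_min hε2 hε3), fun x hx => ?_⟩
    have hx1 : Sm K ε1 x := hx.mono subset_rfl (min_le_left _ _)
    have hx2 : Sm K ε2 x := hx.mono subset_rfl ((min_le_right _ _).trans (min_le_left _ _))
    have hx3 : Sm K ε3 x := hx.mono subset_rfl ((min_le_right _ _).trans (min_le_right _ _))
    by_cases h5 : ∀ i, ρ (x i) ∈ closedBall y r
    · have e : dl (loc {g | ρ g ∈ closedBall y r} (LAM μ (fun g => κ (ρ g)) U)) x =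
          dl (LAM μ (fun g => κ (ρ g)) U) x := by
        apply dl_congr
        intro z hz
        rw [loc, if_pos]
        intro i
        obtain ⟨j, hj⟩ := hz i
        rw [hj]; exact h5 j
      rw [e]
      exact h2 x ⟨fun i => ⟨hx2.1 i, closedBall_subset_closedBall hrδ (h5 i)⟩, hx2.2⟩
    · push Not at h5
      obtain ⟨i0, hi0⟩ := h5
      have h6 : ∀ i, ρ (x i) ∉ ball y s := by
        intro i hi
        apply hi0
        have h7 := h3 _ (hx3.1 i0) _ (hx3.1 i) (hx3.2 i0 i)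
        rw [mem_ball] at hi
        rw [mem_closedBall]
        have := dist_triangle (ρ (x i0)) (ρ (x i)) y
        linarith
      apply dl_eq_zero
      intro z hz
      rw [loc]
      split_ifs with h4
      · refine h1 z ⟨fun i => ?_, (hx1.sub hz).2⟩
        obtain ⟨j, hj⟩ := hz i
        refine ⟨(hx1.sub hz).1 i, h4 i, ?_⟩
        rw [hj]; exact h6 j
      · rfl

/-- a chart and a local generator give a cube -/
lemma exists_cube {X Y : Type*} [MetricSpace X] [MetricSpace Y] {K : Set X} {ρ : X → Y} {Q : Set Y}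
    (hQ : IsCompact Q) {ρ' : X → ↥Q} (hρ' : ∀ x ∈ K, (ρ' x : Y) = ρ x) {μ b : ℕ} {y : Y}
    (hy : y ∈ Q) {κ : Y → Fin μ → ℝ} (hκ : Chart Q y κ) {δ : ℝ} (hδ : 0 < δ) {U : Coch X (b + 1)}
    (hU : Gen K ρ Q y δ U) {ε : ℝ} (hε : 0 < ε) :
    ∃ c : Cube K ρ' μ b, (⟨y, hy⟩ : ↥Q) ∈ c.V c.lo c.hi ∧ c.U = U ∧ (c.k = fun q => κ q.1) ∧
      (∀ q ∈ c.D, dist q.1 y ≤ ε) ∧ (0 : Fin μ → ℝ) ∈ ob c.lo c.hi := by
  have : CompactSpace ↥Q := isCompact_iff_compactSpace.1 hQ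
  obtain ⟨δi, hδi, hinj⟩ := hκ.inj
  obtain ⟨δ', hδ', h1, h2, h3⟩ : ∃ δ' > 0, δ' ≤ δ ∧ δ' ≤ δi ∧ δ' ≤ ε :=
    ⟨min δ (min δi ε), lt_min hδ (lt_min hδi hε), min_le_left _ _,
      (min_le_right _ _).trans (min_le_left _ _), (min_le_right _ _).trans (min_le_right _ _)⟩
  obtain ⟨r1, hr1, hsurj⟩ := hκ.surj (δ' / 2) (by linarith)
  obtain ⟨r, hr, hrr⟩ : ∃ r > 0, r < r1 := ⟨r1 / 2, by linarith, by linarith⟩
  have hcκ : Continuous (fun q : ↥Q => κ q.1) := hκ.cont.comp continuous_subtype_val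
  have hcd : Continuous (fun q : ↥Q => dist q.1 y) := continuous_subtype_val.dist continuous_const
  have hnorm : ∀ w : Fin μ → ℝ, w ∈ Icc (fun _ => -r) (fun _ => r) → ‖w‖ < r1 := by
    intro w hw
    refine lt_of_le_of_lt ?_ hrr
    rw [pi_norm_le_iff_of_nonneg hr.le]
    intro i
    rw [Real.norm_eq_abs, abs_le]
    exact ⟨hw.1 i, hw.2 i⟩
  have hclose : ∀ q : ↥Q, dist q.1 y ≤ δ' → κ q.1 ∈ Icc (fun _ => -r) (fun _ => r) →
      dist q.1 y < δ' := by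
    intro q hq hw
    obtain ⟨y', hy', hd, he⟩ := hsurj _ (hnorm _ hw)
    have : y' = q.1 := hinj ⟨hy', by rw [mem_closedBall]; linarith⟩
      ⟨q.2, by rw [mem_closedBall]; linarith⟩ he
    rw [← this]; linarith
  have hfib : ∀ q : ↥Q, TA K ρ' {q} = K ∩ ρ ⁻¹' {q.1} := by
    intro q
    ext x
    simp only [TA, mem_inter_iff, mem_preimage, mem_singleton_iff]
    constructor
    · rintro ⟨h4, h5⟩
      exact ⟨h4, by rw [← hρ' x h4, h5]⟩
    · rintro ⟨h4, h5⟩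
      exact ⟨h4, Subtype.ext (by rw [hρ' x h4, h5])⟩
  refine ⟨⟨{q | dist q.1 y ≤ δ' ∧ κ q.1 ∈ Icc (fun _ => -r) (fun _ => r)}, fun q => κ q.1,
    fun _ => -r, fun _ => r, U, fun _ => by linarith, ?_, hcκ.continuousOn, ?_, ?_, ?_, ?_, ?_⟩,
    ?_, rfl, rfl, ?_, ?_⟩
  · exact ((isClosed_le hcd continuous_const).inter (isClosed_Icc.preimage hcκ)).isCompact
  · rintro q ⟨hq, _⟩ q' ⟨hq', _⟩ he
    exact Subtype.ext (hinj ⟨q.2, by rw [mem_closedBall]; linarith⟩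
      ⟨q'.2, by rw [mem_closedBall]; linarith⟩ he)
  · refine subset_antisymm ?_ ?_
    · rintro _ ⟨q, ⟨_, hq⟩, rfl⟩
      exact hq
    · intro w hw
      obtain ⟨y', hy', hd, he⟩ := hsurj _ (hnorm _ hw)
      refine ⟨⟨y', hy'⟩, ⟨?_, ?_⟩, he⟩
      · show dist y' y ≤ δ'
        linarith
      · show κ y' ∈ _
        rw [he]; exact hw
  · have e : {q : ↥Q | dist q.1 y ≤ δ' ∧ κ q.1 ∈ Icc (fun _ => -r) (fun _ => r)} ∩
        (fun q : ↥Q => κ q.1) ⁻¹' (ob (fun _ => -r) (fun _ => r)) =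
        {q : ↥Q | dist q.1 y < δ'} ∩ (fun q : ↥Q => κ q.1) ⁻¹' (ob (fun _ => -r) (fun _ => r)) := by
      ext q
      constructor
      · rintro ⟨⟨h4, h5⟩, h6⟩
        exact ⟨hclose q h4 h5, h6⟩
      · rintro ⟨h4, h5⟩
        have h4' : dist q.1 y < δ' := h4
        exact ⟨⟨h4'.le, ob_sub_Icc _ _ h5⟩, h5⟩
    rw [e]
    exact (isOpen_lt hcd continuous_const).inter ((isOpen_ob _ _).preimage hcκ)
  · refine hU.coc.mono ?_ subset_rfl
    rintro x ⟨hx, hx'⟩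
    refine ⟨hx, ?_⟩
    rw [mem_preimage, mem_closedBall, ← hρ' x hx]
    exact hx'.1.trans h1
  · intro q hq
    rw [hfib]
    exact hU.gen q.1 q.2 (hq.1.trans h1)
  · refine ⟨⟨?_, ?_⟩, ?_⟩
    · show dist y y ≤ δ'
      rw [dist_self]; exact hδ'.le
    · show κ y ∈ Icc (fun _ => -r) (fun _ => r)
      rw [hκ.zero]
      exact ⟨fun _ => by simp only [Pi.zero_apply]; linarith,
        fun _ => by simp only [Pi.zero_apply]; linarith⟩
    · show κ y ∈ ob (fun _ => -r) (fun _ => r)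
      rw [hκ.zero]
      exact fun _ => ⟨by simp only [Pi.zero_apply]; linarith,
        by simp only [Pi.zero_apply]; linarith⟩
  · intro q hq
    exact hq.1.trans h3
  · exact fun _ => ⟨by simp only [Pi.zero_apply]; linarith, by simp only [Pi.zero_apply]; linarith⟩

/-- **Lemma L** for a compact connected manifold `Q` in a metric space. -/
theorem lemL (X Y : Type*) [MetricSpace X] [MetricSpace Y] :
    ∀ (K : Set X) (ρ : X → Y) (Q : Set Y) (μ b : ℕ), IsCompact K → Continuous ρ → IsCompact Q →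
    IsConnected Q →
    MapsTo ρ K Q → (∀ y ∈ Q, ∃ κ : Y → Fin μ → ℝ, Chart Q y κ) →
    (∀ y ∈ Q, ∀ m, b + 1 < m → HZ m (K ∩ ρ ⁻¹' {y}) ∅) →
    (∀ y ∈ Q, ∃ δ > 0, ∃ U : Coch X (b + 1), Gen K ρ Q y δ U) →
    (∀ m, b + μ + 1 < m → HZ m K ∅) ∧
    ∀ y ∈ Q, ∀ κ : Y → Fin μ → ℝ, Chart Q y κ → ∀ δ > 0, ∀ U : Coch X (b + 1), Gen K ρ Q y δ U →
      ∃ r0 > 0, ∀ r, 0 < r → r < r0 →
        HG K ∅ (loc {g | ρ g ∈ closedBall y r} (LAM μ (fun g => κ (ρ g)) U)) := by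
  intro K ρ Q μ b hK hρ hQ hQc hKQ hch h0 h1
  classical
  obtain ⟨y0, hy0⟩ := hQc.nonempty
  have : CompactSpace ↥Q := isCompact_iff_compactSpace.1 hQ
  have : ConnectedSpace ↥Q := isConnected_iff_connectedSpace.1 hQc
  obtain ⟨ρ', hρ'⟩ : ∃ ρ' : X → ↥Q, ∀ x ∈ K, (ρ' x : Y) = ρ x :=
    ⟨fun x => if h : ρ x ∈ Q then ⟨ρ x, h⟩ else ⟨y0, hy0⟩, fun x hx => by
      simp only [dif_pos (hKQ hx)]⟩
  have hcont : ContinuousOn ρ' K := by
    rw [Topology.IsInducing.subtypeVal.continuousOn_iff]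
    exact hρ.continuousOn.congr (fun x hx => hρ' x hx)
  have hfib : ∀ q : ↥Q, TA K ρ' {q} = K ∩ ρ ⁻¹' {q.1} := by
    intro q
    ext x
    simp only [TA, mem_inter_iff, mem_preimage, mem_singleton_iff]
    constructor
    · rintro ⟨h4, h5⟩
      exact ⟨h4, by rw [← hρ' x h4, h5]⟩
    · rintro ⟨h4, h5⟩
      exact ⟨h4, Subtype.ext (by rw [hρ' x h4, h5])⟩
  have hL := lemmaL (m := μ) (n := b) hK hcont
    (fun q k hk => by rw [hfib]; exact h0 q.1 q.2 k hk)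
    (fun q => by
      obtain ⟨κ, hκ⟩ := hch q.1 q.2
      obtain ⟨δ, hδ, U, hU⟩ := h1 q.1 q.2
      obtain ⟨c, hc, _⟩ := exists_cube hQ hρ' q.2 hκ hδ hU one_pos
      exact ⟨c, hc⟩)
  refine ⟨hL.1, ?_⟩
  intro y hy κ hκ δ hδ U hU
  obtain ⟨δi, hδi, hinj⟩ := hκ.inj
  refine ⟨min δ δi, lt_min hδ hδi, fun r hr hr0 => ?_⟩
  obtain ⟨c, hyc, hcU, hck, hcD, hc0⟩ := exists_cube hQ hρ' hy hκ hδ hU hr
  obtain ⟨W, hW, hWV⟩ := isOpen_induced_iff.1 (c.isOpen_V c.sub_self)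
  have hyW : y ∈ W := by
    have : (⟨y, hy⟩ : ↥Q) ∈ Subtype.val ⁻¹' W := by rw [hWV]; exact hyc
    exact this
  have hF : Coc K (K ∩ ρ ⁻¹' Wᶜ)
      (loc {g | ρ g ∈ closedBall y r} (LAM μ (fun g => κ (ρ g)) U)) := by
    refine loc_coc hK hρ hr hr0.le (hU.coc.cl.mono ?_) hκ.cont ?_ hW hyW
    · exact inter_subset_inter_right _ (preimage_mono (closedBall_subset_closedBall
        (min_le_left _ _)))
    · intro g hg hgb hg0
      exact hinj ⟨hKQ hg, closedBall_subset_closedBall (min_le_right _ _) hgb⟩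
        ⟨hy, by rw [mem_closedBall, dist_self]; exact hδi.le⟩ (by rw [hg0, hκ.zero])
  have hTV : TA K ρ' (c.V c.lo c.hi)ᶜ = K ∩ ρ ⁻¹' Wᶜ := by
    ext x
    simp only [TA, mem_inter_iff, mem_preimage, mem_compl_iff, ← hWV]
    constructor
    · rintro ⟨h4, h5⟩
      exact ⟨h4, by rw [← hρ' x h4]; exact h5⟩
    · rintro ⟨h4, h5⟩
      exact ⟨h4, by rw [hρ' x h4]; exact h5⟩
  refine hL.2 c 0 hc0 _ (by rw [hTV]; exact hF) (Cob.of_van ⟨1, one_pos, fun x hx => ?_⟩)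
  have e1 : ∀ i, x i ∈ {g | ρ g ∈ closedBall y r} := fun i => by
    show ρ (x i) ∈ closedBall y r
    rw [mem_closedBall, ← hρ' _ (hx.1 i).1]
    exact hcD _ (hx.1 i).2
  have e2 : lamI μ (fun x => c.k (ρ' x) - 0) c.U x = LAM μ (fun g => κ (ρ g)) U x := by
    rw [lamI_eq_LAM, hcU]
    apply LAM_congr
    intro i
    simp only [hck, sub_zero, hρ' _ (hx.1 i).1]
  rw [Pi.add_apply, e2, loc, if_pos e1]
  exact z2 _

end ASC
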