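import Mathlib
import Pool.Agent.Lib.MP_f7aa1b_gt.H.GeomOf

/-!
# Graph chart at a point of a submanifold, second order expansions
-/

set_option autoImplicit false

open Set Filter Topology Metric
open scoped ContDiff RealInnerProductSpace

namespace MPf7aa

variable {n d : ℕ}

/-- the tangent space as a submodule -/
abbrev Tsp (M : Set (E n)) (x : E n) : Submodule ℝ (E n) := Submodule.span ℝ (TanSet M x)

/-- near `x` the submanifold is a graph over its tangent space -/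
theorem graph_chart {M : Set (E n)} (hM : IsSubmfd d M) {x : E n} (hx : x ∈ M) :
    ∃ (Φ : Tsp M x → E n) (δ : ℝ), 0 < δ ∧ Φ 0 = x ∧ ContDiffAt ℝ 2 Φ 0 ∧
      (∀ a, ‖a‖ < δ → Φ a ∈ M ∧ DifferentiableAt ℝ Φ a ∧ PrM M x (Φ a - x) = (a : E n)) ∧
      ∀ y ∈ M, ‖y - x‖ < δ → Φ ((Tsp M x).orthogonalProjectionOnto (y - x)) = y := by
  obtain ⟨U, φ, h⟩ := hM x hx
  have hrange : Tsp M x = LinearMap.range (fderiv ℝ φ 0 : E d →ₗ[ℝ] E n) := by
    have := span_tanSet_chart h h.zero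
    rwa [h.base] at this
  set T := Tsp M x with hT
  set pr : E n →L[ℝ] T := T.orthogonalProjectionOnto with hpr
  have hUn : U ∈ 𝓝 (0 : E d) := h.op.mem_nhds h.zero
  have hcd : ContDiffAt ℝ ∞ φ 0 := h.smooth.contDiffAt hUn
  set G : E d → T := fun u => pr (φ u - x) with hG
  have hG0 : G 0 = 0 := by
    simp only [hG, h.base, sub_self, map_zero]
  have hmemT : ∀ v, fderiv ℝ φ 0 v ∈ T := by
    intro v
    rw [hrange]
    exact ⟨v, rfl⟩
  set L : E d →L[ℝ] T := pr ∘L fderiv ℝ φ 0 with hL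
  have hLv : ∀ v, ((L v : T) : E n) = fderiv ℝ φ 0 v := by
    intro v
    show T.starProjection (fderiv ℝ φ 0 v) = fderiv ℝ φ 0 v
    exact Submodule.starProjection_eq_self_iff.2 (hmemT v)
  have hLbij : Function.Bijective (L : E d →ₗ[ℝ] T) := by
    constructor
    · intro v w hvw
      apply h.imm 0 h.zero
      rw [← hLv, ← hLv]
      exact congrArg _ hvw
    · intro a
      obtain ⟨v, hv⟩ := hrange.le a.2
      refine ⟨v, ?_⟩
      apply Subtype.ext
      exact (hLv v).trans hv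
  set Le : E d ≃L[ℝ] T := (LinearEquiv.ofBijective (L : E d →ₗ[ℝ] T) hLbij).toContinuousLinearEquiv with hLe
  have hLe' : (Le : E d →L[ℝ] T) = L := by
    ext v
    rfl
  have hGc : ContDiffAt ℝ ∞ G 0 := pr.contDiff.contDiffAt.comp (0 : E d) (hcd.sub contDiffAt_const)
  have hGd : HasFDerivAt G (Le : E d →L[ℝ] T) 0 := by
    rw [hLe']
    have h1 : HasFDerivAt φ (fderiv ℝ φ 0) 0 := (hcd.differentiableAt (by norm_num)).hasFDerivAt
    have h2 : HasFDerivAt (fun u => φ u - x) (fderiv ℝ φ 0) 0 := h1.sub_const x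
    exact pr.hasFDerivAt.comp (0 : E d) h2
  set e := hGc.toOpenPartialHomeomorph G hGd (by norm_num) with he
  have hecoe : ∀ u, e u = G u := fun u => rfl
  have hsrc : (0 : E d) ∈ e.source := hGc.mem_toOpenPartialHomeomorph_source hGd (by norm_num)
  have htgt : (0 : T) ∈ e.target := by
    have := hGc.image_mem_toOpenPartialHomeomorph_target hGd (by norm_num)
    rwa [hG0] at this
  have hsymm0 : e.symm 0 = 0 := by
    have := e.left_inv hsrc
    rw [hecoe, hG0] at this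
    exact this
  have hsymmC : ContDiffAt ℝ ∞ e.symm 0 := by
    have := e.contDiffAt_symm (n := ∞) htgt (f₀' := Le) (by rw [hsymm0]; exact hGd) (by rw [hsymm0]; exact hGc)
    exact this
  have hΦc : ContDiffAt ℝ ∞ (fun a => φ (e.symm a)) 0 := by
    have h1 : ContDiffAt ℝ ∞ φ (e.symm 0) := by rw [hsymm0]; exact hcd
    exact h1.comp (0 : T) hsymmC
  -- neighbourhood of 0 in T
  have hnh : ∀ᶠ a : T in 𝓝 0, a ∈ e.target ∧ e.symm a ∈ U := by
    refine Filter.Eventually.and (e.open_target.mem_nhds htgt) ?_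
    have h1 : Tendsto e.symm (𝓝 0) (𝓝 (e.symm 0)) := (e.continuousAt_symm htgt)
    rw [hsymm0] at h1
    exact h1 hUn
  have hdiff : ∀ᶠ a : T in 𝓝 0, DifferentiableAt ℝ (fun a => φ (e.symm a)) a := by
    have h2 := hΦc.of_le (m := 1) (by norm_cast)
    have h3 := h2.eventually (by norm_num)
    exact h3.mono fun a ha => ha.differentiableAt (by norm_num)
  obtain ⟨δ1, hδ1, hδ1'⟩ := Metric.eventually_nhds_iff_ball.1 (hnh.and hdiff)
  -- neighbourhood of x in M
  obtain ⟨W, hW, hWφ⟩ := h.homeo (e.source ∩ U) inter_subset_right (e.open_source.inter h.op)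
  have hxW : x ∈ W := by
    have : φ 0 ∈ φ '' (e.source ∩ U) := ⟨0, ⟨hsrc, h.zero⟩, rfl⟩
    rw [hWφ, h.base] at this
    exact this.2
  obtain ⟨δ2, hδ2, hδ2'⟩ := Metric.mem_nhds_iff.1 (hW.mem_nhds hxW)
  refine ⟨fun a => φ (e.symm a), min δ1 δ2, lt_min hδ1 hδ2, ?_, hΦc.of_le (by norm_cast), ?_, ?_⟩
  · show φ (e.symm 0) = x
    rw [hsymm0, h.base]
  · intro a ha
    obtain ⟨⟨h1, h2⟩, h3⟩ := hδ1' a (by
      rw [mem_ball_zero_iff]
      exact ha.trans_le (min_le_left _ _))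
    refine ⟨F1b_mem h h2, h3, ?_⟩
    have h4 := e.right_inv h1
    rw [hecoe] at h4
    have h5 := congrArg (fun a : T => (a : E n)) h4
    exact h5
  · intro y hy hyx
    have h1 : y ∈ M ∩ W := ⟨hy, hδ2' (by
      rw [mem_ball, dist_eq_norm]
      exact hyx.trans_le (min_le_right _ _))⟩
    rw [← hWφ] at h1
    obtain ⟨u, hu, rfl⟩ := h1
    show φ (e.symm (G u)) = φ u
    have h2 := e.left_inv hu.1
    rw [hecoe] at h2
    rw [h2]

/-- a `C²` function which is `o(|a|²)` has vanishing first and second derivative -/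
theorem small_deriv {T : Type*} [NormedAddCommGroup T] [NormedSpace ℝ T] {k : T → ℝ} (hk : ContDiffAt ℝ 2 k 0)
    (ho : ∀ ε > 0, ∃ δ > 0, ∀ a, ‖a‖ < δ → |k a| ≤ ε * ‖a‖ ^ 2) :
    fderiv ℝ k 0 = 0 ∧ fderiv ℝ (fderiv ℝ k) 0 = 0 := by
  have hk0 : k 0 = 0 := by
    obtain ⟨δ, hδ, h⟩ := ho 1 one_pos
    have := h 0 (by simpa using hδ)
    simpa using this
  have hd0 : HasFDerivAt k (0 : T →L[ℝ] ℝ) 0 := by
    rw [hasFDerivAt_iff_isLittleO_nhds_zero, Asymptotics.isLittleO_iff]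
    intro c hc
    obtain ⟨δ, hδ, h⟩ := ho 1 one_pos
    refine Metric.eventually_nhds_iff_ball.2 ⟨min δ c, lt_min hδ hc, fun a ha => ?_⟩
    rw [mem_ball_zero_iff] at ha
    have h1 := h a (ha.trans_le (min_le_left _ _))
    have h2 : ‖a‖ ≤ c := (ha.trans_le (min_le_right _ _)).le
    simp only [zero_add, hk0, sub_zero, zero_apply, Real.norm_eq_abs]
    refine h1.trans ?_
    rw [one_mul, sq]
    exact mul_le_mul_of_nonneg_right h2 (norm_nonneg _)
  have hfd0 : fderiv ℝ k 0 = 0 := hd0.fderiv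
  refine ⟨hfd0, ?_⟩
  set L := fderiv ℝ (fderiv ℝ k) 0 with hL
  have hsymm : IsSymmSndFDerivAt ℝ k 0 := hk.isSymmSndFDerivAt (by simp)
  have hstrict : HasFDerivAt (fderiv ℝ k) L 0 :=
    ((hk.fderiv_right (m := 1) (by norm_num)).differentiableAt (by norm_num)).hasFDerivAt
  have hdiff : ∀ᶠ a : T in 𝓝 0, DifferentiableAt ℝ k a := by
    have h2 := hk.of_le (m := 1) (by norm_num)
    have h3 := h2.eventually (by norm_num)
    exact h3.mono fun a ha => ha.differentiableAt (by norm_num)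
  -- the diagonal vanishes
  have hdiag : ∀ v : T, L v v = 0 := by
    intro v
    by_contra hne
    set q := |L v v| with hq
    have hqpos : 0 < q := abs_pos.2 hne
    have hv0 : 0 < ‖v‖ := by
      rw [norm_pos_iff]
      rintro rfl
      simp at hne
    set ε : ℝ := q / (8 * ‖v‖ ^ 2) with hε
    have hεpos : 0 < ε := by positivity
    obtain ⟨δ, hδ, h⟩ := ho ε hεpos
    have hlo := (hasFDerivAt_iff_isLittleO_nhds_zero.1 hstrict).def hεpos
    obtain ⟨δ', hδ', h'⟩ := Metric.eventually_nhds_iff_ball.1 (hlo.and hdiff)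
    obtain ⟨t, ht0, ht⟩ : ∃ t : ℝ, 0 < t ∧ t < min δ δ' / ‖v‖ := exists_between (by positivity)
    have htv : t * ‖v‖ < min δ δ' := (lt_div_iff₀ hv0).1 ht
    have hderiv : ∀ τ ∈ Icc (0 : ℝ) t, HasDerivWithinAt (fun τ : ℝ => k (τ • v) - τ ^ 2 * (L v v / 2))
        (fderiv ℝ k (τ • v) v - τ * L v v) (Icc 0 t) τ := by
      intro τ hτ
      have hn : ‖τ • v‖ < δ' := by
        rw [norm_smul, Real.norm_of_nonneg hτ.1]
        calc τ * ‖v‖ ≤ t * ‖v‖ := mul_le_mul_of_nonneg_right hτ.2 (norm_nonneg _)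
          _ < δ' := htv.trans_le (min_le_right _ _)
      have h1 := (h' (τ • v) (by rwa [mem_ball_zero_iff])).2
      have h2 : HasDerivAt (fun τ : ℝ => τ • v) v τ := by
        simpa using (hasDerivAt_id τ).smul_const v
      have h3 : HasDerivAt (fun τ : ℝ => k (τ • v)) (fderiv ℝ k (τ • v) v) τ :=
        h1.hasFDerivAt.comp_hasDerivAt τ h2
      have h4 : HasDerivAt (fun τ : ℝ => τ ^ 2 * (L v v / 2)) (τ * L v v) τ := by
        have := ((hasDerivAt_id τ).pow 2).mul_const (L v v / 2)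
        refine this.congr_deriv ?_
        simp only [id_eq, Nat.cast_ofNat, Nat.add_one_sub_one, pow_one, mul_one]
        ring
      exact (h3.sub h4).hasDerivWithinAt
    have hbd : ∀ τ ∈ Icc (0 : ℝ) t, ‖fderiv ℝ k (τ • v) v - τ * L v v‖ ≤ ε * t * ‖v‖ ^ 2 := by
      intro τ hτ
      have hn : ‖τ • v‖ < δ' := by
        rw [norm_smul, Real.norm_of_nonneg hτ.1]
        calc τ * ‖v‖ ≤ t * ‖v‖ := mul_le_mul_of_nonneg_right hτ.2 (norm_nonneg _)
          _ < δ' := htv.trans_le (min_le_right _ _)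
      have h1 := (h' (τ • v) (by rwa [mem_ball_zero_iff])).1
      rw [zero_add, hfd0, sub_zero] at h1
      have h2 : fderiv ℝ k (τ • v) v - τ * L v v = (fderiv ℝ k (τ • v) - L (τ • v)) v := by
        rw [sub_apply, map_smul, smul_apply, smul_eq_mul]
      rw [h2]
      refine (ContinuousLinearMap.le_opNorm _ _).trans ?_
      calc ‖fderiv ℝ k (τ • v) - L (τ • v)‖ * ‖v‖ ≤ ε * ‖τ • v‖ * ‖v‖ :=
            mul_le_mul_of_nonneg_right h1 (norm_nonneg _)
        _ = ε * τ * ‖v‖ ^ 2 := by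
            rw [norm_smul, Real.norm_of_nonneg hτ.1]
            ring
        _ ≤ ε * t * ‖v‖ ^ 2 := by
            apply mul_le_mul_of_nonneg_right _ (sq_nonneg _)
            exact mul_le_mul_of_nonneg_left hτ.2 hεpos.le
    have hmv : ‖(k (t • v) - t ^ 2 * (L v v / 2)) - (k ((0 : ℝ) • v) - (0 : ℝ) ^ 2 * (L v v / 2))‖ ≤
        ε * t * ‖v‖ ^ 2 * ‖t - 0‖ := (convex_Icc (0 : ℝ) t).norm_image_sub_le_of_norm_hasDerivWithin_le hderiv hbd
      (left_mem_Icc.2 ht0.le) (right_mem_Icc.2 ht0.le)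
    have e0 : (k (t • v) - t ^ 2 * (L v v / 2)) - (k ((0 : ℝ) • v) - (0 : ℝ) ^ 2 * (L v v / 2)) =
        k (t • v) - t ^ 2 * (L v v / 2) := by
      rw [zero_smul, hk0]
      ring
    rw [e0, sub_zero, Real.norm_eq_abs, Real.norm_eq_abs, abs_of_pos ht0] at hmv
    have h1 := h (t • v) (by
      rw [norm_smul, Real.norm_of_nonneg ht0.le]
      exact htv.trans_le (min_le_left _ _))
    rw [norm_smul, Real.norm_of_nonneg ht0.le] at h1
    have h2 : |t ^ 2 * (L v v / 2)| = t ^ 2 * (q / 2) := by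
      rw [abs_mul, abs_of_pos (by positivity : 0 < t ^ 2), abs_div, abs_of_pos (by norm_num : (0 : ℝ) < 2)]
    have h3 : |t ^ 2 * (L v v / 2)| ≤ |k (t • v)| + |k (t • v) - t ^ 2 * (L v v / 2)| := by
      have := abs_sub (k (t • v)) (k (t • v) - t ^ 2 * (L v v / 2))
      have e : k (t • v) - (k (t • v) - t ^ 2 * (L v v / 2)) = t ^ 2 * (L v v / 2) := by ring
      rw [e] at this
      exact this
    rw [h2] at h3
    have h4 : ε * (t * ‖v‖) ^ 2 = t ^ 2 * (q / 8) := by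
      rw [hε]
      field_simp
    have h5 : ε * t * ‖v‖ ^ 2 * t = t ^ 2 * (q / 8) := by
      rw [hε]
      field_simp
    have h6 : 0 < t ^ 2 * q := by positivity
    linarith
  -- polarization
  ext v w
  have h1 := hdiag (v + w)
  have h2 := hdiag v
  have h3 := hdiag w
  have h4 : L v w = L w v := hsymm.eq v w
  have h5 : L (v + w) (v + w) = L v v + L v w + (L w v + L w w) := by
    rw [map_add (L (v + w)), map_add L, add_apply, add_apply]
    ring
  rw [h5, h2, h3, ← h4] at h1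
  show L v w = 0
  linarith

/-- the graph chart with values of the parameter in `E d` -/
theorem graph_chart' {M : Set (E n)} (hM : IsSubmfd d M) {x : E n} (hx : x ∈ M) :
    ∃ (J : E d →L[ℝ] E n) (pr : E n →L[ℝ] E d), (∀ a, ‖J a‖ = ‖a‖) ∧ (∀ v, J (pr v) = PrM M x v) ∧
      (∀ a, PrM M x (J a) = J a) ∧
      ∃ (Φ : E d → E n) (δ : ℝ), 0 < δ ∧ Φ 0 = x ∧ ContDiffAt ℝ 2 Φ 0 ∧
      (∀ a, ‖a‖ < δ → Φ a ∈ M ∧ DifferentiableAt ℝ Φ a ∧ PrM M x (Φ a - x) = J a) ∧
      ∀ y ∈ M, ‖y - x‖ < δ → Φ (pr (y - x)) = y := by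
  obtain ⟨Φ, δ, hδ, h0, hc, h1, h2⟩ := graph_chart hM hx
  have hfr := finrank_span_tanSet hM hx
  set L := ((stdOrthonormalBasis ℝ (Tsp M x)).reindex (finCongr hfr)).repr with hL
  refine ⟨(Tsp M x).subtypeL ∘L (L.symm.toContinuousLinearEquiv : E d →L[ℝ] Tsp M x),
    (L.toContinuousLinearEquiv : Tsp M x →L[ℝ] E d) ∘L (Tsp M x).orthogonalProjectionOnto, ?_, ?_, ?_,
    fun a => Φ (L.symm a), δ, hδ, ?_, ?_, ?_, ?_⟩
  · intro a
    show ‖((L.symm a : Tsp M x) : E n)‖ = ‖a‖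
    have := L.symm.norm_map a
    exact this
  · intro v
    show ((L.symm (L ((Tsp M x).orthogonalProjectionOnto v)) : Tsp M x) : E n) = _
    rw [L.symm_apply_apply]
    rfl
  · intro a
    show PrM M x ((L.symm a : Tsp M x) : E n) = ((L.symm a : Tsp M x) : E n)
    exact Submodule.starProjection_eq_self_iff.2 (L.symm a).2
  · show Φ (L.symm 0) = x
    rw [map_zero, h0]
  · have h3 : ContDiffAt ℝ 2 (fun a : E d => L.symm a) 0 := L.symm.toContinuousLinearEquiv.contDiff.contDiffAt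
    have h4 : ContDiffAt ℝ 2 Φ (L.symm 0) := by rw [map_zero]; exact hc
    exact h4.comp (0 : E d) h3
  · intro a ha
    have h3 : ‖L.symm a‖ < δ := by rw [L.symm.norm_map]; exact ha
    obtain ⟨h4, h5, h6⟩ := h1 _ h3
    refine ⟨h4, ?_, h6⟩
    have h7 : DifferentiableAt ℝ (fun a : E d => L.symm a) a := L.symm.toContinuousLinearEquiv.differentiableAt
    exact h5.comp a h7
  · intro y hy hyx
    show Φ (L.symm (L ((Tsp M x).orthogonalProjectionOnto (y - x)))) = y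
    rw [L.symm_apply_apply]
    exact h2 y hy hyx

/-- derivative of `k` is Lipschitz with small constant near the origin -/
theorem small_lip {T : Type*} [NormedAddCommGroup T] [NormedSpace ℝ T] {k : T → ℝ} (hk : ContDiffAt ℝ 2 k 0)
    (ho : ∀ ε > 0, ∃ δ > 0, ∀ a, ‖a‖ < δ → |k a| ≤ ε * ‖a‖ ^ 2) :
    fderiv ℝ k 0 = 0 ∧ ∀ ε > 0, ∃ δ > 0, ∀ a b : T, ‖a‖ < δ → ‖b‖ < δ →
      ‖fderiv ℝ k a - fderiv ℝ k b‖ ≤ ε * ‖a - b‖ := by
  obtain ⟨h1, h2⟩ := small_deriv hk ho
  refine ⟨h1, fun ε hε => ?_⟩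
  have h3 := (hk.fderiv_right (m := 1) (by norm_num)).hasStrictFDerivAt (by norm_num)
  rw [h2] at h3
  obtain ⟨U, hU, hUL⟩ := h3.exists_lipschitzOnWith_of_nnnorm_lt (⟨ε, hε.le⟩ : NNReal) (by
    rw [nnnorm_zero]
    exact hε)
  obtain ⟨δ, hδ, hδU⟩ := Metric.mem_nhds_iff.1 hU
  refine ⟨δ, hδ, fun a b ha hb => ?_⟩
  have h3 := hUL.dist_le_mul a (hδU (by rwa [mem_ball_zero_iff])) b (hδU (by rwa [mem_ball_zero_iff]))
  rw [dist_eq_norm, dist_eq_norm] at h3
  exact h3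

end MPf7aa
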