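import Mathlib
import Pool.Agent.Lib.MP_f7aa1b_gt.Defs

/-!
# Splitting into negative and positive eigenspaces
-/

set_option autoImplicit false

open Set Filter Topology Metric
open scoped ContDiff RealInnerProductSpace

namespace MPf7aa

variable {n : ℕ}

/-- the bilinear form `⟨u, v⟩ - s ⟨A u, v⟩` -/
noncomputable def Sb (A0 : E n →L[ℝ] E n) (s : ℝ) (u v : E n) : ℝ := inner ℝ u v - s * inner ℝ (A0 u) v

theorem Sb_add_left (A0 : E n →L[ℝ] E n) (s : ℝ) (u u' v : E n) : Sb A0 s (u + u') v = Sb A0 s u v + Sb A0 s u' v := by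
  unfold Sb
  rw [map_add, inner_add_left, inner_add_left]
  ring

theorem Sb_add_right (A0 : E n →L[ℝ] E n) (s : ℝ) (u v v' : E n) : Sb A0 s u (v + v') = Sb A0 s u v + Sb A0 s u v' := by
  unfold Sb
  rw [inner_add_right, inner_add_right]
  ring

theorem Sb_smul_left (A0 : E n →L[ℝ] E n) (s t : ℝ) (u v : E n) : Sb A0 s (t • u) v = t * Sb A0 s u v := by
  unfold Sb
  rw [map_smul, real_inner_smul_left, real_inner_smul_left]
  ring

theorem Sb_smul_right (A0 : E n →L[ℝ] E n) (s t : ℝ) (u v : E n) : Sb A0 s u (t • v) = t * Sb A0 s u v := by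
  unfold Sb
  rw [real_inner_smul_right, real_inner_smul_right]
  ring

theorem Sb_symm {A0 : E n →L[ℝ] E n} (hs : ∀ v w, inner ℝ (A0 v) w = inner ℝ v (A0 w)) (s : ℝ) (u v : E n) :
    Sb A0 s u v = Sb A0 s v u := by
  unfold Sb
  rw [hs u v, real_inner_comm u v, real_inner_comm (A0 v) u]

/-- the form in an eigenbasis -/
theorem Sb_sum {A0 : E n →L[ℝ] E n} (hs : ∀ v w, inner ℝ (A0 v) w = inner ℝ v (A0 w)) (s : ℝ) (l : ℕ → ℝ)
    (b : OrthonormalBasis (Fin n) ℝ (E n)) (hb : ∀ j : Fin n, A0 (b j) = l j • b j) (u v : E n) :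
    Sb A0 s u v = ∑ j : Fin n, (1 - s * l j) * (inner ℝ (b j) u * inner ℝ (b j) v) := by
  unfold Sb
  rw [← b.sum_inner_mul_inner u v, ← b.sum_inner_mul_inner (A0 u) v, Finset.mul_sum, ← Finset.sum_sub_distrib]
  refine Finset.sum_congr rfl fun j _ => ?_
  rw [hs u (b j), hb, real_inner_smul_right, real_inner_comm (b j) u]
  ring

theorem eig_split (T : Submodule ℝ (E n)) (A0 : E n →L[ℝ] E n)
    (hs : ∀ v w, inner ℝ (A0 v) w = inner ℝ v (A0 w)) (hT : ∀ w, A0 w ∈ T) (s : ℝ)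
    (hnd : ∀ w ∈ T, s • A0 w = w → w = 0) (l : ℕ → ℝ) (b : OrthonormalBasis (Fin n) ℝ (E n))
    (hb : ∀ j : Fin n, A0 (b j) = l j • b j) (i : ℕ)
    (hi : i = ((Finset.range n).filter (fun j => 1 < s * l j)).card) :
    ∃ (α : E n →L[ℝ] EuclideanSpace ℝ (Fin i)) (β : EuclideanSpace ℝ (Fin i) →L[ℝ] T) (lm Lm : ℝ), 0 < lm ∧ 0 < Lm ∧
      (∀ w, α (β w) = w) ∧ (∀ u w, (inner ℝ (α u) w : ℝ) = inner ℝ u (β w : E n)) ∧ (∀ w, ‖β w‖ = ‖w‖) ∧
      (∀ w, Sb A0 s (β w) (β w) ≤ -(lm * ‖w‖ ^ 2) ∧ -(Lm * ‖w‖ ^ 2) ≤ Sb A0 s (β w) (β w)) ∧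
      (∀ v, α v = 0 → lm * ‖v‖ ^ 2 ≤ Sb A0 s v v) ∧
      ∀ v w, α v = 0 → Sb A0 s v (β w) = 0 ∧ (inner ℝ v (β w : E n) : ℝ) = 0 := by
  classical
  have hnorm : ∀ j, ‖b j‖ = 1 := fun j => b.norm_eq_one j
  have hmem : ∀ j : Fin n, l j ≠ 0 → b j ∈ T := by
    intro j hj
    have h1 : b j = (l j)⁻¹ • A0 (b j) := by
      rw [hb, smul_smul, inv_mul_cancel₀ hj, one_smul]
    rw [h1]
    exact T.smul_mem _ (hT _)
  have hne : ∀ j : Fin n, 1 - s * l j ≠ 0 := by
    intro j hj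
    have h1 : l j ≠ 0 := by
      intro h0
      rw [h0] at hj
      simp at hj
    have h2 := hnd (b j) (hmem j h1) (by
      rw [hb, smul_smul]
      have : s * l j = 1 := by linarith
      rw [this, one_smul])
    have h3 := hnorm j
    rw [h2, norm_zero] at h3
    exact zero_ne_one h3
  set Ng : Finset (Fin n) := Finset.univ.filter (fun j : Fin n => 1 < s * l j) with hNg
  have hcard : Ng.card = i := by
    rw [hi, hNg, ← Finset.card_map Fin.valEmbedding]
    congr 1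
    ext j
    simp only [Finset.mem_map, Finset.mem_filter, Finset.mem_univ, true_and, Finset.mem_range, Fin.valEmbedding_apply]
    constructor
    · rintro ⟨a, ha, rfl⟩
      exact ⟨a.2, ha⟩
    · rintro ⟨h1, h2⟩
      exact ⟨⟨j, h1⟩, h2, rfl⟩
  set e : Fin i ≃ Ng := (Ng.equivFinOfCardEq hcard).symm with he
  have hNgT : ∀ j ∈ Ng, b j ∈ T := by
    intro j hj
    apply hmem
    intro h0
    have := (Finset.mem_filter.1 hj).2
    rw [h0] at this
    linarith
  -- bounds for the eigenvalues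
  obtain ⟨lm, hlm, hlm'⟩ : ∃ lm : ℝ, 0 < lm ∧ ∀ j : Fin n, lm ≤ |1 - s * l j| := by
    by_cases hn : Nonempty (Fin n)
    · obtain ⟨j0, hj0⟩ := Finite.exists_min (fun j : Fin n => |1 - s * l j|)
      exact ⟨_, abs_pos.2 (hne j0), hj0⟩
    · exact ⟨1, one_pos, fun j => (hn ⟨j⟩).elim⟩
  obtain ⟨Lm, hLm, hLm'⟩ : ∃ Lm : ℝ, 0 < Lm ∧ ∀ j : Fin n, |1 - s * l j| ≤ Lm := by
    by_cases hn : Nonempty (Fin n)
    · obtain ⟨j0, hj0⟩ := Finite.exists_max (fun j : Fin n => |1 - s * l j|)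
      exact ⟨_, abs_pos.2 (hne j0), hj0⟩
    · exact ⟨1, one_pos, fun j => (hn ⟨j⟩).elim⟩
  set α : E n →L[ℝ] EuclideanSpace ℝ (Fin i) :=
    (EuclideanSpace.equiv (Fin i) ℝ).symm.toContinuousLinearMap ∘L
      ContinuousLinearMap.pi (fun k : Fin i => innerSL ℝ (b (e k).1)) with hα
  have hαk : ∀ v k, α v k = inner ℝ (b (e k).1) v := fun v k => rfl
  set β : EuclideanSpace ℝ (Fin i) →L[ℝ] T :=
    ∑ k : Fin i, (EuclideanSpace.proj k : EuclideanSpace ℝ (Fin i) →L[ℝ] ℝ).smulRight (⟨b (e k).1, hNgT _ (e k).2⟩ : T) with hβ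
  have hβv : ∀ w, ((β w : T) : E n) = ∑ k : Fin i, w k • b (e k).1 := by
    intro w
    rw [hβ]
    simp
  -- coordinates
  have hcin : ∀ w (k : Fin i), (inner ℝ (b (e k).1) (β w : E n) : ℝ) = w k := by
    intro w k
    rw [hβv, inner_sum, Finset.sum_eq_single k]
    · rw [real_inner_smul_right, real_inner_self_eq_norm_sq, hnorm]
      ring
    · intro k' _ hk'
      rw [real_inner_smul_right]
      have h1 : (e k).1 ≠ (e k').1 := by
        intro h
        exact hk' (e.injective (Subtype.ext h)).symm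
      rw [b.orthonormal.2 h1, mul_zero]
    · intro h
      exact absurd (Finset.mem_univ k) h
  have hcout : ∀ w (j : Fin n), j ∉ Ng → (inner ℝ (b j) (β w : E n) : ℝ) = 0 := by
    intro w j hj
    rw [hβv, inner_sum]
    refine Finset.sum_eq_zero fun k _ => ?_
    rw [real_inner_smul_right]
    have h1 : j ≠ (e k).1 := fun h => hj (h ▸ (e k).2)
    rw [b.orthonormal.2 h1, mul_zero]
  -- sums over Ng
  have hsumN : ∀ f : Fin n → ℝ, (∀ j ∉ Ng, f j = 0) → ∑ j, f j = ∑ k : Fin i, f (e k).1 := by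
    intro f hf
    have h1 : ∑ k : Fin i, f (e k).1 = ∑ j : Ng, f j.1 := e.sum_comp (fun j : Ng => f j.1)
    rw [h1, Finset.sum_coe_sort Ng f]
    exact (Finset.sum_subset (Finset.subset_univ _) fun j _ hj => hf j hj).symm
  have hαz : ∀ v, α v = 0 → ∀ j ∈ Ng, (inner ℝ (b j) v : ℝ) = 0 := by
    intro v hv j hj
    have h1 : α v (e.symm ⟨j, hj⟩) = 0 := by rw [hv]; rfl
    rw [hαk] at h1
    simpa using h1
  refine ⟨α, β, lm, Lm, hlm, hLm, ?_, ?_, ?_, ?_, ?_, ?_⟩
  · intro w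
    ext k
    rw [hαk, hcin]
  · intro u w
    rw [← b.sum_inner_mul_inner u (β w : E n), hsumN _ (fun j hj => by rw [hcout w j hj, mul_zero]),
      EuclideanSpace.inner_eq_star_dotProduct]
    simp only [dotProduct, star_trivial]
    refine Finset.sum_congr rfl fun k _ => ?_
    rw [hcin, real_inner_comm (b (e k).1) u]
    have h1 := hαk u k
    rw [← h1]
    ring
  · intro w
    have h1 : ‖β w‖ ^ 2 = ‖w‖ ^ 2 := by
      have h2 : ‖β w‖ ^ 2 = inner ℝ (β w : E n) (β w : E n) := by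
        rw [real_inner_self_eq_norm_sq]
        rfl
      rw [h2, ← b.sum_inner_mul_inner (β w : E n) (β w : E n), hsumN _ (fun j hj => by rw [hcout w j hj, mul_zero]),
        EuclideanSpace.norm_sq_eq]
      refine Finset.sum_congr rfl fun k _ => ?_
      rw [real_inner_comm (b (e k).1) (β w : E n), hcin, Real.norm_eq_abs, sq_abs]
      ring
    exact (sq_eq_sq₀ (norm_nonneg _) (norm_nonneg _)).1 h1
  · intro w
    have h1 : Sb A0 s (β w) (β w) = ∑ k : Fin i, (1 - s * l (e k).1) * (w k) ^ 2 := by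
      rw [Sb_sum hs s l b hb, hsumN (fun j : Fin n => (1 - s * l j) * (inner ℝ (b j) (β w : E n) *
        inner ℝ (b j) (β w : E n))) (fun j hj => by simp only [hcout w j hj]; ring)]
      refine Finset.sum_congr rfl fun k _ => ?_
      rw [hcin]
      ring
    have hneg : ∀ k : Fin i, 1 - s * l (e k).1 < 0 := by
      intro k
      have := (Finset.mem_filter.1 (e k).2).2
      linarith
    rw [h1, EuclideanSpace.norm_sq_eq, Finset.mul_sum, Finset.mul_sum, ← Finset.sum_neg_distrib, ← Finset.sum_neg_distrib]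
    constructor
    · refine Finset.sum_le_sum fun k _ => ?_
      have h2 := hlm' (e k).1
      rw [abs_of_neg (hneg k)] at h2
      rw [Real.norm_eq_abs, sq_abs]
      have h3 : 0 ≤ (w k) ^ 2 := sq_nonneg _
      nlinarith
    · refine Finset.sum_le_sum fun k _ => ?_
      have h2 := hLm' (e k).1
      rw [abs_of_neg (hneg k)] at h2
      rw [Real.norm_eq_abs, sq_abs]
      have h3 : 0 ≤ (w k) ^ 2 := sq_nonneg _
      nlinarith
  · intro v hv
    rw [Sb_sum hs s l b hb, ← real_inner_self_eq_norm_sq, ← b.sum_inner_mul_inner v v, Finset.mul_sum]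
    refine Finset.sum_le_sum fun j _ => ?_
    rw [real_inner_comm (b j) v]
    by_cases hj : j ∈ Ng
    · rw [hαz v hv j hj]
      simp
    · have h1 : ¬ 1 < s * l j := fun h => hj (Finset.mem_filter.2 ⟨Finset.mem_univ _, h⟩)
      have h2 := hlm' j
      have h3 : 0 ≤ 1 - s * l j := by linarith
      rw [abs_of_nonneg h3] at h2
      exact mul_le_mul_of_nonneg_right h2 (mul_self_nonneg _)
  · intro v w hv
    constructor
    · rw [Sb_sum hs s l b hb]
      refine Finset.sum_eq_zero fun j _ => ?_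
      by_cases hj : j ∈ Ng
      · rw [hαz v hv j hj]; ring
      · rw [hcout w j hj]; ring
    · rw [← b.sum_inner_mul_inner v (β w : E n)]
      refine Finset.sum_eq_zero fun j _ => ?_
      by_cases hj : j ∈ Ng
      · rw [real_inner_comm (b j) v, hαz v hv j hj]; ring
      · rw [hcout w j hj]; ring

end MPf7aa
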