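import Mathlib
import Pool.Agent.Lib.MP_f7aa1b_gt.H.LocMor1
import Pool.Agent.Lib.MP_f7aa1b_gt.H.LocMor2
import Pool.Agent.Lib.MP_f7aa1b_gt.H.D2

/-!
# `LocMorse` at a nondegenerate critical point
-/

set_option autoImplicit false

open Set Filter Topology Metric
open scoped ContDiff RealInnerProductSpace

namespace MPf7aa

variable {n d : ℕ}

theorem LM_cont {T F : Type*} [NormedAddCommGroup T] [NormedAddCommGroup F]
    {f : T → F} (h : ContinuousAt f 0) {ε : ℝ} (hε : 0 < ε) :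
    ∃ δ > 0, ∀ a : T, ‖a‖ < δ → ‖f a - f 0‖ ≤ ε := by
  rw [Metric.continuousAt_iff] at h
  obtain ⟨δ, hδ, h4⟩ := h ε hε
  refine ⟨δ, hδ, fun a ha => ?_⟩
  have h5 := (h4 (by rwa [dist_zero_right] : dist a 0 < δ)).le
  rwa [dist_eq_norm] at h5

/-- the tangent velocities of the graph chart -/
theorem LM_tan {M : Set (E n)} {Φ : E d → E n} {δ : ℝ}
    (hΦ : ∀ a, ‖a‖ < δ → Φ a ∈ M) {a : E d} (ha : ‖a‖ < δ) (hd : DifferentiableAt ℝ Φ a) (w : E d) :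
    PrM M (Φ a) (fderiv ℝ Φ a w) = fderiv ℝ Φ a w := by
  unfold PrM
  rw [Submodule.starProjection_eq_self_iff]
  apply Submodule.subset_span
  refine ⟨fun t : ℝ => Φ (a + t • w), by simp, ?_, ?_⟩
  · have h1 : HasDerivAt (fun t : ℝ => a + t • w) w 0 := by
      simpa using ((hasDerivAt_id (0 : ℝ)).smul_const w).const_add a
    have h2 : HasFDerivAt Φ (fderiv ℝ Φ a) (a + (0 : ℝ) • w) := by
      rw [zero_smul, add_zero]
      exact hd.hasFDerivAt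
    exact h2.comp_hasDerivAt (0 : ℝ) h1
  · have h1 : Tendsto (fun t : ℝ => ‖a + t • w‖) (𝓝 0) (𝓝 ‖a + (0 : ℝ) • w‖) := by
      have : Continuous (fun t : ℝ => ‖a + t • w‖) := by fun_prop
      exact this.tendsto 0
    rw [zero_smul, add_zero] at h1
    filter_upwards [h1.eventually (gt_mem_nhds ha)] with t ht
    exact hΦ _ ht

/-- Local form of the submanifold and of the distance function at a critical point. `Φ` is the graph chart,
`J` the inclusion of the tangent space, `pr` the projection to it and `k` the remainder of order two. -/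
structure LMData (M : Set (E n)) (p x : E n) (A0 : E n →L[ℝ] E n) (s : ℝ) (J : E d →L[ℝ] E n)
    (pr : E n →L[ℝ] E d) (Φ : E d → E n) (k : E d → ℝ) (δ : ℝ) : Prop where
  pos : 0 < δ
  Jn : ∀ a, ‖J a‖ = ‖a‖
  Jpr : ∀ v, J (pr v) = PrM M x v
  PJ : ∀ a, PrM M x (J a) = J a
  mem : ∀ a, ‖a‖ < δ → Φ a ∈ M
  diff : ∀ a, ‖a‖ < δ → DifferentiableAt ℝ Φ a
  proj : ∀ a, ‖a‖ < δ → PrM M x (Φ a - x) = J a
  size : ∀ a, ‖a‖ < δ → ‖Φ a - x‖ ≤ 2 * ‖a‖
  inv : ∀ y ∈ M, ‖y - x‖ < δ → Φ (pr (y - x)) = y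
  ff : ∀ a, ‖Φ a - p‖ ^ 2 = s ^ 2 + Sb A0 s (J a) (J a) + k a
  ksmall : ∀ ε > 0, ∃ δ > 0, ∀ a, ‖a‖ < δ → |k a| ≤ ε * ‖a‖ ^ 2
  kdiff : ∀ a, ‖a‖ < δ → DifferentiableAt ℝ k a
  klip : ∀ ε > 0, ∃ δ > 0, ∀ a b, ‖a‖ < δ → ‖b‖ < δ → ‖fderiv ℝ k a - fderiv ℝ k b‖ ≤ ε * ‖a - b‖
  grad : ∀ ε > 0, ∃ δ' > 0, δ' ≤ δ ∧ ∀ a, ‖a‖ < δ' → ∀ w,
      |inner ℝ (F7D.GeomM.gr (PrM M) p (Φ a)) (J w) - Sb A0 s (J a) (J w)| ≤ ε * ‖a‖ * ‖w‖

theorem LMData_of {M : Set (E n)} (hc : IsCompact M) (hM : IsSubmfd d M) {p x : E n} (hx : x ∈ CritSet M p)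
    (A0 : E n →L[ℝ] E n) (hs : ∀ v w, inner ℝ (A0 v) w = inner ℝ v (A0 w))
    (h1 : ∀ w, A0 (PrM M x w) = A0 w) (h2 : ∀ w, PrM M x (A0 w) = A0 w) (s : ℝ)
    (htay : ∀ ε > 0, ∃ δ > 0, ∀ y ∈ M, ‖y - x‖ ≤ δ →
      |‖y - p‖ ^ 2 - s ^ 2 - (‖PrM M x (y - x)‖ ^ 2 - s * inner ℝ (A0 (y - x)) (y - x))| ≤ ε * ‖y - x‖ ^ 2) :
    ∃ (J : E d →L[ℝ] E n) (pr : E n →L[ℝ] E d) (Φ : E d → E n) (k : E d → ℝ) (δ : ℝ),
      LMData M p x A0 s J pr Φ k δ ∧ PrM M x (p - x) = 0 := by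
  have hxM : x ∈ M := hx.1
  have hG := geomM_of_submfd hc hM
  obtain ⟨C, hC, htan⟩ := hG.tan'
  obtain ⟨KP, hKP, hlip⟩ := hG.lip_P
  obtain ⟨J, pr, hJn, hJpr, hPJ, Φ, δ0, hδ0, hΦ0, hΦc, hΦ, hΦinv⟩ := graph_chart' hM hxM
  -- x is critical
  have hcrit : PrM M x (p - x) = 0 := by
    have h3 : ∀ w ∈ Submodule.span ℝ (TanSet M x), inner ℝ w (p - x) = (0 : ℝ) := by
      intro w hw
      induction hw using Submodule.span_induction with
      | mem v hv => exact hx.2 v hv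
      | zero => exact inner_zero_left _
      | add u v _ _ hu hv => rw [inner_add_left, hu, hv, add_zero]
      | smul c v _ hv => rw [real_inner_smul_left, hv, mul_zero]
    have h4 : (inner ℝ (PrM M x (p - x)) (PrM M x (p - x)) : ℝ) = 0 := by
      rw [PrM_symm M x (p - x), PrM_idem, real_inner_comm]
      exact h3 _ (Submodule.starProjection_apply_mem _ _)
    exact inner_self_eq_zero.1 h4
  -- size of Φ
  obtain ⟨δ1, hδ1, hδ10, hsize⟩ : ∃ δ1 > 0, δ1 ≤ δ0 ∧ ∀ a : E d, ‖a‖ < δ1 → ‖Φ a - x‖ ≤ 2 * ‖a‖ := by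
    have h3 : Tendsto (fun a => ‖Φ a - x‖) (𝓝 0) (𝓝 0) := by
      have h4 : ContinuousAt (fun a => ‖Φ a - x‖) 0 := (hΦc.continuousAt.sub continuousAt_const).norm
      have h5 : ‖Φ 0 - x‖ = 0 := by rw [hΦ0, sub_self, norm_zero]
      rw [ContinuousAt, h5] at h4
      exact h4
    obtain ⟨δ', hδ', h4⟩ := Metric.eventually_nhds_iff_ball.1 (h3.eventually (gt_mem_nhds (by positivity : 0 < 1 / (2 * C))))
    refine ⟨min δ' δ0, lt_min hδ' hδ0, min_le_right _ _, fun a ha => ?_⟩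
    have h5 := h4 a (by rw [mem_ball_zero_iff]; exact ha.trans_le (min_le_left _ _))
    obtain ⟨h6, -, h7⟩ := hΦ a (ha.trans_le (min_le_right _ _))
    have h8 := htan x hxM (Φ a) h6
    rw [h7] at h8
    have h9 : ‖Φ a - x‖ ≤ ‖a‖ + C * ‖Φ a - x‖ ^ 2 := by
      have e : Φ a - x = J a + (Φ a - x - J a) := by abel
      calc ‖Φ a - x‖ = ‖J a + (Φ a - x - J a)‖ := by rw [← e]
        _ ≤ ‖J a‖ + ‖Φ a - x - J a‖ := norm_add_le _ _
        _ ≤ ‖a‖ + C * ‖Φ a - x‖ ^ 2 := add_le_add (hJn a).le h8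
    have h10 : C * ‖Φ a - x‖ ^ 2 ≤ ‖Φ a - x‖ / 2 := by
      have h11 : C * ‖Φ a - x‖ ≤ 1 / 2 := by
        calc C * ‖Φ a - x‖ ≤ C * (1 / (2 * C)) := mul_le_mul_of_nonneg_left h5.le hC.le
          _ = 1 / 2 := by field_simp
      have h12 := mul_le_mul_of_nonneg_right h11 (norm_nonneg (Φ a - x))
      linarith
    linarith
  have hΦM : ∀ a : E d, ‖a‖ < δ1 → Φ a ∈ M := fun a ha => (hΦ a (ha.trans_le hδ10)).1
  have hΦd : ∀ a : E d, ‖a‖ < δ1 → DifferentiableAt ℝ Φ a := fun a ha => (hΦ a (ha.trans_le hδ10)).2.1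
  have hΦp : ∀ a : E d, ‖a‖ < δ1 → PrM M x (Φ a - x) = J a := fun a ha => (hΦ a (ha.trans_le hδ10)).2.2
  -- derivative of Φ at 0
  have hΦ' : HasFDerivAt Φ J 0 := by
    rw [hasFDerivAt_iff_isLittleO_nhds_zero, Asymptotics.isLittleO_iff]
    intro ε hε
    refine Metric.eventually_nhds_iff_ball.2 ⟨min δ1 (ε / (4 * C)), by positivity, fun a ha => ?_⟩
    rw [mem_ball_zero_iff] at ha
    have ha1 := ha.trans_le (min_le_left _ _)
    have ha2 := (ha.trans_le (min_le_right _ _)).le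
    rw [zero_add, hΦ0]
    have h3 := htan x hxM (Φ a) (hΦM a ha1)
    rw [hΦp a ha1] at h3
    have h4 := hsize a ha1
    have h5 : C * ‖Φ a - x‖ ^ 2 ≤ ε * ‖a‖ := by
      calc C * ‖Φ a - x‖ ^ 2 ≤ C * (2 * ‖a‖) ^ 2 := by gcongr
        _ = (4 * C * ‖a‖) * ‖a‖ := by ring
        _ ≤ ε * ‖a‖ := by
            apply mul_le_mul_of_nonneg_right _ (norm_nonneg _)
            calc 4 * C * ‖a‖ ≤ 4 * C * (ε / (4 * C)) := mul_le_mul_of_nonneg_left ha2 (by positivity)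
              _ = ε := by field_simp
    exact h3.trans h5
  have hfdΦ : fderiv ℝ Φ 0 = J := hΦ'.fderiv
  -- the function k
  set k : E d → ℝ := fun a => ‖Φ a - p‖ ^ 2 - s ^ 2 - Sb A0 s (J a) (J a) with hk
  have hSbC : ContDiff ℝ 2 (fun a : E d => Sb A0 s (J a) (J a)) := by
    unfold Sb
    have h3 : ContDiff ℝ 2 (fun a : E d => J a) := J.contDiff
    exact (h3.inner ℝ h3).sub (contDiff_const.mul ((A0.contDiff.comp h3).inner ℝ h3))
  have hkC : ContDiffAt ℝ 2 k 0 :=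
    (((hΦc.sub contDiffAt_const).norm_sq ℝ).sub contDiffAt_const).sub hSbC.contDiffAt
  have hSbself : ∀ v, Sb A0 s v v = ‖v‖ ^ 2 - s * inner ℝ (A0 v) v := by
    intro v
    unfold Sb
    rw [real_inner_self_eq_norm_sq]
  have hsmall : ∀ ε > 0, ∃ δ > 0, ∀ a : E d, ‖a‖ < δ → |k a| ≤ ε * ‖a‖ ^ 2 := by
    intro ε hε
    obtain ⟨δ, hδ, h3⟩ := htay (ε / 4) (by positivity)
    refine ⟨min δ1 (δ / 2), by positivity, fun a ha => ?_⟩
    have ha1 := ha.trans_le (min_le_left _ _)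
    have ha2 := (ha.trans_le (min_le_right _ _)).le
    have h4 := hsize a ha1
    have h5 := h3 (Φ a) (hΦM a ha1) (by linarith)
    have h6 : (inner ℝ (A0 (Φ a - x)) (Φ a - x) : ℝ) = inner ℝ (A0 (J a)) (J a) := by
      rw [← h1 (Φ a - x), hΦp a ha1, ← h2 (J a), PrM_symm, hΦp a ha1, h2]
    rw [hΦp a ha1, h6] at h5
    have h7 : k a = ‖Φ a - p‖ ^ 2 - s ^ 2 - (‖J a‖ ^ 2 - s * inner ℝ (A0 (J a)) (J a)) := by
      simp only [hk]
      rw [hSbself]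
    rw [h7]
    refine h5.trans ?_
    calc ε / 4 * ‖Φ a - x‖ ^ 2 ≤ ε / 4 * (2 * ‖a‖) ^ 2 := by gcongr
      _ = ε * ‖a‖ ^ 2 := by ring
  obtain ⟨hk1, hLip⟩ := small_lip hkC hsmall
  have hΦcont : ∀ ε > 0, ∃ δ > 0, ∀ a : E d, ‖a‖ < δ → ∀ w : E d, ‖J w - fderiv ℝ Φ a w‖ ≤ ε * ‖w‖ := by
    intro ε hε
    have h3 : ContinuousAt (fderiv ℝ Φ) 0 := (hΦc.fderiv_right (m := 1) (by norm_num)).continuousAt
    obtain ⟨δ, hδ, h4⟩ := LM_cont h3 hε
    refine ⟨δ, hδ, fun a ha w => ?_⟩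
    have h5 := h4 a ha
    rw [hfdΦ] at h5
    have h6 : J w - fderiv ℝ Φ a w = -((fderiv ℝ Φ a - J) w) := by
      rw [sub_apply]
      abel
    rw [h6, norm_neg]
    exact (ContinuousLinearMap.le_opNorm _ _).trans (mul_le_mul_of_nonneg_right h5 (norm_nonneg _))
  have hkd : ∀ a : E d, ‖a‖ < δ1 → DifferentiableAt ℝ k a := by
    intro a ha
    have h3 : DifferentiableAt ℝ (fun a => ‖Φ a - p‖ ^ 2 - s ^ 2) a :=
      (((hΦd a ha).sub_const p).norm_sq ℝ).sub_const _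
    exact h3.sub (hSbC.differentiable (by norm_num) a)
  -- the derivative of k
  have hderk : ∀ a : E d, ‖a‖ < δ1 → ∀ w : E d, fderiv ℝ k a w =
      2 * inner ℝ (Φ a - p) (fderiv ℝ Φ a w) - 2 * Sb A0 s (J a) (J w) := by
    intro a ha w
    have h3 : HasFDerivAt Φ (fderiv ℝ Φ a) a := (hΦd a ha).hasFDerivAt
    have h4 : HasDerivAt (fun t : ℝ => a + t • w) w 0 := by
      simpa using ((hasDerivAt_id (0 : ℝ)).smul_const w).const_add a
    have h5 : HasDerivAt (fun t : ℝ => Φ (a + t • w) - p) (fderiv ℝ Φ a w) 0 := by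
      have h6 : HasFDerivAt Φ (fderiv ℝ Φ a) (a + (0 : ℝ) • w) := by
        rw [zero_smul, add_zero]; exact h3
      exact (h6.comp_hasDerivAt (0 : ℝ) h4).sub_const p
    have h6 : HasDerivAt (fun t : ℝ => ‖Φ (a + t • w) - p‖ ^ 2) (2 * inner ℝ (Φ a - p) (fderiv ℝ Φ a w)) 0 := by
      have h7 := h5.norm_sq
      rw [zero_smul, add_zero] at h7
      exact h7
    have h7 : HasDerivAt (fun t : ℝ => Sb A0 s (J (a + t • w)) (J (a + t • w))) (2 * Sb A0 s (J a) (J w)) 0 := by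
      have h8 : (fun t : ℝ => Sb A0 s (J (a + t • w)) (J (a + t • w))) =
          fun t : ℝ => Sb A0 s (J a) (J a) + t * (2 * Sb A0 s (J a) (J w)) + t ^ 2 * Sb A0 s (J w) (J w) := by
        funext t
        rw [map_add, map_smul, Sb_add_left, Sb_add_right, Sb_add_right, Sb_smul_right, Sb_smul_left, Sb_smul_left,
          Sb_smul_right, Sb_symm hs s (J w) (J a)]
        ring
      rw [h8]
      have h9 : HasDerivAt (fun t : ℝ => Sb A0 s (J a) (J a) + t * (2 * Sb A0 s (J a) (J w)) + t ^ 2 * Sb A0 s (J w) (J w))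
          (0 + 1 * (2 * Sb A0 s (J a) (J w)) + 2 * (0 : ℝ) ^ 1 * 1 * Sb A0 s (J w) (J w)) 0 := by
        have := (((hasDerivAt_const (0 : ℝ) (Sb A0 s (J a) (J a))).add
          ((hasDerivAt_id (0 : ℝ)).mul_const (2 * Sb A0 s (J a) (J w)))).add
          (((hasDerivAt_id (0 : ℝ)).pow 2).mul_const (Sb A0 s (J w) (J w))))
        exact this
      refine h9.congr_deriv ?_
      ring
    have hkd' : HasDerivAt (fun t : ℝ => k (a + t • w))
        (2 * inner ℝ (Φ a - p) (fderiv ℝ Φ a w) - 2 * Sb A0 s (J a) (J w)) 0 := (h6.sub_const (s ^ 2)).sub h7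
    have h10 : HasDerivAt (fun t : ℝ => k (a + t • w)) (fderiv ℝ k a w) 0 := by
      have h6 : HasFDerivAt k (fderiv ℝ k a) (a + (0 : ℝ) • w) := by
        rw [zero_smul, add_zero]; exact (hkd a ha).hasFDerivAt
      exact h6.comp_hasDerivAt (0 : ℝ) h4
    exact h10.unique hkd'
  -- gradient bound
  set K2 : ℝ := 1 + KP * ‖x - p‖ with hK2
  have hK20 : 0 < K2 := by positivity
  have hgrx : PrM M x (x - p) = 0 := by
    have e : x - p = -(p - x) := by abel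
    rw [e, map_neg, hcrit, neg_zero]
  have hgrb : ∀ y ∈ M, ‖F7D.GeomM.gr (PrM M) p y‖ ≤ K2 * ‖y - x‖ := by
    intro y hy
    have e : F7D.GeomM.gr (PrM M) p y = PrM M y (y - x) + (PrM M y (x - p) - PrM M x (x - p)) := by
      rw [hgrx, sub_zero, ← map_add]
      show PrM M y (y - p) = _
      congr 1
      abel
    rw [e]
    refine (norm_add_le _ _).trans ?_
    have h3 := hG.norm_P_le hy (y - x)
    have h4 := hlip y hy x hxM (x - p)
    have h5 : K2 * ‖y - x‖ = ‖y - x‖ + KP * ‖y - x‖ * ‖x - p‖ := by rw [hK2]; ring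
    rw [h5]
    exact add_le_add h3 h4
  -- the gradient in a tangent direction
  have hgrd : ∀ ε > 0, ∃ δ > 0, δ ≤ δ1 ∧ ∀ a : E d, ‖a‖ < δ → ∀ w : E d,
      |inner ℝ (F7D.GeomM.gr (PrM M) p (Φ a)) (J w) - Sb A0 s (J a) (J w)| ≤ ε * ‖a‖ * ‖w‖ := by
    intro ε hε
    obtain ⟨δ2, hδ2, h3⟩ := hLip ε hε
    obtain ⟨δ3, hδ3, h4⟩ := hΦcont (ε / (4 * K2)) (by positivity)
    refine ⟨min δ1 (min δ2 δ3), lt_min hδ1 (lt_min hδ2 hδ3), min_le_left _ _, fun a ha w => ?_⟩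
    have ha1 := ha.trans_le (min_le_left _ _)
    have ha2 := ha.trans_le ((min_le_right _ _).trans (min_le_left _ _))
    have ha3 := ha.trans_le ((min_le_right _ _).trans (min_le_right _ _))
    have h5 : (inner ℝ (F7D.GeomM.gr (PrM M) p (Φ a)) (fderiv ℝ Φ a w) : ℝ) = Sb A0 s (J a) (J w) + fderiv ℝ k a w / 2 := by
      have h6 : (inner ℝ (F7D.GeomM.gr (PrM M) p (Φ a)) (fderiv ℝ Φ a w) : ℝ) = inner ℝ (Φ a - p) (fderiv ℝ Φ a w) := by
        show inner ℝ (PrM M (Φ a) (Φ a - p)) (fderiv ℝ Φ a w) = _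
        rw [PrM_symm, LM_tan hΦM ha1 (hΦd a ha1)]
      rw [h6, hderk a ha1]
      ring
    have h6 : inner ℝ (F7D.GeomM.gr (PrM M) p (Φ a)) (J w) - Sb A0 s (J a) (J w) =
        fderiv ℝ k a w / 2 + inner ℝ (F7D.GeomM.gr (PrM M) p (Φ a)) (J w - fderiv ℝ Φ a w) := by
      rw [inner_sub_right, h5]
      ring
    rw [h6]
    have h7 : |fderiv ℝ k a w / 2| ≤ ε * ‖a‖ * ‖w‖ / 2 := by
      rw [abs_div, abs_of_pos (by norm_num : (0 : ℝ) < 2)]
      have h8 := h3 a 0 ha2 (by simpa using hδ2)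
      rw [hk1, sub_zero, sub_zero] at h8
      have h9 : |fderiv ℝ k a w| ≤ ε * ‖a‖ * ‖w‖ :=
        (ContinuousLinearMap.le_opNorm _ _).trans (mul_le_mul_of_nonneg_right h8 (norm_nonneg _))
      linarith
    have h8 : |inner ℝ (F7D.GeomM.gr (PrM M) p (Φ a)) (J w - fderiv ℝ Φ a w)| ≤ ε * ‖a‖ * ‖w‖ / 2 := by
      refine (abs_real_inner_le_norm _ _).trans ?_
      have h9 := hgrb (Φ a) (hΦM a ha1)
      have h10 := hsize a ha1
      have h11 := h4 a ha3 w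
      calc ‖F7D.GeomM.gr (PrM M) p (Φ a)‖ * ‖J w - fderiv ℝ Φ a w‖
          ≤ (K2 * (2 * ‖a‖)) * (ε / (4 * K2) * ‖w‖) := by
            apply mul_le_mul (h9.trans (mul_le_mul_of_nonneg_left h10 hK20.le)) h11 (norm_nonneg _) (by positivity)
        _ = ε * ‖a‖ * ‖w‖ / 2 := by
            field_simp
            ring
    refine (abs_add_le _ _).trans ?_
    linarith
  refine ⟨J, pr, Φ, k, δ1, ⟨hδ1, hJn, hJpr, hPJ, hΦM, hΦd, hΦp, hsize,
    fun y hy hyx => hΦinv y hy (hyx.trans_le hδ10), fun a => ?_, hsmall, hkd, hLip, hgrd⟩, hcrit⟩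
  simp only [hk]
  ring

end MPf7aa
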