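import Mathlib
import Pool.Agent.Lib.MP_f7aa1b_gt.H.LocMor3

/-!
# `LocMorse` at a nondegenerate critical point: final statements
-/

set_option autoImplicit false

open Set Filter Topology Metric
open scoped ContDiff RealInnerProductSpace

namespace MPf7aa

variable {n d : ℕ}

/-- a function with a derivative which grows is below zero between two points where it is at most zero -/
theorem LM_convex {h h' : ℝ → ℝ} (hd : ∀ τ ∈ Icc (0 : ℝ) 1, HasDerivAt h (h' τ) τ)
    (hm : ∀ τ₁ ∈ Icc (0 : ℝ) 1, ∀ τ₂ ∈ Icc (0 : ℝ) 1, τ₁ ≤ τ₂ → h' τ₁ ≤ h' τ₂) (h0 : h 0 ≤ 0) (h1 : h 1 ≤ 0) :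
    ∀ τ ∈ Icc (0 : ℝ) 1, h τ ≤ 0 := by
  have hsub : interior (Icc (0 : ℝ) 1) ⊆ Icc 0 1 := interior_subset
  have hc : ConvexOn ℝ (Icc (0 : ℝ) 1) h := by
    refine MonotoneOn.convexOn_of_deriv (convex_Icc 0 1) (fun τ hτ => (hd τ hτ).continuousAt.continuousWithinAt)
      (fun τ hτ => (hd τ (hsub hτ)).differentiableAt.differentiableWithinAt) ?_
    intro τ₁ hτ₁ τ₂ hτ₂ hle
    rw [(hd τ₁ (hsub hτ₁)).deriv, (hd τ₂ (hsub hτ₂)).deriv]
    exact hm τ₁ (hsub hτ₁) τ₂ (hsub hτ₂) hle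
  intro τ hτ
  have h2 := hc.2 (left_mem_Icc.2 zero_le_one) (right_mem_Icc.2 zero_le_one) (by linarith [hτ.2] : 0 ≤ 1 - τ) hτ.1
    (by ring)
  simp only [smul_eq_mul, mul_zero, mul_one, zero_add] at h2
  have h3 : (1 - τ) * h 0 ≤ 0 := mul_nonpos_of_nonneg_of_nonpos (by linarith [hτ.2]) h0
  have h4 : τ * h 1 ≤ 0 := mul_nonpos_of_nonneg_of_nonpos hτ.1 h1
  linarith

/-- the splitting in the parameter space -/
structure LMSplit (A0 : E n →L[ℝ] E n) (s : ℝ) (J : E d →L[ℝ] E n) {i : ℕ}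
    (α : E n →L[ℝ] EuclideanSpace ℝ (Fin i)) (bt : EuclideanSpace ℝ (Fin i) →L[ℝ] E d) (lm Lm : ℝ) : Prop where
  lm_pos : 0 < lm
  Lm_pos : 0 < Lm
  ab : ∀ w, α (J (bt w)) = w
  adj : ∀ u w, (inner ℝ (α u) w : ℝ) = inner ℝ u (J (bt w))
  bn : ∀ w, ‖bt w‖ = ‖w‖
  neg : ∀ w, Sb A0 s (J (bt w)) (J (bt w)) ≤ -(lm * ‖w‖ ^ 2) ∧ -(Lm * ‖w‖ ^ 2) ≤ Sb A0 s (J (bt w)) (J (bt w))
  pos : ∀ v, α v = 0 → lm * ‖v‖ ^ 2 ≤ Sb A0 s v v
  orth : ∀ v w, α v = 0 → Sb A0 s v (J (bt w)) = 0 ∧ (inner ℝ v (J (bt w)) : ℝ) = 0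

namespace LMSplit

variable {A0 : E n →L[ℝ] E n} {s : ℝ} {J : E d →L[ℝ] E n} {i : ℕ}
  {α : E n →L[ℝ] EuclideanSpace ℝ (Fin i)} {bt : EuclideanSpace ℝ (Fin i) →L[ℝ] E d} {lm Lm : ℝ}

theorem plus (h : LMSplit A0 s J α bt lm Lm) (a : E d) : α (J (a - bt (α (J a)))) = 0 := by
  rw [map_sub, map_sub, h.ab, sub_self]

theorem Jb (h : LMSplit A0 s J α bt lm Lm) (hJ : ∀ a, ‖J a‖ = ‖a‖) (a : E d) (c : ℝ) :
    ‖bt (α (J a)) + c • (a - bt (α (J a)))‖ ^ 2 = ‖α (J a)‖ ^ 2 + c ^ 2 * ‖a - bt (α (J a))‖ ^ 2 := by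
  rw [← hJ (bt (α (J a)) + c • (a - bt (α (J a)))), map_add, map_smul, norm_add_sq_real, real_inner_smul_right,
    real_inner_comm (J (a - bt (α (J a)))) (J (bt (α (J a)))), (h.orth _ _ (h.plus a)).2, hJ, h.bn, norm_smul, hJ,
    mul_pow, Real.norm_eq_abs, sq_abs]
  ring

theorem pyth (h : LMSplit A0 s J α bt lm Lm) (hJ : ∀ a, ‖J a‖ = ‖a‖) (a : E d) :
    ‖a‖ ^ 2 = ‖α (J a)‖ ^ 2 + ‖a - bt (α (J a))‖ ^ 2 := by
  have h1 := h.Jb hJ a 1
  rw [one_smul, add_sub_cancel, one_pow, one_mul] at h1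
  exact h1

theorem le_mid (h : LMSplit A0 s J α bt lm Lm) (hJ : ∀ a, ‖J a‖ = ‖a‖) (a : E d) {c : ℝ} (hc : 0 ≤ c) (hc1 : c ≤ 1) :
    ‖bt (α (J a)) + c • (a - bt (α (J a)))‖ ≤ ‖a‖ := by
  have h1 := h.Jb hJ a c
  have h2 := h.pyth hJ a
  have h3 : c ^ 2 * ‖a - bt (α (J a))‖ ^ 2 ≤ ‖a - bt (α (J a))‖ ^ 2 :=
    mul_le_of_le_one_left (sq_nonneg _) (pow_le_one₀ hc hc1)
  exact (sq_le_sq₀ (norm_nonneg _) (norm_nonneg _)).1 (by linarith)

theorem Sb_mid (h : LMSplit A0 s J α bt lm Lm) (hs : ∀ v w, inner ℝ (A0 v) w = inner ℝ v (A0 w)) (a : E d) (c : ℝ) :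
    Sb A0 s (J (bt (α (J a)) + c • (a - bt (α (J a))))) (J (bt (α (J a)) + c • (a - bt (α (J a))))) =
      Sb A0 s (J (bt (α (J a)))) (J (bt (α (J a)))) + c ^ 2 * Sb A0 s (J (a - bt (α (J a)))) (J (a - bt (α (J a)))) := by
  rw [map_add, map_smul, Sb_add_left, Sb_add_right, Sb_add_right, Sb_smul_left, Sb_smul_left, Sb_smul_right,
    Sb_smul_right, Sb_symm hs s (J (bt (α (J a)))) (J (a - bt (α (J a)))), (h.orth _ _ (h.plus a)).1]
  ring

theorem Sb_self (h : LMSplit A0 s J α bt lm Lm) (hs : ∀ v w, inner ℝ (A0 v) w = inner ℝ v (A0 w)) (a : E d) :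
    Sb A0 s (J a) (J a) =
      Sb A0 s (J (bt (α (J a)))) (J (bt (α (J a)))) + Sb A0 s (J (a - bt (α (J a)))) (J (a - bt (α (J a)))) := by
  have h1 := h.Sb_mid hs a 1
  rw [one_smul, add_sub_cancel, one_pow, one_mul] at h1
  exact h1

theorem Sb_minus (h : LMSplit A0 s J α bt lm Lm) (a : E d) :
    Sb A0 s (J a) (J (bt (α (J a)))) = Sb A0 s (J (bt (α (J a)))) (J (bt (α (J a)))) := by
  have e : J a = J (bt (α (J a))) + J (a - bt (α (J a))) := by
    rw [← map_add, add_sub_cancel]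
  have h1 := (h.orth (J (a - bt (α (J a)))) (α (J a)) (h.plus a)).1
  calc Sb A0 s (J a) (J (bt (α (J a)))) =
      Sb A0 s (J (bt (α (J a))) + J (a - bt (α (J a)))) (J (bt (α (J a)))) := by rw [← e]
    _ = _ := by rw [Sb_add_left, h1, add_zero]

end LMSplit

theorem split_of {M : Set (E n)} {x : E n} (A0 : E n →L[ℝ] E n) (hs : ∀ v w, inner ℝ (A0 v) w = inner ℝ v (A0 w))
    (h2 : ∀ w, PrM M x (A0 w) = A0 w) (s : ℝ)
    (hnd : ∀ w, PrM M x w = w → s • A0 w = w → w = 0) (l : ℕ → ℝ) (b : OrthonormalBasis (Fin n) ℝ (E n))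
    (hb : ∀ j : Fin n, A0 (b j) = l j • b j) (i : ℕ)
    (hi : i = ((Finset.range n).filter (fun j => 1 < s * l j)).card) (J : E d →L[ℝ] E n) (pr : E n →L[ℝ] E d)
    (hJn : ∀ a, ‖J a‖ = ‖a‖) (hJpr : ∀ v, J (pr v) = PrM M x v) :
    ∃ (α : E n →L[ℝ] EuclideanSpace ℝ (Fin i)) (bt : EuclideanSpace ℝ (Fin i) →L[ℝ] E d) (lm Lm : ℝ),
      LMSplit A0 s J α bt lm Lm := by
  have hPT : ∀ w, PrM M x w = w ↔ w ∈ Tsp M x := fun w => Submodule.starProjection_eq_self_iff
  obtain ⟨α, β, lm, Lm, hlm, hLm, hαβ, hadj, hβn, hneg, hpos, horth⟩ :=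
    eig_split (Tsp M x) A0 hs (fun w => (hPT _).1 (h2 w)) s (fun w hw hw' => hnd w ((hPT w).2 hw) hw') l b hb i hi
  have hJb : ∀ w, J ((pr ∘L (Tsp M x).subtypeL ∘L β) w) = (β w : E n) := by
    intro w
    show J (pr (β w : E n)) = (β w : E n)
    rw [hJpr]
    exact (hPT _).2 (β w).2
  refine ⟨α, pr ∘L (Tsp M x).subtypeL ∘L β, lm, Lm, hlm, hLm, ?_, ?_, ?_, ?_, hpos, ?_⟩
  · intro w
    rw [hJb, hαβ]
  · intro u w
    rw [hJb, hadj]
  · intro w
    rw [← hJn, hJb]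
    exact hβn w
  · intro w
    rw [hJb]
    exact hneg w
  · intro v w hv
    rw [hJb]
    exact horth v w hv

/-- **A nondegenerate critical point satisfies `LocMorse`.** -/
theorem locMorse_of {M : Set (E n)} (hc : IsCompact M) (hM : IsSubmfd d M) {p x : E n} (hx : x ∈ CritSet M p)
    (A0 : E n →L[ℝ] E n) (hs : ∀ v w, inner ℝ (A0 v) w = inner ℝ v (A0 w))
    (h1 : ∀ w, A0 (PrM M x w) = A0 w) (h2 : ∀ w, PrM M x (A0 w) = A0 w) (s : ℝ) (hsp : s = ‖p - x‖)
    (htay : ∀ ε > 0, ∃ δ > 0, ∀ y ∈ M, ‖y - x‖ ≤ δ →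
      |‖y - p‖ ^ 2 - s ^ 2 - (‖PrM M x (y - x)‖ ^ 2 - s * inner ℝ (A0 (y - x)) (y - x))| ≤ ε * ‖y - x‖ ^ 2)
    (hnd : ∀ w, PrM M x w = w → s • A0 w = w → w = 0) (l : ℕ → ℝ) (b : OrthonormalBasis (Fin n) ℝ (E n))
    (hb : ∀ j : Fin n, A0 (b j) = l j • b j) (i : ℕ)
    (hi : i = ((Finset.range n).filter (fun j => 1 < s * l j)).card) :
    ∃ α : E n →L[ℝ] EuclideanSpace ℝ (Fin i), F7D.LocMorse M (PrM M) p x i α ∧
      (∀ w, PrM M x w = w → α w = 0 → w ≠ 0 → 0 < ‖w‖ ^ 2 - s * inner ℝ (A0 w) w) ∧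
      ∃ R > 0, ∀ y ∈ M, ‖y - x‖ ≤ R → F7D.GeomM.gr (PrM M) p y = 0 → y = x := by
  have hG := geomM_of_submfd hc hM
  obtain ⟨J, pr, Φ, k, δ, D, hcrit⟩ := LMData_of hc hM hx A0 hs h1 h2 s htay
  obtain ⟨α, bt, lm, Lm, S⟩ := split_of (M := M) (x := x) A0 hs h2 s hnd l b hb i hi J pr D.Jn D.Jpr
  have hlm := S.lm_pos
  have hLm := S.Lm_pos
  have hffx : F7D.GeomM.ff p x = s ^ 2 := by
    unfold F7D.GeomM.ff
    rw [hsp, norm_sub_rev]
  have hffΦ : ∀ a, F7D.GeomM.ff p (Φ a) = s ^ 2 + Sb A0 s (J a) (J a) + k a := D.ff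
  have hαP : ∀ v, α (PrM M x v) = α v := by
    intro v
    have h3 : ∀ w, (inner ℝ (α (PrM M x v)) w : ℝ) = inner ℝ (α v) w := by
      intro w
      rw [S.adj, S.adj, PrM_symm, D.PJ]
    exact ext_inner_right ℝ h3
  have hαy : ∀ y, α (y - x) = α (J (pr (y - x))) := fun y => by rw [D.Jpr, hαP]
  have hprle : ∀ v, ‖pr v‖ ≤ ‖v‖ := by
    intro v
    rw [← D.Jn, D.Jpr]
    exact hG.norm_P_le hx.1 v
  have hΦ0 : Φ 0 = x := by
    have h3 := D.inv x hx.1 (by rw [sub_self, norm_zero]; exact D.pos)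
    rw [sub_self, map_zero] at h3
    exact h3
  refine ⟨α, ⟨hx.1, ?_, ?_, ?_⟩, ?_, ?_⟩
  · -- critical point
    show PrM M x (x - p) = 0
    have e : x - p = -(p - x) := by abel
    rw [e, map_neg, hcrit, neg_zero]
  · -- the estimates
    set C1 : ℝ := 2 * Lm / lm + 2 with hC1
    have hC1pos : 1 ≤ C1 := by
      have : 0 ≤ 2 * Lm / lm := by positivity
      linarith
    obtain ⟨δk, hδk, hk⟩ := D.ksmall (lm / 2) (by positivity)
    obtain ⟨δg, hδg, hδg', hg⟩ := D.grad (lm / (2 * C1)) (by positivity)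
    have hmin : 0 < min δk δg := lt_min hδk hδg
    refine ⟨min δk δg / 2, 2 * C1, lm / 2, by positivity, by positivity, by positivity, fun y hy hyR hle => ?_⟩
    set a := pr (y - x) with ha
    have haR : ‖a‖ ≤ min δk δg / 2 := (hprle _).trans hyR
    have hak : ‖a‖ < δk := by
      have := min_le_left δk δg
      linarith
    have hag : ‖a‖ < δg := by
      have := min_le_right δk δg
      linarith
    have hyΦ : Φ a = y := D.inv y hy (by
      have := min_le_right δk δg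
      linarith)
    have h3 : Sb A0 s (J a) (J a) + k a ≤ 0 := by
      have h4 := hffΦ a
      rw [hyΦ] at h4
      rw [hffx] at hle
      linarith
    have h4 := (abs_le.1 (hk a hak)).1
    have h5 := S.pyth D.Jn a
    have h6 := S.Sb_self hs a
    have h7 := (S.neg (α (J a))).2
    have h8 := S.pos _ (S.plus a)
    rw [D.Jn] at h8
    set AA := ‖α (J a)‖ with hAA
    set BB := ‖a - bt (α (J a))‖ with hBB
    have h9 : BB ^ 2 ≤ (2 * Lm / lm + 1) * AA ^ 2 := by
      have h10 : lm / 2 * BB ^ 2 ≤ (Lm + lm / 2) * AA ^ 2 := by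
        rw [h5] at h4
        linarith
      have h11 : lm / 2 * ((2 * Lm / lm + 1) * AA ^ 2) = (Lm + lm / 2) * AA ^ 2 := by
        field_simp
      rw [← h11] at h10
      exact le_of_mul_le_mul_left h10 (by positivity)
    have h10 : ‖a‖ ^ 2 ≤ (C1 * AA) ^ 2 := by
      rw [h5, mul_pow]
      have h11 : C1 * AA ^ 2 ≤ C1 ^ 2 * AA ^ 2 := by
        apply mul_le_mul_of_nonneg_right _ (sq_nonneg _)
        rw [sq]
        exact le_mul_of_one_le_left (by linarith) hC1pos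
      have h12 : C1 * AA ^ 2 = AA ^ 2 + (2 * Lm / lm + 1) * AA ^ 2 := by
        rw [hC1]
        ring
      linarith
    have hAA0 : 0 ≤ AA := norm_nonneg _
    have h11 : ‖a‖ ≤ C1 * AA := (sq_le_sq₀ (norm_nonneg _) (by positivity)).1 h10
    have h12 : ‖α (y - x)‖ = AA := by rw [hαy]
    constructor
    · rw [h12]
      have h13 := D.size a (hag.trans_le hδg')
      rw [hyΦ] at h13
      linarith
    · rw [h12, hαy y, S.adj]
      have h13 := (abs_le.1 (hg a hag (bt (α (J a))))).2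
      rw [hyΦ, S.Sb_minus, S.bn] at h13
      have h14 := (S.neg (α (J a))).1
      have h15 : lm / (2 * C1) * ‖a‖ * ‖α (J a)‖ ≤ lm / 2 * AA ^ 2 := by
        calc lm / (2 * C1) * ‖a‖ * ‖α (J a)‖ ≤ lm / (2 * C1) * (C1 * AA) * AA := by
              gcongr
          _ = lm / 2 * AA ^ 2 := by
              field_simp
      have h16 : (inner ℝ (F7D.GeomM.gr (PrM M) p y) (J (bt (α (J a)))) : ℝ) ≤
          Sb A0 s (J (bt (α (J a)))) (J (bt (α (J a)))) + lm / (2 * C1) * ‖a‖ * ‖α (J a)‖ := by linarith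
      refine h16.trans ?_
      linarith
  · -- the homotopy
    obtain ⟨δk, hδk, hk⟩ := D.ksmall lm hlm
    obtain ⟨δl, hδl, hl⟩ := D.klip lm hlm
    have hδ := D.pos
    have hmin : 0 < min δ (min δk δl) := lt_min hδ (lt_min hδk hδl)
    set R := min δ (min δk δl) / 2 with hR
    have hRδ : R < δ := by
      have := min_le_left δ (min δk δl)
      linarith
    have hRk : R < δk := by
      have := (min_le_right δ (min δk δl)).trans (min_le_left _ _)
      linarith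
    have hRl : R < δl := by
      have := (min_le_right δ (min δk δl)).trans (min_le_right _ _)
      linarith
    have hRpos : 0 < R := by positivity
    set Ψ : ℝ × E n → E n := fun q =>
      Φ (bt (α (J (pr (q.2 - x)))) + (1 - q.1) • (pr (q.2 - x) - bt (α (J (pr (q.2 - x)))))) with hΨ
    -- points of the form `a₋`
    have hσ : ∀ w : EuclideanSpace ℝ (Fin i), ‖w‖ ≤ R → F7D.GeomM.ff p (Φ (bt w)) ≤ s ^ 2 := by
      intro w hw
      rw [hffΦ]
      have h3 := (abs_le.1 (hk (bt w) (by rw [S.bn]; linarith))).2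
      rw [S.bn] at h3
      have h4 := (S.neg w).1
      linarith
    have hΦc : ∀ a : E d, ‖a‖ < δ → ContinuousAt Φ a := fun a ha => (D.diff a ha).continuousAt
    refine ⟨R, 2, Ψ, fun w => Φ (bt w), hRpos, by norm_num, ?_, ?_, ?_, ?_, ?_⟩
    · rintro ⟨t, y⟩ ⟨ht, hy⟩
      have h3 : ‖bt (α (J (pr (y - x)))) + (1 - t) • (pr (y - x) - bt (α (J (pr (y - x)))))‖ < δ := by
        refine (S.le_mid D.Jn _ (by linarith [ht.2]) (by linarith [ht.1])).trans_lt ?_
        have h4 : ‖y - x‖ ≤ R := by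
          have := hy.2
          rwa [mem_closedBall, dist_eq_norm] at this
        exact ((hprle _).trans h4).trans_lt hRδ
      have h4 : Continuous (fun q : ℝ × E n =>
          bt (α (J (pr (q.2 - x)))) + (1 - q.1) • (pr (q.2 - x) - bt (α (J (pr (q.2 - x)))))) := by fun_prop
      exact (ContinuousAt.comp (f := fun q : ℝ × E n =>
          bt (α (J (pr (q.2 - x)))) + (1 - q.1) • (pr (q.2 - x) - bt (α (J (pr (q.2 - x)))))) (g := Φ) (x := (t, y))
        (hΦc _ h3) h4.continuousAt).continuousWithinAt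
    · intro w hw
      have h3 : ‖bt w‖ < δ := by
        rw [S.bn]
        rw [mem_closedBall, dist_zero_right] at hw
        linarith
      exact (ContinuousAt.comp (f := fun w => bt w) (g := Φ) (x := w) (hΦc _ h3)
        bt.continuous.continuousAt).continuousWithinAt
    · intro t ht y hy
      have hyM : y ∈ M := hy.1.1
      have hyx : ‖y - x‖ ≤ R := by
        have := hy.2
        rwa [mem_closedBall, dist_eq_norm] at this
      set a := pr (y - x) with ha
      have haR : ‖a‖ ≤ R := (hprle _).trans hyx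
      have hyΦ : Φ a = y := D.inv y hyM (by linarith)
      have hmid : ∀ c ∈ Icc (0 : ℝ) 1, ‖bt (α (J a)) + c • (a - bt (α (J a)))‖ ≤ R := fun c hc =>
        (S.le_mid D.Jn a hc.1 hc.2).trans haR
      have hc1 : (1 - t) ∈ Icc (0 : ℝ) 1 := ⟨by linarith [ht.2], by linarith [ht.1]⟩
      have hm := hmid (1 - t) hc1
      refine ⟨⟨D.mem _ (hm.trans_lt hRδ), ?_⟩, ?_, ?_⟩
      · show F7D.GeomM.ff p (Φ (bt (α (J a)) + (1 - t) • (a - bt (α (J a))))) ≤ F7D.GeomM.ff p x
        have key := LM_convex (h := fun c : ℝ => Sb A0 s (J (bt (α (J a)))) (J (bt (α (J a)))) +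
            c ^ 2 * Sb A0 s (J (a - bt (α (J a)))) (J (a - bt (α (J a)))) + k (bt (α (J a)) + c • (a - bt (α (J a)))))
          (h' := fun c : ℝ => 2 * c * Sb A0 s (J (a - bt (α (J a)))) (J (a - bt (α (J a)))) +
            fderiv ℝ k (bt (α (J a)) + c • (a - bt (α (J a)))) (a - bt (α (J a)))) ?_ ?_ ?_ ?_ (1 - t) hc1
        · rw [hffΦ, hffx, S.Sb_mid hs a (1 - t)]
          linarith
        · intro c hc
          have h3 : HasDerivAt (fun c : ℝ => bt (α (J a)) + c • (a - bt (α (J a)))) (a - bt (α (J a))) c := by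
            simpa using ((hasDerivAt_id c).smul_const (a - bt (α (J a)))).const_add (bt (α (J a)))
          have h4 : HasDerivAt (fun c : ℝ => k (bt (α (J a)) + c • (a - bt (α (J a)))))
              (fderiv ℝ k (bt (α (J a)) + c • (a - bt (α (J a)))) (a - bt (α (J a)))) c :=
            (D.kdiff _ ((hmid c hc).trans_lt hRδ)).hasFDerivAt.comp_hasDerivAt c h3
          have h5 : HasDerivAt (fun c : ℝ => Sb A0 s (J (bt (α (J a)))) (J (bt (α (J a)))) +
            c ^ 2 * Sb A0 s (J (a - bt (α (J a)))) (J (a - bt (α (J a)))))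
              (0 + 2 * c ^ 1 * 1 * Sb A0 s (J (a - bt (α (J a)))) (J (a - bt (α (J a))))) c := by
            have := (hasDerivAt_const c (Sb A0 s (J (bt (α (J a)))) (J (bt (α (J a)))))).add
              (((hasDerivAt_id c).pow 2).mul_const (Sb A0 s (J (a - bt (α (J a)))) (J (a - bt (α (J a))))))
            exact this
          refine (h5.add h4).congr_deriv ?_
          ring
        · intro c₁ hc₁ c₂ hc₂ hle
          have h3 := hl (bt (α (J a)) + c₂ • (a - bt (α (J a)))) (bt (α (J a)) + c₁ • (a - bt (α (J a))))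
            ((hmid c₂ hc₂).trans_lt hRl) ((hmid c₁ hc₁).trans_lt hRl)
          have h4 : (bt (α (J a)) + c₂ • (a - bt (α (J a)))) - (bt (α (J a)) + c₁ • (a - bt (α (J a)))) =
              (c₂ - c₁) • (a - bt (α (J a))) := by
            rw [sub_smul]
            abel
          rw [h4, norm_smul, Real.norm_of_nonneg (by linarith : 0 ≤ c₂ - c₁)] at h3
          have h5 : |(fderiv ℝ k (bt (α (J a)) + c₂ • (a - bt (α (J a)))) -
              fderiv ℝ k (bt (α (J a)) + c₁ • (a - bt (α (J a))))) (a - bt (α (J a)))| ≤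
              lm * ((c₂ - c₁) * ‖a - bt (α (J a))‖) * ‖a - bt (α (J a))‖ :=
            (ContinuousLinearMap.le_opNorm _ _).trans (mul_le_mul_of_nonneg_right h3 (norm_nonneg _))
          rw [sub_apply] at h5
          have h6 := (abs_le.1 h5).1
          have h7 := S.pos _ (S.plus a)
          rw [D.Jn] at h7
          have h8 : (c₂ - c₁) * (lm * ‖a - bt (α (J a))‖ ^ 2) ≤
              (c₂ - c₁) * Sb A0 s (J (a - bt (α (J a)))) (J (a - bt (α (J a)))) :=
            mul_le_mul_of_nonneg_left h7 (by linarith)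
          have h9 : 0 ≤ (c₂ - c₁) * (lm * ‖a - bt (α (J a))‖ ^ 2) := by
            have : 0 ≤ c₂ - c₁ := by linarith
            positivity
          have h10 : lm * ((c₂ - c₁) * ‖a - bt (α (J a))‖) * ‖a - bt (α (J a))‖ =
              (c₂ - c₁) * (lm * ‖a - bt (α (J a))‖ ^ 2) := by ring
          rw [h10] at h6
          linarith
        · have h3 := hσ (α (J a)) (by
            have h4 := S.pyth D.Jn a
            have h5 := sq_nonneg ‖a - bt (α (J a))‖
            have h6 : ‖α (J a)‖ ≤ ‖a‖ := (sq_le_sq₀ (norm_nonneg _) (norm_nonneg _)).1 (by linarith)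
            linarith)
          rw [hffΦ] at h3
          simp only [zero_smul, add_zero]
          have h4 : (0 : ℝ) ^ 2 * Sb A0 s (J (a - bt (α (J a)))) (J (a - bt (α (J a)))) = 0 := by ring
          rw [h4, add_zero]
          linarith
        · simp only [one_smul, add_sub_cancel]
          have h3 : F7D.GeomM.ff p y ≤ F7D.GeomM.ff p x := hy.1.2
          rw [← hyΦ, hffΦ, hffx, S.Sb_self hs a] at h3
          have h4 : (1 : ℝ) ^ 2 * Sb A0 s (J (a - bt (α (J a)))) (J (a - bt (α (J a)))) =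
            Sb A0 s (J (a - bt (α (J a)))) (J (a - bt (α (J a)))) := by ring
          rw [h4]
          linarith
      · show α (Φ (bt (α (J a)) + (1 - t) • (a - bt (α (J a)))) - x) = α (y - x)
        rw [← hαP, D.proj _ (hm.trans_lt hRδ), map_add, map_smul, map_add, map_smul, S.plus, smul_zero, add_zero,
          S.ab, hαy]
      · show ‖Φ (bt (α (J a)) + (1 - t) • (a - bt (α (J a)))) - x‖ ≤ 2 * ‖y - x‖
        refine (D.size _ (hm.trans_lt hRδ)).trans ?_
        have h3 := S.le_mid D.Jn a hc1.1 hc1.2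
        have h4 : ‖a‖ ≤ ‖y - x‖ := hprle _
        linarith
    · intro y hy
      have hyM : y ∈ M := hy.1.1
      have hyx : ‖y - x‖ ≤ R := by
        have := hy.2
        rwa [mem_closedBall, dist_eq_norm] at this
      have hyΦ : Φ (pr (y - x)) = y := D.inv y hyM (by linarith)
      constructor
      · show Φ (bt (α (J (pr (y - x)))) + (1 - 0) • (pr (y - x) - bt (α (J (pr (y - x)))))) = y
        rw [sub_zero, one_smul, add_sub_cancel, hyΦ]
      · show Φ (bt (α (J (pr (y - x)))) + (1 - 1) • (pr (y - x) - bt (α (J (pr (y - x)))))) = Φ (bt (α (y - x)))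
        rw [sub_self, zero_smul, add_zero, hαy y]
    · intro w hw
      rw [mem_closedBall, dist_zero_right] at hw
      have h3 : ‖bt w‖ < δ := by rw [S.bn]; linarith
      refine ⟨⟨D.mem _ h3, ?_⟩, ?_, ?_⟩
      · show F7D.GeomM.ff p (Φ (bt w)) ≤ F7D.GeomM.ff p x
        rw [hffx]
        exact hσ w hw
      · rw [← hαP, D.proj _ h3, S.ab]
      · refine (D.size _ h3).trans ?_
        rw [S.bn]
  · intro w hw hαw hw0
    have h3 := S.pos w hαw
    have h4 : 0 < lm * ‖w‖ ^ 2 := by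
      have := norm_pos_iff.2 hw0
      positivity
    have h5 : Sb A0 s w w = ‖w‖ ^ 2 - s * inner ℝ (A0 w) w := by
      unfold Sb
      rw [real_inner_self_eq_norm_sq]
    linarith
  · -- isolated
    obtain ⟨δg, hδg, hδg', hg⟩ := D.grad (lm / 2) (by positivity)
    refine ⟨δg / 2, by positivity, fun y hy hyR h0 => ?_⟩
    set a := pr (y - x) with ha
    have haR : ‖a‖ ≤ δg / 2 := (hprle _).trans hyR
    have hyΦ : Φ a = y := D.inv y hy (by linarith)
    have h3 := hg a (by linarith) (a - bt (α (J a)) - bt (α (J a)))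
    rw [hyΦ, h0, inner_zero_left, zero_sub, abs_neg] at h3
    have h4 : Sb A0 s (J a) (J (a - bt (α (J a)) - bt (α (J a)))) =
        Sb A0 s (J (a - bt (α (J a)))) (J (a - bt (α (J a)))) - Sb A0 s (J (bt (α (J a)))) (J (bt (α (J a)))) := by
      have h5 := S.Sb_self hs a
      have h6 := S.Sb_minus a
      have e : J (a - bt (α (J a)) - bt (α (J a))) = J a + (-2 : ℝ) • J (bt (α (J a))) := by
        rw [map_sub, map_sub, neg_smul, two_smul]
        abel
      rw [e, Sb_add_right, Sb_smul_right, h6, h5]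
      ring
    have h5 := S.pos _ (S.plus a)
    rw [D.Jn] at h5
    have h6 := (S.neg (α (J a))).1
    have h7 := S.pyth D.Jn a
    have h8 : ‖a - bt (α (J a)) - bt (α (J a))‖ = ‖a‖ := by
      have h9 := S.Jb D.Jn a (-1)
      have e : bt (α (J a)) + (-1 : ℝ) • (a - bt (α (J a))) = -(a - bt (α (J a)) - bt (α (J a))) := by
        rw [neg_smul, one_smul]
        abel
      rw [e, norm_neg] at h9
      have h10 : ‖a - bt (α (J a)) - bt (α (J a))‖ ^ 2 = ‖a‖ ^ 2 := by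
        rw [h9, h7]
        ring
      exact (sq_eq_sq₀ (norm_nonneg _) (norm_nonneg _)).1 h10
    rw [h4, h8] at h3
    have h9 := (abs_le.1 h3).2
    have h10 : lm * ‖a‖ ^ 2 ≤ lm / 2 * ‖a‖ * ‖a‖ := by
      rw [h7] at *
      linarith
    have h11 : ‖a‖ ^ 2 ≤ 0 := by
      have h12 : lm / 2 * ‖a‖ * ‖a‖ = lm / 2 * ‖a‖ ^ 2 := by ring
      rw [h12] at h10
      have h13 : lm / 2 * ‖a‖ ^ 2 ≤ 0 := by linarith
      by_contra hcon
      rw [not_le] at hcon
      have : 0 < lm / 2 * ‖a‖ ^ 2 := by positivity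
      linarith
    have h12 : a = 0 := by
      have : ‖a‖ = 0 := by
        have h13 := sq_nonneg ‖a‖
        exact pow_eq_zero_iff (two_ne_zero) |>.1 (le_antisymm h11 h13)
      exact norm_eq_zero.1 this
    rw [← hyΦ, h12, hΦ0]

end MPf7aa
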