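import Pool.Agent.Lib.MP_f7aa1b_gt.H.Counting
import Pool.Agent.Lib.MP_f7aa1b_gt.H.FocOf
import Pool.Agent.Lib.MP_f7aa1b_gt.H.GeomOf
import Pool.Agent.Lib.MP_f7aa1b_gt.H.G7
import Pool.Agent.Lib.MP_f7aa1b_gt.H.C16
import Pool.Agent.Lib.MP_f7aa1b_gt.H.LemL
import Pool.Agent.Lib.MP_f7aa1b_gt.H.LocMor
import Pool.Agent.Lib.MP_f7aa1b_gt.H.Isol
import Pool.Agent.Lib.MP_f7aa1b_gt.TautDefs
import Pool.Agent.Lib.SingHom.Final

/-!
# MP_f7aa1b_gt: the final assembly

Critical points of a distance function are detected by the path spaces of part C, and the counting of part D gives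
tautness.
-/

set_option autoImplicit false

open Set Filter Topology Metric
open scoped RealInnerProductSpace

namespace MPf7aa

open F7D GeomM

/-- the local class at a critical point different from the centre -/
theorem critPack_ne {n d : ℕ} (F : F7H.Foc n) (hM : IsSubmfd d F.M) (hFB : F.B = UNB F.M)
    (hFP : F.Pr = PrM F.M) {p x : E n} (hx : x ∈ CritSet F.M p) (hne : x ≠ p)
    (hmul : F.mul (x, ‖p - x‖⁻¹ • (p - x)) ‖p - x‖ = 0) :
    CritPack F.M (PrM F.M) p x (F.idx (x, ‖p - x‖⁻¹ • (p - x)) ‖p - x‖) := by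
  have hT : 0 < ‖p - x‖ := norm_pos_iff.2 (sub_ne_zero.2 hne.symm)
  generalize hT' : ‖p - x‖ = T at *
  have hz : (x, T⁻¹ • (p - x)) ∈ F.B := by
    have := crit_unb hx hne
    rw [hT'] at this
    rw [hFB]
    exact this
  generalize hz' : (x, T⁻¹ • (p - x)) = z at *
  have hz1 : z.1 = x := by rw [← hz']
  have hz2 : z.2 = T⁻¹ • (p - x) := by rw [← hz']
  have hp : z.1 + T • z.2 = p := by
    rw [hz1, hz2, smul_smul, mul_inv_cancel₀ hT.ne', one_smul]
    abel
  obtain ⟨b, hb⟩ := F.lam_eig z hz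
  have hPrx : PrM F.M x = F.Pr z.1 := by rw [hFP, hz1]
  -- no kernel
  have hnd : ∀ w, PrM F.M x w = w → T • F.A z w = w → w = 0 := by
    intro w _ hw
    have h1 : ∀ j, inner ℝ (b j) w = 0 := by
      intro j
      by_contra hj
      have h2 : inner ℝ (b j) (T • F.A z w) = T * F.lam j z * inner ℝ (b j) w := by
        rw [inner_smul_right, ← F.A_symm z hz, hb j, inner_smul_left]
        simp only [conj_trivial]
        ring
      rw [hw] at h2
      have h3 : T * F.lam j z = 1 := by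
        have : (T * F.lam j z - 1) * inner ℝ (b j) w = 0 := by linear_combination -h2
        rcases mul_eq_zero.1 this with h | h
        · linarith
        · exact absurd h hj
      have h4 : (j : ℕ) ∈ (Finset.range n).filter (fun j => T * F.lam j z = 1) := by
        rw [Finset.mem_filter, Finset.mem_range]
        exact ⟨j.2, h3⟩
      have h5 : ((Finset.range n).filter (fun j => T * F.lam j z = 1)).card = 0 := hmul
      rw [Finset.card_eq_zero] at h5
      rw [h5] at h4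
      simp at h4
    exact b.toBasis.ext_elem_iff.2 (fun j => by
      rw [OrthonormalBasis.coe_toBasis_repr_apply, OrthonormalBasis.coe_toBasis_repr_apply, b.repr_apply_apply, b.repr_apply_apply, h1 j, inner_zero_right])
  have htay : ∀ ε > 0, ∃ δ > 0, ∀ y ∈ F.M, ‖y - x‖ ≤ δ →
      |‖y - p‖ ^ 2 - T ^ 2 - (‖PrM F.M x (y - x)‖ ^ 2 - T * inner ℝ (F.A z (y - x)) (y - x))| ≤ ε * ‖y - x‖ ^ 2 := by
    intro ε hε
    obtain ⟨δ, hδ, h1⟩ := F.tay T ε hε
    refine ⟨δ, hδ, fun y hy hyx => ?_⟩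
    have h2 := h1 z hz T hT.le le_rfl y hy (by rw [hz1]; exact hyx)
    rw [hp, hz1] at h2
    rw [hPrx, hz1]
    exact h2
  have hA1 : ∀ w, F.A z (PrM F.M x w) = F.A z w := by rw [hPrx]; exact F.A_Pr z hz
  have hA2 : ∀ w, PrM F.M x (F.A z w) = F.A z w := by rw [hPrx]; exact F.Pr_A z hz
  obtain ⟨α, hα, hpos, -⟩ := locMorse_of F.compM hM hx (F.A z) (F.A_symm z hz) hA1 hA2 T hT'.symm htay hnd
    (fun j => F.lam j z) b hb (F.idx z T) rfl
  refine ⟨α, hα, ?_⟩
  obtain ⟨K, ev, hK, hev, h1, h2⟩ := F7H.Foc.path_class (ASC.lemL _ _) hz hT hmul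
  rw [hp, hz1] at h1
  rw [hz1] at h2
  obtain ⟨ρ0, h3, h4⟩ := h2 _ rfl
    ((EuclideanSpace.equiv (Fin (F.idx z T)) ℝ : EuclideanSpace ℝ (Fin (F.idx z T)) →L[ℝ] (Fin (F.idx z T) → ℝ)).comp α)
    (by
      intro w hw hw0 hwne
      rw [← hPrx] at hw
      refine hpos w hw ?_ hwne
      have : (EuclideanSpace.equiv (Fin (F.idx z T)) ℝ) (α w) = 0 := hw0
      exact (EuclideanSpace.equiv (Fin (F.idx z T)) ℝ).map_eq_zero_iff.1 this)
  have hnorm : ‖x - p‖ = T := by rw [norm_sub_rev, hT']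
  refine ⟨F7H.Pth n, inferInstance, K, ev, hK, hev, fun g hg => ?_, ρ0, h3, fun ρ hρ1 hρ2 => h4 ρ hρ1 hρ2⟩
  rw [hnorm]
  exact h1 g hg

/-- the local class at the centre -/
theorem critPack_eq {n d : ℕ} {M : Set (E n)} (hc : IsCompact M) (hM : IsSubmfd d M) {x : E n} (hx : x ∈ M) :
    CritPack M (PrM M) x x 0 := by
  have h := geomM_of_submfd hc hM
  obtain ⟨C, hC, ht⟩ := h.tan'
  have hcrit : x ∈ CritSet M x := ⟨hx, fun v _ => by rw [sub_self, inner_zero_right]⟩
  have hk : ((Finset.range n).filter (fun _ => (1 : ℝ) < 0 * 0)).card = 0 := by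
    rw [Finset.card_eq_zero, Finset.filter_eq_empty_iff]
    intro j _
    norm_num
  have htay : ∀ ε > 0, ∃ δ > 0, ∀ y ∈ M, ‖y - x‖ ≤ δ →
      |‖y - x‖ ^ 2 - 0 ^ 2 - (‖PrM M x (y - x)‖ ^ 2 - 0 * inner ℝ ((0 : E n →L[ℝ] E n) (y - x)) (y - x))| ≤
        ε * ‖y - x‖ ^ 2 := by
    intro ε hε
    refine ⟨ε / (C ^ 2 + 1) ⊓ 1, by positivity, fun y hy hyx => ?_⟩
    have h1 := ht x hx y hy
    have h2 : ‖y - x‖ ^ 2 = ‖PrM M x (y - x)‖ ^ 2 + ‖y - x - PrM M x (y - x)‖ ^ 2 := by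
      have e := norm_sub_sq_real (y - x) (PrM M x (y - x))
      rw [h.norm_P_sq hx] at e
      linarith
    have h3 : ‖y - x‖ ≤ ε / (C ^ 2 + 1) := hyx.trans inf_le_left
    have h4 : ‖y - x‖ ≤ 1 := hyx.trans inf_le_right
    have h5 : ‖y - x - PrM M x (y - x)‖ ^ 2 ≤ (C * ‖y - x‖ ^ 2) ^ 2 := pow_le_pow_left₀ (norm_nonneg _) h1 2
    have h6 : (C * ‖y - x‖ ^ 2) ^ 2 ≤ ε * ‖y - x‖ ^ 2 := by
      have h7 : C ^ 2 * ‖y - x‖ ≤ ε := by
        have h8 : C ^ 2 * ‖y - x‖ ≤ (C ^ 2 + 1) * (ε / (C ^ 2 + 1)) :=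
          mul_le_mul (by linarith) h3 (norm_nonneg _) (by positivity)
        rwa [mul_div_cancel₀ _ (by positivity : C ^ 2 + 1 ≠ 0)] at h8
      have h9 : C ^ 2 * ‖y - x‖ ^ 2 ≤ ε := by
        refine le_trans ?_ h7
        apply mul_le_mul_of_nonneg_left _ (by positivity)
        rw [sq]
        exact mul_le_of_le_one_left (norm_nonneg _) h4
      calc (C * ‖y - x‖ ^ 2) ^ 2 = C ^ 2 * ‖y - x‖ ^ 2 * ‖y - x‖ ^ 2 := by ring
        _ ≤ ε * ‖y - x‖ ^ 2 := mul_le_mul_of_nonneg_right h9 (by positivity)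
    have h10 : ‖y - x‖ ^ 2 - 0 ^ 2 - (‖PrM M x (y - x)‖ ^ 2 - 0 * inner ℝ ((0 : E n →L[ℝ] E n) (y - x)) (y - x)) =
        ‖y - x - PrM M x (y - x)‖ ^ 2 := by
      linarith
    rw [h10, abs_of_nonneg (by positivity)]
    exact h5.trans h6
  have hnd : ∀ w, PrM M x w = w → (0 : ℝ) • (0 : E n →L[ℝ] E n) w = w → w = 0 := fun w _ hw => by
    simpa using hw.symm
  have key := locMorse_of hc hM hcrit (0 : E n →L[ℝ] E n) (fun v w => by simp) (fun w => rfl) (fun w => by simp)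
    0 (by simp) htay hnd (fun _ => 0) (EuclideanSpace.basisFun (Fin n) ℝ) (fun j => by simp) 0 hk.symm
  obtain ⟨α, hα, -⟩ := key
  refine ⟨α, hα, Unit, inferInstance, univ, fun _ => x, isCompact_univ, continuous_const,
    fun _ _ => ⟨hx, le_rfl, fun _ => rfl⟩, 1, one_pos, fun ρ hρ _ => ?_⟩
  rintro ⟨g, hg, ε, hε, h1⟩
  have hg0 : g = 0 := (ASC.van_zero_iff g).1 hg
  rw [hg0, ASC.dl_zero, add_zero] at h1
  have h2 := h1 (fun _ => ()) ⟨fun _ => mem_univ _, fun _ _ => by rw [dist_self]; exact hε⟩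
  have h3 : ASC.pb (fun _ : Unit => x) (ASC.loc (closedBall x ρ) (ASC.GG 0 (cf α x))) (fun _ => ()) = 1 :=
    if_pos (fun _ => mem_closedBall_self hρ.le)
  rw [h3] at h2
  exact one_ne_zero h2

/-- critical points in terms of the tangent projections -/
theorem critSet_eq {n d : ℕ} {M : Set (E n)} (hc : IsCompact M) (hM : IsSubmfd d M) (p : E n) :
    CritSet M p = {x | x ∈ M ∧ gr (PrM M) p x = 0} := by
  have h := geomM_of_submfd hc hM
  ext x
  constructor
  · rintro ⟨hx, h1⟩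
    refine ⟨hx, ?_⟩
    have h2 : PrM M x (PrM M x (x - p)) = PrM M x (x - p) := h.idem x hx _
    have h3 := h1 _ ((mem_tanSet_iff hM hx _).2 h2)
    have h4 : ‖PrM M x (x - p)‖ ^ 2 = 0 := by
      rw [← h.norm_P_sq hx, real_inner_comm]
      have : inner ℝ (PrM M x (x - p)) (x - p) = -inner ℝ (PrM M x (x - p)) (p - x) := by
        rw [← inner_neg_right, neg_sub]
      rw [this, h3, neg_zero]
    exact norm_eq_zero.1 (pow_eq_zero_iff (two_ne_zero)|>.1 h4)
  · rintro ⟨hx, h1⟩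
    refine ⟨hx, fun v hv => ?_⟩
    have h2 : PrM M x v = v := (mem_tanSet_iff hM hx _).1 hv
    have h3 : PrM M x (x - p) = 0 := h1
    rw [← h2, h.symm x hx, ← neg_sub x p, map_neg, h3, neg_zero, inner_zero_right]

theorem exists_retr {n d : ℕ} {M : Set (E n)} (hc : IsCompact M) (hM : IsSubmfd d M) :
    ∃ (U : Set (E n)) (r : E n → E n), SingHom.Retr M U r := by
  have h := geomM_of_submfd hc hM
  rcases M.eq_empty_or_nonempty with he | hne
  · subst he
    exact ⟨∅, id, isOpen_empty, Subset.rfl, continuousOn_empty _, fun x hx => hx, fun x hx => hx.elim⟩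
  · obtain ⟨r, hr, hcont⟩ := h.continuousOn_rho
    refine ⟨{y | ∃ a ∈ M, ‖y - a‖ < r}, rho M, ?_, ?_, hcont, fun y _ => h.rho_mem hne y, fun x hx => h.rho_self hx⟩
    · have : {y | ∃ a ∈ M, ‖y - a‖ < r} = ⋃ a ∈ M, ball a r := by
        ext y
        simp [dist_eq_norm]
      rw [this]
      exact isOpen_biUnion fun a _ => isOpen_ball
    · intro x hx
      exact ⟨x, hx, by rw [sub_self, norm_zero]; exact hr⟩

/-- every critical point of a Morse distance function is detected -/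
theorem exists_critPack {n d : ℕ} {M : Set (E n)} (hc : IsCompact M) (hM : IsSubmfd d M) (hD : IsDupin M)
    {p : E n} (hp : IsMorse d M p) {x : E n} (hx : x ∈ CritSet M p) :
    ∃ i, CritPack M (PrM M) p x i := by
  by_cases hne : x = p
  · subst hne
    exact ⟨0, critPack_eq hc hM hx.1⟩
  cases n with
  | zero => exact absurd (Subsingleton.elim x p) hne
  | succ m =>
    obtain ⟨F, hFM, hFB, hFP, -, hmul⟩ := foc_of m M hc hM hD
    subst hFM
    have hz := crit_unb hx hne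
    have hT : 0 < ‖p - x‖ := norm_pos_iff.2 (sub_ne_zero.2 (Ne.symm hne))
    refine ⟨_, critPack_ne F hM hFB hFP hx hne ?_⟩
    rw [hmul _ hz _ hT]
    obtain ⟨U, φ, hφ⟩ := hM x hx.1
    have h1 := (hessNull_zero_iff hM hx hne hφ).1 (hp x hx U φ hφ)
    rw [one_div]
    exact h1

/-- **Compact Dupin submanifolds are taut.** -/
theorem isTaut_of_dupin {n d : ℕ} (M : Set (E n)) (hc : IsCompact M) (hM : IsSubmfd d M) (hD : IsDupin M) :
    IsTaut d M := by
  intro p hp
  have h := geomM_of_submfd hc hM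
  have hcs := critSet_eq hc hM p
  have hpack : ∀ x, ∃ i, x ∈ CritSet M p → CritPack M (PrM M) p x i := by
    intro x
    by_cases hx : x ∈ CritSet M p
    · obtain ⟨i, hi⟩ := exists_critPack hc hM hD hp hx
      exact ⟨i, fun _ => hi⟩
    · exact ⟨0, fun hx' => absurd hx' hx⟩
  choose idx hidx using hpack
  have hfin : (CritSet M p).Finite := finite_crit hc hM hp
  have hcount := counting h p idx (by rw [← hcs]; exact hfin)
    (fun x hx h0 => hidx x (by rw [hcs]; exact ⟨hx, h0⟩))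
  refine ⟨hfin, ?_⟩
  obtain ⟨U, r, R⟩ := exists_retr hc hM
  have hrank : ∀ i, Module.rank (ZMod 2) (HomZ2 M i) = Cardinal.mk {x : CritSet M p // idx x = i} := by
    intro i
    obtain ⟨h1, h2⟩ := hcount i
    have h3 := SingHom.rank_singularHomology hc R i h1
    have h4 : Module.rank (ZMod 2) (HomZ2 M i) = (Module.finrank (ZMod 2) (ASC.HM (i + 1) M ∅) : Cardinal) := h3
    rw [h4, h2]
    have h5 : {x | x ∈ M ∧ gr (PrM M) p x = 0 ∧ idx x = i} = {x | x ∈ CritSet M p ∧ idx x = i} := by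
      rw [hcs]
      ext x
      simp only [mem_setOf_eq, and_assoc]
    rw [h5]
    have h6 : ({x | x ∈ CritSet M p ∧ idx x = i}).Finite := hfin.subset fun x hx => hx.1
    have h7 : Cardinal.mk {x : CritSet M p // idx x = i} = Cardinal.mk {x | x ∈ CritSet M p ∧ idx x = i} :=
      Cardinal.mk_congr (Equiv.subtypeSubtypeEquivSubtypeInter (fun x => x ∈ CritSet M p) (fun x => idx x = i))
    rw [h7, Set.cast_ncard h6]
  have h8 : (fun i : ℕ => Module.rank (ZMod 2) (HomZ2 M i)) =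
      fun i : ℕ => Cardinal.mk {x : CritSet M p // idx x = i} := funext hrank
  rw [h8, ← Cardinal.mk_sigma]
  exact Cardinal.mk_congr (Equiv.sigmaFiberEquiv (fun x : CritSet M p => idx x)).symm

end MPf7aa
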